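import Pool.Agent.Lib.MP_afdd4d_co.L9.LChk

/-!
# Blocks of the kernel of a root from lists

For a type, a marked vertex and six low bits there is a list: the part of the block that depends on one
vertex, then the vectors, each as an array of sixteen lanes of 64 bits.
-/

namespace Pool.Agent.Lib.MP_afdd4d_co.K8.L9

open Finset

set_option exponentiation.threshold 100000

/-- The sum of the products of the numbers of two lists. -/
def dotG : List ℕ → List ℕ → ℕ :=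
  @List.rec ℕ (fun _ => List ℕ → ℕ) (fun _ => 0)
    (fun a _ ih m => @List.rec ℕ (fun _ => ℕ) 0
      (fun b m' _ => Nat.add (Nat.mul a (spG b)) (ih m')) m)

/-- The block of two lists. -/
def blL (l m : List ℕ) : ℕ :=
  @List.rec ℕ (fun _ => ℕ) 0 (fun d l' _ => @List.rec ℕ (fun _ => ℕ) 0
    (fun d' m' _ => Nat.add (dotG l' m') (Nat.add (Nat.mul d (csG 1024 1 4))
      (Nat.mul (csG 64 1 4) (spG d')))) m) l

/-- The bounds of a list of vectors. -/
def okL (VB : ℕ) (l : List ℕ) : Prop := ∀ a ∈ l, a < 2 ^ 1024 ∧ ∀ i, Ln 64 a i ≤ VB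

theorem ar16 {a : ℕ} (h : a < 2 ^ 1024) : Ar 64 4 a fun b => Ln 64 a (idx 4 b) :=
  ⟨by
    have e : 64 * 2 ^ 4 = 1024 := by norm_num
    rw [e]
    exact h, fun _ => rfl⟩

theorem dot_le (VB : ℕ) : ∀ (l m : List ℕ), okL VB l → okL VB m → ∀ b b' : ℕ → Bool,
    ∑ k ∈ range l.length, Ln 64 (l.getD k 0) (idx 4 b) * Ln 64 (m.getD k 0) (idx 4 b') ≤
      l.length * (VB * VB) := by
  intro l m hl hm b b'
  have h0 : ∀ (l : List ℕ), okL VB l → ∀ k i, Ln 64 (l.getD k 0) i ≤ VB := by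
    intro l hl k i
    rcases getD_mem_or l k 0 with h | h
    · exact (hl _ h).2 i
    · rw [h, Ln_zero_left]
      exact Nat.zero_le _
  calc _ ≤ ∑ k ∈ range l.length, VB * VB :=
        Finset.sum_le_sum fun k _ => Nat.mul_le_mul (h0 l hl k _) (h0 m hm k _)
    _ = l.length * (VB * VB) := by rw [Finset.sum_const, Finset.card_range, smul_eq_mul]

theorem dotG_ar (VB : ℕ) (hVB : 16 * VB < 2 ^ 64) : ∀ (l m : List ℕ), l.length = m.length →
    okL VB l → okL VB m → l.length * (VB * VB) < 2 ^ 64 →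
    Ar 64 8 (dotG l m) fun b => ∑ k ∈ range l.length,
      Ln 64 (l.getD k 0) (idx 4 b) * Ln 64 (m.getD k 0) (idx 4 fun r => b (4 + r)) := by
  intro l
  induction l with
  | nil =>
    intro m _ _ _ _
    exact (ar_zero 8).congr fun b => by
      rw [List.length_nil, Finset.range_zero, Finset.sum_empty]
  | cons a l ih =>
    intro m hlen hl hm hbd
    cases m with
    | nil => exact absurd hlen (by simp)
    | cons a' m =>
      have hl' : okL VB l := fun u hu => hl u (List.mem_cons_of_mem _ hu)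
      have hm' : okL VB m := fun u hu => hm u (List.mem_cons_of_mem _ hu)
      have hlen' : l.length = m.length := by simpa using hlen
      have ha := hl a List.mem_cons_self
      have ha' := hm a' List.mem_cons_self
      have e1 : (a :: l).length * (VB * VB) = l.length * (VB * VB) + VB * VB := by
        rw [List.length_cons]; ring
      rw [e1] at hbd
      have h1 := ih m hlen' hl' hm' (by omega)
      have h2 := spG_ar (ar16 ha'.1) VB hVB (fun b => ha'.2 _)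
      have hp : ∀ i j, Ln 64 a i * Ln 64 a' j ≤ VB * VB :=
        fun i j => Nat.mul_le_mul (ha.2 i) (ha'.2 j)
      have h3 := ar_mul (W := 64) (m := 4) (by norm_num) (ar16 ha.1) 4 (spG a')
        (fun b => Ln 64 a' (idx 4 b)) h2 (fun b b' => by
          have := hp (idx 4 b) (idx 4 b')
          omega)
      have h3' : Ar 64 8 (a * spG a') fun b =>
          Ln 64 a (idx 4 b) * Ln 64 a' (idx 4 fun r => b (4 + r)) := h3
      have h4 := h3'.add h1 (by norm_num) (fun b => by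
        have h5 := hp (idx 4 b) (idx 4 fun r => b (4 + r))
        have h6 := dot_le VB l m hl' hm' b fun r => b (4 + r)
        omega)
      have e2 : dotG (a :: l) (a' :: m) = a * spG a' + dotG l m := rfl
      rw [e2]
      refine h4.congr fun b => ?_
      rw [List.length_cons, Finset.sum_range_succ']
      simp only [List.getD_cons_zero, List.getD_cons_succ]
      rw [Nat.add_comm]

theorem blL_ar (KO VB : ℕ) (hVB : 16 * VB < 2 ^ 64) (hKO : 16 * KO < 2 ^ 64) (d d' : ℕ)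
    (l m : List ℕ) (hlen : l.length = m.length) (hl : okL VB l) (hm : okL VB m)
    (hd : d < 2 ^ 1024) (hd' : d' < 2 ^ 1024) (hdK : ∀ i, Ln 64 d i ≤ KO)
    (hdK' : ∀ i, Ln 64 d' i ≤ KO) (hbd : l.length * (VB * VB) + 2 * KO < 2 ^ 64) :
    Ar 64 8 (blL (d :: l) (d' :: m)) fun b => (∑ k ∈ range l.length,
      Ln 64 (l.getD k 0) (idx 4 b) * Ln 64 (m.getD k 0) (idx 4 fun r => b (4 + r))) +
      (Ln 64 d (idx 4 b) + Ln 64 d' (idx 4 fun r => b (4 + r))) := by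
  have h1 := dotG_ar VB hVB l m hlen hl hm (by omega)
  have h4 := ar_mul (W := 64) (m := 4) (by norm_num) (ar16 hd) 4 (csG 1024 1 4) (fun _ => 1)
    (csG_ar (by norm_num) (Nat.one_lt_two_pow (by norm_num)) 4) (fun b b' => by
      have := hdK (idx 4 b)
      omega)
  have h5 := ar_mul (W := 64) (m := 4) (by norm_num)
    (csG_ar (W := 64) (c := 1) (by norm_num) (by norm_num) 4) 4 (spG d') _
    (spG_ar (ar16 hd') KO hKO fun b => hdK' _) (fun b b' => by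
      have := hdK' (idx 4 b')
      omega)
  have h6 := h4.add h5 (by norm_num) (fun b => by
    have h7 := hdK (idx 4 b)
    have h8 := hdK' (idx 4 fun r => b (4 + r))
    omega)
  have h7 := h1.add h6 (by norm_num) (fun b => by
    have h8 := hdK (idx 4 b)
    have h9 := hdK' (idx 4 fun r => b (4 + r))
    have h10 := dot_le VB l m hl hm b fun r => b (4 + r)
    omega)
  refine h7.congr fun b => ?_
  rw [mul_one, one_mul]

/-! ### The tables -/

/-- The condition on the list for a pattern and six low bits. -/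
structure LsOk (KO off R v x0 : ℕ) (c : ℕ → ℕ) (l : List ℕ) : Prop where
  ex : ∃ (d : ℕ) (m : List ℕ), l = d :: m ∧ m.length = 2 * R ∧ d < 2 ^ 1024 ∧
    (∀ a < 16, Ln 64 d a = KO - off * ∑ k ∈ range (2 * R), Ln 64 (m.getD k 0) a) ∧
    (∀ k < 2 * R, m.getD k 0 < 2 ^ 1024) ∧
    ∀ k < 2 * R, ∀ a < 16, Ln 64 (m.getD k 0) a = Ln 32 (c (k / 2)) (2 * wv v x0 a + k % 2)

/-- The tables with lists. -/
structure LT2 where
  ip : ℕ → ℕ
  pp : ℕ → ℕ
  rp : ℕ → ℕ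
  Rp : ℕ → ℕ
  c : ℕ → ℕ → ℕ
  tn : ℕ → ℕ
  ls : ℕ → ℕ → List ℕ
  kx : ℕ → ℕ → ℕ
  pgb : ℕ → List (ℕ × ℕ × ℕ)
  pgr : ℕ → List (ℕ × ℕ × ℕ)
  off : ℕ
  VB : ℕ
  RM : ℕ
  O : ℕ
  KO : ℕ → ℕ
  hoff : 0 < off
  hoff2 : off ≤ VB
  hVB : ∀ i j x, Ln 32 (c i j) x ≤ VB
  hVB2 : 16 * VB < 2 ^ 64
  hRM : ∀ i, Rp i ≤ RM
  hKO : ∀ i, 2 * KO i = O + 2 * (Rp i * (off * off))
  hKO1 : ∀ i, off * (2 * Rp i * VB) ≤ KO i
  hKO2 : ∀ i, 16 * KO i < 2 ^ 64
  hbd : ∀ i, 2 * Rp i * (VB * VB) + 2 * KO i < 2 ^ 64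
  hO : 2 * RM * (VB * VB) ≤ O
  hpp : ∀ p < 1024, pp p < 120
  hrp : ∀ p < 1024, act (a3T (pp p)) p = rp (ip p)
  hst : ∀ p < 1024, ∀ q < 1024, ∀ t ∈ T120, act t.2.1 (rp (ip p)) = rp (ip q) → ip q = ip p ∧
    ∀ x < 1024, ∀ y < 1024, ∑ j ∈ range (Rp (ip p)),
      (((Ln 32 (c (ip p) j) (2 * act t.2.2 x) : ℤ) - off) *
          ((Ln 32 (c (ip p) j) (2 * act t.2.2 y) : ℤ) - off) +
        ((Ln 32 (c (ip p) j) (2 * act t.2.2 x + 1) : ℤ) - off) *
          ((Ln 32 (c (ip p) j) (2 * act t.2.2 y + 1) : ℤ) - off)) =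
      ∑ j ∈ range (Rp (ip p)),
      (((Ln 32 (c (ip p) j) (2 * x) : ℤ) - off) * ((Ln 32 (c (ip p) j) (2 * y) : ℤ) - off) +
        ((Ln 32 (c (ip p) j) (2 * x + 1) : ℤ) - off) * ((Ln 32 (c (ip p) j) (2 * y + 1) : ℤ) - off))
  hls : ∀ p < 1024, ∀ x0 < 64, LsOk (KO (ip p)) off (Rp (ip p)) (vK (pp p)) x0 (c (ip p))
    (ls (tn p) x0)
  hkx : ∀ k < 120, ∀ x0 < 64, kx k x0 = idx 6 fun m => x0.testBit (kpP k m)
  hpgb : ∀ k < 120, pgb k = pg8 k
  hpgr : ∀ k < 120, pgr k = pg10 k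

/-- A number with given lanes. -/
theorem exists_lanes (f : ℕ → ℕ) (n : ℕ) : ∃ N, ∀ k < n, Ln 64 N k = f k % 2 ^ 64 := by
  induction n with
  | zero => exact ⟨0, fun k hk => absurd hk (Nat.not_lt_zero k)⟩
  | succ n ih =>
    obtain ⟨N, hN⟩ := ih
    refine ⟨N % 2 ^ (64 * n) + (f n % 2 ^ 64) <<< (64 * n), fun k hk => ?_⟩
    rw [Ln_cat _ _ _ _ _ (Nat.mod_lt _ (Nat.two_pow_pos _))]
    by_cases h : k < n
    · rw [if_pos h, Ln_mod, if_pos h, hN k h]
    · have e : k = n := by omega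
      subst e
      rw [if_neg h, Nat.sub_self, Ln_small _ _ (Nat.mod_lt _ (Nat.two_pow_pos _)), if_pos rfl]

theorem exists_lf (R v x0 : ℕ) (c : ℕ → ℕ) : ∃ N, ∀ j < R, ∀ a < 16,
    Ln 64 N (a + 16 * j) = Ln 64 (c j) (wv v x0 a) := by
  obtain ⟨N, hN⟩ := exists_lanes (fun k => Ln 64 (c (k / 16)) (wv v x0 (k % 16))) (16 * R)
  refine ⟨N, fun j hj a ha => ?_⟩
  have e1 : (a + 16 * j) / 16 = j := by omega
  have e2 : (a + 16 * j) % 16 = a := by omega
  rw [hN _ (by omega), e1, e2, Nat.mod_eq_of_lt (Ln_lt _ _ _)]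

namespace LT2
variable (D : LT2)

/-- The tables with numbers in the place of the lists. -/
noncomputable def T : LT where
  ip := D.ip
  pp := D.pp
  rp := D.rp
  Rp := D.Rp
  c := D.c
  tn p := p
  lf p x0 := Classical.choose (exists_lf (D.Rp (D.ip p)) (vK (D.pp p)) x0 (D.c (D.ip p)))
  kx := D.kx
  pgb := D.pgb
  pgr := D.pgr
  off := D.off
  VB := D.VB
  RM := D.RM
  O := D.O
  KO := D.KO
  hoff := D.hoff
  hoff2 := D.hoff2
  hVB := D.hVB
  hVB2 := D.hVB2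
  hRM := D.hRM
  hKO := D.hKO
  hKO1 := D.hKO1
  hKO2 := D.hKO2
  hbd := D.hbd
  hO := D.hO
  hpp := D.hpp
  hrp := D.hrp
  hst := D.hst
  hlf p _ x0 _ := Classical.choose_spec
    (exists_lf (D.Rp (D.ip p)) (vK (D.pp p)) x0 (D.c (D.ip p)))
  hkx := D.hkx
  hpgb := D.hpgb
  hpgr := D.hpgr

/-- The block. -/
def bk (p x0 y0 : ℕ) : ℕ := ruG 64 (D.pgb (D.pp p)) 8
  (blL (D.ls (D.tn p) (D.kx (D.pp p) x0)) (D.ls (D.tn p) (D.kx (D.pp p) y0)))

theorem sum_pairs (f : ℕ → ℕ) (R : ℕ) :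
    ∑ k ∈ range (2 * R), f k = ∑ j ∈ range R, (f (2 * j) + f (2 * j + 1)) := by
  induction R with
  | zero => rfl
  | succ n ih =>
    have e : 2 * (n + 1) = 2 * n + 1 + 1 := by ring
    rw [e, Finset.sum_range_succ, Finset.sum_range_succ, ih, Finset.sum_range_succ]
    ring

theorem bk_ar (p x0 y0 : ℕ) (hp : p < 1024) (hx : x0 < 64) (hy : y0 < 64) :
    Ar 64 8 (D.bk p x0 y0) fun b => gN D.T.lg.g D.O p (x0 + 64 * idx 4 b)
      (y0 + 64 * idx 4 fun k => b (4 + k)) := by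
  have hk := D.hpp p hp
  have hkx : D.kx (D.pp p) x0 < 64 := D.T.kx_lt _ x0 hk hx
  have hky : D.kx (D.pp p) y0 < 64 := D.T.kx_lt _ y0 hk hy
  obtain ⟨d, l, e1, e2, e3, e4, e5, e6⟩ := (D.hls p hp _ hkx).ex
  obtain ⟨d', l', e1', e2', e3', e4', e5', e6'⟩ := (D.hls p hp _ hky).ex
  set i := D.ip p with hi
  set v := vK (D.pp p) with hv
  have hok : ∀ (m : List ℕ) (z : ℕ), m.length = 2 * D.Rp i → (∀ k < 2 * D.Rp i,
      m.getD k 0 < 2 ^ 1024) → (∀ k < 2 * D.Rp i, ∀ a < 16, Ln 64 (m.getD k 0) a =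
        Ln 32 (D.c i (k / 2)) (2 * wv v z a + k % 2)) → okL D.VB m := by
    intro m z h1 h2 h3 u hu
    obtain ⟨k, hk', h4⟩ := List.mem_iff_getElem.mp hu
    have h5 : m.getD k 0 = u := by rw [List.getD_eq_getElem _ _ hk', h4]
    rw [h1] at hk'
    rw [← h5]
    refine ⟨h2 k hk', fun a => ?_⟩
    by_cases ha : a < 16
    · rw [h3 k hk' a ha]
      exact D.hVB _ _ _
    · have h6 : m.getD k 0 < 2 ^ (64 * 16) := h2 k hk'
      rw [Ln_eq_zero_of_lt _ _ _ _ h6 (not_lt.mp ha)]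
      exact Nat.zero_le _
  have hl := hok l _ e2 e5 e6
  have hl' := hok l' _ e2' e5' e6'
  have hdK : ∀ (d : ℕ) (m : List ℕ), d < 2 ^ 1024 → (∀ a < 16, Ln 64 d a = D.KO i -
      D.off * ∑ k ∈ range (2 * D.Rp i), Ln 64 (m.getD k 0) a) → ∀ a, Ln 64 d a ≤ D.KO i := by
    intro d m h1 h2 a
    by_cases ha : a < 16
    · rw [h2 a ha]
      exact Nat.sub_le _ _
    · have h6 : d < 2 ^ (64 * 16) := h1
      rw [Ln_eq_zero_of_lt _ _ _ _ h6 (not_lt.mp ha)]
      exact Nat.zero_le _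
  have h1 := blL_ar (D.KO i) D.VB D.hVB2 (D.hKO2 i) d d' l l' (by rw [e2, e2']) hl hl' e3 e3'
    (hdK d l e3 e4) (hdK d' l' e3' e4') (by
      rw [e2]
      exact D.hbd i)
  obtain ⟨g1, g2, g3⟩ := pg8_dat _ (rK_lt _ hk)
  have h2 := ruG_ar (W := 64) (by norm_num) (pg8 (D.pp p)) 8 _ _ g1 h1
  have g2' : ndG (pg8 (D.pp p)) 8 = 8 := g2
  rw [g2'] at h2
  unfold bk
  rw [D.hpgb _ hk, e1, e1']
  refine h2.congr fun b => ?_
  have hse : ∀ m < 4, seG (pg8 (D.pp p)) 8 b m = b (rhP (D.pp p) m) ∧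
      seG (pg8 (D.pp p)) 8 b (4 + m) = b (4 + rhP (D.pp p) m) := by
    intro m hm
    obtain ⟨c1, c2, c3⟩ := g3 m hm
    constructor
    · rw [seG_eq 8 b (pg8 (D.pp p)) 8 g1 (by rw [g2']) m (by omega)]
      have c2' : syG (pg8 (D.pp p)) 8 m = 2 ^ (rhP (D.pp p) m + 1) := c2
      rw [c2', lf_two_pow]
      have c4 : rhP (D.pp p) m < 8 := lt_of_lt_of_le c1 (by norm_num)
      simp only [c4, decide_true, Bool.true_and]
    · rw [seG_eq 8 b (pg8 (D.pp p)) 8 g1 (by rw [g2']) (4 + m) (by omega)]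
      have c3' : syG (pg8 (D.pp p)) 8 (4 + m) = 2 ^ (4 + rhP (D.pp p) m + 1) := c3
      rw [c3', lf_two_pow]
      have c1' : rhP (D.pp p) m < 4 := c1
      have c4 : 4 + rhP (D.pp p) m < 8 := by omega
      simp only [c4, decide_true, Bool.true_and]
  have ea : idx 4 (seG (pg8 (D.pp p)) 8 b) = idx 4 fun m => b (rhP (D.pp p) m) :=
    idx_congr 4 _ _ fun m hm => (hse m hm).1
  have eb : (idx 4 fun r => seG (pg8 (D.pp p)) 8 b (4 + r)) =
      idx 4 fun m => b (4 + rhP (D.pp p) m) :=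
    idx_congr 4 _ _ fun m hm => (hse m hm).2
  have tx1 : D.T.lg.tx p (x0 + 64 * idx 4 b) = wv (vK (D.pp p)) (D.kx (D.pp p) x0)
      (idx 4 fun m => b (rhP (D.pp p) m)) := D.T.tx_eq p x0 hp hx b
  have tx2 : D.T.lg.tx p (y0 + 64 * idx 4 fun k => b (4 + k)) = wv (vK (D.pp p))
      (D.kx (D.pp p) y0) (idx 4 fun m => b (4 + rhP (D.pp p) m)) :=
    D.T.tx_eq p y0 hp hy fun k => b (4 + k)
  have hg := D.T.gN_eq p (x0 + 64 * idx 4 b) (y0 + 64 * idx 4 fun k => b (4 + k)) hp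
  rw [tx1, tx2] at hg
  refine Eq.trans ?_ hg.symm
  rw [ea, eb, e2]
  set A := idx 4 fun m => b (rhP (D.pp p) m) with hA
  set B := idx 4 fun m => b (4 + rhP (D.pp p) m) with hB
  have hA16 : A < 16 := idx_lt 4 _
  have hB16 : B < 16 := idx_lt 4 _
  have hsum : ∀ (m : List ℕ) (z a : ℕ), (∀ k < 2 * D.Rp i, ∀ a < 16, Ln 64 (m.getD k 0) a =
        Ln 32 (D.c i (k / 2)) (2 * wv v z a + k % 2)) → a < 16 →
      ∑ k ∈ range (2 * D.Rp i), Ln 64 (m.getD k 0) a = D.T.SS i (wv v z a) := by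
    intro m z a h3 ha
    rw [Finset.sum_congr rfl fun k hk => h3 k (Finset.mem_range.mp hk) a ha, sum_pairs]
    unfold LT.SS
    refine Finset.sum_congr rfl fun j _ => ?_
    have q1 : 2 * j / 2 = j := by omega
    have q2 : 2 * j % 2 = 0 := by omega
    have q3 : (2 * j + 1) / 2 = j := by omega
    have q4 : (2 * j + 1) % 2 = 1 := by omega
    rw [q1, q2, q3, q4, Nat.add_zero]
    rfl
  rw [e4 A hA16, e4' B hB16, hsum l _ A e6 hA16, hsum l' _ B e6' hB16]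
  congr 1
  rw [Finset.sum_congr rfl fun k hk => by
    rw [e6 k (Finset.mem_range.mp hk) A hA16, e6' k (Finset.mem_range.mp hk) B hB16], sum_pairs]
  unfold LT.PP
  refine Finset.sum_congr rfl fun j _ => ?_
  have q1 : 2 * j / 2 = j := by omega
  have q2 : 2 * j % 2 = 0 := by omega
  have q3 : (2 * j + 1) / 2 = j := by omega
  have q4 : (2 * j + 1) % 2 = 1 := by omega
  rw [q1, q2, q3, q4, Nat.add_zero, Nat.add_zero]
  rfl

end LT2

end Pool.Agent.Lib.MP_afdd4d_co.K8.L9
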