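import Pool.Agent.Lib.MP_afdd4d_co.L9.ChkRB
import Pool.Agent.Lib.MP_afdd4d_co.K8.PtPrg

/-!
# Bases with an even number of edges

Every triple of seven vertices is in four of the seven sets of six vertices, so the link of the root
has an even number of edges on one of the seven sets. Therefore it is enough to check the bases with
an even number of edges.
-/

namespace Pool.Agent.Lib.MP_afdd4d_co.K8.L9

open Finset

/-- Whether the number of ones among the first twenty bits is odd. -/
def par20 (b : ℕ → Bool) : Bool := lf 20 2097150 b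

theorem par20_congr (b b' : ℕ → Bool) (h : ∀ i < 20, b i = b' i) : par20 b = par20 b' :=
  lf_congr 20 _ b b' h

theorem par20_idx (b : ℕ → Bool) : par20 (idx 20 b).testBit = par20 b := by
  apply par20_congr
  intro i hi
  rw [testBit_idx, decide_eq_true hi, Bool.true_and]

theorem mvsR_par : ∀ i < 5, fxP (syG (mvsR.getD i []) 20) 2097150 20 = 2097150 := by
  decide +kernel

theorem par20_move (i : ℕ) (b : ℕ → Bool) : par20 (seG (mvsR.getD i []) 20 b) = par20 b := by
  by_cases hi : i < 5
  · obtain ⟨h4, h5⟩ := mvsR_getD i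
    have h1 : par20 (seG (mvsR.getD i []) 20 b) =
        par20 fun r => lf 20 (syG (mvsR.getD i []) 20 r) b := by
      apply par20_congr
      intro k hk
      exact seG_eq 20 b _ 20 h4 (by rw [h5]) k hk
    rw [h1, par20, lf_fxP 20 (syG (mvsR.getD i []) 20) 2097150 b 20, mvsR_par i hi]
    rfl
  · have h6 : mvsR.getD i [] = [] := List.getD_eq_default _ _ (by rw [mvsR_len]; omega)
    rw [h6]
    rfl

/-! ### The exchange of a vertex and the last vertex -/

/-- The exchange of `x` and the last vertex. -/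
def swT (x : Fin 7) : Equiv.Perm (Fin 7) := Equiv.swap x 6

/-- The same exchange of the vertices after the root. -/
def swU (x : Fin 7) : Equiv.Perm (Fin 8) := Equiv.swap x.succ 7

theorem swU_succ : ∀ x : Fin 7, swU x 0 = 0 ∧ ∀ j : Fin 7, swU x j.succ = (swT x j).succ := by
  decide +kernel

/-- The form of a bit after the exchange. -/
def gx (x : Fin 7) (r : ℕ) : ℕ := exF ((qd 8 r).image (swU x))

theorem swU_card : ∀ x : Fin 7, ∀ r < 20, ((qd 8 r).image (swU x)).card = 4 := by
  decide +kernel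

theorem gx_sum : fxP (gx 0) 2097150 20 ^^^ fxP (gx 1) 2097150 20 ^^^ fxP (gx 2) 2097150 20 ^^^
    fxP (gx 3) 2097150 20 ^^^ fxP (gx 4) 2097150 20 ^^^ fxP (gx 5) 2097150 20 ^^^
    fxP (gx 6) 2097150 20 = 0 := by
  decide +kernel

section tup
variable {n : ℕ} (H : Finset (Finset (Fin n)))

theorem cons_swU (r : Fin n) (s : Fin 7 → Fin n) (x : Fin 7) :
    (Fin.cons r s : Fin 8 → Fin n) ∘ swU x = (Fin.cons r (s ∘ swT x) : Fin 8 → Fin n) := by
  obtain ⟨h1, h2⟩ := swU_succ x
  funext j
  refine Fin.cases ?_ (fun j => ?_) j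
  · rw [Function.comp_apply, h1, Fin.cons_zero, Fin.cons_zero]
  · rw [Function.comp_apply, h2, Fin.cons_succ, Fin.cons_succ, Function.comp_apply]

theorem par_sw (r : Fin n) (s : Fin 7 → Fin n) (x : Fin 7) :
    par20 (gc H (Fin.cons r (s ∘ swT x) : Fin 8 → Fin n)) =
      lf 35 (fxP (gx x) 2097150 20) (gc H (Fin.cons r s : Fin 8 → Fin n)) := by
  rw [← lf_fxP 35 (gx x) 2097150 _ 20]
  apply par20_congr
  intro k hk
  have h2 : (0 : Fin 8) ∈ (qd 8 k).image (swU x) := by
    rw [Finset.mem_image]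
    exact ⟨0, (qd_data k (by omega)).2, (swU_succ x).1⟩
  obtain ⟨r', hr', h3⟩ := qd_surj _ (swU_card x k hk) h2
  rw [← cons_swU, gc_fix H _ (swU x) k ⟨r', hr', h3.symm⟩]
  rfl

theorem exists_even (r : Fin n) (s : Fin 7 → Fin n) :
    ∃ x : Fin 7, par20 (gc H (Fin.cons r (s ∘ swT x) : Fin 8 → Fin n)) = false := by
  by_contra hne
  have h : ∀ x : Fin 7, lf 35 (fxP (gx x) 2097150 20) (gc H (Fin.cons r s : Fin 8 → Fin n)) =
      true := by
    intro x
    rw [← par_sw]
    rw [← Bool.not_eq_false]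
    exact fun h => hne ⟨x, h⟩
  have h1 : lf 35 (fxP (gx 0) 2097150 20 ^^^ fxP (gx 1) 2097150 20 ^^^ fxP (gx 2) 2097150 20 ^^^
      fxP (gx 3) 2097150 20 ^^^ fxP (gx 4) 2097150 20 ^^^ fxP (gx 5) 2097150 20 ^^^
      fxP (gx 6) 2097150 20) (gc H (Fin.cons r s : Fin 8 → Fin n)) = true := by
    rw [lf_xor, lf_xor, lf_xor, lf_xor, lf_xor, lf_xor, h, h, h, h, h, h, h]
    rfl
  rw [gx_sum, lf_zero] at h1
  exact absurd h1 (by decide)

/-- A property of the tuples that is invariant under permutations holds for all tuples if it holds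
for the tuples with the codes of the representatives with an even number of edges. -/
theorem root_reduce_even (r : Fin n) (P : (Fin 7 → Fin n) → Prop)
    (hinv : ∀ (s : Fin 7 → Fin n) (σ : Equiv.Perm (Fin 7)), P (s ∘ σ) → P s)
    (hbase : ∀ c ∈ repsR, par20 c.testBit = false → ∀ s : Fin 7 → Fin n,
      idx 20 (gc H (Fin.cons r s : Fin 8 → Fin n)) = c → P s) :
    ∀ s : Fin 7 → Fin n, P s := by
  have key : ∀ b : ℕ → Bool, par20 (idx 20 b).testBit = false → ∀ s : Fin 7 → Fin n,
      idx 20 (gc H (Fin.cons r s : Fin 8 → Fin n)) = idx 20 b → P s := by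
    refine red_all20R (fun c => par20 c.testBit = false → ∀ s : Fin 7 → Fin n,
      idx 20 (gc H (Fin.cons r s : Fin 8 → Fin n)) = c → P s) hbase ?_
    intro i b hb hpar s hsb
    rw [par20_idx] at hpar
    have hpar' : par20 (idx 20 (seG (mvsR.getD i []) 20 b)).testBit = false := by
      rw [par20_idx, par20_move, hpar]
    have hb' := hb hpar'
    by_cases hi : i < 5
    · apply hinv s (exT i hi)
      apply hb'
      have h1 := gc_moveR H r s ⟨i, hi⟩
      rw [h1]
      obtain ⟨h4, h5⟩ := mvsR_getD i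
      apply idx_congr
      intro k hk
      rw [seG_eq 20 (gc H (Fin.cons r s : Fin 8 → Fin n)) _ 20 h4 (by rw [h5]) k hk,
        seG_eq 20 b _ 20 h4 (by rw [h5]) k hk]
      exact lf_congr 20 _ _ _ (idx_inj 20 _ _ hsb)
    · have h6 : mvsR.getD i [] = [] := List.getD_eq_default _ _ (by rw [mvsR_len]; omega)
      rw [h6] at hb'
      exact hb' s hsb
  intro s
  obtain ⟨x, hx⟩ := exists_even H r s
  apply hinv s (swT x)
  refine key (gc H (Fin.cons r (s ∘ swT x) : Fin 8 → Fin n)) ?_ _ rfl
  rw [par20_idx, hx]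

end tup

namespace ChkRB
variable (C : ChkRB)

/-- The local inequalities for the links from the bases with an even number of edges. -/
theorem link_ineq_even (hlt : ∀ c ∈ repsR, C.Q c ≤ 21 * C.O + 7 * C.O' + C.OB)
    (hall : ∀ c ∈ repsR, par20 c.testBit = false → C.oneB c = true) {n : ℕ}
    (H : Finset (Finset (Fin n))) (r : Fin n)
    (s : Fin 7 → Fin n) (hs : Function.Injective s) (hr : ∀ i, s i ≠ r) :
    PS (kR H C.g r) s ≤ BV (EvR H r) C.vB s + 2 * DS (MR H C.M r) s := by
  have hr20 : ∀ c ∈ repsR, c < 2 ^ 20 := by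
    have h := repsR_lt
    rw [List.all_eq_true] at h
    exact fun c hc => of_decide_eq_true (h c hc)
  refine root_reduce_even H r (fun s => Function.Injective s → (∀ i, s i ≠ r) →
    PS (kR H C.g r) s ≤ BV (EvR H r) C.vB s + 2 * DS (MR H C.M r) s) ?_ ?_ s hs hr
  · intro s σ h1 hs hr
    have h0 := h1 (hs.comp σ.injective) fun i => hr (σ i)
    have h2 := PS_perm (kR H C.g r) (C.hp H r) σ s
    have h3 := DS_perm (MR H C.M r) (C.hM H r) σ s
    rw [h2, h3, BV_perm] at h0
    exact h0
  · intro c hc hpar s hsc hs hr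
    exact C.local_of_one c (hr20 c hc) (hlt c hc) (hall c hc hpar) H r s hs hr hsc

end ChkRB

/-! ### The representatives with an even number of edges -/

/-- The representatives with an even number of edges: lanes of 20 bits. -/
def REPE : ℕ := 0xfffff7fffe7efff7efdd3ffff3fffc3fbfd3fbf73fbef3fbe33bffe3bfef3bfea3bfdf3bfdc3bfbf3bf7f3b7ff3b7fc3b7f63b7f33b7ed3b7e73b77e3b77b3b76f3b7663b73f3b37f3b3373b32f3b3233afff3afeb3af7e3af6f3af6a3af5f3af5c37fef37eff37eee37eed37edd37ecf37ebd37ebb37eb837eb737dff37bff37afe37aef37adf37abf37ab9379ef1fffb1fff81fff71fff11dfff1dffa1dff91dff61dff31dfdd1dfdb1dfd71dfd41df7e1df771d7fd1d7fb1d7f71d7f41d7ef1d7ec1d7e51d7e31d77f1d7761d76e1d7671d7571d3ff1d3771d35f1d34717fff17ffc17ff917ff517ff317fed17feb17fe817fe717f7e17f7d17f7b17f7717f7417f6f17f6c17f6a17f6917f6617f6517f6317f5f17f5c17f5917f5517f5317f4d17f4b17f4717efe17efb17ef817ef717dfd17dfb17df717bfd17bfb17bf817bf717bf417bef17be917be517be317b7f17b7c17b7a17b7917b7617b7517b7317b6e17b6d17b6b17b6717b6217b5d17b5b17b571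7b5417b4f17b4317aff17afc17afa17af917af617af517af317ade17adb17ad7179ff179fc179f9179f5179ed179eb179e715ffe15fef15fec15fdf15fdc15fd615fce15fcd15fc715fc415fbf15fbc15fba15fb615fb515fad15fab15fa815fa715eff15efc15efa15ef615ef515eee15eed15eeb15ee715ede15edd15edb15ed715ed415e7e15dff15dee15ded15ddd15dd715bff15bee15bed15bde15bdd15bd715bcf15bc615bc515bbe15bbd15bbb15bb715bb415baf15ba915b9f15b9c15b9a15b9915b9515b9315afe15afd15afb15af715af415aef15aea15ae615adf15adc15ada15ad915ad615ad515ace15acb15ac715ac215a7f15a5e15a57159fe159ef159df159dc159d6159cd159c713ffe13fdf13fdc13fda13fce13fcb13fc813fbf13fba13fb913fb613f9e13f9d13f9b13f9813f9713f9413f7f13f5e13f5d13f5b13f4f13f4a13f4913f3e13f3b13f3813f3713f1f13f1c13f1a13f1913f1613f1513f1313dff13dee13ded13dde13ddd13ddb13dcf13dcc13dc913dbd13dbb13db813db713d7e13d6f13d6c13cfe137ff137ee137ed137de137dd137db137cf137cc137c9137be137bd137bb137b8137b7137af137ac137aa137a9137a6137a51379f1379c137951378d1378b1377e1376f1376c1375f1375c1374e1374d1374b1373f1373c1373a137391373613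72e1372d1372b13728137271371e1371d1371b13717136fe136ef136ec136df136dc136ce136cd136cb136bf136bc136ba136b9136b61369d1369b136971367f1365e1365b135fe135ef135ec135df135dc135ce135cd135bf135bc135ae135ad135a71357f1356e1356d1355e1355d1353d1353b13537134ff134ee134de134dd133fe133df133dc133ce133cb133bf133ba133b9133b61339e1339d1339b13397133941338f133891337f1335e1335d1335b1334f133491333e1333b13338133371331f1331c1331913316133151330b1330713301131ff131ee131ed131de131dd131cf131be131bd131bb131b7131af131a9131a6131a51317e1316f1315f1315c1314e1314d1313f1313c13139131361312d1312b13127130fe130df130dc130ce12fff12f7e12f5f12f5c12f4b12f4812def12dec12d7f12d6e12d6d12d5d12d5b12d4f12d4c12d4912cff12cde12cdd12cdb12ccf12cca12cc912cbb12cb812cb70ffff0fff30fff007ffd07ff707ff407ff107fef07fe507fe307fe007eff07efa07ef907ef607ef307ef007dff07dfc07df507df307bff07bf507bf307bf007afb07af707af207af107adf07ad607ad307ad0079fd079f7079f4079f1079ef079e5079e3079e003fff03ffa03ff903ff603ff303ff003fde03fdd03fdb03fd803fd703fd403fd203fd103fcf03f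c903fc603fc303fc003fbe03fbb03fb803fb703fb203fb103f7e03f7b03f7803f7703f7203f7103f5f03f5c03f5a03f5903f5603f5503f5303f5003f3f03f3a03f3903f3603f3303f3003dfe03dfd03dfb03df803df703df403def03dec03dea03de903de603de503de303ddf03ddc03dd603dd503dd303dbf03dbc03db903db503db303d7f03d7c03d7603d7503cff03cfa03cf903cf6037fd037f7037f4037f1037ef037ec037e6037e5037e3037e00377f0377c0377a03779037760377503773037700376e0376d0376b03768037670376403762037610373d0373703734037310372f037250372303720036ff036fc036fa036f9036f6036f5036f3036ee036ed036eb036e8036e7036e4036e2036e1036dd036d7036d4036d1036cf036c6036c5036c3036c0036be036bd036bb036b8036b7036b4036b2036b10367e0367d0367b0367803677036720365f0365a0365603653035ff035fc035f6035f5035f3035f0035ed035e7035e4035e10357e0357d0357b0357803577035740356f0356c0356a035690356603565035630353f0353c0353503533034fe034fd034fb034f8034f7034ef034ea034e9034e6034df034dc034d6033ff033f6033f3033f00337b0337703372033710333f033360333303330031fd031f7031f4031f1031ef031e6031e5031e3031e00317f0317c0317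a031790317603175031730316b0316703162031610313d0313703134031310312f031250312303120030ff030fa030f9030f6030dd030d7030cf030c602ffb02ff802ff702ff102f7f02f7a02f7902f7602f7302f7002f5d02f5b02f5802f5702f5402f5102dff02dfc02df902df502df302df002ded02deb02de802de702de402de102d7e02d7d02d7b02d7802d7702d7402d7202d7102d6f02d6c02d6a02d6902d6602d6502d6302d6002d5f02d5c02d5502d5302d5002cfe02cfb02cf802cf702cdf02cdc02cda02cd902cd602cd502cd302cce02ccb02cc802cc702cc202cbf02cb902cb301ffe01fbf01fba01fb601f9e01f9d01f9701f9401f9201f8f01f8601f8301f8001dff01dee01ded01dbe01dbd01dbb01db701daf01dac01daa01da901da601da501d9f01d9c01d9501d9301cfe01cdf01cdc01cda01cce01ccb01cc801cbf01cba01cb901cb601c7f00fff00fde00fdd00fdb00fcf00fca00fc900fbe00fbb00fb800fb700f9f00f9c00f9a00f9900f9600f9500f9300f8e00f8b00f8800f8700f8200f8100f7e00f5f00f5c00f5a00f4e00f4b00f4800f3f00f3a00f3900f3600f1e00f1d00f1b00f1800f1700f1400f1200f0f00f0900f0600f0300f0000dfe00def00dec00ddf00ddc00dda00dce00dcd00dcb00dc800dbf00dbc00dba00db900db600dae00dad00dab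00da800da700da400d9e00d9d00d9b00d9800d9700d9400d7f00d6e00d6d00d5e00d5d00d5b00d4f00d4c00d4a00d4900d3e00d3d00d3b00d3800d3700d2f00d2c00d2a00d2900d2600d2500d1f00d1c00d1600d1500d1300cff00cde00cdd00cdb00ccf00cca00cc900cbe00cbb00cb800cb700c9f00c9c00c9900c9500c9300c7e00c5f00c5c00c3f00c3a00c36007ef007ec006ff006ee006ed006dd006cf006cc006bd006bb006b8006b7006af006ac006a9006a50067e0066f0066c0063f0063c0063a006360062e0062d0062b0062800627006240061d00617006140060f006050060300600005ff005ed004fe004ef004ec004df004dc004cd004bf004bc004b9004ad004ab004a8004a7004a40047f0046e0046d0043e0043d0043b004370042f0042a00429004260041f0041c0041500413003ff001ef000ff000dd000cf000bb000b8000b70007e0003f0003a000360001d00017000140000f0000300000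

/-- The representative with number `i`. -/
def reE (i : ℕ) : ℕ := Nat.mod (Nat.shiftRight REPE (Nat.mul 20 i)) 1048576

/-- Whether the representatives with an even number of edges are in the table. -/
def wkE : List ℕ → ℕ → Bool :=
  @List.rec ℕ (fun _ => ℕ → Bool) (fun i => Nat.ble i 1088)
    (fun c _ ih i => @Bool.rec (fun _ => Bool) (Nat.beq (reE i) c && ih (Nat.add i 1)) (ih i)
      (par20 c.testBit))

theorem wkE_spec : ∀ (l : List ℕ) (i : ℕ), wkE l i = true → i ≤ 1088 ∧
    ∀ c ∈ l, par20 c.testBit = false → ∃ j < 1088, reE j = c := by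
  intro l
  induction l with
  | nil =>
    intro i h
    exact ⟨Nat.le_of_ble_eq_true h, fun c hc => absurd hc (List.not_mem_nil)⟩
  | cons a l ih =>
    intro i h
    have e : wkE (a :: l) i = @Bool.rec (fun _ => Bool)
      (Nat.beq (reE i) a && wkE l (i + 1)) (wkE l i) (par20 a.testBit) := rfl
    rw [e] at h
    cases hp : par20 a.testBit
    · rw [hp] at h
      have h' : (Nat.beq (reE i) a && wkE l (i + 1)) = true := h
      rw [Bool.and_eq_true] at h'
      obtain ⟨h1, h2⟩ := ih (i + 1) h'.2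
      refine ⟨by omega, fun c hc hpc => ?_⟩
      rcases List.mem_cons.mp hc with h3 | h3
      · exact ⟨i, by omega, by rw [h3]; exact Nat.eq_of_beq_eq_true h'.1⟩
      · exact h2 c h3 hpc
    · rw [hp] at h
      have h' : wkE l i = true := h
      obtain ⟨h1, h2⟩ := ih i h'
      refine ⟨h1, fun c hc hpc => ?_⟩
      rcases List.mem_cons.mp hc with h3 | h3
      · rw [h3, hp] at hpc
        exact absurd hpc (by decide)
      · exact h2 c h3 hpc

theorem wkE_reps : wkE repsR 0 = true := by decide +kernel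

theorem reE_reps (c : ℕ) (hc : c ∈ repsR) (hp : par20 c.testBit = false) :
    ∃ j < 1088, reE j = c := (wkE_spec repsR 0 wkE_reps).2 c hc hp

/-- The local inequalities for the links from the checks of the bases in the table. -/
theorem ChkRB.link_ineq_tab (C : ChkRB) (hlt : ∀ c ∈ repsR, C.Q c ≤ 21 * C.O + 7 * C.O' + C.OB)
    (hall : ∀ j < 1088, C.oneB (reE j) = true) {n : ℕ} (H : Finset (Finset (Fin n))) (r : Fin n)
    (s : Fin 7 → Fin n) (hs : Function.Injective s) (hr : ∀ i, s i ≠ r) :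
    PS (kR H C.g r) s ≤ BV (EvR H r) C.vB s + 2 * DS (MR H C.M r) s := by
  refine C.link_ineq_even hlt (fun c hc hp => ?_) H r s hs hr
  obtain ⟨j, hj, h⟩ := reE_reps c hc hp
  rw [← h]
  exact hall j hj

end Pool.Agent.Lib.MP_afdd4d_co.K8.L9
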