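import Pool.Agent.Lib.MP_afdd4d_co.L9.ViewR

/-!
# The local inequalities for the links from a finite check
-/

namespace Pool.Agent.Lib.MP_afdd4d_co.K8.L9

open Finset

/-! ### The exchanges on tuples -/

/-- The exchange of the positions `i` and `i + 1`. -/
def exT (i : ℕ) (hi : i < 5) : Equiv.Perm (Fin 7) :=
  Equiv.swap ⟨i, by omega⟩ ⟨i + 1, by omega⟩

/-- The same exchange of the positions after the root. -/
def exU (i : ℕ) (hi : i < 5) : Equiv.Perm (Fin 8) :=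
  Equiv.swap ⟨i + 1, by omega⟩ ⟨i + 2, by omega⟩

theorem exU_succ : ∀ i : Fin 5, exU i i.isLt 0 = 0 ∧
    ∀ j : Fin 7, exU i i.isLt j.succ = (exT i i.isLt j).succ := by decide +kernel

theorem mvsR_geo : ∀ i : Fin 5, ∀ r < 20,
    ((qd 8 r).image (exU i i.isLt)).card = 4 ∧
    syG (mvsR.getD i []) 20 r = exF ((qd 8 r).image (exU i i.isLt)) ∧
    exF ((qd 8 r).image (exU i i.isLt)) < 2 ^ 21 := by
  decide +kernel

theorem mvsR_len : mvsR.length = 5 := rfl

section tup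
variable {n : ℕ} (H : Finset (Finset (Fin n)))

theorem cons_exU (r : Fin n) (s : Fin 7 → Fin n) (i : Fin 5) :
    (Fin.cons r s : Fin 8 → Fin n) ∘ exU i i.isLt =
      (Fin.cons r (s ∘ exT i i.isLt) : Fin 8 → Fin n) := by
  obtain ⟨h1, h2⟩ := exU_succ i
  funext j
  refine Fin.cases ?_ (fun j => ?_) j
  · rw [Function.comp_apply, h1, Fin.cons_zero, Fin.cons_zero]
  · rw [Function.comp_apply, h2, Fin.cons_succ, Fin.cons_succ, Function.comp_apply]

theorem gc_moveR (r : Fin n) (s : Fin 7 → Fin n) (i : Fin 5) :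
    idx 20 (gc H (Fin.cons r (s ∘ exT i i.isLt) : Fin 8 → Fin n)) =
      idx 20 (seG (mvsR.getD i []) 20 (gc H (Fin.cons r s : Fin 8 → Fin n))) := by
  apply idx_congr
  intro k hk
  obtain ⟨h1, h2, h3⟩ := mvsR_geo i k hk
  obtain ⟨h4, h5⟩ := mvsR_getD i
  have h6 : (0 : Fin 8) ∈ (qd 8 k).image (exU i i.isLt) := by
    rw [Finset.mem_image]
    exact ⟨0, (qd_data k (by omega)).2, (exU_succ i).1⟩
  obtain ⟨r', hr', h7⟩ := qd_surj _ h1 h6
  rw [← cons_exU, gc_fix H _ (exU i i.isLt) k ⟨r', hr', h7.symm⟩,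
    seG_eq 20 _ _ 20 h4 (by rw [h5]) k hk, h2]
  exact lf_ext 20 15 _ _ h3

/-- A property of the tuples that is invariant under permutations holds for all tuples if it holds
for the tuples with the codes of the representatives. -/
theorem root_reduce (r : Fin n) (P : (Fin 7 → Fin n) → Prop)
    (hinv : ∀ (s : Fin 7 → Fin n) (σ : Equiv.Perm (Fin 7)), P (s ∘ σ) → P s)
    (hbase : ∀ c ∈ repsR, ∀ s : Fin 7 → Fin n,
      idx 20 (gc H (Fin.cons r s : Fin 8 → Fin n)) = c → P s) :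
    ∀ s : Fin 7 → Fin n, P s := by
  have key : ∀ b : ℕ → Bool, ∀ s : Fin 7 → Fin n,
      idx 20 (gc H (Fin.cons r s : Fin 8 → Fin n)) = idx 20 b → P s := by
    refine red_all20R (fun c => ∀ s : Fin 7 → Fin n,
      idx 20 (gc H (Fin.cons r s : Fin 8 → Fin n)) = c → P s) hbase ?_
    intro i b hb s hsb
    by_cases hi : i < 5
    · apply hinv s (exT i hi)
      apply hb
      have h1 := gc_moveR H r s ⟨i, hi⟩
      rw [h1]
      obtain ⟨h4, h5⟩ := mvsR_getD i
      apply idx_congr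
      intro k hk
      rw [seG_eq 20 (gc H (Fin.cons r s : Fin 8 → Fin n)) _ 20 h4 (by rw [h5]) k hk,
        seG_eq 20 b _ 20 h4 (by rw [h5]) k hk]
      exact lf_congr 20 _ _ _ (idx_inj 20 _ _ hsb)
    · have h6 : mvsR.getD i [] = [] := List.getD_eq_default _ _ (by rw [mvsR_len]; omega)
      rw [h6] at hb
      exact hb s hsb
  intro s
  exact key (gc H (Fin.cons r s : Fin 8 → Fin n)) s rfl

end tup

/-- The data of the check for the links. -/
structure ChkR where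
  g : ℕ → ℕ → ℤ
  M : ℕ → ℤ
  O : ℕ
  O' : ℕ
  B2 : ℕ
  Q : ℕ → ℕ
  bk : ℕ → ℕ → ℕ → ℕ
  row : ℕ → ℕ
  W : ℕ
  hW : 1 < W
  hs : ∀ c d, g c d = g d c
  hO : ∀ c d, |g c d| ≤ O
  hQ2 : ∀ c, Q c ≤ B2
  hp : ∀ {n : ℕ} (H : Finset (Finset (Fin n))) (r : Fin n) (τ : Equiv.Perm (Fin 5)) s u w,
    kR H g r (s ∘ τ) u w = kR H g r s u w
  hM : ∀ {n : ℕ} (H : Finset (Finset (Fin n))) (r : Fin n) (τ : Equiv.Perm (Fin 6)) s,
    MR H M r (s ∘ τ) = MR H M r s
  hQ : ∀ c < 2 ^ 20, (O' : ℤ) - M c ≤ Q c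
  hbd : 35 * (2 * O + B2) < 2 ^ (W - 1)
  hbk : ∀ p < 1024, ∀ x0 < 64, ∀ y0 < 64, Ar W 8 (bk p x0 y0) fun b =>
      gN g O p (x0 + 64 * idx 4 b) (y0 + 64 * idx 4 fun k => b (4 + k))
  hrow : ∀ c < 2 ^ 20, Ar W 10 (row c) fun b => gN g O (c % 1024) (c / 1024) (idx 10 b) +
      Q (c % 1024 + 1024 * idx 10 b)

namespace ChkR
variable (C : ChkR)

/-- The check of one base. -/
def one (c : ℕ) : Bool :=
  leG C.W 15 (Nat.sub (Nat.add (Nat.mul 21 C.O) (Nat.mul 7 C.O')) (C.Q c))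
    (arG C.W (tabG C.W C.bk) C.row wdR c)

theorem gN_le (p x y : ℕ) : gN C.g C.O p x y ≤ 2 * C.O := by
  unfold gN
  have h := abs_le.mp (C.hO (p + 1024 * x) (p + 1024 * y))
  rw [Int.toNat_le]
  push_cast
  linarith [h.2]

theorem wdR_len : wdR.length = 35 := by decide

theorem wdR_lt : ∀ k ∈ wdR, k < 12 := by decide

/-- The local inequality from the check. -/
theorem local_of_one (c : ℕ) (hc : c < 2 ^ 20) (hQc : C.Q c ≤ 21 * C.O + 7 * C.O')
    (hone : C.one c = true) {n : ℕ} (H : Finset (Finset (Fin n))) (r : Fin n)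
    (s : Fin 7 → Fin n) (hsc : idx 20 (gc H (Fin.cons r s : Fin 8 → Fin n)) = c) :
    PS (kR H C.g r) s ≤ 2 * DS (MR H C.M r) s := by
  have hW : 0 < C.W := by have := C.hW; omega
  have h2W : 2 ^ C.W = 2 ^ (C.W - 1) + 2 ^ (C.W - 1) := by
    obtain ⟨k, hk⟩ : ∃ k, C.W = k + 1 := ⟨C.W - 1, by omega⟩
    rw [hk, Nat.add_sub_cancel, pow_succ]; ring
  have hbd := C.hbd
  have har := arG_ar (gN C.g C.O) C.Q (tabG C.W C.bk) C.row hW (2 * C.O) C.B2
    (fun p x y => C.gN_le p x y) C.hQ2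
    (fun c _ => tabG_ar hW (gN C.g C.O) C.bk C.hbk c) C.hrow 35 (by omega) wdR wdR_lt
    (by rw [wdR_len]) c hc
  have hfV : ∀ z, fV (gN C.g C.O) C.Q wdR z < 2 ^ (C.W - 1) := by
    intro z
    have h1 := fV_le (gN C.g C.O) C.Q (2 * C.O) C.B2 (fun p x y => C.gN_le p x y) C.hQ2 wdR z
    rw [wdR_len] at h1
    omega
  set K := 21 * C.O + 7 * C.O' - C.Q c with hK
  have h4 : fV (gN C.g C.O) C.Q wdR (gc H (Fin.cons r s : Fin 8 → Fin n)) ≤ K := by
    by_cases hK2 : K < 2 ^ (C.W - 1)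
    · have h3 := leG_le C.hW har hK2 (fun b => hfV _) hone
      have h5 := h3 fun l => gc H (Fin.cons r s : Fin 8 → Fin n) (lam.getD l 0)
      have h6 : fV (gN C.g C.O) C.Q wdR
          (mkz c fun l => gc H (Fin.cons r s : Fin 8 → Fin n) (lam.getD l 0)) =
          fV (gN C.g C.O) C.Q wdR (gc H (Fin.cons r s : Fin 8 → Fin n)) := by
        apply fV_congr
        intro i hi
        unfold mkz
        by_cases h7 : i < 20
        · rw [if_pos h7, ← hsc, testBit_idx]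
          simp [h7]
        · rw [if_neg h7]
          obtain ⟨_, _, _, _, h10⟩ := lai_data (i - 20) (by omega)
          have h11 : lam.getD (lai.getD (i - 20) 0) 0 = i := by omega
          exact congrArg (gc H (Fin.cons r s : Fin 8 → Fin n)) h11
      rw [← h6]
      exact h5
    · have h1 := hfV (gc H (Fin.cons r s : Fin 8 → Fin n))
      omega
  exact root_local H C.g C.O C.O' K C.Q C.M (fun c d => (abs_le.mp (C.hO c d)).1) C.hs r
    (C.hp H r) (C.hM H r) C.hQ s (by rw [hsc]; omega) h4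

/-- The local inequalities for the links. -/
theorem link_ineq (hlt : ∀ c ∈ repsR, C.Q c ≤ 21 * C.O + 7 * C.O')
    (hall : ∀ c ∈ repsR, C.one c = true) {n : ℕ} (H : Finset (Finset (Fin n))) (r : Fin n)
    (s : Fin 7 → Fin n) : PS (kR H C.g r) s ≤ 2 * DS (MR H C.M r) s := by
  have hr : ∀ c ∈ repsR, c < 2 ^ 20 := by
    have h := repsR_lt
    rw [List.all_eq_true] at h
    exact fun c hc => of_decide_eq_true (h c hc)
  refine root_reduce H r (fun s => PS (kR H C.g r) s ≤ 2 * DS (MR H C.M r) s) ?_ ?_ s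
  · intro s σ h1
    have h2 := PS_perm (kR H C.g r) (C.hp H r) σ s
    have h3 := DS_perm (MR H C.M r) (C.hM H r) σ s
    rw [h2, h3] at h1
    exact h1
  · intro c hc s hsc
    exact C.local_of_one c (hr c hc) (hlt c hc) (hall c hc) H r s hsc

end ChkR

end Pool.Agent.Lib.MP_afdd4d_co.K8.L9
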