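import Pool.Agent.Lib.MP_afdd4d_co.L9.TabRD
import Pool.Agent.Lib.MP_afdd4d_co.L9.ChkR
import Pool.Agent.Lib.MP_afdd4d_co.K8.Tab

/-!
# Class functions of 3-graphs on six points

`cixR c` is the number of the class of the code `c` of a 3-graph on six points. It is invariant under
the exchanges of the points.
-/

namespace Pool.Agent.Lib.MP_afdd4d_co.K8.L9

open Finset

set_option exponentiation.threshold 10000000

/-- The table with the rows one after the other. -/
def ctabR0 : ℕ := cat2G 12288 393216 RT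

/-- The table of the classes: 2 ^ 20 lanes of 12 bits. -/
def ctabR : ℕ := ruG 12 sw10 20 ctabR0

/-- The bounds of the entries and the lengths of the lists. -/
def rtok (l : List (List ℕ)) : Bool :=
  l.all fun a => decide (a.length = 32) && a.all fun x => Nat.blt x (Nat.pow 2 12288)

theorem rtok_RT : rtok RT = true := by decide +kernel

theorem RT_len : RT.length = 32 := rfl

theorem RT_data : (∀ l ∈ RT, l.length = 32) ∧ ∀ l ∈ RT, ∀ a ∈ l, a < 2 ^ (12 * 1024) := by
  have h := rtok_RT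
  unfold rtok at h
  rw [List.all_eq_true] at h
  constructor
  · intro l hl
    have h1 := h l hl
    rw [Bool.and_eq_true] at h1
    exact of_decide_eq_true h1.1
  · intro l hl a ha
    have h1 := h l hl
    rw [Bool.and_eq_true, List.all_eq_true] at h1
    have h2 := h1.2 a ha
    have h3 := Nat.le_of_ble_eq_true h2
    exact h3

theorem ctabR0_lane (K k i : ℕ) (hk : k < 32) (hi : i < 1024) :
    Ln 12 ctabR0 ((i + 1024 * k) + 1024 * 32 * K) = Ln 12 ((RT.getD K []).getD k 0) i :=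
  cat2G_lane 12 1024 32 RT RT_data.1 RT_data.2 K k i hk hi

theorem ctabR0_lt : ctabR0 < 2 ^ (12 * 2 ^ 20) := by
  have h1 : ∀ a ∈ RT.map (catG 12288), a < 2 ^ (12 * (1024 * 32)) := by
    intro a ha
    rw [List.mem_map] at ha
    obtain ⟨l, hl, rfl⟩ := ha
    have h3 := catG_lt 12 1024 l (RT_data.2 l hl)
    rwa [RT_data.1 l hl] at h3
  have h2 := catG_lt 12 (1024 * 32) _ h1
  rw [List.length_map, RT_len] at h2
  have e : ctabR0 = catG (12 * (1024 * 32)) (RT.map (catG 12288)) := cat2G_eq 12288 393216 RT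
  rw [e]
  exact h2

theorem ctabR_ar : Ar 12 20 ctabR fun b => Ln 12 ctabR0 (idx 20 (seG sw10 20 b)) := by
  have h3 : Ar 12 20 ctabR0 fun b => Ln 12 ctabR0 (idx 20 b) := ⟨ctabR0_lt, fun _ => rfl⟩
  have h4 := ruG_ar (by norm_num) sw10 20 ctabR0 _ sw10_ok.1 h3
  rw [sw10_ok.2] at h4
  exact h4

/-- The number of the class of a code. -/
def cixR (c : ℕ) : ℕ := Ln 12 ctabR c

/-- The row of the pattern `p`. -/
def rowR (p : ℕ) : ℕ := (RT.getD (Nat.div p 32) []).getD (Nat.mod p 32) 0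

theorem cixR_row (p : ℕ) (hp : p < 1024) (x : ℕ) (hx : x < 1024) :
    cixR (p + 1024 * x) = Ln 12 (rowR p) x := by
  have hc : p + 1024 * x < 2 ^ 20 := by norm_num; omega
  have h1 := ctabR_ar.lane (p + 1024 * x) hc
  rw [cixR, h1]
  have h2 : x + 1024 * p < 2 ^ 20 := by norm_num; omega
  have h3 : idx 20 (seG sw10 20 (p + 1024 * x).testBit) = x + 1024 * p := by
    rw [← idx_testBit 20 (x + 1024 * p) h2]
    apply idx_congr
    intro r hr
    rw [sw10_se _ r hr]
    have e1 : p + 1024 * x = 2 ^ 10 * x + p := by ring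
    have e2 : x + 1024 * p = 2 ^ 10 * p + x := by ring
    rw [e1, e2, Nat.testBit_two_pow_mul_add _ (by norm_num; omega),
      Nat.testBit_two_pow_mul_add _ (by norm_num; omega)]
    by_cases h4 : r < 10
    · rw [if_pos h4, if_pos h4, if_neg (by omega), Nat.add_sub_cancel]
    · rw [if_neg h4, if_neg h4, if_pos (by omega)]
  rw [h3]
  have e3 : x + 1024 * p = (x + 1024 * (p % 32)) + 1024 * 32 * (p / 32) := by omega
  rw [e3]
  exact ctabR0_lane (p / 32) (p % 32) x (Nat.mod_lt _ (by norm_num)) hx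

theorem ctabR_inv : ivG 12 20 mvsR ctabR = true := by decide +kernel

theorem cixR_move (i : ℕ) (b : ℕ → Bool) :
    cixR (idx 20 (seG (mvsR.getD i []) 20 b)) = cixR (idx 20 b) := by
  obtain ⟨h1, h2⟩ := mvsR_getD i
  rcases getD_mem_or mvsR i [] with h3 | h3
  · exact inv_lane (by norm_num) ctabR_ar.lt _ h1 h2 (ivG_mem 12 20 mvsR ctabR ctabR_inv _ h3) b
  · rw [h3]
    rfl

/-! ### Class functions on tuples -/

section tup
variable {n : ℕ} (H : Finset (Finset (Fin n)))

theorem qd_cast7 : ∀ k < 20, (qd 7 k).image (Fin.castSucc : Fin 7 → Fin 8) = qd 8 k := by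
  decide +kernel

theorem cL_snoc8 (r : Fin n) (s : Fin 6 → Fin n) (w : Fin n) :
    idx 20 (gc H (Fin.cons r (Fin.snoc s w : Fin 7 → Fin n) : Fin 8 → Fin n)) = cL H r s := by
  apply idx_congr
  intro k hk
  have h1 : gc H (Fin.cons r (Fin.snoc s w : Fin 7 → Fin n) : Fin 8 → Fin n) k =
      zb H (Fin.cons r (Fin.snoc s w : Fin 7 → Fin n) : Fin 8 → Fin n) (qd 8 k) := rfl
  rw [h1, ← qd_cast7 k hk, ← zb_comp]
  have h2 : (Fin.cons r (Fin.snoc s w : Fin 7 → Fin n) : Fin 8 → Fin n) ∘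
      (Fin.castSucc : Fin 7 → Fin 8) = (Fin.cons r s : Fin 7 → Fin n) := by
    funext i
    refine Fin.cases rfl (fun i => ?_) i
    rw [Function.comp_apply, ← Fin.succ_castSucc, Fin.cons_succ, Fin.cons_succ, Fin.snoc_castSucc]
  rw [h2]
  rfl

theorem exT_last (i : Fin 5) : ∀ j : Fin 6, exT i i.isLt j.castSucc =
    (Equiv.swap i.castSucc i.succ j : Fin 6).castSucc := by
  revert i
  decide +kernel

theorem exT_fix (i : Fin 5) : exT i i.isLt (Fin.last 6) = Fin.last 6 := by
  revert i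
  decide +kernel

theorem cixR_swap (r : Fin n) (s : Fin 6 → Fin n) (i : Fin 5) :
    cixR (cL H r (s ∘ (Equiv.swap i.castSucc i.succ : Equiv.Perm (Fin 6)))) =
      cixR (cL H r s) := by
  have h1 := gc_moveR H r (Fin.snoc s r : Fin 7 → Fin n) i
  have h2 : (Fin.snoc s r : Fin 7 → Fin n) ∘ exT i i.isLt =
      (Fin.snoc (s ∘ (Equiv.swap i.castSucc i.succ : Equiv.Perm (Fin 6))) r : Fin 7 → Fin n) := by
    funext j
    refine Fin.lastCases ?_ (fun j => ?_) j
    · rw [Function.comp_apply, exT_fix, Fin.snoc_last, Fin.snoc_last]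
    · rw [Function.comp_apply, exT_last, Fin.snoc_castSucc, Fin.snoc_castSucc, Function.comp_apply]
  rw [h2, cL_snoc8] at h1
  rw [h1, cixR_move, cL_snoc8]

/-- The class does not depend on the order of the six vertices. -/
theorem cixR_perm (r : Fin n) (τ : Equiv.Perm (Fin 6)) : ∀ s : Fin 6 → Fin n,
    cixR (cL H r (s ∘ τ)) = cixR (cL H r s) := by
  have hgen : τ ∈ Submonoid.closure
      (Set.range fun i : Fin 5 => (Equiv.swap i.castSucc i.succ : Equiv.Perm (Fin 6))) := by
    rw [Equiv.Perm.mclosure_swap_castSucc_succ]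
    exact Submonoid.mem_top τ
  refine Submonoid.closure_induction (motive := fun (τ : Equiv.Perm (Fin 6)) _ =>
    ∀ s : Fin 6 → Fin n, cixR (cL H r (s ∘ τ)) = cixR (cL H r s)) ?_ ?_ ?_ hgen
  · rintro _ ⟨i, rfl⟩ s
    exact cixR_swap H r s i
  · intro s
    rfl
  · intro τ₁ τ₂ _ _ h1 h2 s
    have e : s ∘ (τ₁ * τ₂ : Equiv.Perm (Fin 6)) = (s ∘ τ₁) ∘ τ₂ := rfl
    rw [e, h2 (s ∘ τ₁), h1 s]

/-- Class functions of the link are invariant. -/
theorem MR_perm (v : ℕ → ℤ) (r : Fin n) (τ : Equiv.Perm (Fin 6)) (s : Fin 6 → Fin n) :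
    MR H (fun c => v (cixR c)) r (s ∘ τ) = MR H (fun c => v (cixR c)) r s := by
  change v (cixR (cL H r (s ∘ τ))) = v (cixR (cL H r s))
  rw [cixR_perm]

end tup

/-! ### Rows of values -/

/-- The array of the lanes of `V` whose numbers are the lanes `s, …, s + 2 ^ k - 1` of `R`. -/
def vr12 (W V R k : ℕ) : ℕ → ℕ :=
  @Nat.rec (fun _ => ℕ → ℕ) (fun s => lkG W V (lkG 12 R s))
    (fun k ih s => Nat.add (ih s) (Nat.shiftLeft (ih (Nat.add s (Nat.pow 2 k)))
      (Nat.mul W (Nat.pow 2 k)))) k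

theorem vr12_ar {W V R : ℕ} (hW : 0 < W) (k : ℕ) : ∀ s,
    Ar W k (vr12 W V R k s) fun b => Ln W V (Ln 12 R (s + idx k b)) := by
  induction k with
  | zero =>
    intro s
    have e : vr12 W V R 0 s = Ln W V (Ln 12 R s) := by
      change lkG W V (lkG 12 R s) = _
      rw [lkG_eq, lkG_eq]
    rw [e]
    refine (Ar.ofLt (Ln_lt W V _)).congr fun b => ?_
    rw [idx, add_zero]
  | succ k ih =>
    intro s
    have e : vr12 W V R (k + 1) s =
      vr12 W V R k s + (vr12 W V R k (s + 2 ^ k)) <<< (W * 2 ^ k) := rfl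
    rw [e]
    refine ((ih s).cat (ih (s + 2 ^ k)) hW).congr fun b => ?_
    rw [idx]
    cases b k
    · rw [if_neg (by simp), Bool.toNat_false, mul_zero, add_zero]
    · rw [if_pos rfl, Bool.toNat_true, mul_one]
      congr 2
      ring

/-- The values of the class function `V` at the codes with the pattern `p`. -/
def rw12 (W V p : ℕ) : ℕ := vr12 W V (rowR p) 10 0

theorem rw12_ar {W : ℕ} (V p : ℕ) (hW : 0 < W) (hp : p < 1024) :
    Ar W 10 (rw12 W V p) fun b => Ln W V (cixR (p + 1024 * idx 10 b)) := by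
  refine (vr12_ar hW 10 0).congr fun b => ?_
  have h : idx 10 b < 1024 := idx_lt 10 b
  rw [zero_add, cixR_row p hp _ h]

end Pool.Agent.Lib.MP_afdd4d_co.K8.L9
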