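import Pool.Agent.Lib.MP_afdd4d_co.L9.LLst
import Pool.Agent.Lib.MP_afdd4d_co.L9.TabR
import Pool.Agent.Lib.MP_afdd4d_co.L9.Par

/-!
# The rows of the links from tables

The kernel comes from the vectors of the types of the patterns, the function of the links from a
literal with one lane for each class of 3-graphs on six points, the function of the even 4-graphs from
a literal with one lane for each class of even 4-graphs on seven points.
-/

namespace Pool.Agent.Lib.MP_afdd4d_co.K8.L9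

open Finset

/-- The data of the rows of the links. -/
structure LIn where
  D : LT2
  /-- the lane of a class of 3-graphs is `O'` minus the value of the function of the links -/
  VR : ℕ
  /-- the lane of a class of even 4-graphs is `OB` minus half of the value -/
  VQ : ℕ
  O' : ℕ
  OB : ℕ
  B2 : ℕ
  B3 : ℕ
  hVR : ∀ k, Ln 64 VR k ≤ B2
  hVQ : ∀ k, Ln 64 VQ k ≤ B3
  hB2 : B2 ≤ 21 * D.O + 7 * O' + OB
  hbd : 35 * (2 * D.O + B2) + 2 * B3 < 2 ^ 63

namespace LIn
variable (I : LIn)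

/-- The value at a code, from the row of its pattern. -/
def qf (c : ℕ) : ℕ := lkG 64 I.VR (lkG 12 (rowR (Nat.mod c 1024)) (Nat.div c 1024))

theorem qf_eq (c : ℕ) (hc : c < 2 ^ 20) : I.qf c = Ln 64 I.VR (cixR c) := by
  have h2 : c / 1024 < 1024 := by
    apply Nat.div_lt_of_lt_mul
    exact lt_of_lt_of_le hc (by norm_num)
  have h3 : c % 1024 + 1024 * (c / 1024) = c := Nat.mod_add_div c 1024
  have h1 := cixR_row (c % 1024) (Nat.mod_lt _ (by norm_num)) (c / 1024) h2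
  rw [h3] at h1
  rw [h1]
  change lkG 64 I.VR (lkG 12 (rowR (c % 1024)) (c / 1024)) = _
  rw [lkG_eq, lkG_eq]

theorem qf_le (c : ℕ) : I.qf c ≤ I.B2 := by
  unfold qf
  rw [lkG_eq]
  exact I.hVR _

/-- The function of the links. -/
def M (c : ℕ) : ℤ := (I.O' : ℤ) - Ln 64 I.VR (cixR c)

/-- The part of a row from the kernel. -/
def rowK (p x : ℕ) : ℕ := ruG 64 (I.D.pgr (I.D.pp p)) 10
  (rwG (I.D.KO (I.D.ip p)) I.D.off (I.D.c (I.D.ip p)) (act (a2T (I.D.pp p)) x) (I.D.Rp (I.D.ip p)))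

theorem rowK_eq (p x : ℕ) : I.rowK p x = I.D.T.rowK p x := rfl

/-- The row of a code. -/
def row (c : ℕ) : ℕ :=
  Nat.add (I.rowK (Nat.mod c 1024) (Nat.div c 1024)) (rw12 64 I.VR (Nat.mod c 1024))

/-- The row of the values of the even 4-graphs. -/
def rowB (c : ℕ) : ℕ := row7 64 I.VQ (Nat.mod c 1024)

/-- The value of the class of an even 4-graph. -/
def vB (k : ℕ) : ℤ := 2 * (I.OB : ℤ) - 2 * (Ln 64 I.VQ k : ℤ)

theorem gN_le (p x y : ℕ) : gN I.D.T.lg.g I.D.O p x y ≤ 2 * I.D.O := by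
  unfold gN
  have h : |I.D.T.lg.g (p + 1024 * x) (p + 1024 * y)| ≤ (I.D.O : ℤ) :=
    I.D.T.lg_abs (p + 1024 * x) (p + 1024 * y)
  have h' := abs_le.mp h
  rw [Int.toNat_le]
  push_cast
  linarith [h'.2]

theorem row_ar (c : ℕ) : Ar 64 10 (I.row c) fun b =>
    gN I.D.T.lg.g I.D.O (c % 1024) (c / 1024) (idx 10 b) +
      I.qf (c % 1024 + 1024 * idx 10 b) := by
  have hp : c % 1024 < 1024 := Nat.mod_lt _ (by norm_num)
  have h1 : Ar 64 10 (I.D.T.rowK (c % 1024) (c / 1024)) fun b =>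
    gN I.D.T.lg.g I.D.O (c % 1024) (c / 1024) (idx 10 b) := I.D.T.rowK_ar (c % 1024) (c / 1024) hp
  rw [← rowK_eq] at h1
  have h2 := rw12_ar (W := 64) I.VR (c % 1024) (by norm_num) hp
  have hbd := I.hbd
  have h3 := h1.add h2 (by norm_num) (fun b => by
    have h4 := I.gN_le (c % 1024) (c / 1024) (idx 10 b)
    have h5 := I.hVR (cixR (c % 1024 + 1024 * idx 10 b))
    omega)
  have e : I.row c = I.rowK (c % 1024) (c / 1024) + rw12 64 I.VR (c % 1024) := rfl
  rw [e]
  refine h3.congr fun b => ?_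
  have hb : idx 10 b < 1024 := idx_lt 10 b
  have h6 : c % 1024 + 1024 * idx 10 b < 2 ^ 20 := by norm_num; omega
  rw [I.qf_eq _ h6]

theorem rowB_ar (c : ℕ) : Ar 64 10 (I.rowB c) fun b =>
    Ln 64 I.VQ (cix (c % 1024 + 1024 * idx 10 b)) :=
  row7_ar (W := 64) I.VQ (c % 1024) (by norm_num) (Nat.mod_lt _ (by norm_num))

/-- The check of the rows of the links. -/
noncomputable def C : ChkRB where
  g := I.D.T.lg.g
  M := I.M
  O := I.D.O
  O' := I.O'
  B2 := I.B2
  Q := I.qf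
  bk := I.D.bk
  row := I.row
  W := 64
  hW := by norm_num
  hs := I.D.T.lg.g_symm
  hO := I.D.T.lg_abs
  hQ2 := I.qf_le
  hp H r τ s u w := I.D.T.lg.kR_perm H r τ s u w
  hM H r τ s := MR_perm H (fun k => (I.O' : ℤ) - Ln 64 I.VR k) r τ s
  hQ c hc := by
    rw [I.qf_eq c hc]
    unfold M
    linarith
  hbd := by
    have := I.hbd
    have e : (2 : ℕ) ^ (64 - 1) = 2 ^ 63 := by norm_num
    omega
  hbk p hp x0 hx y0 hy := I.D.bk_ar p x0 y0 hp hx hy
  hrow c _ := I.row_ar c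
  vB := I.vB
  OB := I.OB
  B3 := I.B3
  QB c := Ln 64 I.VQ (cix c)
  rowB := I.rowB
  hQB2 c := I.hVQ _
  hQB c := by
    unfold vB
    linarith
  hbd3 := by
    have := I.hbd
    have e : (2 : ℕ) ^ (64 - 1) = 2 ^ 63 := by norm_num
    omega
  hrowB c _ := I.rowB_ar c

theorem hlt : ∀ c ∈ repsR, I.C.Q c ≤ 21 * I.C.O + 7 * I.C.O' + I.C.OB :=
  fun c _ => le_trans (I.qf_le c) I.hB2

/-- The kernel. -/
noncomputable def kr : RKern := I.D.T.lg.kern

theorem kr_f {n : ℕ} (H : Finset (Finset (Fin n))) (r : Fin n) :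
    I.kr.f H r = kR H I.C.g r := rfl

/-- The rows of the links. -/
theorem link_ineq (hall : ∀ j < 1088, I.C.oneB (reE j) = true) {n : ℕ}
    (H : Finset (Finset (Fin n))) (r : Fin n) (s : Fin 7 → Fin n) (hs : Function.Injective s)
    (hr : ∀ i, s i ≠ r) :
    PS (kR H I.D.T.lg.g r) s ≤ BV (EvR H r) I.vB s + 2 * DS (MR H I.M r) s :=
  I.C.link_ineq_tab I.hlt hall H r s hs hr

end LIn

end Pool.Agent.Lib.MP_afdd4d_co.K8.L9
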