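import Pool.Agent.Lib.MP_afdd4d_co.L9.LSgen
import Pool.Agent.Lib.MP_afdd4d_co.L9.LInst

/-!
# Blocks without lists

The block of two lists is computed eight arrays at a time; nothing is interpreted during the evaluation.
-/

namespace Pool.Agent.Lib.MP_afdd4d_co.K8.L9

open Finset

set_option exponentiation.threshold 100000

/-! ### The moves of the index bits -/

/-- The array with the bits of the marked vertex `0` at the low end. -/
def mvF0 (A : ℕ) : ℕ := swG (nat_lit 64) (nat_lit 10) (nat_lit 3) (nat_lit 6)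
  (swG (nat_lit 64) (nat_lit 10) (nat_lit 2) (nat_lit 3) A)

/-- The array with the bits of the marked vertex `1` at the low end. -/
def mvF1 (A : ℕ) : ℕ := swG (nat_lit 64) (nat_lit 10) (nat_lit 3) (nat_lit 7)
  (swG (nat_lit 64) (nat_lit 10) (nat_lit 2) (nat_lit 4)
    (swG (nat_lit 64) (nat_lit 10) (nat_lit 1) (nat_lit 2) A))

/-- The array with the bits of the marked vertex `2` at the low end. -/
def mvF2 (A : ℕ) : ℕ := swG (nat_lit 64) (nat_lit 10) (nat_lit 3) (nat_lit 8)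
  (swG (nat_lit 64) (nat_lit 10) (nat_lit 2) (nat_lit 5)
    (swG (nat_lit 64) (nat_lit 10) (nat_lit 1) (nat_lit 2)
      (swG (nat_lit 64) (nat_lit 10) (nat_lit 0) (nat_lit 1) A)))

/-- The array with the bits of the marked vertex `3` at the low end. -/
def mvF3 (A : ℕ) : ℕ := swG (nat_lit 64) (nat_lit 10) (nat_lit 3) (nat_lit 9)
  (swG (nat_lit 64) (nat_lit 10) (nat_lit 2) (nat_lit 5)
    (swG (nat_lit 64) (nat_lit 10) (nat_lit 1) (nat_lit 4)
      (swG (nat_lit 64) (nat_lit 10) (nat_lit 0) (nat_lit 3) A)))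

/-- The array with the bits of the marked vertex `4` at the low end. -/
def mvF4 (A : ℕ) : ℕ := swG (nat_lit 64) (nat_lit 10) (nat_lit 3) (nat_lit 9)
  (swG (nat_lit 64) (nat_lit 10) (nat_lit 2) (nat_lit 8)
    (swG (nat_lit 64) (nat_lit 10) (nat_lit 1) (nat_lit 7)
      (swG (nat_lit 64) (nat_lit 10) (nat_lit 0) (nat_lit 6) A)))

theorem mvF0_eq (A : ℕ) : mvF0 A = mvW 0 A := rfl

theorem mvF1_eq (A : ℕ) : mvF1 A = mvW 1 A := rfl

theorem mvF2_eq (A : ℕ) : mvF2 A = mvW 2 A := rfl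

theorem mvF3_eq (A : ℕ) : mvF3 A = mvW 3 A := rfl

theorem mvF4_eq (A : ℕ) : mvF4 A = mvW 4 A := rfl

/-! ### The terms -/

/-- The low halves of a slice. -/
def loF (X h l : ℕ) : ℕ := Nat.land (slR X h l) m16

/-- The high halves of a slice. -/
def hiF (X h l : ℕ) : ℕ := Nat.land (Nat.shiftRight (slR X h l) (nat_lit 32)) m16

/-- The low halves of a slice, spread. -/
def spL (X h l : ℕ) : ℕ := spG (loF X h l)

/-- The high halves of a slice, spread. -/
def spH (X h l : ℕ) : ℕ := spG (hiF X h l)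

/-- The products of the halves. -/
def tmF (h l h' l' X : ℕ) : ℕ := Nat.add (Nat.mul (loF X h l) (spL X h' l'))
  (Nat.mul (hiF X h l) (spH X h' l'))

/-- Eight arrays. -/
structure O8 where
  a : ℕ
  b : ℕ
  c : ℕ
  d : ℕ
  e : ℕ
  f : ℕ
  g : ℕ
  k : ℕ

/-- The sum of the products of the halves. -/
noncomputable def dtF (h l h' l' : ℕ) (L : List O8) : ℕ := @List.rec O8 (fun _ => ℕ) (nat_lit 0)
  (fun q _ ih => @O8.rec (fun _ => ℕ) (fun a b c d e f g k =>
    Nat.add (Nat.add (Nat.add (tmF h l h' l' a) (tmF h l h' l' b))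
      (Nat.add (tmF h l h' l' c) (tmF h l h' l' d)))
      (Nat.add (Nat.add (Nat.add (tmF h l h' l' e) (tmF h l h' l' f))
        (Nat.add (tmF h l h' l' g) (tmF h l h' l' k))) ih)) q) L

/-- The arrays with the numbers below `8 * q`, in front of a list. -/
def bld (w : ℕ → ℕ) (q : ℕ) : List O8 → List O8 := @Nat.rec (fun _ => List O8 → List O8) (fun L => L)
  (fun i ih L => ih (List.cons (O8.mk (w (Nat.mul (nat_lit 8) i))
    (w (Nat.add (Nat.mul (nat_lit 8) i) (nat_lit 1)))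
    (w (Nat.add (Nat.mul (nat_lit 8) i) (nat_lit 2)))
    (w (Nat.add (Nat.mul (nat_lit 8) i) (nat_lit 3)))
    (w (Nat.add (Nat.mul (nat_lit 8) i) (nat_lit 4)))
    (w (Nat.add (Nat.mul (nat_lit 8) i) (nat_lit 5)))
    (w (Nat.add (Nat.mul (nat_lit 8) i) (nat_lit 6)))
    (w (Nat.add (Nat.mul (nat_lit 8) i) (nat_lit 7)))) L)) q

/-- The block. -/
noncomputable def blF (KO off S : ℕ) (L : List O8) (h l h' l' : ℕ) : ℕ :=
  Nat.add (dtF h l h' l' L) (Nat.add (Nat.mul (dgW KO off S h l) (csG 1024 1 4))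
    (Nat.mul (csG 64 1 4) (spG (dgW KO off S h' l'))))

/-! ### The equality with the block of two lists -/

theorem dtF_bld (h l h' l' : ℕ) (w : ℕ → ℕ) : ∀ (q : ℕ) (L : List O8),
    dtF h l h' l' (bld w q L) = ∑ j ∈ range (8 * q), tmF h l h' l' (w j) + dtF h l h' l' L := by
  intro q
  induction q with
  | zero =>
    intro L
    rw [Nat.mul_zero, Finset.range_zero, Finset.sum_empty, Nat.zero_add]
    rfl
  | succ q ih =>
    intro L
    have e : bld w (q + 1) L = bld w q (⟨w (8 * q), w (8 * q + 1), w (8 * q + 2), w (8 * q + 3),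
      w (8 * q + 4), w (8 * q + 5), w (8 * q + 6), w (8 * q + 7)⟩ :: L) := rfl
    rw [e, ih]
    have e2 : dtF h l h' l' (⟨w (8 * q), w (8 * q + 1), w (8 * q + 2), w (8 * q + 3),
      w (8 * q + 4), w (8 * q + 5), w (8 * q + 6), w (8 * q + 7)⟩ :: L) =
      ((tmF h l h' l' (w (8 * q)) + tmF h l h' l' (w (8 * q + 1))) +
      (tmF h l h' l' (w (8 * q + 2)) + tmF h l h' l' (w (8 * q + 3)))) +
      (((tmF h l h' l' (w (8 * q + 4)) + tmF h l h' l' (w (8 * q + 5))) +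
      (tmF h l h' l' (w (8 * q + 6)) + tmF h l h' l' (w (8 * q + 7)))) + dtF h l h' l' L) := rfl
    rw [e2]
    have e3 : 8 * (q + 1) = 8 * q + 8 := by ring
    rw [e3]
    simp only [Finset.sum_range_succ]
    ring

theorem vcW_lh (h l : ℕ) (w : ℕ → ℕ) : ∀ (n : ℕ) (L : List ℕ),
    (vcW h l w n L).length = 2 * n + L.length ∧
    (∀ j < n, (vcW h l w n L).getD (2 * j) 0 = loF (w j) h l ∧
      (vcW h l w n L).getD (2 * j + 1) 0 = hiF (w j) h l) ∧
    ∀ k, (vcW h l w n L).getD (2 * n + k) 0 = L.getD k 0 := by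
  intro n
  induction n with
  | zero =>
    intro L
    have e : vcW h l w 0 L = L := rfl
    rw [e]
    exact ⟨by omega, fun j hj => absurd hj (Nat.not_lt_zero j), fun k => by
      rw [Nat.mul_zero, Nat.zero_add]⟩
  | succ n ih =>
    intro L
    have e : vcW h l w (n + 1) L = vcW h l w n (loF (w n) h l :: hiF (w n) h l :: L) := rfl
    rw [e]
    obtain ⟨h1, h2, h3⟩ := ih (loF (w n) h l :: hiF (w n) h l :: L)
    refine ⟨?_, fun j hj => ?_, fun k => ?_⟩
    · rw [h1, List.length_cons, List.length_cons]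
      omega
    · rcases Nat.lt_or_ge j n with h4 | h4
      · exact h2 j h4
      · have e5 : j = n := by omega
        subst e5
        have h6 := h3 0
        have h7 := h3 1
        rw [Nat.add_zero, List.getD_cons_zero] at h6
        rw [List.getD_cons_succ, List.getD_cons_zero] at h7
        exact ⟨h6, h7⟩
    · have e1 : 2 * (n + 1) + k = 2 * n + (k + 2) := by ring
      rw [e1, h3 (k + 2), List.getD_cons_succ, List.getD_cons_succ]

theorem dotG_sum : ∀ (l m : List ℕ), l.length = m.length →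
    dotG l m = ∑ k ∈ range l.length, l.getD k 0 * spG (m.getD k 0) := by
  intro l
  induction l with
  | nil =>
    intro m _
    rw [List.length_nil, Finset.range_zero, Finset.sum_empty]
    rfl
  | cons a l ih =>
    intro m hlen
    cases m with
    | nil => exact absurd hlen (by simp)
    | cons b m =>
      have hlen' : l.length = m.length := by simpa using hlen
      have e : dotG (a :: l) (b :: m) = a * spG b + dotG l m := rfl
      rw [e, ih m hlen', List.length_cons, Finset.sum_range_succ']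
      simp only [List.getD_cons_zero, List.getD_cons_succ]
      rw [Nat.add_comm]

theorem slR_zero (h l : ℕ) : slR 0 h l = 0 := by
  have e : slR 0 h l = ((0 >>> (8192 * h)) % 2 ^ 8192) >>> (1024 * l) % 2 ^ 1024 := rfl
  rw [e, Nat.zero_shiftRight, Nat.zero_mod, Nat.zero_shiftRight, Nat.zero_mod]

theorem tmF_zero (h l h' l' : ℕ) : tmF h l h' l' 0 = 0 := by
  have e1 : loF 0 h l = 0 := by
    have e : loF 0 h l = slR 0 h l &&& m16 := rfl
    rw [e, slR_zero, Nat.zero_and]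
  have e2 : hiF 0 h l = 0 := by
    have e : hiF 0 h l = (slR 0 h l >>> 32) &&& m16 := rfl
    rw [e, slR_zero, Nat.zero_shiftRight, Nat.zero_and]
  have e : tmF h l h' l' 0 = loF 0 h l * spL 0 h' l' + hiF 0 h l * spH 0 h' l' := rfl
  rw [e, e1, e2, Nat.zero_mul, Nat.zero_mul]

theorem blF_eq (KO off R S q : ℕ) (w : ℕ → ℕ) (hR : R ≤ 8 * q)
    (hz : ∀ j, R ≤ j → j < 8 * q → w j = 0) (h l h' l' : ℕ) :
    blF KO off S (bld w q []) h l h' l' =
      blL (lsW KO off R S w h l) (lsW KO off R S w h' l') := by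
  have e : blL (lsW KO off R S w h l) (lsW KO off R S w h' l') =
      dotG (vcW h l w R []) (vcW h' l' w R []) + (dgW KO off S h l * csG 1024 1 4 +
        csG 64 1 4 * spG (dgW KO off S h' l')) := rfl
  have e' : blF KO off S (bld w q []) h l h' l' =
      dtF h l h' l' (bld w q []) + (dgW KO off S h l * csG 1024 1 4 +
        csG 64 1 4 * spG (dgW KO off S h' l')) := rfl
  rw [e, e']
  congr 1
  obtain ⟨h1, h2, -⟩ := vcW_lh h l w R []
  obtain ⟨h1', h2', -⟩ := vcW_lh h' l' w R []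
  have hl : (vcW h l w R []).length = 2 * R := by rw [h1]; rfl
  have hl' : (vcW h' l' w R []).length = 2 * R := by rw [h1']; rfl
  rw [dotG_sum _ _ (by rw [hl, hl']), hl, sum_twoN, dtF_bld]
  have e0 : dtF h l h' l' [] = 0 := rfl
  rw [e0, Nat.add_zero]
  have e1 : ∑ j ∈ range (8 * q), tmF h l h' l' (w j) = ∑ j ∈ range R, tmF h l h' l' (w j) := by
    symm
    apply Finset.sum_subset (Finset.range_mono hR)
    intro j hj hj'
    have hj1 : j < 8 * q := Finset.mem_range.mp hj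
    have hj2 : R ≤ j := by
      by_contra hc
      exact hj' (Finset.mem_range.mpr (by omega))
    rw [hz j hj2 hj1, tmF_zero]
  rw [e1]
  refine Finset.sum_congr rfl fun j hj => ?_
  have hj' := Finset.mem_range.mp hj
  rw [(h2 j hj').1, (h2 j hj').2, (h2' j hj').1, (h2' j hj').2]
  rfl

/-! ### The programs of the blocks -/

/-- The program `0`. -/
def rf00 (A : ℕ) : ℕ := A

/-- The program `1`. -/
def rf01 (A : ℕ) : ℕ := swG (nat_lit 64) (nat_lit 8) (nat_lit 6) (nat_lit 7)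
    (swG (nat_lit 64) (nat_lit 8) (nat_lit 2) (nat_lit 3) A)

/-- The program `2`. -/
def rf02 (A : ℕ) : ℕ := swG (nat_lit 64) (nat_lit 8) (nat_lit 5) (nat_lit 6)
    (swG (nat_lit 64) (nat_lit 8) (nat_lit 1) (nat_lit 2) A)

/-- The program `3`. -/
def rf03 (A : ℕ) : ℕ := swG (nat_lit 64) (nat_lit 8) (nat_lit 5) (nat_lit 7)
    (swG (nat_lit 64) (nat_lit 8) (nat_lit 5) (nat_lit 6)
    (swG (nat_lit 64) (nat_lit 8) (nat_lit 1) (nat_lit 3)
    (swG (nat_lit 64) (nat_lit 8) (nat_lit 1) (nat_lit 2) A)))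

/-- The program `4`. -/
def rf04 (A : ℕ) : ℕ := swG (nat_lit 64) (nat_lit 8) (nat_lit 5) (nat_lit 6)
    (swG (nat_lit 64) (nat_lit 8) (nat_lit 5) (nat_lit 7)
    (swG (nat_lit 64) (nat_lit 8) (nat_lit 1) (nat_lit 2)
    (swG (nat_lit 64) (nat_lit 8) (nat_lit 1) (nat_lit 3) A)))

/-- The program `5`. -/
def rf05 (A : ℕ) : ℕ := swG (nat_lit 64) (nat_lit 8) (nat_lit 5) (nat_lit 7)
    (swG (nat_lit 64) (nat_lit 8) (nat_lit 1) (nat_lit 3) A)

/-- The program `6`. -/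
def rf06 (A : ℕ) : ℕ := swG (nat_lit 64) (nat_lit 8) (nat_lit 4) (nat_lit 5)
    (swG (nat_lit 64) (nat_lit 8) (nat_lit 0) (nat_lit 1) A)

/-- The program `7`. -/
def rf07 (A : ℕ) : ℕ := swG (nat_lit 64) (nat_lit 8) (nat_lit 6) (nat_lit 7)
    (swG (nat_lit 64) (nat_lit 8) (nat_lit 4) (nat_lit 5)
    (swG (nat_lit 64) (nat_lit 8) (nat_lit 2) (nat_lit 3)
    (swG (nat_lit 64) (nat_lit 8) (nat_lit 0) (nat_lit 1) A)))

/-- The program `8`. -/
def rf08 (A : ℕ) : ℕ := swG (nat_lit 64) (nat_lit 8) (nat_lit 4) (nat_lit 6)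
    (swG (nat_lit 64) (nat_lit 8) (nat_lit 4) (nat_lit 5)
    (swG (nat_lit 64) (nat_lit 8) (nat_lit 0) (nat_lit 2)
    (swG (nat_lit 64) (nat_lit 8) (nat_lit 0) (nat_lit 1) A)))

/-- The program `9`. -/
def rf09 (A : ℕ) : ℕ := swG (nat_lit 64) (nat_lit 8) (nat_lit 4) (nat_lit 7)
    (swG (nat_lit 64) (nat_lit 8) (nat_lit 4) (nat_lit 6)
    (swG (nat_lit 64) (nat_lit 8) (nat_lit 4) (nat_lit 5)
    (swG (nat_lit 64) (nat_lit 8) (nat_lit 0) (nat_lit 3)
    (swG (nat_lit 64) (nat_lit 8) (nat_lit 0) (nat_lit 2)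
    (swG (nat_lit 64) (nat_lit 8) (nat_lit 0) (nat_lit 1) A)))))

/-- The program `10`. -/
def rf10 (A : ℕ) : ℕ := swG (nat_lit 64) (nat_lit 8) (nat_lit 4) (nat_lit 6)
    (swG (nat_lit 64) (nat_lit 8) (nat_lit 4) (nat_lit 7)
    (swG (nat_lit 64) (nat_lit 8) (nat_lit 4) (nat_lit 5)
    (swG (nat_lit 64) (nat_lit 8) (nat_lit 0) (nat_lit 2)
    (swG (nat_lit 64) (nat_lit 8) (nat_lit 0) (nat_lit 3)
    (swG (nat_lit 64) (nat_lit 8) (nat_lit 0) (nat_lit 1) A)))))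

/-- The program `11`. -/
def rf11 (A : ℕ) : ℕ := swG (nat_lit 64) (nat_lit 8) (nat_lit 4) (nat_lit 7)
    (swG (nat_lit 64) (nat_lit 8) (nat_lit 4) (nat_lit 5)
    (swG (nat_lit 64) (nat_lit 8) (nat_lit 0) (nat_lit 3)
    (swG (nat_lit 64) (nat_lit 8) (nat_lit 0) (nat_lit 1) A)))

/-- The program `12`. -/
def rf12 (A : ℕ) : ℕ := swG (nat_lit 64) (nat_lit 8) (nat_lit 4) (nat_lit 5)
    (swG (nat_lit 64) (nat_lit 8) (nat_lit 4) (nat_lit 6)
    (swG (nat_lit 64) (nat_lit 8) (nat_lit 0) (nat_lit 1)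
    (swG (nat_lit 64) (nat_lit 8) (nat_lit 0) (nat_lit 2) A)))

/-- The program `13`. -/
def rf13 (A : ℕ) : ℕ := swG (nat_lit 64) (nat_lit 8) (nat_lit 5) (nat_lit 7)
    (swG (nat_lit 64) (nat_lit 8) (nat_lit 4) (nat_lit 5)
    (swG (nat_lit 64) (nat_lit 8) (nat_lit 4) (nat_lit 6)
    (swG (nat_lit 64) (nat_lit 8) (nat_lit 1) (nat_lit 3)
    (swG (nat_lit 64) (nat_lit 8) (nat_lit 0) (nat_lit 1)
    (swG (nat_lit 64) (nat_lit 8) (nat_lit 0) (nat_lit 2) A)))))

/-- The program `14`. -/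
def rf14 (A : ℕ) : ℕ := swG (nat_lit 64) (nat_lit 8) (nat_lit 4) (nat_lit 6)
    (swG (nat_lit 64) (nat_lit 8) (nat_lit 0) (nat_lit 2) A)

/-- The program `15`. -/
def rf15 (A : ℕ) : ℕ := swG (nat_lit 64) (nat_lit 8) (nat_lit 4) (nat_lit 7)
    (swG (nat_lit 64) (nat_lit 8) (nat_lit 4) (nat_lit 6)
    (swG (nat_lit 64) (nat_lit 8) (nat_lit 0) (nat_lit 3)
    (swG (nat_lit 64) (nat_lit 8) (nat_lit 0) (nat_lit 2) A)))

/-- The program `16`. -/
def rf16 (A : ℕ) : ℕ := swG (nat_lit 64) (nat_lit 8) (nat_lit 5) (nat_lit 7)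
    (swG (nat_lit 64) (nat_lit 8) (nat_lit 4) (nat_lit 6)
    (swG (nat_lit 64) (nat_lit 8) (nat_lit 1) (nat_lit 3)
    (swG (nat_lit 64) (nat_lit 8) (nat_lit 0) (nat_lit 2) A)))

/-- The program `17`. -/
def rf17 (A : ℕ) : ℕ := swG (nat_lit 64) (nat_lit 8) (nat_lit 4) (nat_lit 5)
    (swG (nat_lit 64) (nat_lit 8) (nat_lit 5) (nat_lit 7)
    (swG (nat_lit 64) (nat_lit 8) (nat_lit 4) (nat_lit 6)
    (swG (nat_lit 64) (nat_lit 8) (nat_lit 0) (nat_lit 1)
    (swG (nat_lit 64) (nat_lit 8) (nat_lit 1) (nat_lit 3)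
    (swG (nat_lit 64) (nat_lit 8) (nat_lit 0) (nat_lit 2) A)))))

/-- The program `18`. -/
def rf18 (A : ℕ) : ℕ := swG (nat_lit 64) (nat_lit 8) (nat_lit 5) (nat_lit 6)
    (swG (nat_lit 64) (nat_lit 8) (nat_lit 4) (nat_lit 5)
    (swG (nat_lit 64) (nat_lit 8) (nat_lit 4) (nat_lit 7)
    (swG (nat_lit 64) (nat_lit 8) (nat_lit 1) (nat_lit 2)
    (swG (nat_lit 64) (nat_lit 8) (nat_lit 0) (nat_lit 1)
    (swG (nat_lit 64) (nat_lit 8) (nat_lit 0) (nat_lit 3) A)))))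

/-- The program `19`. -/
def rf19 (A : ℕ) : ℕ := swG (nat_lit 64) (nat_lit 8) (nat_lit 4) (nat_lit 5)
    (swG (nat_lit 64) (nat_lit 8) (nat_lit 4) (nat_lit 7)
    (swG (nat_lit 64) (nat_lit 8) (nat_lit 0) (nat_lit 1)
    (swG (nat_lit 64) (nat_lit 8) (nat_lit 0) (nat_lit 3) A)))

/-- The program `20`. -/
def rf20 (A : ℕ) : ℕ := swG (nat_lit 64) (nat_lit 8) (nat_lit 4) (nat_lit 6)
    (swG (nat_lit 64) (nat_lit 8) (nat_lit 4) (nat_lit 7)
    (swG (nat_lit 64) (nat_lit 8) (nat_lit 0) (nat_lit 2)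
    (swG (nat_lit 64) (nat_lit 8) (nat_lit 0) (nat_lit 3) A)))

/-- The program `21`. -/
def rf21 (A : ℕ) : ℕ := swG (nat_lit 64) (nat_lit 8) (nat_lit 4) (nat_lit 7)
    (swG (nat_lit 64) (nat_lit 8) (nat_lit 0) (nat_lit 3) A)

/-- The program `22`. -/
def rf22 (A : ℕ) : ℕ := swG (nat_lit 64) (nat_lit 8) (nat_lit 4) (nat_lit 5)
    (swG (nat_lit 64) (nat_lit 8) (nat_lit 5) (nat_lit 6)
    (swG (nat_lit 64) (nat_lit 8) (nat_lit 4) (nat_lit 7)
    (swG (nat_lit 64) (nat_lit 8) (nat_lit 0) (nat_lit 1)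
    (swG (nat_lit 64) (nat_lit 8) (nat_lit 1) (nat_lit 2)
    (swG (nat_lit 64) (nat_lit 8) (nat_lit 0) (nat_lit 3) A)))))

/-- The program `23`. -/
def rf23 (A : ℕ) : ℕ := swG (nat_lit 64) (nat_lit 8) (nat_lit 5) (nat_lit 6)
    (swG (nat_lit 64) (nat_lit 8) (nat_lit 4) (nat_lit 7)
    (swG (nat_lit 64) (nat_lit 8) (nat_lit 1) (nat_lit 2)
    (swG (nat_lit 64) (nat_lit 8) (nat_lit 0) (nat_lit 3) A)))

/-- The programs. -/
def RFT : List (List (ℕ → ℕ)) := [
  [rf00, rf00, rf01, rf01, rf00, rf01, rf02, rf02, rf03, rf03, rf02, rf03],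
  [rf04, rf04, rf05, rf05, rf04, rf05, rf00, rf01, rf02, rf03, rf04, rf05],
  [rf06, rf06, rf07, rf07, rf06, rf07, rf08, rf08, rf09, rf09, rf08, rf09],
  [rf10, rf10, rf11, rf11, rf10, rf11, rf06, rf07, rf08, rf09, rf10, rf11],
  [rf12, rf12, rf13, rf13, rf12, rf13, rf14, rf14, rf15, rf15, rf14, rf15],
  [rf16, rf16, rf17, rf17, rf16, rf17, rf12, rf13, rf14, rf15, rf16, rf17],
  [rf18, rf18, rf19, rf19, rf18, rf19, rf20, rf20, rf21, rf21, rf20, rf21],
  [rf22, rf22, rf23, rf23, rf22, rf23, rf18, rf19, rf20, rf21, rf22, rf23],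
  [rf00, rf01, rf02, rf03, rf04, rf05, rf06, rf07, rf08, rf09, rf10, rf11],
  [rf12, rf13, rf14, rf15, rf16, rf17, rf18, rf19, rf20, rf21, rf22, rf23]]

/-- The program for the permutation `k`. -/
def ruF (k : ℕ) : ℕ → ℕ := nth2 (fun A => A) (nat_lit 12) RFT k

theorem ruF_eq : ∀ k < 120, ∀ A, ruF k A = ruG 64 (pg8 k) 8 A := by
  intro k hk A
  interval_cases k <;> rfl

/-! ### The check -/

theorem tbG_congr (W : ℕ) (bk bk' : ℕ → ℕ) (N : ℕ) (h : ∀ e < N, bk e = bk' e) :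
    ∀ n e, e + 2 ^ n ≤ N → tbG W bk n e = tbG W bk' n e := by
  intro n
  induction n with
  | zero =>
    intro e he
    exact h e (by rw [pow_zero] at he; omega)
  | succ n ih =>
    intro e he
    have e1 : ∀ bk : ℕ → ℕ, tbG W bk (n + 1) e = tbG W bk n e +
      (tbG W bk n (e + 2 ^ n)) <<< (W * 2 ^ (8 + n)) := fun _ => rfl
    have h2 : 2 ^ (n + 1) = 2 ^ n + 2 ^ n := by ring
    have h3 : 0 < 2 ^ n := Nat.two_pow_pos n
    rw [e1, e1, ih e (by omega), ih (e + 2 ^ n) (by omega)]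

theorem tabG_congr (W : ℕ) (bk bk' : ℕ → ℕ → ℕ → ℕ)
    (h : ∀ p < 1024, ∀ x < 64, ∀ y < 64, bk p x y = bk' p x y) (c : ℕ) :
    tabG W bk c = tabG W bk' c := by
  have h1 : c % 16 < 16 := Nat.mod_lt _ (by norm_num)
  exact tbG_congr W _ _ 64 (fun e he => h (c % 16 + 16 * e) (by omega) (c / 16 % 64)
    (Nat.mod_lt _ (by norm_num)) (c / 1024 % 64) (Nat.mod_lt _ (by norm_num))) 6 0 (by norm_num)

/-- The check of one base, with given blocks. -/
noncomputable def oneF (I : LIn) (bk : ℕ → ℕ → ℕ → ℕ) (c : ℕ) : Bool :=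
  leG 64 15 (Nat.sub (Nat.add (Nat.add (Nat.mul 21 I.D.O) (Nat.mul 7 I.O')) I.OB) (I.qf c))
    (Nat.add (arG 64 (tabG 64 bk) I.row wdR c) (arG 64 (fun _ => 0) I.rowB [9, 11] c))

theorem oneF_eq (I : LIn) (bk : ℕ → ℕ → ℕ → ℕ)
    (h : ∀ p < 1024, ∀ x < 64, ∀ y < 64, bk p x y = I.D.bk p x y) (c : ℕ) :
    I.C.oneB c = oneF I bk c := by
  have e0 : I.C.oneB c = oneF I I.D.bk c := by
    unfold ChkRB.oneB oneF LIn.C
    dsimp only
  have e1 : tabG 64 I.D.bk = tabG 64 bk := funext fun c => (tabG_congr 64 bk I.D.bk h c).symm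
  rw [e0]
  unfold oneF
  rw [e1]

/-- Two checks. -/
noncomputable def twoG (f : ℕ → Bool) (i j : ℕ) : Bool := @Bool.rec (fun _ => Bool) false (f j) (f i)

theorem twoG_spec (f : ℕ → Bool) (i j : ℕ) (h : twoG f i j = true) : f i = true ∧ f j = true := by
  unfold twoG at h
  rw [bool_rec_and, Bool.and_eq_true] at h
  exact h

end Pool.Agent.Lib.MP_afdd4d_co.K8.L9
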