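import Pool.Agent.Lib.MP_afdd4d_co.K8.RDef
import Pool.Agent.Lib.MP_afdd4d_co.K8.Flag

/-!
# Permutations of the five vertices and the codes of a root

A root and five vertices have a pattern of ten bits, the triples of the link of the root; a further
vertex has a code of ten bits. A permutation of the five vertices permutes both.
-/

namespace Pool.Agent.Lib.MP_afdd4d_co.K8.L9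

open Finset

/-! ### The permutations: the values, the triples, the pairs -/

def pt0 : List (List ℕ × List ℕ × List ℕ) := [
  ([0, 1, 2, 3, 4], [0, 1, 2, 3, 4, 5, 6, 7, 8, 9], [0, 1, 2, 3, 4, 5, 6, 7, 8, 9]),
  ([0, 1, 2, 4, 3], [0, 4, 5, 6, 1, 2, 3, 7, 8, 9], [0, 1, 2, 6, 7, 8, 3, 4, 5, 9]),
  ([0, 1, 3, 2, 4], [1, 0, 2, 3, 4, 7, 8, 5, 6, 9], [0, 3, 4, 1, 2, 5, 6, 7, 9, 8]),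
  ([0, 1, 3, 4, 2], [1, 4, 7, 8, 0, 2, 3, 5, 6, 9], [0, 3, 4, 6, 7, 9, 1, 2, 5, 8]),
  ([0, 1, 4, 2, 3], [4, 0, 5, 6, 1, 7, 8, 2, 3, 9], [0, 6, 7, 1, 2, 8, 3, 4, 9, 5]),
  ([0, 1, 4, 3, 2], [4, 1, 7, 8, 0, 5, 6, 2, 3, 9], [0, 6, 7, 3, 4, 9, 1, 2, 8, 5]),
  ([0, 2, 1, 3, 4], [0, 2, 1, 3, 5, 4, 6, 7, 9, 8], [1, 0, 2, 3, 5, 4, 6, 8, 7, 9]),
  ([0, 2, 1, 4, 3], [0, 5, 4, 6, 2, 1, 3, 7, 9, 8], [1, 0, 2, 6, 8, 7, 3, 5, 4, 9]),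
  ([0, 2, 3, 1, 4], [2, 0, 1, 3, 5, 7, 9, 4, 6, 8], [1, 3, 5, 0, 2, 4, 6, 8, 9, 7]),
  ([0, 2, 3, 4, 1], [2, 5, 7, 9, 0, 1, 3, 4, 6, 8], [1, 3, 5, 6, 8, 9, 0, 2, 4, 7]),
  ([0, 2, 4, 1, 3], [5, 0, 4, 6, 2, 7, 9, 1, 3, 8], [1, 6, 8, 0, 2, 7, 3, 5, 9, 4]),
  ([0, 2, 4, 3, 1], [5, 2, 7, 9, 0, 4, 6, 1, 3, 8], [1, 6, 8, 3, 5, 9, 0, 2, 7, 4]),
  ([0, 3, 1, 2, 4], [1, 2, 0, 3, 7, 4, 8, 5, 9, 6], [3, 0, 4, 1, 5, 2, 6, 9, 7, 8]),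
  ([0, 3, 1, 4, 2], [1, 7, 4, 8, 2, 0, 3, 5, 9, 6], [3, 0, 4, 6, 9, 7, 1, 5, 2, 8]),
  ([0, 3, 2, 1, 4], [2, 1, 0, 3, 7, 5, 9, 4, 8, 6], [3, 1, 5, 0, 4, 2, 6, 9, 8, 7]),
  ([0, 3, 2, 4, 1], [2, 7, 5, 9, 1, 0, 3, 4, 8, 6], [3, 1, 5, 6, 9, 8, 0, 4, 2, 7]),
  ([0, 3, 4, 1, 2], [7, 1, 4, 8, 2, 5, 9, 0, 3, 6], [3, 6, 9, 0, 4, 7, 1, 5, 8, 2]),
  ([0, 3, 4, 2, 1], [7, 2, 5, 9, 1, 4, 8, 0, 3, 6], [3, 6, 9, 1, 5, 8, 0, 4, 7, 2]),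
  ([0, 4, 1, 2, 3], [4, 5, 0, 6, 7, 1, 8, 2, 9, 3], [6, 0, 7, 1, 8, 2, 3, 9, 4, 5]),
  ([0, 4, 1, 3, 2], [4, 7, 1, 8, 5, 0, 6, 2, 9, 3], [6, 0, 7, 3, 9, 4, 1, 8, 2, 5]),
  ([0, 4, 2, 1, 3], [5, 4, 0, 6, 7, 2, 9, 1, 8, 3], [6, 1, 8, 0, 7, 2, 3, 9, 5, 4]),
  ([0, 4, 2, 3, 1], [5, 7, 2, 9, 4, 0, 6, 1, 8, 3], [6, 1, 8, 3, 9, 5, 0, 7, 2, 4]),
  ([0, 4, 3, 1, 2], [7, 4, 1, 8, 5, 2, 9, 0, 6, 3], [6, 3, 9, 0, 7, 4, 1, 8, 5, 2]),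
  ([0, 4, 3, 2, 1], [7, 5, 2, 9, 4, 1, 8, 0, 6, 3], [6, 3, 9, 1, 8, 5, 0, 7, 4, 2])]

def pt1 : List (List ℕ × List ℕ × List ℕ) := [
  ([1, 0, 2, 3, 4], [0, 1, 3, 2, 4, 6, 5, 8, 7, 9], [0, 2, 1, 4, 3, 5, 7, 6, 8, 9]),
  ([1, 0, 2, 4, 3], [0, 4, 6, 5, 1, 3, 2, 8, 7, 9], [0, 2, 1, 7, 6, 8, 4, 3, 5, 9]),
  ([1, 0, 3, 2, 4], [1, 0, 3, 2, 4, 8, 7, 6, 5, 9], [0, 4, 3, 2, 1, 5, 7, 6, 9, 8]),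
  ([1, 0, 3, 4, 2], [1, 4, 8, 7, 0, 3, 2, 6, 5, 9], [0, 4, 3, 7, 6, 9, 2, 1, 5, 8]),
  ([1, 0, 4, 2, 3], [4, 0, 6, 5, 1, 8, 7, 3, 2, 9], [0, 7, 6, 2, 1, 8, 4, 3, 9, 5]),
  ([1, 0, 4, 3, 2], [4, 1, 8, 7, 0, 6, 5, 3, 2, 9], [0, 7, 6, 4, 3, 9, 2, 1, 8, 5]),
  ([1, 2, 0, 3, 4], [0, 3, 1, 2, 6, 4, 5, 8, 9, 7], [2, 0, 1, 4, 5, 3, 7, 8, 6, 9]),
  ([1, 2, 0, 4, 3], [0, 6, 4, 5, 3, 1, 2, 8, 9, 7], [2, 0, 1, 7, 8, 6, 4, 5, 3, 9]),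
  ([1, 2, 3, 0, 4], [3, 0, 1, 2, 6, 8, 9, 4, 5, 7], [2, 4, 5, 0, 1, 3, 7, 8, 9, 6]),
  ([1, 2, 3, 4, 0], [3, 6, 8, 9, 0, 1, 2, 4, 5, 7], [2, 4, 5, 7, 8, 9, 0, 1, 3, 6]),
  ([1, 2, 4, 0, 3], [6, 0, 4, 5, 3, 8, 9, 1, 2, 7], [2, 7, 8, 0, 1, 6, 4, 5, 9, 3]),
  ([1, 2, 4, 3, 0], [6, 3, 8, 9, 0, 4, 5, 1, 2, 7], [2, 7, 8, 4, 5, 9, 0, 1, 6, 3]),
  ([1, 3, 0, 2, 4], [1, 3, 0, 2, 8, 4, 7, 6, 9, 5], [4, 0, 3, 2, 5, 1, 7, 9, 6, 8]),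
  ([1, 3, 0, 4, 2], [1, 8, 4, 7, 3, 0, 2, 6, 9, 5], [4, 0, 3, 7, 9, 6, 2, 5, 1, 8]),
  ([1, 3, 2, 0, 4], [3, 1, 0, 2, 8, 6, 9, 4, 7, 5], [4, 2, 5, 0, 3, 1, 7, 9, 8, 6]),
  ([1, 3, 2, 4, 0], [3, 8, 6, 9, 1, 0, 2, 4, 7, 5], [4, 2, 5, 7, 9, 8, 0, 3, 1, 6]),
  ([1, 3, 4, 0, 2], [8, 1, 4, 7, 3, 6, 9, 0, 2, 5], [4, 7, 9, 0, 3, 6, 2, 5, 8, 1]),
  ([1, 3, 4, 2, 0], [8, 3, 6, 9, 1, 4, 7, 0, 2, 5], [4, 7, 9, 2, 5, 8, 0, 3, 6, 1]),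
  ([1, 4, 0, 2, 3], [4, 6, 0, 5, 8, 1, 7, 3, 9, 2], [7, 0, 6, 2, 8, 1, 4, 9, 3, 5]),
  ([1, 4, 0, 3, 2], [4, 8, 1, 7, 6, 0, 5, 3, 9, 2], [7, 0, 6, 4, 9, 3, 2, 8, 1, 5]),
  ([1, 4, 2, 0, 3], [6, 4, 0, 5, 8, 3, 9, 1, 7, 2], [7, 2, 8, 0, 6, 1, 4, 9, 5, 3]),
  ([1, 4, 2, 3, 0], [6, 8, 3, 9, 4, 0, 5, 1, 7, 2], [7, 2, 8, 4, 9, 5, 0, 6, 1, 3]),
  ([1, 4, 3, 0, 2], [8, 4, 1, 7, 6, 3, 9, 0, 5, 2], [7, 4, 9, 0, 6, 3, 2, 8, 5, 1]),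
  ([1, 4, 3, 2, 0], [8, 6, 3, 9, 4, 1, 7, 0, 5, 2], [7, 4, 9, 2, 8, 5, 0, 6, 3, 1])]

def pt2 : List (List ℕ × List ℕ × List ℕ) := [
  ([2, 0, 1, 3, 4], [0, 2, 3, 1, 5, 6, 4, 9, 7, 8], [1, 2, 0, 5, 3, 4, 8, 6, 7, 9]),
  ([2, 0, 1, 4, 3], [0, 5, 6, 4, 2, 3, 1, 9, 7, 8], [1, 2, 0, 8, 6, 7, 5, 3, 4, 9]),
  ([2, 0, 3, 1, 4], [2, 0, 3, 1, 5, 9, 7, 6, 4, 8], [1, 5, 3, 2, 0, 4, 8, 6, 9, 7]),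
  ([2, 0, 3, 4, 1], [2, 5, 9, 7, 0, 3, 1, 6, 4, 8], [1, 5, 3, 8, 6, 9, 2, 0, 4, 7]),
  ([2, 0, 4, 1, 3], [5, 0, 6, 4, 2, 9, 7, 3, 1, 8], [1, 8, 6, 2, 0, 7, 5, 3, 9, 4]),
  ([2, 0, 4, 3, 1], [5, 2, 9, 7, 0, 6, 4, 3, 1, 8], [1, 8, 6, 5, 3, 9, 2, 0, 7, 4]),
  ([2, 1, 0, 3, 4], [0, 3, 2, 1, 6, 5, 4, 9, 8, 7], [2, 1, 0, 5, 4, 3, 8, 7, 6, 9]),
  ([2, 1, 0, 4, 3], [0, 6, 5, 4, 3, 2, 1, 9, 8, 7], [2, 1, 0, 8, 7, 6, 5, 4, 3, 9]),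
  ([2, 1, 3, 0, 4], [3, 0, 2, 1, 6, 9, 8, 5, 4, 7], [2, 5, 4, 1, 0, 3, 8, 7, 9, 6]),
  ([2, 1, 3, 4, 0], [3, 6, 9, 8, 0, 2, 1, 5, 4, 7], [2, 5, 4, 8, 7, 9, 1, 0, 3, 6]),
  ([2, 1, 4, 0, 3], [6, 0, 5, 4, 3, 9, 8, 2, 1, 7], [2, 8, 7, 1, 0, 6, 5, 4, 9, 3]),
  ([2, 1, 4, 3, 0], [6, 3, 9, 8, 0, 5, 4, 2, 1, 7], [2, 8, 7, 5, 4, 9, 1, 0, 6, 3]),
  ([2, 3, 0, 1, 4], [2, 3, 0, 1, 9, 5, 7, 6, 8, 4], [5, 1, 3, 2, 4, 0, 8, 9, 6, 7]),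
  ([2, 3, 0, 4, 1], [2, 9, 5, 7, 3, 0, 1, 6, 8, 4], [5, 1, 3, 8, 9, 6, 2, 4, 0, 7]),
  ([2, 3, 1, 0, 4], [3, 2, 0, 1, 9, 6, 8, 5, 7, 4], [5, 2, 4, 1, 3, 0, 8, 9, 7, 6]),
  ([2, 3, 1, 4, 0], [3, 9, 6, 8, 2, 0, 1, 5, 7, 4], [5, 2, 4, 8, 9, 7, 1, 3, 0, 6]),
  ([2, 3, 4, 0, 1], [9, 2, 5, 7, 3, 6, 8, 0, 1, 4], [5, 8, 9, 1, 3, 6, 2, 4, 7, 0]),
  ([2, 3, 4, 1, 0], [9, 3, 6, 8, 2, 5, 7, 0, 1, 4], [5, 8, 9, 2, 4, 7, 1, 3, 6, 0]),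
  ([2, 4, 0, 1, 3], [5, 6, 0, 4, 9, 2, 7, 3, 8, 1], [8, 1, 6, 2, 7, 0, 5, 9, 3, 4]),
  ([2, 4, 0, 3, 1], [5, 9, 2, 7, 6, 0, 4, 3, 8, 1], [8, 1, 6, 5, 9, 3, 2, 7, 0, 4]),
  ([2, 4, 1, 0, 3], [6, 5, 0, 4, 9, 3, 8, 2, 7, 1], [8, 2, 7, 1, 6, 0, 5, 9, 4, 3]),
  ([2, 4, 1, 3, 0], [6, 9, 3, 8, 5, 0, 4, 2, 7, 1], [8, 2, 7, 5, 9, 4, 1, 6, 0, 3]),
  ([2, 4, 3, 0, 1], [9, 5, 2, 7, 6, 3, 8, 0, 4, 1], [8, 5, 9, 1, 6, 3, 2, 7, 4, 0]),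
  ([2, 4, 3, 1, 0], [9, 6, 3, 8, 5, 2, 7, 0, 4, 1], [8, 5, 9, 2, 7, 4, 1, 6, 3, 0])]

def pt3 : List (List ℕ × List ℕ × List ℕ) := [
  ([3, 0, 1, 2, 4], [1, 2, 3, 0, 7, 8, 4, 9, 5, 6], [3, 4, 0, 5, 1, 2, 9, 6, 7, 8]),
  ([3, 0, 1, 4, 2], [1, 7, 8, 4, 2, 3, 0, 9, 5, 6], [3, 4, 0, 9, 6, 7, 5, 1, 2, 8]),
  ([3, 0, 2, 1, 4], [2, 1, 3, 0, 7, 9, 5, 8, 4, 6], [3, 5, 1, 4, 0, 2, 9, 6, 8, 7]),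
  ([3, 0, 2, 4, 1], [2, 7, 9, 5, 1, 3, 0, 8, 4, 6], [3, 5, 1, 9, 6, 8, 4, 0, 2, 7]),
  ([3, 0, 4, 1, 2], [7, 1, 8, 4, 2, 9, 5, 3, 0, 6], [3, 9, 6, 4, 0, 7, 5, 1, 8, 2]),
  ([3, 0, 4, 2, 1], [7, 2, 9, 5, 1, 8, 4, 3, 0, 6], [3, 9, 6, 5, 1, 8, 4, 0, 7, 2]),
  ([3, 1, 0, 2, 4], [1, 3, 2, 0, 8, 7, 4, 9, 6, 5], [4, 3, 0, 5, 2, 1, 9, 7, 6, 8]),
  ([3, 1, 0, 4, 2], [1, 8, 7, 4, 3, 2, 0, 9, 6, 5], [4, 3, 0, 9, 7, 6, 5, 2, 1, 8]),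
  ([3, 1, 2, 0, 4], [3, 1, 2, 0, 8, 9, 6, 7, 4, 5], [4, 5, 2, 3, 0, 1, 9, 7, 8, 6]),
  ([3, 1, 2, 4, 0], [3, 8, 9, 6, 1, 2, 0, 7, 4, 5], [4, 5, 2, 9, 7, 8, 3, 0, 1, 6]),
  ([3, 1, 4, 0, 2], [8, 1, 7, 4, 3, 9, 6, 2, 0, 5], [4, 9, 7, 3, 0, 6, 5, 2, 8, 1]),
  ([3, 1, 4, 2, 0], [8, 3, 9, 6, 1, 7, 4, 2, 0, 5], [4, 9, 7, 5, 2, 8, 3, 0, 6, 1]),
  ([3, 2, 0, 1, 4], [2, 3, 1, 0, 9, 7, 5, 8, 6, 4], [5, 3, 1, 4, 2, 0, 9, 8, 6, 7]),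
  ([3, 2, 0, 4, 1], [2, 9, 7, 5, 3, 1, 0, 8, 6, 4], [5, 3, 1, 9, 8, 6, 4, 2, 0, 7]),
  ([3, 2, 1, 0, 4], [3, 2, 1, 0, 9, 8, 6, 7, 5, 4], [5, 4, 2, 3, 1, 0, 9, 8, 7, 6]),
  ([3, 2, 1, 4, 0], [3, 9, 8, 6, 2, 1, 0, 7, 5, 4], [5, 4, 2, 9, 8, 7, 3, 1, 0, 6]),
  ([3, 2, 4, 0, 1], [9, 2, 7, 5, 3, 8, 6, 1, 0, 4], [5, 9, 8, 3, 1, 6, 4, 2, 7, 0]),
  ([3, 2, 4, 1, 0], [9, 3, 8, 6, 2, 7, 5, 1, 0, 4], [5, 9, 8, 4, 2, 7, 3, 1, 6, 0]),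
  ([3, 4, 0, 1, 2], [7, 8, 1, 4, 9, 2, 5, 3, 6, 0], [9, 3, 6, 4, 7, 0, 5, 8, 1, 2]),
  ([3, 4, 0, 2, 1], [7, 9, 2, 5, 8, 1, 4, 3, 6, 0], [9, 3, 6, 5, 8, 1, 4, 7, 0, 2]),
  ([3, 4, 1, 0, 2], [8, 7, 1, 4, 9, 3, 6, 2, 5, 0], [9, 4, 7, 3, 6, 0, 5, 8, 2, 1]),
  ([3, 4, 1, 2, 0], [8, 9, 3, 6, 7, 1, 4, 2, 5, 0], [9, 4, 7, 5, 8, 2, 3, 6, 0, 1]),
  ([3, 4, 2, 0, 1], [9, 7, 2, 5, 8, 3, 6, 1, 4, 0], [9, 5, 8, 3, 6, 1, 4, 7, 2, 0]),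
  ([3, 4, 2, 1, 0], [9, 8, 3, 6, 7, 2, 5, 1, 4, 0], [9, 5, 8, 4, 7, 2, 3, 6, 1, 0])]

def pt4 : List (List ℕ × List ℕ × List ℕ) := [
  ([4, 0, 1, 2, 3], [4, 5, 6, 0, 7, 8, 1, 9, 2, 3], [6, 7, 0, 8, 1, 2, 9, 3, 4, 5]),
  ([4, 0, 1, 3, 2], [4, 7, 8, 1, 5, 6, 0, 9, 2, 3], [6, 7, 0, 9, 3, 4, 8, 1, 2, 5]),
  ([4, 0, 2, 1, 3], [5, 4, 6, 0, 7, 9, 2, 8, 1, 3], [6, 8, 1, 7, 0, 2, 9, 3, 5, 4]),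
  ([4, 0, 2, 3, 1], [5, 7, 9, 2, 4, 6, 0, 8, 1, 3], [6, 8, 1, 9, 3, 5, 7, 0, 2, 4]),
  ([4, 0, 3, 1, 2], [7, 4, 8, 1, 5, 9, 2, 6, 0, 3], [6, 9, 3, 7, 0, 4, 8, 1, 5, 2]),
  ([4, 0, 3, 2, 1], [7, 5, 9, 2, 4, 8, 1, 6, 0, 3], [6, 9, 3, 8, 1, 5, 7, 0, 4, 2]),
  ([4, 1, 0, 2, 3], [4, 6, 5, 0, 8, 7, 1, 9, 3, 2], [7, 6, 0, 8, 2, 1, 9, 4, 3, 5]),
  ([4, 1, 0, 3, 2], [4, 8, 7, 1, 6, 5, 0, 9, 3, 2], [7, 6, 0, 9, 4, 3, 8, 2, 1, 5]),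
  ([4, 1, 2, 0, 3], [6, 4, 5, 0, 8, 9, 3, 7, 1, 2], [7, 8, 2, 6, 0, 1, 9, 4, 5, 3]),
  ([4, 1, 2, 3, 0], [6, 8, 9, 3, 4, 5, 0, 7, 1, 2], [7, 8, 2, 9, 4, 5, 6, 0, 1, 3]),
  ([4, 1, 3, 0, 2], [8, 4, 7, 1, 6, 9, 3, 5, 0, 2], [7, 9, 4, 6, 0, 3, 8, 2, 5, 1]),
  ([4, 1, 3, 2, 0], [8, 6, 9, 3, 4, 7, 1, 5, 0, 2], [7, 9, 4, 8, 2, 5, 6, 0, 3, 1]),
  ([4, 2, 0, 1, 3], [5, 6, 4, 0, 9, 7, 2, 8, 3, 1], [8, 6, 1, 7, 2, 0, 9, 5, 3, 4]),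
  ([4, 2, 0, 3, 1], [5, 9, 7, 2, 6, 4, 0, 8, 3, 1], [8, 6, 1, 9, 5, 3, 7, 2, 0, 4]),
  ([4, 2, 1, 0, 3], [6, 5, 4, 0, 9, 8, 3, 7, 2, 1], [8, 7, 2, 6, 1, 0, 9, 5, 4, 3]),
  ([4, 2, 1, 3, 0], [6, 9, 8, 3, 5, 4, 0, 7, 2, 1], [8, 7, 2, 9, 5, 4, 6, 1, 0, 3]),
  ([4, 2, 3, 0, 1], [9, 5, 7, 2, 6, 8, 3, 4, 0, 1], [8, 9, 5, 6, 1, 3, 7, 2, 4, 0]),
  ([4, 2, 3, 1, 0], [9, 6, 8, 3, 5, 7, 2, 4, 0, 1], [8, 9, 5, 7, 2, 4, 6, 1, 3, 0]),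
  ([4, 3, 0, 1, 2], [7, 8, 4, 1, 9, 5, 2, 6, 3, 0], [9, 6, 3, 7, 4, 0, 8, 5, 1, 2]),
  ([4, 3, 0, 2, 1], [7, 9, 5, 2, 8, 4, 1, 6, 3, 0], [9, 6, 3, 8, 5, 1, 7, 4, 0, 2]),
  ([4, 3, 1, 0, 2], [8, 7, 4, 1, 9, 6, 3, 5, 2, 0], [9, 7, 4, 6, 3, 0, 8, 5, 2, 1]),
  ([4, 3, 1, 2, 0], [8, 9, 6, 3, 7, 4, 1, 5, 2, 0], [9, 7, 4, 8, 5, 2, 6, 3, 0, 1]),
  ([4, 3, 2, 0, 1], [9, 7, 5, 2, 8, 6, 3, 4, 1, 0], [9, 8, 5, 6, 3, 1, 7, 4, 2, 0]),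
  ([4, 3, 2, 1, 0], [9, 8, 6, 3, 7, 5, 2, 4, 1, 0], [9, 8, 5, 7, 4, 2, 6, 3, 1, 0])]

/-- The permutations. -/
def T120 : List (List ℕ × List ℕ × List ℕ) := pt0 ++ pt1 ++ pt2 ++ pt3 ++ pt4

/-- The function of a list of values. -/
def fnT (l : List ℕ) : Fin 5 → Fin 5 := fun i => Fin.ofNat 5 (l.getD i 0)

/-- The extension to the root and the five vertices. -/
def x6 (f : Fin 5 → Fin 5) : Fin 6 → Fin 6 := Fin.cons 0 fun i => (f i).succ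

/-- The extension to the root, the five vertices and a further vertex. -/
def x7 (f : Fin 5 → Fin 5) : Fin 7 → Fin 7 :=
  Fin.cons 0 (Fin.snoc (fun i => (f i).castSucc.succ : Fin 5 → Fin 7) (Fin.last 6) : Fin 6 → Fin 7)

theorem T120_geo : ∀ t ∈ T120, ∀ k < 10,
    (qd 6 k).image (x6 (fnT t.1)) = qd 6 (t.2.1.getD k 0) ∧ t.2.1.getD k 0 < 10 ∧
    (qd 7 (10 + k)).image (x7 (fnT t.1)) = qd 7 (10 + t.2.2.getD k 0) ∧ t.2.2.getD k 0 < 10 := by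
  decide +kernel

theorem T120_surj : ∀ a b c d e : Fin 5, [a, b, c, d, e].Nodup →
    (T120.any fun t => decide (t.1 = [a.val, b.val, c.val, d.val, e.val])) = true := by
  decide +kernel

theorem T120_len : T120.length = 120 := by decide +kernel

theorem T120_bij : ∀ t ∈ T120, Function.Bijective (fnT t.1) := by decide +kernel

theorem exists_T120 (σ : Equiv.Perm (Fin 5)) : ∃ t ∈ T120, fnT t.1 = σ := by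
  have hi : ∀ i j : Fin 5, i ≠ j → σ i ≠ σ j := fun i j h e => h (σ.injective e)
  have hn : [σ 0, σ 1, σ 2, σ 3, σ 4].Nodup := by
    have h := (List.nodup_ofFn (f := (σ : Fin 5 → Fin 5))).mpr σ.injective
    exact h
  have h := T120_surj (σ 0) (σ 1) (σ 2) (σ 3) (σ 4) hn
  rw [List.any_eq_true] at h
  obtain ⟨t, ht, h1⟩ := h
  have h2 := of_decide_eq_true h1
  refine ⟨t, ht, ?_⟩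
  funext i
  unfold fnT
  rw [h2]
  fin_cases i <;> exact Fin.ofNat_val_eq_self _

/-- The action of a list of positions on a code of ten bits. -/
def act (l : List ℕ) (z : ℕ) : ℕ := idx 10 fun k => z.testBit (l.getD k 0)

theorem act_lt (l : List ℕ) (z : ℕ) : act l z < 1024 := idx_lt 10 _

section codes
variable {n : ℕ} (H : Finset (Finset (Fin n)))

/-- The pattern. -/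
def ptR (r : Fin n) (s : Fin 5 → Fin n) : ℕ := idx 10 (gc H (Fin.cons r s : Fin 6 → Fin n))

/-- The code of a further vertex. -/
def cxR (r : Fin n) (s : Fin 5 → Fin n) (u : Fin n) : ℕ := idx 10 fun k =>
  gc H (Fin.cons r (Fin.snoc s u : Fin 6 → Fin n) : Fin 7 → Fin n) (10 + k)

theorem ptR_lt (r : Fin n) (s : Fin 5 → Fin n) : ptR H r s < 1024 := idx_lt 10 _

theorem cxR_lt (r : Fin n) (s : Fin 5 → Fin n) (u : Fin n) : cxR H r s u < 1024 := idx_lt 10 _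

theorem qd_cast : ∀ k < 10, (qd 6 k).image (Fin.castSucc : Fin 6 → Fin 7) = qd 7 k := by
  decide +kernel

theorem cL_snoc (r : Fin n) (s : Fin 5 → Fin n) (u : Fin n) :
    cL H r (Fin.snoc s u : Fin 6 → Fin n) = ptR H r s + 1024 * cxR H r s u := by
  have e0 : cL H r (Fin.snoc s u : Fin 6 → Fin n) =
      idx (10 + 10) (gc H (Fin.cons r (Fin.snoc s u : Fin 6 → Fin n) : Fin 7 → Fin n)) := rfl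
  rw [e0, idx_add_ten]
  have e1 : idx 10 (gc H (Fin.cons r (Fin.snoc s u : Fin 6 → Fin n) : Fin 7 → Fin n)) =
      ptR H r s := by
    apply idx_congr
    intro k hk
    have h1 : gc H (Fin.cons r (Fin.snoc s u : Fin 6 → Fin n) : Fin 7 → Fin n) k =
        zb H (Fin.cons r (Fin.snoc s u : Fin 6 → Fin n) : Fin 7 → Fin n) (qd 7 k) := rfl
    rw [h1, ← qd_cast k hk, ← zb_comp]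
    have h2 : (Fin.cons r (Fin.snoc s u : Fin 6 → Fin n) : Fin 7 → Fin n) ∘
        (Fin.castSucc : Fin 6 → Fin 7) = (Fin.cons r s : Fin 6 → Fin n) := by
      funext i
      refine Fin.cases rfl (fun i => ?_) i
      rw [Function.comp_apply, ← Fin.succ_castSucc, Fin.cons_succ, Fin.cons_succ, Fin.snoc_castSucc]
    rw [h2]
    rfl
  rw [e1]
  rfl

variable (f : Fin 5 → Fin 5)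

theorem cons_x6 (r : Fin n) (s : Fin 5 → Fin n) :
    (Fin.cons r (s ∘ f) : Fin 6 → Fin n) = (Fin.cons r s : Fin 6 → Fin n) ∘ x6 f := by
  funext i
  refine Fin.cases rfl (fun i => ?_) i
  rfl

theorem cons_x7 (r : Fin n) (s : Fin 5 → Fin n) (u : Fin n) :
    (Fin.cons r (Fin.snoc (s ∘ f) u : Fin 6 → Fin n) : Fin 7 → Fin n) =
      (Fin.cons r (Fin.snoc s u : Fin 6 → Fin n) : Fin 7 → Fin n) ∘ x7 f := by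
  funext i
  refine Fin.cases rfl (fun i => ?_) i
  rw [Fin.cons_succ, Function.comp_apply]
  refine Fin.lastCases ?_ (fun i => ?_) i
  · rw [Fin.snoc_last, x7, Fin.cons_succ, Fin.snoc_last]
    have h : (Fin.last 6 : Fin 7) = (Fin.last 5).succ := rfl
    rw [h, Fin.cons_succ, Fin.snoc_last]
  · rw [Fin.snoc_castSucc, x7, Fin.cons_succ, Fin.snoc_castSucc, Fin.cons_succ, Fin.snoc_castSucc,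
      Function.comp_apply]

theorem ptR_comp (t : List ℕ × List ℕ × List ℕ) (ht : t ∈ T120) (r : Fin n) (s : Fin 5 → Fin n) :
    ptR H r (s ∘ fnT t.1) = act t.2.1 (ptR H r s) := by
  unfold ptR act
  apply idx_congr
  intro k hk
  obtain ⟨h1, h2, _, _⟩ := T120_geo t ht k hk
  have h3 : gc H (Fin.cons r (s ∘ fnT t.1) : Fin 6 → Fin n) k =
      zb H (Fin.cons r (s ∘ fnT t.1) : Fin 6 → Fin n) (qd 6 k) := rfl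
  rw [h3, cons_x6, zb_comp, h1, testBit_idx]
  simp only [h2, decide_true, Bool.true_and]
  rfl

theorem cxR_comp (t : List ℕ × List ℕ × List ℕ) (ht : t ∈ T120) (r : Fin n) (s : Fin 5 → Fin n)
    (u : Fin n) : cxR H r (s ∘ fnT t.1) u = act t.2.2 (cxR H r s u) := by
  unfold cxR act
  apply idx_congr
  intro k hk
  obtain ⟨_, _, h1, h2⟩ := T120_geo t ht k hk
  have h3 : gc H (Fin.cons r (Fin.snoc (s ∘ fnT t.1) u : Fin 6 → Fin n) : Fin 7 → Fin n) (10 + k) =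
      zb H (Fin.cons r (Fin.snoc (s ∘ fnT t.1) u : Fin 6 → Fin n) : Fin 7 → Fin n)
        (qd 7 (10 + k)) := rfl
  rw [h3, cons_x7, zb_comp, h1, testBit_idx]
  simp only [h2, decide_true, Bool.true_and]
  rfl

end codes

end Pool.Agent.Lib.MP_afdd4d_co.K8.L9
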