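import Pool.Agent.Lib.MP_afdd4d_co.L9.Th
import Pool.Agent.Lib.MP_afdd4d_co.L9.Par
import Pool.Agent.Lib.MP_afdd4d_co.K8.PsiFin
import Pool.Agent.Lib.MP_afdd4d_co.Lower

/-!
# The assembly of the theorem

The near rows, the far rows, the inequalities on eight-tuples of even 4-graphs and the rows of the
links give the upper bound for the number of edges; with the construction of the lower bound this
is the value of the Turan density.
-/

namespace Pool.Agent.Lib.MP_afdd4d_co.L9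

open Finset K8 K8.PsiSys K8.Pt K8.L9

/-- The rows of a pair system from the near rows and the conditions of the classes. -/
theorem rows_nonneg (S : PsiSys) (k0 : ℕ)
    (LL : ℕ → List ℕ) (hcov : ∀ k < k0, CovK k (LL k))
    (hnear : ∀ k < k0, ∀ c ∈ LL k, S.RowJ (jset c))
    {N m : ℕ} {rows : List (List ℕ)} (hn : rows.length = m) (h0 : K8.lk N 0 = 0)
    (hn0 : Nat.blt 0 m = true) (hL : cosOK N m rows 0 = true)
    (hfar : ∀ c ∈ K8.lks N m, Far S c k0) :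
    ∀ (n : ℕ) (H E' : Finset (Finset (Fin n))) (s : Fin 7 → Fin n), PsiSys.Pr H E' s →
      0 ≤ S.row H E' s := by
  intro n H E' s hP
  rcases Nat.lt_or_ge (JD H E' s).card k0 with hlt | hge
  · exact PsiSys.RowJ.of_cov (hcov _ hlt) (hnear _ hlt) (JD H E' s) (JD_card4 H E' s) rfl
      n H E' s hP rfl
  · obtain ⟨c, hc, σ, E'', hP1, hP2, hJ, hcard⟩ := exists_coset hn h0 hn0 hL H E' s hP
    rw [← S.row_perm H E' s σ]
    exact hfar c hc n H E' E'' (s ∘ σ) hP1 hP2 hJ (by rw [hcard]; exact hge)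

/-- The upper bound from the near rows, the far rows, the rows of the even 4-graphs and the rows of
the links. -/
theorem ThF.upper (T : ThF) (S : PsiSys) (κ6 : Kern 6) (κr : RKern)
    (BL : ∀ {n : ℕ}, Finset (Finset (Fin n)) → (Fin 7 → Fin n) → ℤ) (CW : ℝ)
    (hCW : ∀ {n : ℕ} (E : Finset (Finset (Fin n))) (p : Fin 7 → Fin n),
      |((S.B E p - BL E p : ℤ) : ℝ)| ≤ CW) (lam : ℝ) (hlam : lam * (35 * S.a) ≤ S.Lo)
    (k0 : ℕ) (LL : ℕ → List ℕ) (hcov : ∀ k < k0, CovK k (LL k))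
    (hnear : ∀ k < k0, ∀ c ∈ LL k, (T.sys S).RowJ (jset c))
    {N m : ℕ} {rows : List (List ℕ)} (hn : rows.length = m) (h0 : K8.lk N 0 = 0)
    (hn0 : Nat.blt 0 m = true) (hcos : cosOK N m rows 0 = true)
    (hfar : ∀ c ∈ K8.lks N m, Far (T.sys S) c k0)
    (hB : ∀ (n : ℕ) (E' : Finset (Finset (Fin n))), (∀ e ∈ E', e.card = 4) → EvenH n E' →
      ∀ t : Fin (7 + 1) → Fin n, Function.Injective t →
        PS (κ6.f E') t ≤ DS (m := 7) (fun p => S.B E' p - BL E' p) t)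
    (hL : ∀ (n : ℕ) (H : Finset (Finset (Fin n))) (r : Fin n) (p : Fin 7 → Fin n),
      (∀ e ∈ H, e.card = 4) → Function.Injective p → (∀ i, p i ≠ r) →
        PS (κr.f H r) p ≤ BL (EvR H r) p + DS (m := 6) (fun q => 12 * T.θ H r q) p) :
    ∀ ε : ℝ, 0 < ε → ∃ N : ℕ, ∀ n : ℕ, N ≤ n → ∀ H : Finset (Finset (Fin n)),
      (∀ e ∈ H, e.card = 4) →
      (∀ T : Finset (Fin n), T.card = 5 → ∃ e ∈ T.powersetCard 4, e ∉ H) →
      (H.card : ℝ) ≤ (1 - lam + ε) * ((n.choose 4 : ℕ) : ℝ) :=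
  T.bound S κ6 κr BL CW hCW lam hlam
    (rows_nonneg (T.sys S) k0 LL hcov hnear hn h0 hn0 hcos hfar) hB hL

/-- The function of the links given by a class function of the codes. -/
def ThF.ofM (M : ℕ → ℤ) (B : ℤ)
    (hM : ∀ {n : ℕ} (H : Finset (Finset (Fin n))) (r : Fin n) (τ : Equiv.Perm (Fin 6)) s,
      MR H M r (s ∘ τ) = MR H M r s) (hb : ∀ c, |M c| ≤ B) : ThF where
  θ := fun H r p => MR H M r p
  θs := fun H τ r p => hM H r τ p
  M := B
  hM := fun H r p => (abs_le.mp (hb (cL H r p))).1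
  M' := B
  hM' := fun H r p => (abs_le.mp (hb (cL H r p))).2

theorem ThF.ofM_θ (M : ℕ → ℤ) (B : ℤ)
    (hM : ∀ {n : ℕ} (H : Finset (Finset (Fin n))) (r : Fin n) (τ : Equiv.Perm (Fin 6)) s,
      MR H M r (s ∘ τ) = MR H M r s) (hb : ∀ c, |M c| ≤ B) {n : ℕ} (H : Finset (Finset (Fin n)))
    (r : Fin n) (p : Fin 6 → Fin n) : (ThF.ofM M B hM hb).θ H r p = MR H M r p := rfl

/-- The rows of the links from the check. -/
theorem ThF.hL_of (T : ThF) (C : ChkRB) (κr : RKern)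
    (hκ : ∀ {n : ℕ} (H : Finset (Finset (Fin n))) (r : Fin n), κr.f H r = kR H C.g r)
    (hT : ∀ {n : ℕ} (H : Finset (Finset (Fin n))) (r : Fin n) (q : Fin 6 → Fin n),
      MR H C.M r q = 6 * T.θ H r q)
    (hlt : ∀ c ∈ repsR, C.Q c ≤ 21 * C.O + 7 * C.O' + C.OB)
    (hall : ∀ j < 1088, C.oneB (reE j) = true) :
    ∀ (n : ℕ) (H : Finset (Finset (Fin n))) (r : Fin n) (p : Fin 7 → Fin n),
      (∀ e ∈ H, e.card = 4) → Function.Injective p → (∀ i, p i ≠ r) →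
        PS (κr.f H r) p ≤ BV (EvR H r) C.vB p + DS (m := 6) (fun q => 12 * T.θ H r q) p := by
  intro n H r p _ hp hr
  have h := C.link_ineq_tab hlt hall H r p hp hr
  rw [hκ H r]
  have e : DS (m := 6) (fun q => 12 * T.θ H r q) p = 2 * DS (MR H C.M r) p := by
    unfold DS
    rw [Finset.mul_sum]
    refine Finset.sum_congr rfl fun x _ => ?_
    rw [hT H r (p ∘ x.succAbove)]
    ring
  rw [e]
  exact h

/-- The difference of two class functions. -/
theorem BV_sub_eq (vS vL vE : ℕ → ℤ) (h : ∀ k < 423, vS k - vL k = vE k) {n : ℕ}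
    (E : Finset (Finset (Fin n))) (s : Fin 7 → Fin n) : BV E vS s - BV E vL s = BV E vE s := by
  unfold BV
  split_ifs
  · exact h _ (cls7_lt E s)
  · exact sub_self _

theorem BV_bd (v : ℕ → ℤ) {n : ℕ} (E : Finset (Finset (Fin n))) (s : Fin 7 → Fin n) :
    |((BV E v s : ℤ) : ℝ)| ≤ ((∑ k ∈ range 423, |v k| : ℤ) : ℝ) := by
  have h := BV_abs E v (∑ k ∈ range 423, |v k|)
    (Finset.sum_nonneg fun k _ => abs_nonneg _)
    (fun k hk => Finset.single_le_sum (f := fun k => |v k|) (fun k _ => abs_nonneg _)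
      (Finset.mem_range.mpr hk)) s
  exact_mod_cast h

/-- The rows of the even 4-graphs with the difference of the class functions. -/
theorem hB_of (κ6 : Kern 6) (vS vL vE : ℕ → ℤ) (h : ∀ k < 423, vS k - vL k = vE k)
    (hE : ∀ {n : ℕ} (H : Finset (Finset (Fin n))), EvenH n H → ∀ t : Fin (7 + 1) → Fin n,
      Function.Injective t → PS (κ6.f H) t ≤ DS (m := 7) (BV H vE) t) :
    ∀ (n : ℕ) (E' : Finset (Finset (Fin n))), (∀ e ∈ E', e.card = 4) → EvenH n E' →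
      ∀ t : Fin (7 + 1) → Fin n, Function.Injective t →
        PS (κ6.f E') t ≤ DS (m := 7) (fun p => BV E' vS p - BV E' vL p) t := by
  intro n E' _ hev t ht
  refine le_trans (hE E' hev t ht) (le_of_eq ?_)
  unfold DS
  exact Finset.sum_congr rfl fun x _ => (BV_sub_eq vS vL vE h E' _).symm

/-- The value of the Turan density from the upper bound. -/
theorem density_of_upper
    (h : ∀ ε : ℝ, 0 < ε → ∃ N : ℕ, ∀ n : ℕ, N ≤ n → ∀ H : Finset (Finset (Fin n)),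
      (∀ e ∈ H, e.card = 4) →
      (∀ T : Finset (Fin n), T.card = 5 → ∃ e ∈ T.powersetCard 4, e ∉ H) →
      (H.card : ℝ) ≤ (1 - (5 / 16 : ℝ) + ε) * ((n.choose 4 : ℕ) : ℝ)) :
    ∀ ε : ℝ, 0 < ε → ∃ N : ℕ, ∀ n : ℕ, N ≤ n →
      (∃ H : Finset (Finset (Fin n)),
          (∀ e ∈ H, e.card = 4) ∧
          (∀ S : Finset (Fin n), S.card = 5 → ∃ e ∈ S.powersetCard 4, e ∉ H) ∧
          ((11 / 16 : ℝ) - ε) * ((n.choose 4 : ℕ) : ℝ) ≤ (H.card : ℝ)) ∧
      (∀ H : Finset (Finset (Fin n)),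
          (∀ e ∈ H, e.card = 4) →
          (∀ S : Finset (Fin n), S.card = 5 → ∃ e ∈ S.powersetCard 4, e ∉ H) →
          (H.card : ℝ) ≤ ((11 / 16 : ℝ) + ε) * ((n.choose 4 : ℕ) : ℝ)) := by
  intro ε hε
  obtain ⟨N1, hN1⟩ := lower ε hε
  obtain ⟨N2, hN2⟩ := h ε hε
  refine ⟨max N1 N2, fun n hn => ⟨hN1 n (le_trans (le_max_left _ _) hn), fun H h4 h5 => ?_⟩⟩
  have h3 := hN2 n (le_trans (le_max_right _ _) hn) H h4 h5
  have e : (1 - (5 / 16 : ℝ) + ε) = 11 / 16 + ε := by ring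
  rw [e] at h3
  exact h3

/-- The value of the Turan density from the certificate. -/
theorem density (T : ThF) (S : PsiSys) (hlam : 175 * S.a ≤ 16 * S.Lo) (κ6 : Kern 6)
    (vS vL vE : ℕ → ℤ)
    (hS : ∀ {n : ℕ} (E : Finset (Finset (Fin n))) (s : Fin 7 → Fin n), S.B E s = BV E vS s)
    (hv : ∀ k < 423, vS k - vL k = vE k)
    (hE : ∀ {n : ℕ} (H : Finset (Finset (Fin n))), EvenH n H → ∀ t : Fin (7 + 1) → Fin n,
      Function.Injective t → PS (κ6.f H) t ≤ DS (m := 7) (BV H vE) t)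
    (C : ChkRB) (hC : C.vB = vL) (κr : RKern)
    (hκ : ∀ {n : ℕ} (H : Finset (Finset (Fin n))) (r : Fin n), κr.f H r = kR H C.g r)
    (hT : ∀ {n : ℕ} (H : Finset (Finset (Fin n))) (r : Fin n) (q : Fin 6 → Fin n),
      MR H C.M r q = 6 * T.θ H r q)
    (hlt : ∀ c ∈ repsR, C.Q c ≤ 21 * C.O + 7 * C.O' + C.OB)
    (hall : ∀ j < 1088, C.oneB (reE j) = true)
    (k0 : ℕ) (LL : ℕ → List ℕ) (hcov : ∀ k < k0, CovK k (LL k))
    (hnear : ∀ k < k0, ∀ c ∈ LL k, (T.sys S).RowJ (jset c))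
    {N m : ℕ} {rows : List (List ℕ)} (hn : rows.length = m) (h0 : K8.lk N 0 = 0)
    (hn0 : Nat.blt 0 m = true) (hcos : cosOK N m rows 0 = true)
    (hfar : ∀ c ∈ K8.lks N m, Far (T.sys S) c k0) :
    ∀ ε : ℝ, 0 < ε → ∃ N : ℕ, ∀ n : ℕ, N ≤ n →
      (∃ H : Finset (Finset (Fin n)),
          (∀ e ∈ H, e.card = 4) ∧
          (∀ S : Finset (Fin n), S.card = 5 → ∃ e ∈ S.powersetCard 4, e ∉ H) ∧
          ((11 / 16 : ℝ) - ε) * ((n.choose 4 : ℕ) : ℝ) ≤ (H.card : ℝ)) ∧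
      (∀ H : Finset (Finset (Fin n)),
          (∀ e ∈ H, e.card = 4) →
          (∀ S : Finset (Fin n), S.card = 5 → ∃ e ∈ S.powersetCard 4, e ∉ H) →
          (H.card : ℝ) ≤ ((11 / 16 : ℝ) + ε) * ((n.choose 4 : ℕ) : ℝ)) := by
  subst hC
  refine density_of_upper (T.upper S κ6 κr (fun E s => BV E C.vB s)
    ((∑ k ∈ range 423, |vE k| : ℤ) : ℝ) ?_ (5 / 16) ?_ k0 LL hcov hnear hn h0 hn0 hcos hfar ?_
    (T.hL_of C κr hκ hT hlt hall))
  · intro n E p
    rw [hS, BV_sub_eq vS C.vB vE hv]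
    exact BV_bd vE E p
  · have h : (175 * (S.a : ℝ)) ≤ 16 * (S.Lo : ℝ) := by exact_mod_cast hlam
    linarith
  · intro n E' hE4 hev t ht
    have h := hB_of κ6 vS C.vB vE hv hE n E' hE4 hev t ht
    have e : (fun p => S.B E' p - BV E' C.vB p) = fun p => BV E' vS p - BV E' C.vB p := by
      funext p
      rw [hS]
    rw [e]
    exact h

end Pool.Agent.Lib.MP_afdd4d_co.L9
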