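import Pool.Agent.Lib.MP_afdd4d_co.L9.ThV
import Pool.Agent.Lib.MP_afdd4d_co.L9.Fin
import Pool.Agent.Lib.MP_afdd4d_co.K8.F5Psd

/-!
# The tables of a class function of the links

The class function is given by an array of values. For every coset and for every value of the last
four bits of the code, the array of the sums over the links of the seven vertices is the sum of the
arrays of the views.
-/

namespace Pool.Agent.Lib.MP_afdd4d_co.K8.L9

open Finset Gm Gm.GT

/-- The sum over the views is the sum over the vertices. -/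
theorem VL_sum (f : ℕ → ℕ) {n : ℕ} (H E' : Finset (Finset (Fin n))) (s : Fin 7 → Fin n)
    (hP : PsiSys.Pr H E' s) (c : ℕ) (hJ : JD H E' s = jset c) (τ : ℕ) (hτ : τ < 16) (b : ℕ → Bool)
    (hb : ∀ i < 16, b i = gc H s i) (ht : ∀ i < 4, τ.testBit i = gc H s (16 + i)) :
    (VL.map fun v => f (cixR (cV v (τ + 16 * cG c) b))).sum =
      ∑ x : Fin 7, f (cixR (cL H (s x) (s ∘ x.succAbove))) := by
  have hev : EvT E' s := evT_of_evenH E' hP.2.2.2.1 s hP.2.2.2.2
  obtain ⟨g, hg⟩ : ∃ g : Fin 7 → ℕ, g = fun x => f (cixR (cL H (s x) (s ∘ x.succAbove))) := ⟨_, rfl⟩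
  have h1 : ∀ v ∈ VL, f (cixR (cV v (τ + 16 * cG c) b)) = g (fp v.F 0) := by
    intro v hv
    have hok := VL_ok v hv
    have hF : okp v.F = true := by
      unfold okVw at hok
      rw [Bool.and_eq_true] at hok
      exact hok.1
    rw [cV_eq H E' v hok s hev c hJ τ hτ b hb ht, link_code, hg, ← pm_fp v.F hF 0]
  have h2 : (VL.map fun v => g (fp v.F 0)) = [0, 1, 2, 3, 4, 5, 6].map g := by
    rw [← VL_fp, List.map_map]
    rfl
  rw [List.map_congr_left h1, h2, Fin.sum_univ_seven, hg]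
  simp only [List.map_cons, List.map_nil, List.sum_cons, List.sum_nil]
  ring

/-- The values of a class function of the links. -/
structure ThB where
  VK : ℕ
  OT : ℕ
  BT : ℕ
  hO : OT % 6 = 0
  hv : ∀ k, Ln 64 VK k % 6 = 0
  hB : ∀ k, Ln 64 VK k ≤ BT

namespace ThB
variable (D : ThB)

/-- The value of a class. -/
def th (k : ℕ) : ℤ := ((Ln 64 D.VK k / 6 : ℕ) : ℤ) - ((D.OT / 6 : ℕ) : ℤ)

theorem th_six (k : ℕ) : 6 * D.th k = (Ln 64 D.VK k : ℤ) - D.OT := by
  have h1 := D.hv k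
  have h2 := D.hO
  unfold th
  omega

theorem th_abs (k : ℕ) : |D.th k| ≤ ((D.BT + D.OT : ℕ) : ℤ) := by
  have h1 := D.th_six k
  have h2 := D.hB k
  rw [abs_le]
  push_cast
  constructor <;> omega

/-- The function of the links. -/
noncomputable def T : L9.ThF :=
  L9.ThF.ofM (fun c => D.th (cixR c)) ((D.BT + D.OT : ℕ) : ℤ)
    (fun H r τ s => MR_perm H D.th r τ s) fun c => D.th_abs (cixR c)

theorem T_θ {n : ℕ} (H : Finset (Finset (Fin n))) (r : Fin n) (p : Fin 6 → Fin n) :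
    D.T.θ H r p = D.th (cixR (cL H r p)) := rfl

theorem T_M : D.T.M = ((D.BT + D.OT : ℕ) : ℤ) := rfl

/-- The sum over the vertices. -/
theorem MS_eq {n : ℕ} (H : Finset (Finset (Fin n))) (s : Fin 7 → Fin n) :
    6 * MS (D.T.θ H) s =
      ((∑ x : Fin 7, Ln 64 D.VK (cixR (cL H (s x) (s ∘ x.succAbove))) : ℕ) : ℤ) -
        ((7 * D.OT : ℕ) : ℤ) := by
  unfold MS
  rw [Finset.mul_sum]
  have h : ∀ x : Fin 7, 6 * D.T.θ H (s x) (s ∘ x.succAbove) =
      (Ln 64 D.VK (cixR (cL H (s x) (s ∘ x.succAbove))) : ℤ) - D.OT := by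
    intro x
    rw [T_θ]
    exact D.th_six _
  rw [Finset.sum_congr rfl fun x _ => h x, Finset.sum_sub_distrib, Finset.sum_const,
    Finset.card_univ, Fintype.card_fin]
  push_cast
  rw [nsmul_eq_mul]
  push_cast
  ring

end ThB

/-- A check of all numbers below `a * m`. -/
def all2 (f : ℕ → Bool) (a m : ℕ) : Bool :=
  allN (fun i => allN (fun j => f (Nat.add (Nat.mul a i) j)) a) m

theorem all2_spec (f : ℕ → Bool) (a m : ℕ) (h : all2 f a m = true) (k : ℕ) (hk : k < a * m) :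
    f k = true := by
  have ha : 0 < a := Nat.pos_of_ne_zero fun h0 => by
    rw [h0, zero_mul] at hk
    omega
  have h1 := allN_spec _ m h (k / a) (Nat.div_lt_of_lt_mul hk)
  have h2 := allN_spec _ a h1 (k % a) (Nat.mod_lt _ ha)
  have e : Nat.add (Nat.mul a (k / a)) (k % a) = k := Nat.div_add_mod k a
  rw [e] at h2
  exact h2

/-- The check of the divisibility. -/
theorem six_of (V a m : ℕ) (h1 : Nat.blt V (Nat.pow 2 (Nat.mul 64 (Nat.mul a m))) = true)
    (h2 : all2 (fun k => Nat.beq (Nat.mod (lnG 64 V k) 6) 0) a m = true) (k : ℕ) :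
    Ln 64 V k % 6 = 0 := by
  by_cases hk : k < a * m
  · have h := Nat.eq_of_beq_eq_true (all2_spec _ a m h2 k hk)
    have h3 : lnG 64 V k % 6 = 0 := h
    rwa [lnG_eq] at h3
  · have h3 : V < 2 ^ (64 * (a * m)) := Nat.blt_eq ▸ h1
    rw [Ln_eq_zero_of_lt _ _ _ _ h3 (by omega)]

/-- The check of the bound. -/
theorem le_of (V U a m : ℕ) (h1 : Nat.blt V (Nat.pow 2 (Nat.mul 64 (Nat.mul a m))) = true)
    (h2 : all2 (fun k => Nat.ble (lnG 64 V k) U) a m = true) (k : ℕ) : Ln 64 V k ≤ U := by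
  by_cases hk : k < a * m
  · have h := Nat.le_of_ble_eq_true (all2_spec _ a m h2 k hk)
    rwa [lnG_eq] at h
  · have h3 : V < 2 ^ (64 * (a * m)) := Nat.blt_eq ▸ h1
    rw [Ln_eq_zero_of_lt _ _ _ _ h3 (by omega)]
    exact Nat.zero_le _

/-- The check of the complementary array. -/
theorem ThB.th_VR (D : ThB) (VR OR a m : ℕ)
    (h : all2 (fun k => Nat.beq (Nat.add (lnG 64 D.VK k) (lnG 64 VR k)) (Nat.add D.OT OR)) a m =
      true) (k : ℕ) (hk : k < a * m) : (Ln 64 VR k : ℤ) = OR - 6 * D.th k := by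
  have h1 := Nat.eq_of_beq_eq_true (all2_spec _ a m h k hk)
  have h2 : lnG 64 D.VK k + lnG 64 VR k = D.OT + OR := h1
  rw [lnG_eq, lnG_eq] at h2
  have h3 := D.th_six k
  rw [h3]
  omega

set_option exponentiation.threshold 100000000 in
theorem cixR_reps : repsR.all (fun c => Nat.blt (lkG 12 ctabR c) 2136) = true := by
  decide +kernel

/-- The number of the classes. -/
theorem cixR_lt (c : ℕ) : cixR c < 2136 := by
  by_cases hc : c < 2 ^ 20
  · have h : ∀ b : ℕ → Bool, cixR (idx 20 b) < 2136 := by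
      refine red_all20R (fun c => cixR c < 2136) ?_ ?_
      · intro c hc
        have h1 := List.all_eq_true.mp cixR_reps c hc
        have h2 : lkG 12 ctabR c < 2136 := Nat.blt_eq ▸ h1
        rwa [lkG_eq] at h2
      · intro i b h
        rw [cixR_move] at h
        exact h
    have h1 := h c.testBit
    rwa [idx_testBit 20 c hc] at h1
  · rw [cixR, Ln_eq_zero_of_lt 12 ctabR (2 ^ 20) c ctabR_ar.lt (by omega)]
    norm_num

/-- The values of the complementary array. -/
theorem ThB.M_eq (D : ThB) (VR OR a m : ℕ) (hm : a * m = 2136)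
    (h : all2 (fun k => Nat.beq (Nat.add (lnG 64 D.VK k) (lnG 64 VR k)) (Nat.add D.OT OR)) a m =
      true) (c : ℕ) : (OR : ℤ) - Ln 64 VR (cixR c) = 6 * D.th (cixR c) := by
  rw [D.th_VR VR OR a m h (cixR c) (by rw [hm]; exact cixR_lt c)]
  ring

/-- The data of the tables of a class function of the links. -/
structure ThD extends ThB where
  TT : ℕ → TN
  hBT : 7 * BT < 2 ^ 64
  hT : ∀ t < 16, tnC (bvR 64 VK t) (TT t) 9 0 = true

/-- The tables of the function of the links. -/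
noncomputable def ThD.F (D : ThD) (reps : List ℕ) : L9.ThTab D.T 64 reps where
  O := 7 * D.OT
  MF := 7 * D.BT
  tF c τ := smV 64 D.TT (Nat.add τ (Nat.mul 16 (cG c))) VL
  fF c τ b := (VL.map fun v => Ln 64 D.VK (cixR (cV v (τ + 16 * cG c) b))).sum
  hF c _ τ _ := (smV_ar D.VK D.TT (by norm_num) D.hT D.BT D.hB (τ + 16 * cG c) VL VL_ok
    D.hBT).1
  hF2 c _ τ _ b := (smV_ar D.VK D.TT (by norm_num) D.hT D.BT D.hB (τ + 16 * cG c) VL VL_ok
    D.hBT).2 b
  sF n H E' s c _ hP hJ := by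
    rw [D.MS_eq H s, VL_sum (fun k => Ln 64 D.VK k) H E' s hP c hJ
      (idx 4 fun i => gc H s (16 + i)) (idx_lt 4 _) (gc H s) (fun _ _ => rfl) (fun i hi => by
        rw [testBit_idx, decide_eq_true hi, Bool.true_and])]

end Pool.Agent.Lib.MP_afdd4d_co.K8.L9
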