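import Pool.Agent.Lib.MP_afdd4d_co.L9.Fin
import Pool.Agent.Lib.MP_afdd4d_co.L9.LInst
import Pool.Agent.Lib.MP_afdd4d_co.L9.ThT
import Pool.Agent.Lib.MP_afdd4d_co.K8.CovDat

/-!
# The assembly from the data
-/

namespace Pool.Agent.Lib.MP_afdd4d_co.K8.L9

open Finset K8.PsiSys K8.Pt

/-- The difference of the class functions, from a check of the lanes. -/
theorem v_sub (VB VE VQ a b c : ℕ) (h : allN (fun k => Nat.beq
      (Nat.add (Nat.add (lnG 64 VB k) (Nat.mul 2 (lnG 64 VQ k))) b)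
      (Nat.add (Nat.add (lnG 64 VE k) a) (Nat.mul 2 c))) 423 = true) (k : ℕ) (hk : k < 423) :
    ((Ln 64 VB k : ℤ) - (a : ℤ)) - (2 * (c : ℤ) - 2 * (Ln 64 VQ k : ℤ)) =
      (Ln 64 VE k : ℤ) - (b : ℤ) := by
  have h1 := Nat.eq_of_beq_eq_true (allN_spec _ _ h k hk)
  have h2 : lnG 64 VB k + 2 * lnG 64 VQ k + b = lnG 64 VE k + a + 2 * c := h1
  rw [lnG_eq, lnG_eq, lnG_eq] at h2
  omega

/-- The value of the Turan density from the certificate. -/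
theorem density_of (D0 : ThB) (S0 : PsiSys) (hlam : 175 * S0.a ≤ 16 * S0.Lo) (κ6 : Kern 6)
    (vS vE : ℕ → ℤ)
    (hS : ∀ {n : ℕ} (E : Finset (Finset (Fin n))) (s : Fin 7 → Fin n), S0.B E s = BV E vS s)
    (hE : ∀ {n : ℕ} (H : Finset (Finset (Fin n))), EvenH n H → ∀ t : Fin (7 + 1) → Fin n,
      Function.Injective t → PS (κ6.f H) t ≤ DS (m := 7) (BV H vE) t)
    (I : LIn) (hv : ∀ k < 423, vS k - I.vB k = vE k)
    (hth : ∀ c, (I.O' : ℤ) - Ln 64 I.VR (cixR c) = 6 * D0.th (cixR c))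
    (hall : ∀ j < 1088, I.C.oneB (reE j) = true)
    (hnear : ∀ k < 7, ∀ c ∈ nearLL k, (D0.T.sys S0).RowJ (jset c))
    (hfar : ∀ c ∈ K8.lks cosN 54, Far (D0.T.sys S0) c 7) :
    ∀ ε : ℝ, 0 < ε → ∃ N : ℕ, ∀ n : ℕ, N ≤ n →
      (∃ H : Finset (Finset (Fin n)),
          (∀ e ∈ H, e.card = 4) ∧
          (∀ S : Finset (Fin n), S.card = 5 → ∃ e ∈ S.powersetCard 4, e ∉ H) ∧
          ((11 / 16 : ℝ) - ε) * ((n.choose 4 : ℕ) : ℝ) ≤ (H.card : ℝ)) ∧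
      (∀ H : Finset (Finset (Fin n)),
          (∀ e ∈ H, e.card = 4) →
          (∀ S : Finset (Fin n), S.card = 5 → ∃ e ∈ S.powersetCard 4, e ∉ H) →
          (H.card : ℝ) ≤ ((11 / 16 : ℝ) + ε) * ((n.choose 4 : ℕ) : ℝ)) :=
  L9.density D0.T S0 hlam κ6 vS I.vB vE hS hv hE I.C rfl I.D.T.lg.kern
    (fun _ _ => rfl) (fun _ _ _ => hth _) I.hlt hall 7 nearLL nearLL_cov hnear
    (rows := cosT) cosT_len cosN_zero (by decide) cosN_ok hfar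

end Pool.Agent.Lib.MP_afdd4d_co.K8.L9
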