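import Pool.Agent.Lib.MP_afdd4d_co.L9.ChkR
import Pool.Agent.Lib.MP_afdd4d_co.K8.EvB
import Pool.Agent.Lib.MP_afdd4d_co.K8.JV

/-!
# The local inequalities for the links with a function of their coboundaries

The check of the links is extended by a class function of the even 4-graph of the root on the other
seven vertices.
-/

namespace Pool.Agent.Lib.MP_afdd4d_co.K8.L9

open Finset

section root
variable {n : ℕ} (H : Finset (Finset (Fin n)))

/-- A quadruple that contains the root is in the even 4-graph of the root if and only if it is in the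
4-graph. -/
theorem dec_evR (r : Fin n) (Q : Finset (Fin n)) (hQ : Q.card = 4) (hr : r ∈ Q) :
    decide (Q ∈ EvR H r) = decide (Q ∈ H) := by
  unfold EvR
  rw [dec_flpE _ _ _ hQ]
  have h2 : decide (Q ∈ (∅ : Finset (Finset (Fin n)))) = false := by simp
  rw [h2, Bool.false_xor]
  apply bz_inj
  rw [bz_par, Finset.sum_eq_single (Q.erase r)]
  · have e : decide (r ∉ Q.erase r ∧ insert r (Q.erase r) ∈ H) = decide (Q ∈ H) := by
      rw [Finset.insert_erase hr]
      simp
    rw [e]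
  · intro T hT hne
    have hT' := Finset.mem_powersetCard.mp hT
    have h3 : r ∈ T := by
      by_contra h4
      apply hne
      apply Finset.eq_of_subset_of_card_le
      · intro z hz
        rw [Finset.mem_erase]
        exact ⟨fun h => h4 (h ▸ hz), hT'.1 hz⟩
      · rw [Finset.card_erase_of_mem hr, hQ, hT'.2]
    have e : decide (r ∉ T ∧ insert r T ∈ H) = false := by simp [h3]
    rw [e]
    rfl
  · intro h
    exact absurd (Finset.mem_powersetCard.mpr ⟨Finset.erase_subset _ _, by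
      rw [Finset.card_erase_of_mem hr, hQ]⟩) h

/-- The codes of the 4-graph and of the even 4-graph of the root. -/
theorem gc_evR_root (r : Fin n) (s : Fin 7 → Fin n) (hs : Function.Injective s)
    (hr : ∀ i, s i ≠ r) (i : ℕ) (hi : i < 35) :
    gc (EvR H r) (Fin.cons r s : Fin 8 → Fin n) i = gc H (Fin.cons r s : Fin 8 → Fin n) i := by
  have ht : Function.Injective (Fin.cons r s : Fin 8 → Fin n) := by
    rw [Fin.cons_injective_iff]
    exact ⟨fun ⟨j, hj⟩ => hr j hj, hs⟩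
  have hc : ((qd 8 i).image (Fin.cons r s : Fin 8 → Fin n)).card = 4 := by
    rw [Finset.card_image_of_injective _ ht, (qd_data i hi).1]
  rw [gc, gc, Jv.zb_eq_dec, Jv.zb_eq_dec]
  apply dec_evR H r _ hc
  rw [Finset.mem_image]
  exact ⟨0, (qd_data i hi).2, rfl⟩

/-- The sum of the terms of the links, with a remainder. -/
theorem root_local' (g : ℕ → ℕ → ℤ) (O O' : ℕ) (Q : ℕ → ℕ) (M : ℕ → ℤ)
    (hO : ∀ c d, -(O : ℤ) ≤ g c d) (hs : ∀ c d, g c d = g d c) (r : Fin n)
    (hp : ∀ (τ : Equiv.Perm (Fin 5)) s u w, kR H g r (s ∘ τ) u w = kR H g r s u w)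
    (hM : ∀ (τ : Equiv.Perm (Fin 6)) s, MR H M r (s ∘ τ) = MR H M r s)
    (hQ : ∀ c < 2 ^ 20, (O' : ℤ) - M c ≤ Q c) (s : Fin 7 → Fin n) :
    PS (kR H g r) s + 42 * O + 14 * O' ≤ 2 * DS (MR H M r) s +
      2 * (fV (gN g O) Q wdR (gc H (Fin.cons r s : Fin 8 → Fin n)) : ℕ) +
      2 * (Q (idx 20 (gc H (Fin.cons r s : Fin 8 → Fin n))) : ℕ) := by
  have h1 := fV_root H g O O' Q M hO r hp hM hQ s wdR (by decide) 1
  have hid : ((1 : Equiv.Perm (Fin 7)) : Fin 7 → Fin 7) = id := rfl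
  rw [hid, Function.comp_id] at h1
  set F : Fin 7 × Fin 7 → ℤ := fun x => KY (kR H g r) s x.1 x.2 with hF
  have hFs : ∀ x : Fin 7 × Fin 7, x ∈ pwR wdR id → F x.swap = F x := by
    intro x hx
    have hne : ∀ x ∈ pwR wdR id, x.1 ≠ x.2 := by decide +kernel
    exact KY_symm _ (fun s u w => by
      unfold kR
      rw [hs]) s _ _ (hne x hx).symm
  have h2 : 2 * ((pwR wdR id).map F).sum = PS (kR H g r) s := by
    rw [PS_eq_KY]
    have h3 := sum_allR F
    rw [← (pwR_wdR.map F).sum_eq, List.map_append, List.sum_append, List.map_map] at h3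
    have h4 : (pwR wdR id).map (F ∘ Prod.swap) = (pwR wdR id).map F := List.map_congr_left hFs
    rw [h4] at h3
    rw [two_mul, h3]
  have h5 : ((pwR wdR id).map fun x => (O : ℤ) + KY (kR H g r) s x.1 x.2).sum =
      21 * O + ((pwR wdR id).map F).sum := by
    rw [List.sum_map_add, List.map_const', List.sum_replicate, pwR_wdR_len, nsmul_eq_mul]
    rfl
  set q' : Fin 7 → ℤ := fun v => (O' : ℤ) - MR H M r (s ∘ v.succAbove) with hq'
  have h6 : q' 6 + ((qwR wdR id).map q').sum = 7 * O' - DS (MR H M r) s := by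
    have h7 := (qwR_wdR.map q').sum_eq
    rw [List.map_cons, List.sum_cons] at h7
    rw [h7, ← List.ofFn_eq_map, List.sum_ofFn, hq', Finset.sum_sub_distrib, Finset.sum_const,
      Finset.card_univ, Fintype.card_fin, nsmul_eq_mul]
    rfl
  have h8 : q' 6 ≤ Q (idx 20 (gc H (Fin.cons r s : Fin 8 → Fin n))) := by
    have h9 := hQ (cL H r (s ∘ (6 : Fin 7).succAbove)) (idx_lt 20 _)
    have h10 : cL H r (s ∘ (6 : Fin 7).succAbove) =
        idx 20 (gc H (Fin.cons r s : Fin 8 → Fin n)) := by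
      unfold cL
      rw [cons_s6]
      have h12 := idx_flag H (Fin.cons r s : Fin 8 → Fin n) f3 rP rX rfl f3_data
      rw [h12]
      have h11 : idx 20 (gc H (Fin.cons r s : Fin 8 → Fin n)) =
          idx 10 (sel rP (gc H (Fin.cons r s : Fin 8 → Fin n))) +
          1024 * idx 10 (sel rX (gc H (Fin.cons r s : Fin 8 → Fin n))) := by
        rw [show (20 : ℕ) = 10 + 10 from rfl, idx_add_ten]
        have e1 : ∀ r < 10, rP.getD r 0 = r := by decide
        have e2 : ∀ r < 10, rX.getD r 0 = 10 + r := by decide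
        have e3 : idx 10 (gc H (Fin.cons r s : Fin 8 → Fin n)) =
            idx 10 (sel rP (gc H (Fin.cons r s : Fin 8 → Fin n))) := by
          apply idx_congr
          intro r hr
          rw [sel, e1 r hr]
        have e4 : (idx 10 fun k => gc H (Fin.cons r s : Fin 8 → Fin n) (10 + k)) =
            idx 10 (sel rX (gc H (Fin.cons r s : Fin 8 → Fin n))) := by
          apply idx_congr
          intro r hr
          rw [sel, e2 r hr]
        rw [e3, e4]
      rw [h11]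
    have h13 : q' 6 = (O' : ℤ) - M (cL H r (s ∘ (6 : Fin 7).succAbove)) := rfl
    rw [h13, h10]
    rw [h10] at h9
    exact h9
  rw [h5] at h1
  linarith

/-! ### The part of the even 4-graph -/

/-- The kernel zero. -/
def g0 (_ _ : ℕ) : ℤ := 0

theorem gN_g0 (p x y : ℕ) : gN g0 0 p x y = 0 := rfl

/-- The order of the seven vertices after the exchange of the root. -/
def o7 : Equiv.Perm (Fin 7) := ⟨![5, 0, 1, 2, 3, 4, 6], ![1, 2, 3, 4, 5, 0, 6], by decide, by decide⟩

theorem cons_o7 (r : Fin n) (s : Fin 7 → Fin n) :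
    ((Fin.cons r s : Fin 8 → Fin n) ∘ exK 9) ∘ (6 : Fin 8).succAbove = s ∘ o7 := by
  have h : ∀ i : Fin 7, exK 9 ((6 : Fin 8).succAbove i) = (o7 i).succ := by decide +kernel
  funext i
  rw [Function.comp_apply, Function.comp_apply, h i, Fin.cons_succ, Function.comp_apply]

theorem fV_even (QB : ℕ → ℕ) (r : Fin n) (s : Fin 7 → Fin n) (hs : Function.Injective s)
    (hr : ∀ i, s i ≠ r) :
    fV (gN g0 0) QB [9, 11] (gc H (Fin.cons r s : Fin 8 → Fin n)) =
      QB (idx 20 (gc (EvR H r) (s ∘ o7))) := by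
  have ht : Function.Injective (Fin.cons r s : Fin 8 → Fin n) := by
    rw [Fin.cons_injective_iff]
    exact ⟨fun ⟨j, hj⟩ => hr j hj, hs⟩
  have hev : EvT (EvR H r) (Fin.cons r s : Fin 8 → Fin n) :=
    Jv.evT_of_evenH _ (EvR_even H r) _ ht
  have h1 : fV (gN g0 0) QB [9, 11] (gc H (Fin.cons r s : Fin 8 → Fin n)) =
      fV (gN g0 0) QB [9, 11] (gc (EvR H r) (Fin.cons r s : Fin 8 → Fin n)) :=
    fV_congr _ _ _ _ _ fun i hi => (gc_evR_root H r s hs hr i hi).symm
  have h2 : fV (gN g0 0) QB [9, 11] (gc (EvR H r) (Fin.cons r s : Fin 8 → Fin n)) =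
      fV (gN g0 0) QB [11] (mvz 9 (gc (EvR H r) (Fin.cons r s : Fin 8 → Fin n))) := by
    rw [fV, if_neg (by norm_num), if_neg (by norm_num)]
  have h3 : fV (gN g0 0) QB [11] (mvz 9 (gc (EvR H r) (Fin.cons r s : Fin 8 → Fin n))) =
      fV (gN g0 0) QB [11] (gc (EvR H r) ((Fin.cons r s : Fin 8 → Fin n) ∘ exK 9)) :=
    fV_congr _ _ _ _ _ (gc_exK (EvR H r) _ hev 9 (by norm_num))
  have hev2 : EvT (EvR H r) ((Fin.cons r s : Fin 8 → Fin n) ∘ exK 9) :=
    (evT_perm _ _ _).mpr hev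
  have h4 := Rz_tuple (EvR H r) g0 0 QB (fun _ _ => le_rfl) _ hev2
  have h5 : KX (evk (EvR H r) (gK (EvR H r) g0)) ((Fin.cons r s : Fin 8 → Fin n) ∘ exK 9) 6 7 =
      0 := by
    unfold KX evk gK g0
    exact ite_self _
  rw [h5, cons_o7] at h4
  rw [h1, h2, h3]
  have h6 : fV (gN g0 0) QB [11] (gc (EvR H r) ((Fin.cons r s : Fin 8 → Fin n) ∘ exK 9)) =
      Rz (gN g0 0) QB (gc (EvR H r) ((Fin.cons r s : Fin 8 → Fin n) ∘ exK 9)) := by
    rw [fV, if_neg (by norm_num), if_pos rfl, fV, Nat.zero_add]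
  rw [h6]
  have h7 : ((Rz (gN g0 0) QB (gc (EvR H r) ((Fin.cons r s : Fin 8 → Fin n) ∘ exK 9)) : ℕ) : ℤ) =
      (QB (idx 20 (gc (EvR H r) (s ∘ o7))) : ℕ) := by
    rw [h4]
    push_cast
    ring
  exact_mod_cast h7

end root

/-- The data of the check for the links with a class function of the coboundary. -/
structure ChkRB extends ChkR where
  vB : ℕ → ℤ
  OB : ℕ
  B3 : ℕ
  QB : ℕ → ℕ
  rowB : ℕ → ℕ
  hQB2 : ∀ c, QB c ≤ B3
  hQB : ∀ c, 2 * (OB : ℤ) ≤ 2 * (QB c : ℤ) + vB (cix c)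
  hbd3 : 35 * (2 * O + B2) + 2 * B3 < 2 ^ (W - 1)
  hrowB : ∀ c < 2 ^ 20, Ar W 10 (rowB c) fun b => QB (c % 1024 + 1024 * idx 10 b)

namespace ChkRB
variable (C : ChkRB)

/-- The check of one base. -/
def oneB (c : ℕ) : Bool :=
  leG C.W 15 (Nat.sub (Nat.add (Nat.add (Nat.mul 21 C.O) (Nat.mul 7 C.O')) C.OB) (C.Q c))
    (Nat.add (arG C.W (tabG C.W C.bk) C.row wdR c) (arG C.W (fun _ => 0) C.rowB [9, 11] c))

/-- The local inequality from the check. -/
theorem local_of_one (c : ℕ) (hc : c < 2 ^ 20) (hQc : C.Q c ≤ 21 * C.O + 7 * C.O' + C.OB)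
    (hone : C.oneB c = true) {n : ℕ} (H : Finset (Finset (Fin n))) (r : Fin n)
    (s : Fin 7 → Fin n) (hs : Function.Injective s) (hr : ∀ i, s i ≠ r)
    (hsc : idx 20 (gc H (Fin.cons r s : Fin 8 → Fin n)) = c) :
    PS (kR H C.g r) s ≤ BV (EvR H r) C.vB s + 2 * DS (MR H C.M r) s := by
  have hW : 0 < C.W := by have := C.hW; omega
  have h2W : 2 ^ C.W = 2 ^ (C.W - 1) + 2 ^ (C.W - 1) := by
    obtain ⟨k, hk⟩ : ∃ k, C.W = k + 1 := ⟨C.W - 1, by omega⟩
    rw [hk, Nat.add_sub_cancel, pow_succ]; ring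
  have hbd := C.hbd3
  have har := arG_ar (gN C.g C.O) C.Q (tabG C.W C.bk) C.row hW (2 * C.O) C.B2
    (fun p x y => C.gN_le p x y) C.hQ2
    (fun c _ => tabG_ar hW (gN C.g C.O) C.bk C.hbk c) C.hrow 35 (by omega) wdR ChkR.wdR_lt
    (by rw [ChkR.wdR_len]) c hc
  have har2 := arG_ar (gN g0 0) C.QB (fun _ => 0) C.rowB hW 0 C.B3
    (fun p x y => le_of_eq (gN_g0 p x y)) C.hQB2
    (fun c _ => (ar_zero (W := C.W) 14).congr fun b => rfl)
    (fun c hc => (C.hrowB c hc).congr fun b => by rw [gN_g0, Nat.zero_add]) 2 (by omega)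
    [9, 11] (by decide) (by decide) c hc
  have hfV : ∀ z, fV (gN C.g C.O) C.Q wdR z ≤ 35 * (2 * C.O + C.B2) := by
    intro z
    have h1 := fV_le (gN C.g C.O) C.Q (2 * C.O) C.B2 (fun p x y => C.gN_le p x y) C.hQ2 wdR z
    rw [ChkR.wdR_len] at h1
    exact h1
  have hfV2 : ∀ z, fV (gN g0 0) C.QB [9, 11] z ≤ 2 * C.B3 := by
    intro z
    have h1 := fV_le (gN g0 0) C.QB 0 C.B3 (fun p x y => le_of_eq (gN_g0 p x y)) C.hQB2 [9, 11] z
    have e : ([9, 11] : List ℕ).length = 2 := rfl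
    rw [e, Nat.zero_add] at h1
    exact h1
  have har3 := har.add har2 hW (fun b => by
    have := hfV (mkz c b)
    have := hfV2 (mkz c b)
    omega)
  set K := 21 * C.O + 7 * C.O' + C.OB - C.Q c with hK
  have h4 : fV (gN C.g C.O) C.Q wdR (gc H (Fin.cons r s : Fin 8 → Fin n)) +
      fV (gN g0 0) C.QB [9, 11] (gc H (Fin.cons r s : Fin 8 → Fin n)) ≤ K := by
    by_cases hK2 : K < 2 ^ (C.W - 1)
    · have h3 := leG_le C.hW har3 hK2 (fun b => by
        have := hfV (mkz c b)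
        have := hfV2 (mkz c b)
        omega) hone
      have h5 := h3 fun l => gc H (Fin.cons r s : Fin 8 → Fin n) (lam.getD l 0)
      have h0 : ∀ i < 35, mkz c (fun l => gc H (Fin.cons r s : Fin 8 → Fin n) (lam.getD l 0)) i =
          gc H (Fin.cons r s : Fin 8 → Fin n) i := by
        intro i hi
        unfold mkz
        by_cases h7 : i < 20
        · rw [if_pos h7, ← hsc, testBit_idx]
          simp [h7]
        · rw [if_neg h7]
          obtain ⟨_, _, _, _, h10⟩ := lai_data (i - 20) (by omega)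
          have h11 : lam.getD (lai.getD (i - 20) 0) 0 = i := by omega
          exact congrArg (gc H (Fin.cons r s : Fin 8 → Fin n)) h11
      have h6 := fV_congr (gN C.g C.O) C.Q wdR _ _ h0
      have h6' := fV_congr (gN g0 0) C.QB [9, 11] _ _ h0
      rw [← h6, ← h6']
      exact h5
    · have h1 := hfV (gc H (Fin.cons r s : Fin 8 → Fin n))
      have h2 := hfV2 (gc H (Fin.cons r s : Fin 8 → Fin n))
      omega
  have h5 := root_local' H C.g C.O C.O' C.Q C.M (fun c d => (abs_le.mp (C.hO c d)).1) C.hs r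
    (C.hp H r) (C.hM H r) C.hQ s
  rw [hsc] at h5
  have h6 := fV_even H C.QB r s hs hr
  rw [h6] at h4
  have h7 := C.hQB (idx 20 (gc (EvR H r) (s ∘ o7)))
  have ht : Function.Injective (s ∘ o7) := hs.comp o7.injective
  have hev : EvT (EvR H r) (s ∘ o7) := Jv.evT_of_evenH _ (EvR_even H r) _ ht
  have h8 : BV (EvR H r) C.vB s = C.vB (cix (idx 20 (gc (EvR H r) (s ∘ o7)))) := by
    rw [← BV_perm (EvR H r) C.vB o7 s, BV_even _ _ _ hev]
    rfl
  rw [h8]
  have h9 : ((fV (gN C.g C.O) C.Q wdR (gc H (Fin.cons r s : Fin 8 → Fin n)) : ℕ) : ℤ) +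
      (C.QB (idx 20 (gc (EvR H r) (s ∘ o7))) : ℕ) ≤ (K : ℕ) := by exact_mod_cast h4
  have h10 : (K : ℤ) = 21 * C.O + 7 * C.O' + C.OB - C.Q c := by
    rw [hK, Nat.cast_sub hQc]
    push_cast
    ring
  rw [h10] at h9
  linarith

/-- The local inequalities for the links. -/
theorem link_ineq (hlt : ∀ c ∈ repsR, C.Q c ≤ 21 * C.O + 7 * C.O' + C.OB)
    (hall : ∀ c ∈ repsR, C.oneB c = true) {n : ℕ} (H : Finset (Finset (Fin n))) (r : Fin n)
    (s : Fin 7 → Fin n) (hs : Function.Injective s) (hr : ∀ i, s i ≠ r) :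
    PS (kR H C.g r) s ≤ BV (EvR H r) C.vB s + 2 * DS (MR H C.M r) s := by
  have hr20 : ∀ c ∈ repsR, c < 2 ^ 20 := by
    have h := repsR_lt
    rw [List.all_eq_true] at h
    exact fun c hc => of_decide_eq_true (h c hc)
  refine root_reduce H r (fun s => Function.Injective s → (∀ i, s i ≠ r) →
    PS (kR H C.g r) s ≤ BV (EvR H r) C.vB s + 2 * DS (MR H C.M r) s) ?_ ?_ s hs hr
  · intro s σ h1 hs hr
    have h0 := h1 (hs.comp σ.injective) fun i => hr (σ i)
    have h2 := PS_perm (kR H C.g r) (C.hp H r) σ s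
    have h3 := DS_perm (MR H C.M r) (C.hM H r) σ s
    rw [h2, h3, BV_perm] at h0
    exact h0
  · intro c hc s hsc hs hr
    exact C.local_of_one c (hr20 c hc) (hlt c hc) (hall c hc) H r s hs hr hsc

end ChkRB

end Pool.Agent.Lib.MP_afdd4d_co.K8.L9
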