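import Pool.Agent.Lib.MP_afdd4d_co.K8.View4

/-!
# Lanes of lanes, products of arrays, and the spreading of lanes
-/

namespace Pool.Agent.Lib.MP_afdd4d_co.K8.L9

open Finset

/-! ### Lanes of lanes -/

/-- The lanes of a wide lane. -/
theorem Ln_Ln (w k X L r : ℕ) (hr : r < k) : Ln w (Ln (w * k) X L) r = Ln w X (k * L + r) := by
  have e1 : Ln (w * k) X L = (X >>> (w * (k * L))) % 2 ^ (w * k) := by
    rw [Ln_eq_shr, mul_assoc]
  rw [e1, Ln_mod, if_pos hr, Ln_shr]
  congr 1
  ring

/-- A number with equal lanes in a wide lane. -/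
theorem Ln_wide_ext (w k X L v : ℕ) (hw : 0 < w) (hv : v < 2 ^ (w * k))
    (h : ∀ r < k, Ln w X (k * L + r) = Ln w v r) : Ln (w * k) X L = v := by
  apply Ln_ext w _ _ hw
  intro r
  by_cases hr : r < k
  · rw [Ln_Ln w k X L r hr, h r hr]
  · have e1 : Ln (w * k) X L < 2 ^ (w * k) := Ln_lt _ _ _
    rw [Ln_eq_zero_of_lt _ _ _ _ e1 (not_lt.mp hr), Ln_eq_zero_of_lt _ _ _ _ hv (not_lt.mp hr)]

/-! ### Products -/

/-- The product of an array and an array of wide lanes. -/
theorem ar_mul {W m : ℕ} (hW : 0 < W) {A : ℕ} {f : (ℕ → Bool) → ℕ} (hA : Ar W m A f) (n : ℕ) :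
    ∀ (S : ℕ) (g : (ℕ → Bool) → ℕ), Ar (W * 2 ^ m) n S g → (∀ b b', f b * g b' < 2 ^ W) →
    Ar W (m + n) (A * S) fun b => f b * g fun r => b (m + r) := by
  induction n with
  | zero =>
    intro S g hS h
    have hd : ∀ b b', g b = g b' := fun b b' => hS.dep b b' fun r hr => absurd hr (by omega)
    have e : S = g fun _ => false := by
      have h1 := hS.get fun _ => false
      have h2 := hS.lt
      rw [idx] at h1
      rw [pow_zero, mul_one] at h2
      rw [← h1]
      unfold Ln
      rw [mul_zero, pow_zero, Nat.div_one, Nat.mod_eq_of_lt h2]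
    have h3 := hA.smul S hW (fun b => by
      rw [e, mul_comm]
      exact h b _)
    rw [mul_comm]
    refine h3.congr fun b => ?_
    rw [mul_comm, e, hd (fun _ => false) fun r => b (m + r)]
  | succ n ih =>
    intro S g hS h
    have hWm : 0 < W * 2 ^ m := Nat.mul_pos hW (Nat.two_pow_pos m)
    set N := W * 2 ^ m * 2 ^ n with hN
    have h0 : Ar (W * 2 ^ m) n (S % 2 ^ N) fun b => g (upd b n false) := by
      refine ⟨Nat.mod_lt _ (Nat.two_pow_pos _), fun b => ?_⟩
      have e1 : idx (n + 1) (upd b n false) = idx n b := by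
        rw [idx]
        have e2 : upd b n false n = false := if_pos rfl
        rw [e2, Bool.toNat_false, mul_zero, add_zero]
        apply idx_congr
        intro r hr
        exact if_neg (by omega)
      rw [Ln_mod, if_pos (idx_lt n b), ← hS.get, e1]
    have h1 : Ar (W * 2 ^ m) n (S >>> N) fun b => g (upd b n true) := by
      refine ⟨?_, fun b => ?_⟩
      · have h2 := hS.lt
        rw [Nat.shiftRight_eq_div_pow]
        apply Nat.div_lt_of_lt_mul
        rw [← pow_add, hN]
        have e3 : W * 2 ^ m * 2 ^ n + W * 2 ^ m * 2 ^ n = W * 2 ^ m * 2 ^ (n + 1) := by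
          rw [pow_succ]; ring
        rw [e3]
        exact h2
      · have e1 : idx (n + 1) (upd b n true) = idx n b + 2 ^ n := by
          rw [idx]
          have e2 : upd b n true n = true := if_pos rfl
          rw [e2, Bool.toNat_true, mul_one]
          congr 1
          apply idx_congr
          intro r hr
          exact if_neg (by omega)
        rw [hN, Ln_shr, ← hS.get, e1]
    have h2 := ih _ _ h0 (fun b b' => h b _)
    have h3 := ih _ _ h1 (fun b b' => h b _)
    have h4 := h2.cat h3 hW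
    have e4 : A * S = A * (S % 2 ^ N) + (A * (S >>> N)) <<< (W * 2 ^ (m + n)) := by
      have e5 : W * 2 ^ (m + n) = N := by rw [hN, pow_add]; ring
      have e6 := Nat.mod_add_div S (2 ^ N)
      rw [e5, Nat.shiftLeft_eq, Nat.shiftRight_eq_div_pow]
      conv_lhs => rw [← e6]
      ring
    have e7 : m + (n + 1) = (m + n) + 1 := by ring
    rw [e4, e7]
    refine h4.congr fun b => ?_
    have hu : ∀ v : Bool, b (m + n) = v →
        g (upd (fun r => b (m + r)) n v) = g fun r => b (m + r) := by
      intro v hv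
      apply hS.dep
      intro r _
      unfold upd
      by_cases hr : r = n
      · rw [if_pos hr, hr, hv]
      · rw [if_neg hr]
    cases hb : b (m + n)
    · rw [if_neg (by simp), hu false hb]
    · rw [if_pos rfl, hu true hb]

/-! ### Spreading -/

/-- The sum of shifted copies. -/
def scG (A n : ℕ) : ℕ := @Nat.rec (fun _ => ℕ) 0 (fun l ih => Nat.add ih (Nat.shiftLeft A (Nat.mul 960 l))) n

/-- The multiplier. -/
def spC : ℕ := scG 1 16

/-- The mask. -/
def spM : ℕ := csG 1024 (2 ^ 64 - 1) 4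

/-- Spreading of sixteen lanes of 64 bits to lanes of 1024 bits. -/
def spG (A : ℕ) : ℕ := Nat.land (Nat.mul A spC) spM

theorem scG_mul (A n : ℕ) : A * scG 1 n = scG A n := by
  induction n with
  | zero => rfl
  | succ n ih =>
    have e1 : scG 1 (n + 1) = scG 1 n + 1 <<< (960 * n) := rfl
    have e2 : scG A (n + 1) = scG A n + A <<< (960 * n) := rfl
    rw [e1, e2, mul_add, ih, Nat.shiftLeft_eq, Nat.shiftLeft_eq, one_mul]

theorem Ln_scG (A B : ℕ) (hB : 16 * B < 2 ^ 64) (hA : ∀ i, Ln 64 A i ≤ B) : ∀ n ≤ 16, ∀ t,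
    Ln 64 (scG A n) t = ∑ l ∈ range n, (if t < 15 * l then 0 else Ln 64 A (t - 15 * l)) := by
  intro n
  induction n with
  | zero =>
    intro _ t
    rw [Finset.range_zero, Finset.sum_empty]
    exact Ln_zero_left _ _
  | succ n ih =>
    intro hn t
    have ih' := ih (by omega)
    have e2 : scG A (n + 1) = scG A n + A <<< (64 * (15 * n)) := by
      have e3 : 64 * (15 * n) = 960 * n := by ring
      rw [e3]
      rfl
    have hbd : ∀ i, Ln 64 (scG A n) i + Ln 64 (A <<< (64 * (15 * n))) i < 2 ^ 64 := by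
      intro i
      have h1 : Ln 64 (scG A n) i ≤ n * B := by
        rw [ih' i]
        calc _ ≤ ∑ l ∈ range n, B := by
              refine Finset.sum_le_sum fun l _ => ?_
              split_ifs
              · exact Nat.zero_le _
              · exact hA _
          _ = n * B := by rw [Finset.sum_const, Finset.card_range, smul_eq_mul]
      have h2 : Ln 64 (A <<< (64 * (15 * n))) i ≤ B := by
        rw [Ln_shl]
        split_ifs
        · exact Nat.zero_le _
        · exact hA _
      have h3 : (n + 1) * B ≤ 16 * B := Nat.mul_le_mul_right _ hn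
      calc _ ≤ n * B + B := Nat.add_le_add h1 h2
        _ = (n + 1) * B := by ring
        _ < 2 ^ 64 := lt_of_le_of_lt h3 hB
    rw [e2, Ln_add _ _ _ hbd, ih' t, Ln_shl, Finset.sum_range_succ]

theorem spG_ar {A : ℕ} {f : (ℕ → Bool) → ℕ} (hA : Ar 64 4 A f) (B : ℕ) (hB : 16 * B < 2 ^ 64)
    (hf : ∀ b, f b ≤ B) : Ar 1024 4 (spG A) f := by
  have hM : Ar 1024 4 spM fun _ => 2 ^ 64 - 1 :=
    csG_ar (by norm_num)
      (lt_of_lt_of_le (fullLt 64) (Nat.pow_le_pow_right (by norm_num) (by norm_num))) 4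
  have e0 : spG A = (A * scG 1 16) &&& spM := rfl
  have hlA : ∀ i, Ln 64 A i ≤ B := fun i => hA.le B hf i
  refine ⟨?_, fun b => ?_⟩
  · rw [e0]
    exact lt_of_le_of_lt Nat.and_le_right hM.lt
  · set L := idx 4 b with hL
    have hL16 : L < 16 := idx_lt 4 b
    have hfb : f b < 2 ^ 64 := by
      have := hf b
      omega
    have e1 : (1024 : ℕ) = 64 * 16 := by norm_num
    rw [e1]
    apply Ln_wide_ext 64 16 _ _ _ (by norm_num)
    · exact lt_of_lt_of_le hfb (Nat.pow_le_pow_right (by norm_num) (by norm_num))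
    · intro r hr
      have hMl : Ln 64 spM (16 * L + r) = if r = 0 then 2 ^ 64 - 1 else 0 := by
        have h1 := Ln_Ln 64 16 spM L r hr
        have h2 := hM.get b
        rw [e1, ← hL] at h2
        rw [h2] at h1
        rw [← h1]
        exact Ln_small 64 _ (by norm_num) r
      rw [e0, Ln_and, hMl, Ln_small 64 _ hfb r]
      by_cases hr0 : r = 0
      · rw [if_pos hr0, if_pos hr0, and_full _ _ (Ln_lt _ _ _), scG_mul,
          Ln_scG A B hB hlA 16 le_rfl, hr0, add_zero]
        rw [Finset.sum_eq_single L]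
        · rw [if_neg (by omega)]
          have e2 : 16 * L - 15 * L = L := by omega
          rw [e2, hL, hA.get]
        · intro l hl hne
          have hl16 := Finset.mem_range.mp hl
          by_cases h3 : 16 * L < 15 * l
          · rw [if_pos h3]
          · rw [if_neg h3]
            apply hA.out
            omega
        · intro h3
          exact absurd (Finset.mem_range.mpr hL16) h3
      · rw [if_neg hr0, if_neg hr0, Nat.and_zero]

/-! ### Halves of lanes -/

/-- The 32 bits at the position `k`, `k + 2`, … of an array of lanes of 32 bits. -/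
def haG (n N k : ℕ) : ℕ := Nat.land (Nat.shiftRight N (Nat.mul 32 k)) (csG 64 (2 ^ 32 - 1) n)

theorem and_low (x : ℕ) : x &&& (2 ^ 32 - 1) = x % 2 ^ 32 := Nat.and_two_pow_sub_one_eq_mod x 32

theorem Ln_half (N k i : ℕ) : Ln 64 (N >>> (32 * k)) i &&& (2 ^ 32 - 1) = Ln 32 N (k + 2 * i) := by
  rw [and_low]
  unfold Ln
  rw [Nat.mod_mod_of_dvd _ (pow_dvd_pow 2 (by norm_num : 32 ≤ 64)), Nat.shiftRight_eq_div_pow,
    Nat.div_div_eq_div_mul, ← pow_add]
  congr 3
  ring

theorem haG_ar (n N k : ℕ) : Ar 64 n (haG n N k) fun b => Ln 32 N (k + 2 * idx n b) := by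
  have hM : Ar 64 n (csG 64 (2 ^ 32 - 1) n) fun _ => 2 ^ 32 - 1 :=
    csG_ar (by norm_num) (by norm_num) n
  have e0 : haG n N k = (N >>> (32 * k)) &&& csG 64 (2 ^ 32 - 1) n := rfl
  refine ⟨?_, fun b => ?_⟩
  · rw [e0]
    exact lt_of_le_of_lt Nat.and_le_right hM.lt
  · rw [e0, Ln_and, hM.get, Ln_half]

end Pool.Agent.Lib.MP_afdd4d_co.K8.L9
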