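import Pool.Agent.Lib.MP_afdd4d_co.L9.LG
import Pool.Agent.Lib.MP_afdd4d_co.L9.Sp
import Pool.Agent.Lib.MP_afdd4d_co.K8.F6Con
import Pool.Agent.Lib.MP_afdd4d_co.K8.G6Code

/-!
# Blocks and rows of the kernels of a root from literals

The vectors of a type are given by numbers of 1024 lanes of 64 bits; every lane holds two entries. For
a marked vertex and six bits of the code there is a number with the entries of all vectors for the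
sixteen codes with these bits.
-/

namespace Pool.Agent.Lib.MP_afdd4d_co.K8.L9

open Finset

/-- The places of the pairs when the vertex `v` is the last one. -/
def LVT : List (List ℕ) := [
  [0, 1, 4, 2, 5, 6, 3, 7, 8, 9], [0, 4, 1, 5, 2, 6, 7, 3, 8, 9], [4, 0, 1, 5, 6, 2, 7, 8, 3, 9],
  [4, 5, 6, 0, 1, 2, 7, 8, 9, 3], [4, 5, 6, 7, 8, 9, 0, 1, 2, 3]]

/-- The pairs at the places when the vertex `v` is the last one. -/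
def IVT : List (List ℕ) := [
  [0, 1, 3, 6, 2, 4, 5, 7, 8, 9], [0, 2, 4, 7, 1, 3, 5, 6, 8, 9], [1, 2, 5, 8, 0, 3, 4, 6, 7, 9],
  [3, 4, 5, 9, 0, 1, 2, 6, 7, 8], [6, 7, 8, 9, 0, 1, 2, 3, 4, 5]]

/-- The vertex that becomes the last one. -/
def vKT : List ℕ := [
  4, 3, 4, 3, 2, 2, 4, 3, 4, 3, 2, 2, 4, 3, 4, 3, 2, 2, 1, 1, 1, 1, 1, 1, 4, 3, 4, 3, 2, 2, 4, 3,
  4, 3, 2, 2, 4, 3, 4, 3, 2, 2, 1, 1, 1, 1, 1, 1, 4, 3, 4, 3, 2, 2, 4, 3, 4, 3, 2, 2, 4, 3, 4, 3,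
  2, 2, 1, 1, 1, 1, 1, 1, 4, 3, 4, 3, 2, 2, 4, 3, 4, 3, 2, 2, 4, 3, 4, 3, 2, 2, 1, 1, 1, 1, 1, 1,
  0, 0, 0, 0, 0, 0, 0, 0, 0, 0, 0, 0, 0, 0, 0, 0, 0, 0, 0, 0, 0, 0, 0, 0]

/-- The number of the order of the other vertices. -/
def rKT : List ℕ := [
  0, 0, 1, 1, 0, 1, 2, 2, 3, 3, 2, 3, 4, 4, 5, 5, 4, 5, 0, 1, 2, 3, 4, 5, 6, 6, 7, 7, 6, 7, 8, 8,
  9, 9, 8, 9, 10, 10, 11, 11, 10, 11, 6, 7, 8, 9, 10, 11, 12, 12, 13, 13, 12, 13, 14, 14, 15, 15,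
  14, 15, 16, 16, 17, 17, 16, 17, 12, 13, 14, 15, 16, 17, 18, 18, 19, 19, 18, 19, 20, 20, 21, 21,
  20, 21, 22, 22, 23, 23, 22, 23, 18, 19, 20, 21, 22, 23, 0, 1, 2, 3, 4, 5, 6, 7, 8, 9, 10, 11, 12,
  13, 14, 15, 16, 17, 18, 19, 20, 21, 22, 23]

/-- The orders of four vertices. -/
def RHT : List (List ℕ) := [
  [0, 1, 2, 3], [0, 1, 3, 2], [0, 2, 1, 3], [0, 2, 3, 1], [0, 3, 1, 2], [0, 3, 2, 1], [1, 0, 2, 3],
  [1, 0, 3, 2], [1, 2, 0, 3], [1, 2, 3, 0], [1, 3, 0, 2], [1, 3, 2, 0], [2, 0, 1, 3], [2, 0, 3, 1],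
  [2, 1, 0, 3], [2, 1, 3, 0], [2, 3, 0, 1], [2, 3, 1, 0], [3, 0, 1, 2], [3, 0, 2, 1], [3, 1, 0, 2],
  [3, 1, 2, 0], [3, 2, 0, 1], [3, 2, 1, 0]]

/-- The programs for the blocks. -/
def PG8T : List (List (ℕ × ℕ × ℕ)) := [
  [], [(1, 2, 3), (1, 6, 7)], [(1, 1, 2), (1, 5, 6)], [(1, 1, 2), (1, 1, 3), (1, 5, 6), (1, 5, 7)],
  [(1, 1, 3), (1, 1, 2), (1, 5, 7), (1, 5, 6)], [(1, 1, 3), (1, 5, 7)], [(1, 0, 1), (1, 4, 5)],
  [(1, 0, 1), (1, 2, 3), (1, 4, 5), (1, 6, 7)], [(1, 0, 1), (1, 0, 2), (1, 4, 5), (1, 4, 6)],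
  [(1, 0, 1), (1, 0, 2), (1, 0, 3), (1, 4, 5), (1, 4, 6), (1, 4, 7)],
  [(1, 0, 1), (1, 0, 3), (1, 0, 2), (1, 4, 5), (1, 4, 7), (1, 4, 6)],
  [(1, 0, 1), (1, 0, 3), (1, 4, 5), (1, 4, 7)], [(1, 0, 2), (1, 0, 1), (1, 4, 6), (1, 4, 5)],
  [(1, 0, 2), (1, 0, 1), (1, 1, 3), (1, 4, 6), (1, 4, 5), (1, 5, 7)], [(1, 0, 2), (1, 4, 6)],
  [(1, 0, 2), (1, 0, 3), (1, 4, 6), (1, 4, 7)], [(1, 0, 2), (1, 1, 3), (1, 4, 6), (1, 5, 7)],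
  [(1, 0, 2), (1, 1, 3), (1, 0, 1), (1, 4, 6), (1, 5, 7), (1, 4, 5)],
  [(1, 0, 3), (1, 0, 1), (1, 1, 2), (1, 4, 7), (1, 4, 5), (1, 5, 6)],
  [(1, 0, 3), (1, 0, 1), (1, 4, 7), (1, 4, 5)], [(1, 0, 3), (1, 0, 2), (1, 4, 7), (1, 4, 6)],
  [(1, 0, 3), (1, 4, 7)], [(1, 0, 3), (1, 1, 2), (1, 0, 1), (1, 4, 7), (1, 5, 6), (1, 4, 5)],
  [(1, 0, 3), (1, 1, 2), (1, 4, 7), (1, 5, 6)]]

def pgp0 : List (List (ℕ × ℕ × ℕ)) := [
  [], [(1, 3, 6), (1, 4, 7), (1, 5, 8)], [(1, 1, 3), (1, 2, 4), (1, 8, 9)],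
  [(1, 1, 3), (1, 2, 4), (1, 1, 6), (1, 2, 7), (1, 5, 9), (1, 5, 8)],
  [(1, 1, 6), (1, 2, 7), (1, 1, 3), (1, 2, 4), (1, 5, 8), (1, 5, 9)],
  [(1, 1, 6), (1, 2, 7), (1, 5, 9)], [(1, 0, 1), (1, 4, 5), (1, 7, 8)],
  [(1, 0, 1), (1, 3, 6), (1, 4, 8), (1, 5, 7)],
  [(1, 0, 1), (1, 0, 3), (1, 2, 5), (1, 2, 4), (1, 7, 8), (1, 7, 9)],
  [(1, 0, 1), (1, 0, 3), (1, 2, 5), (1, 0, 6), (1, 4, 8), (1, 2, 9), (1, 2, 7)],
  [(1, 0, 1), (1, 0, 6), (1, 2, 8), (1, 0, 3), (1, 2, 4), (1, 5, 7), (1, 4, 9)],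
  [(1, 0, 1), (1, 0, 6), (1, 2, 8), (1, 4, 5), (1, 4, 9), (1, 2, 7)],
  [(1, 0, 3), (1, 0, 1), (1, 2, 4), (1, 2, 5), (1, 7, 9), (1, 7, 8)],
  [(1, 0, 3), (1, 0, 1), (1, 2, 4), (1, 1, 6), (1, 2, 9), (1, 5, 7), (1, 2, 8)],
  [(1, 0, 3), (1, 2, 5), (1, 7, 9)],
  [(1, 0, 3), (1, 2, 5), (1, 0, 6), (1, 4, 9), (1, 2, 8), (1, 4, 7)],
  [(1, 0, 3), (1, 1, 6), (1, 2, 9), (1, 5, 7)],
  [(1, 0, 3), (1, 1, 6), (1, 2, 9), (1, 0, 1), (1, 4, 5), (1, 4, 8), (1, 4, 7)],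
  [(1, 0, 6), (1, 0, 1), (1, 2, 7), (1, 1, 3), (1, 4, 8), (1, 2, 5), (1, 5, 9)],
  [(1, 0, 6), (1, 0, 1), (1, 2, 7), (1, 4, 9), (1, 4, 5), (1, 2, 8)],
  [(1, 0, 6), (1, 2, 8), (1, 0, 3), (1, 4, 7), (1, 2, 5), (1, 4, 9)],
  [(1, 0, 6), (1, 2, 8), (1, 4, 9)],
  [(1, 0, 6), (1, 1, 3), (1, 2, 9), (1, 0, 1), (1, 4, 7), (1, 4, 5), (1, 5, 8)],
  [(1, 0, 6), (1, 1, 3), (1, 2, 9), (1, 4, 8)], [(1, 1, 2), (1, 3, 4), (1, 6, 7)],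
  [(1, 1, 2), (1, 3, 7), (1, 4, 6), (1, 5, 8)], [(1, 1, 4), (1, 2, 3), (1, 6, 7), (1, 8, 9)],
  [(1, 1, 4), (1, 2, 3), (1, 2, 7), (1, 1, 6), (1, 5, 9), (1, 1, 2), (1, 5, 8)],
  [(1, 1, 7), (1, 2, 6), (1, 2, 3), (1, 1, 4), (1, 5, 8), (1, 3, 4), (1, 5, 9)],
  [(1, 1, 7), (1, 2, 6), (1, 3, 4), (1, 5, 9)]]

def pgp1 : List (List (ℕ × ℕ × ℕ)) := [
  [(1, 0, 2), (1, 0, 1), (1, 3, 4), (1, 3, 5), (1, 6, 7), (1, 6, 8)],
  [(1, 0, 2), (1, 0, 1), (1, 3, 7), (1, 4, 8), (1, 5, 6), (1, 4, 5), (1, 3, 5)],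
  [(1, 0, 2), (1, 1, 4), (1, 0, 5), (1, 0, 3), (1, 6, 7), (1, 6, 8), (1, 6, 9)],
  [(1, 0, 2), (1, 1, 4), (1, 0, 5), (1, 3, 7), (1, 1, 8), (1, 0, 9), (1, 0, 6), (1, 1, 3)],
  [(1, 0, 2), (1, 1, 7), (1, 0, 8), (1, 0, 3), (1, 1, 4), (1, 5, 6), (1, 4, 5), (1, 3, 9)],
  [(1, 0, 2), (1, 1, 7), (1, 0, 8), (1, 3, 4), (1, 3, 5), (1, 3, 9), (1, 0, 6)],
  [(1, 0, 4), (1, 0, 1), (1, 2, 3), (1, 1, 5), (1, 6, 7), (1, 6, 9), (1, 6, 8)],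
  [(1, 0, 4), (1, 0, 1), (1, 2, 3), (1, 2, 7), (1, 1, 9), (1, 5, 6), (1, 2, 5), (1, 1, 8)],
  [(1, 0, 4), (1, 1, 2), (1, 1, 5), (1, 0, 3), (1, 6, 7), (1, 6, 9)],
  [(1, 0, 4), (1, 1, 2), (1, 1, 5), (1, 3, 7), (1, 0, 9), (1, 1, 8), (1, 0, 6)],
  [(1, 0, 4), (1, 1, 7), (1, 2, 9), (1, 0, 3), (1, 5, 6), (1, 2, 5), (1, 1, 5)],
  [(1, 0, 4), (1, 1, 7), (1, 2, 9), (1, 2, 3), (1, 0, 5), (1, 0, 8), (1, 0, 6), (1, 1, 3)],
  [(1, 0, 7), (1, 0, 1), (1, 2, 6), (1, 2, 3), (1, 4, 8), (1, 1, 5), (1, 3, 4), (1, 5, 9)],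
  [(1, 0, 7), (1, 0, 1), (1, 2, 6), (1, 3, 4), (1, 3, 9), (1, 3, 5), (1, 1, 8)],
  [(1, 0, 7), (1, 1, 2), (1, 1, 8), (1, 0, 3), (1, 4, 6), (1, 1, 5), (1, 3, 9)],
  [(1, 0, 7), (1, 1, 2), (1, 1, 8), (1, 3, 4), (1, 3, 9), (1, 0, 6)],
  [(1, 0, 7), (1, 1, 4), (1, 2, 9), (1, 0, 3), (1, 1, 6), (1, 3, 5), (1, 1, 2), (1, 5, 8)],
  [(1, 0, 7), (1, 1, 4), (1, 2, 9), (1, 2, 3), (1, 1, 8), (1, 0, 6), (1, 1, 3)],
  [(1, 0, 1), (1, 0, 2), (1, 3, 5), (1, 3, 4), (1, 6, 8), (1, 6, 7)],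
  [(1, 0, 1), (1, 0, 2), (1, 3, 8), (1, 4, 6), (1, 5, 7), (1, 4, 5), (1, 3, 4)],
  [(1, 0, 1), (1, 0, 5), (1, 2, 3), (1, 0, 4), (1, 6, 8), (1, 6, 7), (1, 7, 9)],
  [(1, 0, 1), (1, 0, 5), (1, 2, 3), (1, 2, 8), (1, 4, 6), (1, 0, 9), (1, 2, 4), (1, 0, 7)],
  [(1, 0, 1), (1, 0, 8), (1, 2, 6), (1, 2, 3), (1, 0, 4), (1, 5, 7), (1, 3, 5), (1, 4, 9)],
  [(1, 0, 1), (1, 0, 8), (1, 2, 6), (1, 3, 5), (1, 3, 4), (1, 4, 9), (1, 0, 7)],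
  [(1, 0, 2), (1, 3, 5), (1, 6, 8)], [(1, 0, 2), (1, 3, 8), (1, 4, 7), (1, 5, 6)],
  [(1, 0, 2), (1, 1, 5), (1, 0, 4), (1, 1, 3), (1, 6, 8), (1, 6, 9)],
  [(1, 0, 2), (1, 1, 5), (1, 0, 4), (1, 3, 8), (1, 0, 7), (1, 1, 9), (1, 1, 6)],
  [(1, 0, 2), (1, 1, 8), (1, 0, 7), (1, 1, 3), (1, 0, 4), (1, 5, 6), (1, 3, 9)],
  [(1, 0, 2), (1, 1, 8), (1, 0, 7), (1, 3, 5), (1, 3, 9), (1, 1, 6)]]

def pgp2 : List (List (ℕ × ℕ × ℕ)) := [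
  [(1, 0, 5), (1, 2, 3), (1, 6, 8), (1, 7, 9)],
  [(1, 0, 5), (1, 2, 3), (1, 2, 8), (1, 4, 9), (1, 0, 6), (1, 0, 2), (1, 4, 7)],
  [(1, 0, 5), (1, 1, 2), (1, 1, 4), (1, 1, 3), (1, 6, 8), (1, 7, 9), (1, 6, 7)],
  [(1, 0, 5), (1, 1, 2), (1, 1, 4), (1, 3, 8), (1, 1, 9), (1, 0, 7), (1, 1, 6), (1, 0, 3)],
  [(1, 0, 5), (1, 1, 8), (1, 2, 9), (1, 1, 3), (1, 3, 4), (1, 0, 6), (1, 0, 2), (1, 4, 7)],
  [(1, 0, 5), (1, 1, 8), (1, 2, 9), (1, 2, 3), (1, 0, 7), (1, 1, 6), (1, 0, 3)],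
  [(1, 0, 8), (1, 2, 6), (1, 2, 3), (1, 4, 7), (1, 0, 5), (1, 3, 5), (1, 4, 9)],
  [(1, 0, 8), (1, 2, 6), (1, 3, 5), (1, 4, 9)],
  [(1, 0, 8), (1, 1, 2), (1, 1, 7), (1, 1, 3), (1, 4, 6), (1, 0, 5), (1, 4, 5), (1, 3, 9)],
  [(1, 0, 8), (1, 1, 2), (1, 1, 7), (1, 3, 5), (1, 4, 9), (1, 3, 4), (1, 1, 6)],
  [(1, 0, 8), (1, 1, 5), (1, 2, 9), (1, 1, 3), (1, 4, 6), (1, 2, 4), (1, 0, 4)],
  [(1, 0, 8), (1, 1, 5), (1, 2, 9), (1, 2, 3), (1, 4, 7), (1, 1, 4), (1, 1, 6), (1, 0, 3)],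
  [(1, 0, 3), (1, 1, 4), (1, 0, 2), (1, 2, 5), (1, 6, 9), (1, 6, 7), (1, 7, 8)],
  [(1, 0, 3), (1, 1, 4), (1, 0, 2), (1, 2, 9), (1, 1, 6), (1, 5, 7), (1, 1, 5), (1, 2, 8)],
  [(1, 0, 3), (1, 1, 5), (1, 1, 2), (1, 0, 4), (1, 6, 9), (1, 6, 7)],
  [(1, 0, 3), (1, 1, 5), (1, 1, 2), (1, 0, 9), (1, 4, 6), (1, 2, 8), (1, 0, 7)],
  [(1, 0, 3), (1, 1, 9), (1, 2, 6), (1, 0, 4), (1, 5, 7), (1, 2, 5), (1, 1, 2)],
  [(1, 0, 3), (1, 1, 9), (1, 2, 6), (1, 0, 5), (1, 1, 4), (1, 0, 8), (1, 2, 4), (1, 0, 7)],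
  [(1, 0, 4), (1, 1, 3), (1, 0, 2), (1, 1, 5), (1, 6, 9), (1, 6, 8)],
  [(1, 0, 4), (1, 1, 3), (1, 0, 2), (1, 1, 9), (1, 2, 7), (1, 5, 6), (1, 1, 8)],
  [(1, 0, 4), (1, 1, 5), (1, 6, 9)],
  [(1, 0, 4), (1, 1, 5), (1, 3, 9), (1, 0, 7), (1, 1, 8), (1, 3, 6)],
  [(1, 0, 4), (1, 1, 9), (1, 2, 7), (1, 5, 6)],
  [(1, 0, 4), (1, 1, 9), (1, 2, 7), (1, 3, 5), (1, 0, 2), (1, 3, 8), (1, 3, 6)],
  [(1, 0, 5), (1, 1, 3), (1, 1, 2), (1, 2, 4), (1, 6, 9), (1, 7, 8), (1, 6, 7)],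
  [(1, 0, 5), (1, 1, 3), (1, 1, 2), (1, 2, 9), (1, 4, 8), (1, 0, 6), (1, 0, 4), (1, 2, 7)],
  [(1, 0, 5), (1, 1, 4), (1, 6, 9), (1, 7, 8)],
  [(1, 0, 5), (1, 1, 4), (1, 3, 9), (1, 1, 8), (1, 0, 7), (1, 3, 6), (1, 0, 1)],
  [(1, 0, 5), (1, 1, 9), (1, 2, 8), (1, 1, 4), (1, 0, 6), (1, 0, 4), (1, 2, 7)],
  [(1, 0, 5), (1, 1, 9), (1, 2, 8), (1, 3, 4), (1, 2, 3), (1, 0, 7), (1, 3, 6), (1, 0, 1)]]

def pgp3 : List (List (ℕ × ℕ × ℕ)) := [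
  [(1, 0, 9), (1, 1, 3), (1, 2, 6), (1, 1, 4), (1, 1, 7), (1, 0, 5), (1, 2, 5), (1, 1, 8)],
  [(1, 0, 9), (1, 1, 3), (1, 2, 6), (1, 1, 5), (1, 4, 8), (1, 2, 4), (1, 0, 2)],
  [(1, 0, 9), (1, 1, 4), (1, 2, 7), (1, 1, 6), (1, 0, 5), (1, 1, 5), (1, 2, 8)],
  [(1, 0, 9), (1, 1, 4), (1, 2, 7), (1, 3, 5), (1, 1, 8), (1, 2, 3), (1, 3, 6), (1, 0, 1)],
  [(1, 0, 9), (1, 1, 5), (1, 2, 8), (1, 4, 6)],
  [(1, 0, 9), (1, 1, 5), (1, 2, 8), (1, 3, 4), (1, 3, 7), (1, 1, 2), (1, 3, 6)],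
  [(1, 0, 6), (1, 1, 7), (1, 0, 2), (1, 3, 8), (1, 1, 4), (1, 2, 5), (1, 5, 9), (1, 3, 4)],
  [(1, 0, 6), (1, 1, 7), (1, 0, 2), (1, 3, 9), (1, 3, 4), (1, 4, 5), (1, 2, 8)],
  [(1, 0, 6), (1, 1, 8), (1, 1, 2), (1, 3, 7), (1, 0, 4), (1, 2, 5), (1, 4, 9)],
  [(1, 0, 6), (1, 1, 8), (1, 1, 2), (1, 3, 9), (1, 3, 4), (1, 0, 7)],
  [(1, 0, 6), (1, 1, 9), (1, 2, 3), (1, 2, 7), (1, 0, 4), (1, 4, 5), (1, 5, 8), (1, 1, 2)],
  [(1, 0, 6), (1, 1, 9), (1, 2, 3), (1, 2, 8), (1, 1, 4), (1, 0, 7), (1, 2, 4)],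
  [(1, 0, 7), (1, 1, 6), (1, 0, 2), (1, 3, 8), (1, 2, 4), (1, 1, 5), (1, 5, 9)],
  [(1, 0, 7), (1, 1, 6), (1, 0, 2), (1, 3, 9), (1, 3, 5), (1, 1, 8)],
  [(1, 0, 7), (1, 1, 8), (1, 3, 6), (1, 0, 4), (1, 1, 5), (1, 3, 9)],
  [(1, 0, 7), (1, 1, 8), (1, 3, 9)],
  [(1, 0, 7), (1, 1, 9), (1, 2, 4), (1, 3, 6), (1, 0, 2), (1, 3, 5), (1, 5, 8)],
  [(1, 0, 7), (1, 1, 9), (1, 2, 4), (1, 3, 8)],
  [(1, 0, 8), (1, 1, 6), (1, 1, 2), (1, 3, 7), (1, 2, 4), (1, 0, 5), (1, 4, 9), (1, 3, 5)],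
  [(1, 0, 8), (1, 1, 6), (1, 1, 2), (1, 3, 9), (1, 4, 5), (1, 3, 4), (1, 2, 7)],
  [(1, 0, 8), (1, 1, 7), (1, 3, 6), (1, 1, 4), (1, 0, 5), (1, 3, 9), (1, 4, 5)],
  [(1, 0, 8), (1, 1, 7), (1, 3, 9), (1, 4, 5)],
  [(1, 0, 8), (1, 1, 9), (1, 2, 5), (1, 3, 6), (1, 1, 4), (1, 2, 3), (1, 2, 7), (1, 0, 4)],
  [(1, 0, 8), (1, 1, 9), (1, 2, 5), (1, 3, 7), (1, 2, 4), (1, 1, 3), (1, 0, 3)],
  [(1, 0, 9), (1, 1, 6), (1, 2, 3), (1, 2, 7), (1, 0, 5), (1, 1, 8), (1, 2, 5)],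
  [(1, 0, 9), (1, 1, 6), (1, 2, 3), (1, 2, 8), (1, 4, 5), (1, 1, 4), (1, 4, 7), (1, 0, 2)],
  [(1, 0, 9), (1, 1, 7), (1, 2, 4), (1, 3, 6), (1, 2, 3), (1, 0, 5), (1, 2, 8), (1, 1, 5)],
  [(1, 0, 9), (1, 1, 7), (1, 2, 4), (1, 3, 8), (1, 2, 5), (1, 1, 3), (1, 0, 1)],
  [(1, 0, 9), (1, 1, 8), (1, 2, 5), (1, 3, 6), (1, 3, 4), (1, 1, 2), (1, 4, 7)],
  [(1, 0, 9), (1, 1, 8), (1, 2, 5), (1, 3, 7)]]

/-- The programs for the rows. -/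
def PG10T : List (List (ℕ × ℕ × ℕ)) := pgp0 ++ pgp1 ++ pgp2 ++ pgp3

/-- The vertex for the permutation `k`. -/
def vK (k : ℕ) : ℕ := vKT.getD k 0

/-- The place of the pair `r`. -/
def lvP (v r : ℕ) : ℕ := (LVT.getD v []).getD r 0

/-- The position of the low bit `m`. -/
def kpP (k m : ℕ) : ℕ := (a2T k).getD ((IVT.getD (vK k) []).getD (4 + m) 0) 0

/-- The image of the vertex `m` in the order of the other vertices. -/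
def rhP (k m : ℕ) : ℕ := (RHT.getD (rKT.getD k 0) []).getD m 0

/-- The program for the blocks. -/
def pg8 (k : ℕ) : List (ℕ × ℕ × ℕ) := PG8T.getD (rKT.getD k 0) []

/-- The program for the rows. -/
def pg10 (k : ℕ) : List (ℕ × ℕ × ℕ) := PG10T.getD k []

theorem perm_dat : ∀ k < 120, ∀ r < 10,
    (lvP (vK k) r < 4 ∧ (a2T k).getD r 0 = 6 + rhP k (lvP (vK k) r)) ∨
    (4 ≤ lvP (vK k) r ∧ lvP (vK k) r < 10 ∧ (a2T k).getD r 0 < 6 ∧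
      kpP k (lvP (vK k) r - 4) = (a2T k).getD r 0) := by
  decide +kernel

theorem pg8_dat : ∀ k < 24, okR (PG8T.getD k []) 8 = true ∧ ndG (PG8T.getD k []) 8 = 8 ∧
    ∀ m < 4, (RHT.getD k []).getD m 0 < 4 ∧
      syG (PG8T.getD k []) 8 m = 2 ^ ((RHT.getD k []).getD m 0 + 1) ∧
      syG (PG8T.getD k []) 8 (4 + m) = 2 ^ (4 + (RHT.getD k []).getD m 0 + 1) := by
  decide +kernel

theorem rK_lt : ∀ k < 120, rKT.getD k 0 < 24 := by decide +kernel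

theorem pg10_dat : ∀ k < 120, okR (pg10 k) 10 = true ∧ ndG (pg10 k) 10 = 10 ∧
    ∀ r < 10, (a2T k).getD r 0 < 10 ∧ syG (pg10 k) 10 r = 2 ^ ((a2T k).getD r 0 + 1) := by
  decide +kernel

/-! ### Sums over halves -/

/-- The sum of the halves. -/
def smG (n : ℕ) (c k : ℕ → ℕ) (R : ℕ) : ℕ := @Nat.rec (fun _ => ℕ) 0
  (fun j ih => Nat.add ih (Nat.add (haG n (c j) (k j)) (haG n (c j) (Nat.add (k j) 1)))) R

theorem smG_ar {n : ℕ} {c k : ℕ → ℕ} (VB : ℕ) (R : ℕ) (hR : 2 * R * VB < 2 ^ 64)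
    (hb : ∀ j < R, ∀ b, Ln 32 (c j) (k j + 2 * idx n b) ≤ VB ∧
      Ln 32 (c j) (k j + 1 + 2 * idx n b) ≤ VB) :
    Ar 64 n (smG n c k R) fun b => ∑ j ∈ range R,
      (Ln 32 (c j) (k j + 2 * idx n b) + Ln 32 (c j) (k j + 1 + 2 * idx n b)) := by
  have key : ∀ m ≤ R, Ar 64 n (smG n c k m) fun b => ∑ j ∈ range m,
      (Ln 32 (c j) (k j + 2 * idx n b) + Ln 32 (c j) (k j + 1 + 2 * idx n b)) := by
    intro m
    induction m with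
    | zero =>
      intro _
      exact (ar_zero n).congr fun b => by rw [Finset.range_zero, Finset.sum_empty]
    | succ m ih =>
      intro hm
      have hsum : ∀ b, ∑ j ∈ range m,
          (Ln 32 (c j) (k j + 2 * idx n b) + Ln 32 (c j) (k j + 1 + 2 * idx n b)) ≤
          2 * m * VB := by
        intro b
        calc _ ≤ ∑ j ∈ range m, (VB + VB) := by
              refine Finset.sum_le_sum fun j hj => ?_
              have h := hb j (by have := Finset.mem_range.mp hj; omega) b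
              exact Nat.add_le_add h.1 h.2
          _ = 2 * m * VB := by
              rw [Finset.sum_const, Finset.card_range, smul_eq_mul]; ring
      have h1 := haG_ar n (c m) (k m)
      have h2 := haG_ar n (c m) (k m + 1)
      have hle : 2 * (m + 1) * VB ≤ 2 * R * VB :=
        Nat.mul_le_mul_right _ (Nat.mul_le_mul_left _ hm)
      have e4 : 2 * (m + 1) * VB = 2 * m * VB + 2 * VB := by ring
      have h3 := h1.add h2 (by norm_num) (fun b => by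
        have h := hb m (by omega) b
        have h5 := h.1
        have h6 := h.2
        omega)
      have h4 := (ih (by omega)).add h3 (by norm_num) (fun b => by
        have h := hb m (by omega) b
        have h5 := h.1
        have h6 := h.2
        have h7 := hsum b
        omega)
      exact h4.congr fun b => by rw [Finset.sum_range_succ]
  exact key R le_rfl

/-- The sum of the products of halves for a block. -/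
def bpG (N N' R : ℕ) : ℕ := @Nat.rec (fun _ => ℕ) 0
  (fun j ih => Nat.add ih (Nat.add
    (Nat.mul (haG 4 N (Nat.mul 32 j)) (spG (haG 4 N' (Nat.mul 32 j))))
    (Nat.mul (haG 4 N (Nat.add (Nat.mul 32 j) 1)) (spG (haG 4 N' (Nat.add (Nat.mul 32 j) 1)))))) R

/-- The entries of a number for a block. -/
def en (N j e : ℕ) (b : ℕ → Bool) : ℕ := Ln 32 N (32 * j + e + 2 * idx 4 b)

theorem bpG_ar {N N' : ℕ} (VB : ℕ) (hVB : 16 * VB < 2 ^ 64) (R : ℕ)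
    (hR : 2 * R * (VB * VB) < 2 ^ 64)
    (hb : ∀ j < R, ∀ e < 2, ∀ b, en N j e b ≤ VB) (hb' : ∀ j < R, ∀ e < 2, ∀ b, en N' j e b ≤ VB) :
    Ar 64 8 (bpG N N' R) fun b => ∑ j ∈ range R,
      (en N j 0 b * en N' j 0 (fun r => b (4 + r)) + en N j 1 b * en N' j 1 (fun r => b (4 + r))) := by
  have key : ∀ m ≤ R, Ar 64 8 (bpG N N' m) fun b => ∑ j ∈ range m,
      (en N j 0 b * en N' j 0 (fun r => b (4 + r)) +
        en N j 1 b * en N' j 1 (fun r => b (4 + r))) := by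
    intro m
    induction m with
    | zero =>
      intro _
      exact (ar_zero 8).congr fun b => by rw [Finset.range_zero, Finset.sum_empty]
    | succ m ih =>
      intro hm
      have hle : 2 * (m + 1) * (VB * VB) ≤ 2 * R * (VB * VB) :=
        Nat.mul_le_mul_right _ (Nat.mul_le_mul_left _ hm)
      have e4 : 2 * (m + 1) * (VB * VB) = 2 * m * (VB * VB) + 2 * (VB * VB) := by ring
      have hsum : ∀ b : ℕ → Bool, ∑ j ∈ range m,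
          (en N j 0 b * en N' j 0 (fun r => b (4 + r)) +
            en N j 1 b * en N' j 1 (fun r => b (4 + r))) ≤ 2 * m * (VB * VB) := by
        intro b
        calc _ ≤ ∑ j ∈ range m, (VB * VB + VB * VB) := by
              refine Finset.sum_le_sum fun j hj => ?_
              have hj' : j < R := by have := Finset.mem_range.mp hj; omega
              exact Nat.add_le_add
                (Nat.mul_le_mul (hb j hj' 0 (by norm_num) _) (hb' j hj' 0 (by norm_num) _))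
                (Nat.mul_le_mul (hb j hj' 1 (by norm_num) _) (hb' j hj' 1 (by norm_num) _))
          _ = 2 * m * (VB * VB) := by
              rw [Finset.sum_const, Finset.card_range, smul_eq_mul]; ring
      have hone : ∀ e < 2, Ar 64 8 (haG 4 N (32 * m + e) * spG (haG 4 N' (32 * m + e))) fun b =>
          en N m e b * en N' m e fun r => b (4 + r) := by
        intro e he
        have h1 := haG_ar 4 N (32 * m + e)
        have h2 := spG_ar (haG_ar 4 N' (32 * m + e)) VB hVB (hb' m (by omega) e he)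
        have h3 := ar_mul (W := 64) (m := 4) (by norm_num) h1 4 (spG (haG 4 N' (32 * m + e)))
          (fun b => Ln 32 N' (32 * m + e + 2 * idx 4 b)) h2 (fun b b' => by
            have h4 := hb m (by omega) e he b
            have h5 := hb' m (by omega) e he b'
            have h6 : Ln 32 N (32 * m + e + 2 * idx 4 b) *
                Ln 32 N' (32 * m + e + 2 * idx 4 b') ≤ VB * VB := Nat.mul_le_mul h4 h5
            omega)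
        exact h3
      have h1 := hone 0 (by norm_num)
      have h2 := hone 1 (by norm_num)
      have hp : ∀ b e, e < 2 → en N m e b * en N' m e (fun r => b (4 + r)) ≤ VB * VB :=
        fun b e he => Nat.mul_le_mul (hb m (by omega) e he _) (hb' m (by omega) e he _)
      have h3 := h1.add h2 (by norm_num) (fun b => by
        have h5 := hp b 0 (by norm_num)
        have h6 := hp b 1 (by norm_num)
        omega)
      have h4 := (ih (by omega)).add h3 (by norm_num) (fun b => by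
        have h5 := hp b 0 (by norm_num)
        have h6 := hp b 1 (by norm_num)
        have h7 := hsum b
        omega)
      exact h4.congr fun b => by rw [Finset.sum_range_succ]
  exact key R le_rfl

/-- The part of a block that depends on one vertex. -/
def ddG (KO off N R : ℕ) : ℕ :=
  Nat.sub (csG 64 KO 4) (Nat.mul off (smG 4 (fun _ => N) (fun j => Nat.mul 32 j) R))

/-- A block. -/
def blG (KO off N N' R : ℕ) : ℕ :=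
  Nat.add (bpG N N' R) (Nat.add (Nat.mul (ddG KO off N R) (csG 1024 1 4))
    (Nat.mul (csG 64 1 4) (spG (ddG KO off N' R))))

/-- The sum of the entries. -/
def esm (N R : ℕ) (b : ℕ → Bool) : ℕ := ∑ j ∈ range R, (en N j 0 b + en N j 1 b)

theorem ddG_ar {N : ℕ} (KO off VB R : ℕ) (hKO : off * (2 * R * VB) ≤ KO) (hKO2 : KO < 2 ^ 64)
    (hoff : 0 < off)
    (hb : ∀ j < R, ∀ e < 2, ∀ b, en N j e b ≤ VB) :
    Ar 64 4 (ddG KO off N R) fun b => KO - off * esm N R b := by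
  have h0 : 2 * R * VB ≤ off * (2 * R * VB) := Nat.le_mul_of_pos_left _ hoff
  have h1 := smG_ar (n := 4) (c := fun _ => N) (k := fun j => 32 * j) VB R (by omega)
    (fun j hj b => ⟨hb j hj 0 (by norm_num) b, hb j hj 1 (by norm_num) b⟩)
  have hs : ∀ b, esm N R b ≤ 2 * R * VB := by
    intro b
    unfold esm
    calc _ ≤ ∑ j ∈ range R, (VB + VB) := by
          refine Finset.sum_le_sum fun j hj => ?_
          have hj' := Finset.mem_range.mp hj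
          exact Nat.add_le_add (hb j hj' 0 (by norm_num) b) (hb j hj' 1 (by norm_num) b)
      _ = 2 * R * VB := by rw [Finset.sum_const, Finset.card_range, smul_eq_mul]; ring
  have hs2 : ∀ b, off * esm N R b ≤ KO := fun b => le_trans (Nat.mul_le_mul_left _ (hs b)) hKO
  have h2 : Ar 64 4 (smG 4 (fun _ => N) (fun j => Nat.mul 32 j) R) fun b => esm N R b := h1
  have h3 := h2.smul off (by norm_num) (fun b => lt_of_le_of_lt (hs2 b) hKO2)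
  exact (csG_ar (W := 64) (by norm_num) hKO2 4).sub h3 (by norm_num) hs2

theorem blG_ar {N N' : ℕ} (KO off VB R : ℕ) (hVB : 16 * VB < 2 ^ 64) (hoff : 0 < off)
    (hKO : off * (2 * R * VB) ≤ KO) (hKO2 : 16 * KO < 2 ^ 64)
    (hR : 2 * R * (VB * VB) + 2 * KO < 2 ^ 64)
    (hb : ∀ j < R, ∀ e < 2, ∀ b, en N j e b ≤ VB) (hb' : ∀ j < R, ∀ e < 2, ∀ b, en N' j e b ≤ VB) :
    Ar 64 8 (blG KO off N N' R) fun b => (∑ j ∈ range R,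
      (en N j 0 b * en N' j 0 (fun r => b (4 + r)) + en N j 1 b * en N' j 1 (fun r => b (4 + r)))) +
      ((KO - off * esm N R b) + (KO - off * esm N' R fun r => b (4 + r))) := by
  have h1 := bpG_ar VB hVB R (by omega) hb hb'
  have h2 := ddG_ar KO off VB R hKO (by omega) hoff hb
  have h3 := ddG_ar KO off VB R hKO (by omega) hoff hb'
  have h4 := ar_mul (W := 64) (m := 4) (by norm_num) h2 4 (csG 1024 1 4) (fun _ => 1)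
    (csG_ar (by norm_num) (Nat.one_lt_two_pow (by norm_num)) 4) (fun b b' => by
      have : KO - off * esm N R b ≤ KO := Nat.sub_le _ _
      omega)
  have h5 := ar_mul (W := 64) (m := 4) (by norm_num)
    (csG_ar (W := 64) (c := 1) (by norm_num) (by norm_num) 4) 4 (spG (ddG KO off N' R)) _
    (spG_ar h3 KO hKO2 fun b => Nat.sub_le _ _) (fun b b' => by
      have : KO - off * esm N' R b' ≤ KO := Nat.sub_le _ _
      omega)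
  have h6 := h4.add h5 (by norm_num) (fun b => by
    have h7 : KO - off * esm N R b ≤ KO := Nat.sub_le _ _
    have h8 : KO - off * esm N' R (fun r => b (4 + r)) ≤ KO := Nat.sub_le _ _
    omega)
  have hsum : ∀ b : ℕ → Bool, ∑ j ∈ range R,
      (en N j 0 b * en N' j 0 (fun r => b (4 + r)) +
        en N j 1 b * en N' j 1 (fun r => b (4 + r))) ≤ 2 * R * (VB * VB) := by
    intro b
    calc _ ≤ ∑ j ∈ range R, (VB * VB + VB * VB) := by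
          refine Finset.sum_le_sum fun j hj => ?_
          have hj' : j < R := Finset.mem_range.mp hj
          exact Nat.add_le_add
            (Nat.mul_le_mul (hb j hj' 0 (by norm_num) _) (hb' j hj' 0 (by norm_num) _))
            (Nat.mul_le_mul (hb j hj' 1 (by norm_num) _) (hb' j hj' 1 (by norm_num) _))
      _ = 2 * R * (VB * VB) := by
          rw [Finset.sum_const, Finset.card_range, smul_eq_mul]; ring
  have h7 := h1.add h6 (by norm_num) (fun b => by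
    have h8 : KO - off * esm N R b ≤ KO := Nat.sub_le _ _
    have h9 : KO - off * esm N' R (fun r => b (4 + r)) ≤ KO := Nat.sub_le _ _
    have h10 := hsum b
    omega)
  refine h7.congr fun b => ?_
  rw [mul_one, one_mul]

end Pool.Agent.Lib.MP_afdd4d_co.K8.L9
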