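import Pool.Agent.Lib.MP_afdd4d_co.L9.LTab

/-!
# Checks of the tables of the kernels of a root
-/

namespace Pool.Agent.Lib.MP_afdd4d_co.K8.L9

open Finset

/-- The programs for the marked vertices. -/
def PGVT : List (List (ℕ × ℕ × ℕ)) := [
  [(1, 2, 4), (1, 2, 3), (1, 3, 5), (1, 3, 6)],
  [(1, 1, 4), (1, 1, 2), (1, 3, 5), (1, 3, 6), (1, 3, 7)],
  [(1, 0, 4), (1, 0, 1), (1, 1, 2), (1, 3, 5), (1, 2, 6), (1, 2, 3), (1, 3, 7), (1, 3, 8)],
  [(1, 0, 4), (1, 1, 5), (1, 2, 6), (1, 0, 3), (1, 1, 3), (1, 2, 3), (1, 3, 7), (1, 3, 8), (1, 3, 9)],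
  [(1, 0, 4), (1, 1, 5), (1, 2, 6), (1, 3, 7), (1, 0, 8), (1, 1, 9), (1, 0, 2), (1, 1, 3)]]

/-- The program for the marked vertex `v`. -/
def pgv (v : ℕ) : List (ℕ × ℕ × ℕ) := PGVT.getD v []

theorem pgv_dat : ∀ v < 5, okR (pgv v) 10 = true ∧ ndG (pgv v) 10 = 10 ∧
    ∀ r < 10, lvP v r < 10 ∧ syG (pgv v) 10 r = 2 ^ (lvP v r + 1) := by
  decide +kernel

theorem vK_lt : ∀ k < 120, vK k < 5 := by decide +kernel

/-- Sixteen lanes of 64 bits. -/
def slQ (A y : ℕ) : ℕ := Nat.mod (Nat.shiftRight A (Nat.mul 1024 y)) (Nat.pow 2 1024)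

theorem Ln_slQ (A y a : ℕ) (ha : a < 16) : Ln 64 (slQ A y) a = Ln 64 A (a + 16 * y) := by
  have e1 : slQ A y = Ln (64 * 16) A y := by
    rw [Ln_eq_shr]
    rfl
  rw [e1, Ln_Ln 64 16 A y a ha, Nat.add_comm]

theorem ar_of_lt (A : ℕ) (hA : A < 2 ^ 65536) : Ar 64 10 A fun b => Ln 64 A (idx 10 b) :=
  ⟨by
    have e : 64 * 2 ^ 10 = 65536 := by norm_num
    rw [e]
    exact hA, fun _ => rfl⟩

/-- The array with the marked vertex at the end. -/
def mvV (v A : ℕ) : ℕ := ruG 64 (pgv v) 10 A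

theorem mvV_get (v A x0 a : ℕ) (hv : v < 5) (hA : A < 2 ^ 65536) (hx : x0 < 64) (ha : a < 16) :
    Ln 64 (mvV v A) (a + 16 * x0) = Ln 64 A (wv v x0 a) := by
  obtain ⟨g1, g2, g3⟩ := pgv_dat v hv
  have h1 := ruG_ar (W := 64) (by norm_num) (pgv v) 10 A _ g1 (ar_of_lt A hA)
  rw [g2] at h1
  have hlt : a + 16 * x0 < 2 ^ 10 := by omega
  have h2 := h1.lane _ hlt
  have e1 : Ln 64 (mvV v A) (a + 16 * x0) =
      Ln 64 A (idx 10 (seG (pgv v) 10 (a + 16 * x0).testBit)) := h2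
  rw [e1]
  congr 1
  unfold wv
  apply idx_congr
  intro r hr
  obtain ⟨c1, c2⟩ := g3 r hr
  rw [seG_eq 10 _ (pgv v) 10 g1 (by rw [g2]) r hr, c2, lf_two_pow]
  simp only [c1, decide_true, Bool.true_and]
  have e2 : a + 16 * x0 = 2 ^ 4 * x0 + a := by ring
  rw [e2, Nat.testBit_two_pow_mul_add _ (show a < 2 ^ 4 from ha)]

/-- The check of the numbers for a marked vertex. -/
def lfG (v : ℕ) (c l : ℕ → ℕ) (R : ℕ) : Bool :=
  allN (fun j => allN (fun x => Nat.beq (slQ (l x) j) (slQ (mvV v (c j)) x)) 64) R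

theorem lf_of_chk (v : ℕ) (hv : v < 5) (c l : ℕ → ℕ) (R : ℕ) (hc : ∀ j < R, c j < 2 ^ 65536)
    (h : lfG v c l R = true) : ∀ x0 < 64, ∀ j < R, ∀ a < 16,
      Ln 64 (l x0) (a + 16 * j) = Ln 64 (c j) (wv v x0 a) := by
  intro x0 hx j hj a ha
  have h1 := allN_spec _ _ (allN_spec _ _ h j hj) x0 hx
  have h2 := Nat.eq_of_beq_eq_true h1
  have h3 := Ln_slQ (l x0) j a ha
  rw [h2, Ln_slQ _ _ _ ha, mvV_get v _ _ _ hv (hc j hj) hx ha] at h3
  exact h3.symm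

/-! ### Invariance -/

/-- The vector with number `m` at the permuted codes. -/
def hpG (k : ℕ) (c : ℕ → ℕ) (m : ℕ) : ℕ := haG 10 (ruG 64 (pg10 k) 10 (c (Nat.div m 2))) (Nat.mod m 2)

/-- The vector with number `m`. -/
def hqG (c : ℕ → ℕ) (m : ℕ) : ℕ := haG 10 (c (Nat.div m 2)) (Nat.mod m 2)

/-- The check that the permuted vectors are the vectors up to the order and the signs. -/
def stG (off k : ℕ) (c : ℕ → ℕ) (z w : ℕ → ℕ) (R : ℕ) : Bool :=
  allN (fun m => Nat.blt (Nat.div (z m) 2) (Nat.mul 2 R) && (Nat.blt (w m) (Nat.mul 2 R) &&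
    (Nat.beq (w (Nat.div (z m) 2)) m && (Nat.beq (Nat.div (z (w m)) 2) m &&
    @Bool.rec (fun _ => Bool)
      (Nat.beq (hpG k c m) (hqG c (Nat.div (z m) 2)))
      (Nat.beq (Nat.add (hpG k c m) (hqG c (Nat.div (z m) 2))) (csG 64 (Nat.mul 2 off) 10))
      (Nat.beq (Nat.mod (z m) 2) 1))))) (Nat.mul 2 R)

/-- The entry with number `m`. -/
def ve (off : ℕ) (c : ℕ → ℕ) (m x : ℕ) : ℤ := (Ln 32 (c (m / 2)) (2 * x + m % 2) : ℤ) - off

theorem hq_get (c : ℕ → ℕ) (m x : ℕ) (hx : x < 1024) :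
    Ln 64 (hqG c m) x = Ln 32 (c (m / 2)) (2 * x + m % 2) := by
  have h1 := (haG_ar 10 (c (m / 2)) (m % 2)).lane x hx
  rw [idx_testBit 10 x hx, Nat.add_comm] at h1
  exact h1

theorem hp_get (k : ℕ) (hk : k < 120) (c : ℕ → ℕ) (m x : ℕ) (hc : c (m / 2) < 2 ^ 65536)
    (hx : x < 1024) :
    Ln 64 (hpG k c m) x = Ln 32 (c (m / 2)) (2 * act (a2T k) x + m % 2) := by
  obtain ⟨g1, g2, g3⟩ := pg10_dat k hk
  have h1 := ruG_ar (W := 64) (by norm_num) (pg10 k) 10 _ _ g1 (ar_of_lt _ hc)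
  rw [g2] at h1
  have h2 := h1.lane x hx
  have ex : idx 10 (seG (pg10 k) 10 x.testBit) = act (a2T k) x := by
    unfold act
    apply idx_congr
    intro r hr
    obtain ⟨c1, c2⟩ := g3 r hr
    rw [seG_eq 10 _ (pg10 k) 10 g1 (by rw [g2]) r hr, c2, lf_two_pow]
    simp only [c1, decide_true, Bool.true_and]
  rw [ex] at h2
  have h3 := (haG_ar 10 (ruG 64 (pg10 k) 10 (c (m / 2))) (m % 2)).lane x hx
  rw [idx_testBit 10 x hx, Nat.add_comm (m % 2)] at h3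
  have e1 : Ln 64 (hpG k c m) x =
      Ln 32 (ruG 64 (pg10 k) 10 (c (m / 2))) (2 * x + m % 2) := h3
  rw [e1, LT.Ln32_64 _ _ _ (Nat.mod_lt _ (by norm_num)), h2,
    ← LT.Ln32_64 _ _ _ (Nat.mod_lt _ (by norm_num))]

theorem st_of_chk (off k : ℕ) (hk : k < 120) (c : ℕ → ℕ) (z w : ℕ → ℕ) (R : ℕ)
    (hoff : 2 * off < 2 ^ 64) (hhalf : ∀ j < R, ∀ x, Ln 32 (c j) x < 2 ^ 32)
    (hc : ∀ j < R, c j < 2 ^ 65536) (h : stG off k c z w R = true) :
    ∀ x < 1024, ∀ y < 1024,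
      ∑ m ∈ range (2 * R), ve off c m (act (a2T k) x) * ve off c m (act (a2T k) y) =
      ∑ m ∈ range (2 * R), ve off c m x * ve off c m y := by
  intro x hx y hy
  have h1 : ∀ m < 2 * R, z m / 2 < 2 * R ∧ w m < 2 * R ∧ w (z m / 2) = m ∧ z (w m) / 2 = m ∧
      ((∀ u < 1024, ve off c m (act (a2T k) u) = ve off c (z m / 2) u) ∨
        (∀ u < 1024, ve off c m (act (a2T k) u) = -ve off c (z m / 2) u)) := by
    intro m hm
    have h2 := allN_spec _ _ h m hm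
    simp only [Bool.and_eq_true] at h2
    obtain ⟨a1, a2, a3, a4, a5⟩ := h2
    have b1 : z m / 2 < 2 * R := by
      have := a1
      rw [Nat.blt_eq] at this
      exact this
    have b2 : w m < 2 * R := by
      have := a2
      rw [Nat.blt_eq] at this
      exact this
    refine ⟨b1, b2, Nat.eq_of_beq_eq_true a3, Nat.eq_of_beq_eq_true a4, ?_⟩
    have hcm : c (m / 2) < 2 ^ 65536 := hc _ (by omega)
    by_cases hs : z m % 2 = 1
    · right
      have e1 : Nat.beq (Nat.mod (z m) 2) 1 = true := by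
        have : Nat.mod (z m) 2 = 1 := hs
        rw [this]
        rfl
      rw [e1] at a5
      have a6 : hpG k c m + hqG c (z m / 2) = csG 64 (2 * off) 10 := Nat.eq_of_beq_eq_true a5
      intro u hu
      have h3 := hp_get k hk c m u hcm hu
      have h4 := hq_get c (z m / 2) u hu
      have h5 := (csG_ar (W := 64) (c := 2 * off) (by norm_num) hoff 10).lane u hu
      rw [← a6] at h5
      have p1 := haG_ar 10 (ruG 64 (pg10 k) 10 (c (m / 2))) (m % 2)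
      have p2 := haG_ar 10 (c (z m / 2 / 2)) (z m / 2 % 2)
      have p3 : ∀ i, Ln 64 (hpG k c m) i + Ln 64 (hqG c (z m / 2)) i < 2 ^ 64 := by
        intro i
        have q1 : Ln 64 (hpG k c m) i ≤ 2 ^ 32 := p1.le (2 ^ 32) (fun b => (Ln_lt _ _ _).le) i
        have q2 : Ln 64 (hqG c (z m / 2)) i ≤ 2 ^ 32 := p2.le (2 ^ 32) (fun b => (Ln_lt _ _ _).le) i
        have q3 : (2 : ℕ) ^ 32 + 2 ^ 32 < 2 ^ 64 := by norm_num
        omega
      rw [Ln_add _ _ _ p3, h3, h4] at h5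
      unfold ve
      have h6 : ((Ln 32 (c (m / 2)) (2 * act (a2T k) u + m % 2) : ℕ) : ℤ) +
          (Ln 32 (c (z m / 2 / 2)) (2 * u + z m / 2 % 2) : ℕ) = 2 * off := by exact_mod_cast h5
      linarith
    · left
      have e1 : Nat.beq (Nat.mod (z m) 2) 1 = false := by
        rw [Bool.eq_false_iff]
        intro h
        exact hs (Nat.eq_of_beq_eq_true h)
      rw [e1] at a5
      have a6 : hpG k c m = hqG c (z m / 2) := Nat.eq_of_beq_eq_true a5
      intro u hu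
      have h3 := hp_get k hk c m u hcm hu
      have h4 := hq_get c (z m / 2) u hu
      rw [a6, h4] at h3
      unfold ve
      rw [h3]
  refine Finset.sum_nbij' (fun m => z m / 2) w ?_ ?_ ?_ ?_ ?_
  · intro m hm
    exact Finset.mem_range.mpr (h1 m (Finset.mem_range.mp hm)).1
  · intro m hm
    exact Finset.mem_range.mpr (h1 m (Finset.mem_range.mp hm)).2.1
  · intro m hm
    exact (h1 m (Finset.mem_range.mp hm)).2.2.1
  · intro m hm
    exact (h1 m (Finset.mem_range.mp hm)).2.2.2.1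
  · intro m hm
    rcases (h1 m (Finset.mem_range.mp hm)).2.2.2.2 with h2 | h2
    · rw [h2 x hx, h2 y hy]
    · rw [h2 x hx, h2 y hy, neg_mul_neg]

/-- The same sums in pairs. -/
theorem st_pairs (off : ℕ) (c : ℕ → ℕ) (R u v : ℕ) :
    ∑ m ∈ range (2 * R), ve off c m u * ve off c m v = ∑ j ∈ range R,
      (((Ln 32 (c j) (2 * u) : ℤ) - off) * ((Ln 32 (c j) (2 * v) : ℤ) - off) +
        ((Ln 32 (c j) (2 * u + 1) : ℤ) - off) * ((Ln 32 (c j) (2 * v + 1) : ℤ) - off)) := by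
  rw [sum_two]
  refine Finset.sum_congr rfl fun j _ => ?_
  have e1 : 2 * j / 2 = j := by omega
  have e2 : 2 * j % 2 = 0 := by omega
  have e3 : (2 * j + 1) / 2 = j := by omega
  have e4 : (2 * j + 1) % 2 = 1 := by omega
  unfold ve
  rw [e1, e2, e3, e4, Nat.add_zero, Nat.add_zero]

/-- The lanes of 32 bits are bounded. -/
def vbG (A k : ℕ) : Bool := Nat.beq (Nat.land A (csG 32 (Nat.sub (Nat.pow 2 32) (Nat.pow 2 k)) 11)) 0 &&
  Nat.blt A (Nat.pow 2 65536)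

end Pool.Agent.Lib.MP_afdd4d_co.K8.L9
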