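import Pool.Agent.Lib.MP_afdd4d_co.L9.Act

/-!
# Kernels of a root and five vertices from vectors for the types of the patterns

Every pattern is brought to the representative of its type by a permutation; the kernel of the
representative is a sum of squares that is invariant under the permutations that fix it.
-/

namespace Pool.Agent.Lib.MP_afdd4d_co.K8.L9

open Finset

/-- The positions of the pairs for the permutation with number `k`. -/
def a2T (k : ℕ) : List ℕ := (T120.getD k ([], [], [])).2.2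

/-- The positions of the triples for the permutation with number `k`. -/
def a3T (k : ℕ) : List ℕ := (T120.getD k ([], [], [])).2.1

/-- Vectors for the types. -/
structure LG where
  /-- number of the type of a pattern -/
  ip : ℕ → ℕ
  /-- number of the permutation of a pattern -/
  pp : ℕ → ℕ
  /-- representative of a type -/
  rp : ℕ → ℕ
  /-- number of vectors of a type -/
  R : ℕ → ℕ
  /-- entries: type, number, code -/
  V : ℕ → ℕ → ℕ → ℤ
  /-- bound of the entries -/
  M : ℕ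
  /-- bound of the number of vectors -/
  RM : ℕ
  hV : ∀ i j x, |V i j x| ≤ M
  hR : ∀ i, R i ≤ RM
  hpp : ∀ p < 1024, pp p < 120
  hrp : ∀ p < 1024, act (a3T (pp p)) p = rp (ip p)
  hst : ∀ p < 1024, ∀ q < 1024, ∀ t ∈ T120, act t.2.1 (rp (ip p)) = rp (ip q) → ip q = ip p ∧
    ∀ x < 1024, ∀ y < 1024, ∑ j ∈ range (R (ip p)), V (ip p) j (act t.2.2 x) * V (ip p) j (act t.2.2 y) =
      ∑ j ∈ range (R (ip p)), V (ip p) j x * V (ip p) j y

namespace LG
variable (D : LG)

/-- The kernel of a type. -/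
def F (i x y : ℕ) : ℤ := ∑ j ∈ range (D.R i), D.V i j x * D.V i j y

/-- The code of a vertex after the permutation of the pattern. -/
def tx (p x : ℕ) : ℕ := act (a2T (D.pp p)) x

/-- The kernel in terms of codes. -/
def g (c d : ℕ) : ℤ :=
  if c % 1024 = d % 1024 then
    D.F (D.ip (c % 1024)) (D.tx (c % 1024) (c / 1024)) (D.tx (c % 1024) (d / 1024)) else 0

theorem F_symm (i x y : ℕ) : D.F i x y = D.F i y x := by
  unfold F
  exact Finset.sum_congr rfl fun j _ => mul_comm _ _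

theorem g_symm (c d : ℕ) : D.g c d = D.g d c := by
  unfold g
  by_cases h : c % 1024 = d % 1024
  · rw [if_pos h, if_pos h.symm, F_symm, h]
  · rw [if_neg h, if_neg (fun h' => h h'.symm)]

theorem F_abs (i x y : ℕ) : |D.F i x y| ≤ ((D.RM * (D.M * D.M) : ℕ) : ℤ) := by
  unfold F
  refine le_trans (Finset.abs_sum_le_sum_abs _ _) ?_
  have h1 : ∑ j ∈ range (D.R i), |D.V i j x * D.V i j y| ≤
      ∑ j ∈ range (D.R i), ((D.M : ℤ) * D.M) := by
    refine Finset.sum_le_sum fun j _ => ?_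
    rw [abs_mul]
    exact mul_le_mul (D.hV i j x) (D.hV i j y) (abs_nonneg _) (Int.natCast_nonneg _)
  refine le_trans h1 ?_
  rw [Finset.sum_const, Finset.card_range, nsmul_eq_mul]
  push_cast
  have h2 : ((D.R i : ℕ) : ℤ) ≤ D.RM := by exact_mod_cast D.hR i
  exact mul_le_mul_of_nonneg_right h2 (by positivity)

theorem g_abs (c d : ℕ) : |D.g c d| ≤ ((D.RM * (D.M * D.M) : ℕ) : ℤ) := by
  unfold g
  by_cases h : c % 1024 = d % 1024
  · rw [if_pos h]
    exact D.F_abs _ _ _
  · rw [if_neg h, abs_zero]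
    exact Int.natCast_nonneg _

section tup
variable {n : ℕ} (H : Finset (Finset (Fin n)))

theorem kR_eq (r : Fin n) (s : Fin 5 → Fin n) (u w : Fin n) :
    kR H D.g r s u w = D.F (D.ip (ptR H r s)) (D.tx (ptR H r s) (cxR H r s u))
      (D.tx (ptR H r s) (cxR H r s w)) := by
  have h1 := ptR_lt H r s
  have e : ∀ z : ℕ, (ptR H r s + 1024 * z) % 1024 = ptR H r s := by
    intro z
    rw [Nat.add_mul_mod_self_left, Nat.mod_eq_of_lt h1]
  have e2 : ∀ z : ℕ, (ptR H r s + 1024 * z) / 1024 = z := by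
    intro z
    rw [Nat.add_mul_div_left _ _ (by norm_num), Nat.div_eq_of_lt h1, Nat.zero_add]
  unfold kR g
  rw [cL_snoc, cL_snoc, e, e, if_pos rfl, e2, e2]

theorem exists_perm (p : ℕ) (hp : p < 1024) : ∃ t ∈ T120, t.2.1 = a3T (D.pp p) ∧
    t.2.2 = a2T (D.pp p) := by
  have h := D.hpp p hp
  rw [← T120_len] at h
  refine ⟨T120.getD (D.pp p) ([], [], []), ?_, rfl, rfl⟩
  rw [List.getD_eq_getElem _ _ h]
  exact List.getElem_mem h

theorem kR_perm (r : Fin n) (τ : Equiv.Perm (Fin 5)) (s : Fin 5 → Fin n) (u w : Fin n) :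
    kR H D.g r (s ∘ τ) u w = kR H D.g r s u w := by
  rw [kR_eq, kR_eq]
  set s' := s ∘ τ with hs'
  have hp := ptR_lt H r s
  have hp' := ptR_lt H r s'
  obtain ⟨t, ht, h1, h2⟩ := D.exists_perm _ hp
  obtain ⟨t', ht', h1', h2'⟩ := D.exists_perm _ hp'
  set π : Equiv.Perm (Fin 5) := Equiv.ofBijective _ (T120_bij t ht) with hπ
  set π' : Equiv.Perm (Fin 5) := Equiv.ofBijective _ (T120_bij t' ht') with hπ'
  have e1 : (π : Fin 5 → Fin 5) = fnT t.1 := rfl
  have e1' : (π' : Fin 5 → Fin 5) = fnT t'.1 := rfl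
  obtain ⟨v, hv, h3⟩ := exists_T120 (π⁻¹ * τ * π')
  have e2 : s' ∘ fnT t'.1 = (s ∘ fnT t.1) ∘ fnT v.1 := by
    rw [h3, ← e1, ← e1']
    funext i
    simp [hs', Equiv.Perm.mul_apply]
  have a1 : ptR H r (s ∘ fnT t.1) = D.rp (D.ip (ptR H r s)) := by
    rw [ptR_comp H t ht, h1]
    exact D.hrp _ hp
  have a1' : ptR H r (s' ∘ fnT t'.1) = D.rp (D.ip (ptR H r s')) := by
    rw [ptR_comp H t' ht', h1']
    exact D.hrp _ hp'
  have a2 : act v.2.1 (D.rp (D.ip (ptR H r s))) = D.rp (D.ip (ptR H r s')) := by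
    rw [← a1, ← a1', e2]
    exact (ptR_comp H v hv r _).symm
  obtain ⟨b1, b2⟩ := D.hst _ hp _ hp' v hv a2
  have c1 : ∀ z, D.tx (ptR H r s) (cxR H r s z) = cxR H r (s ∘ fnT t.1) z := by
    intro z
    rw [cxR_comp H t ht, h2]
    rfl
  have c1' : ∀ z, D.tx (ptR H r s') (cxR H r s' z) = act v.2.2 (cxR H r (s ∘ fnT t.1) z) := by
    intro z
    have e : D.tx (ptR H r s') (cxR H r s' z) = cxR H r (s' ∘ fnT t'.1) z := by
      rw [cxR_comp H t' ht', h2']
      rfl
    rw [e, e2]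
    exact cxR_comp H v hv r _ z
  rw [c1, c1, c1', c1', b1]
  exact b2 _ (cxR_lt H r _ _) _ (cxR_lt H r _ _)

theorem psd (r : Fin n) (s : Fin 5 → Fin n) : 0 ≤ ∑ u, ∑ w, ((kR H D.g r s u w : ℤ) : ℝ) := by
  simp_rw [kR_eq]
  unfold F
  push_cast
  rw [Finset.sum_congr rfl fun u _ => Finset.sum_comm, Finset.sum_comm]
  refine Finset.sum_nonneg fun j _ => ?_
  rw [← Finset.sum_mul_sum]
  exact mul_self_nonneg _

end tup

/-- The rooted kernel. -/
noncomputable def kern : RKern :=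
  RKern.ofCode D.g (((D.RM * (D.M * D.M) : ℕ) : ℤ) : ℝ) (fun H r s => D.psd H r s) fun c d => by
    have h := le_trans (le_abs_self _) (D.g_abs c d)
    exact_mod_cast h

end LG

end Pool.Agent.Lib.MP_afdd4d_co.K8.L9
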