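import Pool.Agent.Lib.MP_afdd4d_co.L9.LChk

/-!
# From the checks of the literals to the conditions of the tables
-/

namespace Pool.Agent.Lib.MP_afdd4d_co.K8.L9

open Finset

/-! ### Lists -/

/-- A list of lists as a table with rows of length `w`. -/
def nth2 {α : Type} (d : α) (w : ℕ) (L : List (List α)) (n : ℕ) : α :=
  nthG d (nthG [] L (Nat.div n w)) (Nat.mod n w)

theorem nthG_prop {α : Type} (P : α → Prop) (d : α) (hd : P d) (l : List α)
    (h : ∀ a ∈ l, P a) : ∀ n, P (nthG d l n) := by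
  induction l with
  | nil => intro n; exact hd
  | cons a l ih =>
    intro n
    cases n with
    | zero => exact h a (List.mem_cons_self ..)
    | succ n => exact ih (fun b hb => h b (List.mem_cons_of_mem _ hb)) n

/-- A check of all entries of a list. -/
def allL {α : Type} (f : α → Bool) (l : List α) : Bool :=
  @List.rec α (fun _ => Bool) true (fun a _ ih => @Bool.rec (fun _ => Bool) false ih (f a)) l

theorem allL_spec {α : Type} (f : α → Bool) (l : List α) (h : allL f l = true) :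
    ∀ a ∈ l, f a = true := by
  induction l with
  | nil => intro a ha; exact absurd ha List.not_mem_nil
  | cons b l ih =>
    have e : allL f (b :: l) = @Bool.rec (fun _ => Bool) false (allL f l) (f b) := rfl
    rw [e, bool_rec_and, Bool.and_eq_true] at h
    intro a ha
    rcases List.mem_cons.mp ha with rfl | h2
    · exact h.1
    · exact ih h.2 a h2

/-- A check for all numbers below `a * b` in parts. -/
theorem all_split (f : ℕ → Bool) (a b : ℕ)
    (h : ∀ i < a, allN (fun j => f (Nat.add (Nat.mul b i) j)) b = true) :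
    ∀ k < a * b, f k = true := by
  intro k hk
  have hb : 0 < b := by
    rcases Nat.eq_zero_or_pos b with h0 | h0
    · rw [h0, Nat.mul_zero] at hk
      exact absurd hk (Nat.not_lt_zero _)
    · exact h0
  have h1 : k / b < a := Nat.div_lt_of_lt_mul (by rw [Nat.mul_comm]; exact hk)
  have h2 := allN_spec _ _ (h (k / b) h1) (k % b) (Nat.mod_lt _ hb)
  have e : Nat.add (Nat.mul b (k / b)) (k % b) = k := Nat.div_add_mod k b
  rw [e] at h2
  exact h2

/-! ### The bound of the entries -/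

/-- The check of the literals of a type. -/
def vbL (L : List (List ℕ)) : Bool := allL (fun l => allL (fun a => vbG a 24) l) L

theorem vb_spec (A : ℕ) (h : vbG A 24 = true) :
    A < 2 ^ 65536 ∧ ∀ x, Ln 32 A x ≤ 16777215 := by
  unfold vbG at h
  rw [Bool.and_eq_true] at h
  obtain ⟨ha, hb⟩ := h
  have h1 : A &&& csG 32 (2 ^ 32 - 2 ^ 24) 11 = 0 := Nat.eq_of_beq_eq_true ha
  have h2 : A < 2 ^ 65536 := by
    rw [Nat.blt_eq] at hb
    exact hb
  refine ⟨h2, fun x => ?_⟩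
  by_cases hx : x < 2 ^ 11
  · have h3 := Ln_and 32 A (csG 32 (2 ^ 32 - 2 ^ 24) 11) x
    have h4 := (csG_ar (W := 32) (c := 2 ^ 32 - 2 ^ 24) (by norm_num) (by norm_num) 11).lane x hx
    rw [h1, Ln_zero_left, h4, and_high 32 24 _ (by norm_num) (Ln_lt _ _ _)] at h3
    have h5 := Nat.mod_lt (Ln 32 A x) (show 0 < 2 ^ 24 by norm_num)
    have h6 : (2 : ℕ) ^ 24 = 16777216 := by norm_num
    rw [h6] at h3 h5
    omega
  · have h7 : A < 2 ^ (32 * 2048) := h2
    rw [Ln_eq_zero_of_lt 32 A 2048 x h7 (by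
      have : (2 : ℕ) ^ 11 = 2048 := by norm_num
      omega)]
    exact Nat.zero_le _

theorem vb_zero : (0 : ℕ) < 2 ^ 65536 ∧ ∀ x, Ln 32 0 x ≤ 16777215 :=
  ⟨Nat.two_pow_pos _, fun x => by rw [Ln_zero_left]; exact Nat.zero_le _⟩

/-- The entries of the table of all types. -/
theorem vb_all (CS : List (List (List ℕ))) (w : ℕ) (h : ∀ L ∈ CS, vbL L = true) (i j : ℕ) :
    nth2 0 w (nthG [] CS i) j < 2 ^ 65536 ∧
      ∀ x, Ln 32 (nth2 0 w (nthG [] CS i) j) x ≤ 16777215 := by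
  have h1 : ∀ i, vbL (nthG [] CS i) = true := nthG_prop (fun L => vbL L = true) [] rfl CS h
  have h2 : ∀ k, allL (fun a => vbG a 24) (nthG [] (nthG [] CS i) k) = true :=
    nthG_prop (fun l => allL (fun a => vbG a 24) l = true) [] rfl _
      (allL_spec (fun l => allL (fun a => vbG a 24) l) _ (h1 i))
  unfold nth2
  exact nthG_prop (fun A => A < 2 ^ 65536 ∧ ∀ x, Ln 32 A x ≤ 16777215) 0 vb_zero _
    (fun a ha => vb_spec a (allL_spec _ _ (h2 _) a ha)) _

/-! ### The patterns -/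

/-- The check of the permutation of a pattern. -/
def ppC (ip pp rp : ℕ → ℕ) (NT p : ℕ) : Bool :=
  Nat.blt (ip p) NT && (Nat.blt (pp p) 120 && Nat.beq (act (a3T (pp p)) p) (rp (ip p)))

theorem ppC_spec (ip pp rp : ℕ → ℕ) (NT p : ℕ) (h : ppC ip pp rp NT p = true) :
    ip p < NT ∧ pp p < 120 ∧ act (a3T (pp p)) p = rp (ip p) := by
  unfold ppC at h
  rw [Bool.and_eq_true, Bool.and_eq_true] at h
  obtain ⟨h1, h2, h3⟩ := h
  rw [Nat.blt_eq] at h1 h2
  exact ⟨h1, h2, Nat.eq_of_beq_eq_true h3⟩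

/-- The check of the type of an image. -/
def ipC (ip rp : ℕ → ℕ) (i k : ℕ) : Bool := Nat.beq (ip (act (a3T k) (rp i))) i

/-- The check of a permutation for a type. -/
def stC (off rep : ℕ) (c z w : ℕ → ℕ) (R k : ℕ) : Bool :=
  @Bool.rec (fun _ => Bool) true
    (stG off k c (fun m => lnG 16 (z k) m) (fun m => lnG 16 (w k) m) R)
    (Nat.beq (act (a3T k) rep) rep)

theorem stC_spec (off rep : ℕ) (c z w : ℕ → ℕ) (R k : ℕ) (h : stC off rep c z w R k = true)
    (hk : act (a3T k) rep = rep) :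
    stG off k c (fun m => lnG 16 (z k) m) (fun m => lnG 16 (w k) m) R = true := by
  unfold stC at h
  have e : Nat.beq (act (a3T k) rep) rep = true := by
    rw [hk]
    exact Nat.beq_refl rep
  rw [e] at h
  exact h

theorem T120_num : ∀ t ∈ T120, ∃ k < 120, t.2.1 = a3T k ∧ t.2.2 = a2T k := by
  intro t ht
  obtain ⟨k, hk, h⟩ := List.getElem_of_mem ht
  rw [T120_len] at hk
  refine ⟨k, hk, ?_, ?_⟩
  · unfold a3T
    rw [List.getD_eq_getElem _ _ (by rw [T120_len]; exact hk), h]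
  · unfold a2T
    rw [List.getD_eq_getElem _ _ (by rw [T120_len]; exact hk), h]

/-- The condition on the permutations. -/
theorem hst_of (NT off : ℕ) (ip rp Rp : ℕ → ℕ) (c z w : ℕ → ℕ → ℕ) (hoff : 2 * off < 2 ^ 64)
    (hip : ∀ p < 1024, ip p < NT)
    (hA : allN (fun i => allN (fun k => ipC ip rp i k) 120) NT = true)
    (hB : allN (fun i => Nat.beq (ip (rp i)) i) NT = true)
    (hc : ∀ i j, c i j < 2 ^ 65536)
    (hS : ∀ i < NT, ∀ k < 120, stC off (rp i) (c i) (z i) (w i) (Rp i) k = true) :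
    ∀ p < 1024, ∀ q < 1024, ∀ t ∈ T120, act t.2.1 (rp (ip p)) = rp (ip q) → ip q = ip p ∧
    ∀ x < 1024, ∀ y < 1024, ∑ j ∈ range (Rp (ip p)),
      (((Ln 32 (c (ip p) j) (2 * act t.2.2 x) : ℤ) - off) *
          ((Ln 32 (c (ip p) j) (2 * act t.2.2 y) : ℤ) - off) +
        ((Ln 32 (c (ip p) j) (2 * act t.2.2 x + 1) : ℤ) - off) *
          ((Ln 32 (c (ip p) j) (2 * act t.2.2 y + 1) : ℤ) - off)) =
      ∑ j ∈ range (Rp (ip p)),
      (((Ln 32 (c (ip p) j) (2 * x) : ℤ) - off) * ((Ln 32 (c (ip p) j) (2 * y) : ℤ) - off) +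
        ((Ln 32 (c (ip p) j) (2 * x + 1) : ℤ) - off) *
          ((Ln 32 (c (ip p) j) (2 * y + 1) : ℤ) - off)) := by
  intro p hp q hq t ht h
  obtain ⟨k, hk, e3, e2⟩ := T120_num t ht
  have hi := hip p hp
  have hj := hip q hq
  have h1 : ip (act (a3T k) (rp (ip p))) = ip p :=
    Nat.eq_of_beq_eq_true (allN_spec _ _ (allN_spec _ _ hA _ hi) k hk)
  have h2 : ip (rp (ip q)) = ip q := Nat.eq_of_beq_eq_true (allN_spec _ _ hB _ hj)
  rw [e3] at h
  have h3 : ip q = ip p := by rw [← h2, ← h, h1]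
  refine ⟨h3, fun x hx y hy => ?_⟩
  rw [h3] at h
  have h4 := stC_spec _ _ _ _ _ _ _ (hS _ hi k hk) h
  have h5 := st_of_chk off k hk (c (ip p)) _ _ (Rp (ip p)) hoff
    (fun j _ x => Ln_lt _ _ _) (fun j _ => hc _ _) h4 x hx y hy
  rw [st_pairs, st_pairs] at h5
  rw [e2]
  exact h5

/-! ### The numbers for the marked vertices -/

/-- The check of the pair of a pattern. -/
def tnChk (ip pp tn it vt : ℕ → ℕ) (NP p : ℕ) : Bool :=
  Nat.blt (tn p) NP && (Nat.beq (it (tn p)) (ip p) && Nat.beq (vt (tn p)) (vK (pp p)))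

theorem hlf_of (NP : ℕ) (ip pp tn it vt Rp : ℕ → ℕ) (c lf : ℕ → ℕ → ℕ)
    (hpp : ∀ p < 1024, pp p < 120) (hc : ∀ i j, c i j < 2 ^ 65536)
    (hT : allN (fun p => tnChk ip pp tn it vt NP p) 1024 = true)
    (hL : ∀ t < NP, lfG (vt t) (c (it t)) (lf t) (Rp (it t)) = true) :
    ∀ p < 1024, ∀ x0 < 64, ∀ j < Rp (ip p), ∀ a < 16,
      Ln 64 (lf (tn p) x0) (a + 16 * j) = Ln 64 (c (ip p) j) (wv (vK (pp p)) x0 a) := by
  intro p hp
  have h := allN_spec _ _ hT p hp
  unfold tnChk at h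
  rw [Bool.and_eq_true, Bool.and_eq_true] at h
  obtain ⟨h1, h2, h3⟩ := h
  rw [Nat.blt_eq] at h1
  have h4 := Nat.eq_of_beq_eq_true h2
  have h5 := Nat.eq_of_beq_eq_true h3
  have h6 := hL _ h1
  rw [h4, h5] at h6
  exact lf_of_chk _ (vK_lt _ (hpp p hp)) _ _ _ (fun j _ => hc _ _) h6

/-! ### The low bits -/

/-- The check of the low bits. -/
def kxC (kx : ℕ → ℕ → ℕ) (k : ℕ) : Bool :=
  allN (fun x0 => Nat.beq (kx k x0) (idx 6 fun m => x0.testBit (kpP k m))) 64

theorem hkx_of (kx : ℕ → ℕ → ℕ) (h : allN (fun k => kxC kx k) 120 = true) :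
    ∀ k < 120, ∀ x0 < 64, kx k x0 = idx 6 fun m => x0.testBit (kpP k m) :=
  fun k hk x0 hx => Nat.eq_of_beq_eq_true (allN_spec _ _ (allN_spec _ _ h k hk) x0 hx)

end Pool.Agent.Lib.MP_afdd4d_co.K8.L9
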