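import Pool.Agent.Lib.MP_afdd4d_co.L9.LLst

/-!
# The check of the lists of the blocks
-/

namespace Pool.Agent.Lib.MP_afdd4d_co.K8.L9

open Finset

set_option exponentiation.threshold 100000

/-- The sum of the numbers of a list. -/
def smL : List ℕ → ℕ := @List.rec ℕ (fun _ => ℕ) 0 (fun a _ ih => Nat.add a ih)

/-- The check of the vectors of a list. -/
def enE (R v x0 : ℕ) (c : ℕ → ℕ) : List ℕ → ℕ → Bool :=
  @List.rec ℕ (fun _ => ℕ → Bool) (fun k => Nat.beq k (Nat.mul 2 R))
    (fun u _ ih k => @Bool.rec (fun _ => Bool) false (ih (Nat.add k 1))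
      (Nat.beq u (haG 4 (slQ (mvV v (c (Nat.div k 2))) x0) (Nat.mod k 2))))

/-- The check of a list. -/
def lsG (KO off R v x0 : ℕ) (c : ℕ → ℕ) (l : List ℕ) : Bool :=
  @List.rec ℕ (fun _ => Bool) false (fun d m _ => @Bool.rec (fun _ => Bool) false
    (enE R v x0 c m 0) (Nat.beq d (Nat.sub (csG 64 KO 4) (Nat.mul off (smL m))))) l

theorem enE_spec (R v x0 : ℕ) (c : ℕ → ℕ) : ∀ (m : List ℕ) (i : ℕ), enE R v x0 c m i = true →
    i + m.length = 2 * R ∧ ∀ k < m.length,
      m.getD k 0 = haG 4 (slQ (mvV v (c ((i + k) / 2))) x0) ((i + k) % 2) := by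
  intro m
  induction m with
  | nil =>
    intro i h
    exact ⟨Nat.eq_of_beq_eq_true h, fun k hk => absurd hk (Nat.not_lt_zero k)⟩
  | cons u m ih =>
    intro i h
    have e : enE R v x0 c (u :: m) i = @Bool.rec (fun _ => Bool) false (enE R v x0 c m (i + 1))
      (Nat.beq u (haG 4 (slQ (mvV v (c (i / 2))) x0) (i % 2))) := rfl
    rw [e, bool_rec_and, Bool.and_eq_true] at h
    obtain ⟨h1, h2⟩ := h
    obtain ⟨h3, h4⟩ := ih (i + 1) h2
    refine ⟨by rw [List.length_cons]; omega, fun k hk => ?_⟩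
    cases k with
    | zero =>
      rw [List.getD_cons_zero, Nat.add_zero]
      exact Nat.eq_of_beq_eq_true h1
    | succ k =>
      rw [List.getD_cons_succ]
      have h5 := h4 k (by simpa using hk)
      have e1 : i + 1 + k = i + (k + 1) := by ring
      rw [e1] at h5
      exact h5

theorem smL_ar (VB : ℕ) : ∀ m : List ℕ, okL VB m → m.length * VB < 2 ^ 64 →
    Ar 64 4 (smL m) fun b => ∑ k ∈ range m.length, Ln 64 (m.getD k 0) (idx 4 b) := by
  intro m
  induction m with
  | nil =>
    intro _ _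
    exact (ar_zero 4).congr fun b => by
      rw [List.length_nil, Finset.range_zero, Finset.sum_empty]
  | cons a m ih =>
    intro hm hbd
    have hm' : okL VB m := fun u hu => hm u (List.mem_cons_of_mem _ hu)
    have ha := hm a List.mem_cons_self
    have e1 : (a :: m).length * VB = m.length * VB + VB := by rw [List.length_cons]; ring
    rw [e1] at hbd
    have h1 := ih hm' (by omega)
    have hle : ∀ b : ℕ → Bool, ∑ k ∈ range m.length, Ln 64 (m.getD k 0) (idx 4 b) ≤
        m.length * VB := by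
      intro b
      calc _ ≤ ∑ k ∈ range m.length, VB := by
            refine Finset.sum_le_sum fun k _ => ?_
            rcases getD_mem_or m k 0 with h | h
            · exact (hm' _ h).2 _
            · rw [h, Ln_zero_left]
              exact Nat.zero_le _
        _ = m.length * VB := by rw [Finset.sum_const, Finset.card_range, smul_eq_mul]
    have h2 := (ar16 ha.1).add h1 (by norm_num) (fun b => by
      have h3 := ha.2 (idx 4 b)
      have h4 := hle b
      omega)
    have e2 : smL (a :: m) = a + smL m := rfl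
    rw [e2]
    refine h2.congr fun b => ?_
    rw [List.length_cons, Finset.sum_range_succ']
    simp only [List.getD_cons_zero, List.getD_cons_succ]
    rw [Nat.add_comm]

theorem haQ_get (v x0 e a A : ℕ) (hv : v < 5) (hA : A < 2 ^ 65536) (hx : x0 < 64) (ha : a < 16)
    (he : e < 2) : haG 4 (slQ (mvV v A) x0) e < 2 ^ 1024 ∧
      Ln 64 (haG 4 (slQ (mvV v A) x0) e) a = Ln 32 A (2 * wv v x0 a + e) := by
  have h1 := haG_ar 4 (slQ (mvV v A) x0) e
  refine ⟨h1.lt, ?_⟩
  have h2 := h1.lane a ha
  rw [idx_testBit 4 a ha, Nat.add_comm e, LT.Ln32_64 _ _ _ he, Ln_slQ _ _ _ ha,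
    mvV_get v A x0 a hv hA hx ha, ← LT.Ln32_64 _ _ _ he] at h2
  exact h2

/-- The condition on a list from its check. -/
theorem ls_of_chk (KO off R v x0 VB : ℕ) (c : ℕ → ℕ) (l : List ℕ) (hv : v < 5) (hx : x0 < 64)
    (hc : ∀ j < R, c j < 2 ^ 65536) (hVB : ∀ j x, Ln 32 (c j) x ≤ VB)
    (hoff : 0 < off) (hKO1 : off * (2 * R * VB) ≤ KO) (hKO2 : KO < 2 ^ 64)
    (h : lsG KO off R v x0 c l = true) : LsOk KO off R v x0 c l := by
  cases l with
  | nil =>
    have h' : false = true := h
    exact absurd h' (by decide)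
  | cons d m =>
    have e : lsG KO off R v x0 c (d :: m) = @Bool.rec (fun _ => Bool) false
      (enE R v x0 c m 0) (Nat.beq d (csG 64 KO 4 - off * smL m)) := rfl
    rw [e, bool_rec_and, Bool.and_eq_true] at h
    obtain ⟨h1, h2⟩ := h
    have hd := Nat.eq_of_beq_eq_true h1
    obtain ⟨h3, h4⟩ := enE_spec R v x0 c m 0 h2
    rw [Nat.zero_add] at h3
    have h5 : ∀ k < 2 * R, m.getD k 0 < 2 ^ 1024 ∧ ∀ a < 16, Ln 64 (m.getD k 0) a =
        Ln 32 (c (k / 2)) (2 * wv v x0 a + k % 2) := by
      intro k hk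
      have h6 := h4 k (by rw [h3]; exact hk)
      rw [Nat.zero_add] at h6
      rw [h6]
      have h7 := fun a (ha : a < 16) => haQ_get v x0 (k % 2) a (c (k / 2)) hv
        (hc _ (by omega)) hx ha (Nat.mod_lt _ (by norm_num))
      exact ⟨(h7 0 (by norm_num)).1, fun a ha => (h7 a ha).2⟩
    have hok : okL VB m := by
      intro u hu
      obtain ⟨k, hk', h6⟩ := List.mem_iff_getElem.mp hu
      have h7 : m.getD k 0 = u := by rw [List.getD_eq_getElem _ _ hk', h6]
      rw [h3] at hk'
      obtain ⟨h8, h9⟩ := h5 k hk'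
      rw [h7] at h8 h9
      refine ⟨h8, fun a => ?_⟩
      by_cases ha : a < 16
      · rw [h9 a ha]
        exact hVB _ _
      · have h10 : u < 2 ^ (64 * 16) := h8
        rw [Ln_eq_zero_of_lt _ _ _ _ h10 (not_lt.mp ha)]
        exact Nat.zero_le _
    have h0 : 2 * R * VB ≤ off * (2 * R * VB) := Nat.le_mul_of_pos_left _ hoff
    have hS := smL_ar VB m hok (by rw [h3]; omega)
    have hle : ∀ b : ℕ → Bool, off * ∑ k ∈ range m.length, Ln 64 (m.getD k 0) (idx 4 b) ≤ KO := by
      intro b
      refine le_trans (Nat.mul_le_mul_left _ ?_) hKO1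
      calc _ ≤ ∑ k ∈ range m.length, VB := by
            refine Finset.sum_le_sum fun k _ => ?_
            rcases getD_mem_or m k 0 with h | h
            · exact (hok _ h).2 _
            · rw [h, Ln_zero_left]
              exact Nat.zero_le _
        _ = 2 * R * VB := by rw [Finset.sum_const, Finset.card_range, smul_eq_mul, h3]
    have hS2 := hS.smul off (by norm_num) (fun b => lt_of_le_of_lt (hle b) hKO2)
    have hD := (csG_ar (W := 64) (c := KO) (by norm_num) hKO2 4).sub hS2 (by norm_num) hle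
    rw [← hd] at hD
    refine ⟨d, m, rfl, h3, hD.lt, fun a ha => ?_, fun k hk => (h5 k hk).1,
      fun k hk => (h5 k hk).2⟩
    have h6 := hD.lane a ha
    rw [idx_testBit 4 a ha, h3] at h6
    exact h6

end Pool.Agent.Lib.MP_afdd4d_co.K8.L9
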