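import Pool.Agent.Lib.MP_afdd4d_co.L9.LLchk
import Pool.Agent.Lib.MP_afdd4d_co.L9.LGlue

/-!
# The lists of the blocks, computed

The lists are closed terms over the vectors of a type: at most four exchanges of index bits bring the
bits of the marked vertex to the low end, then slices and halves are taken.
-/

namespace Pool.Agent.Lib.MP_afdd4d_co.K8.L9

open Finset

set_option exponentiation.threshold 100000

/-- The programs for the marked vertices. -/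
def PGWT : List (List (ℕ × ℕ × ℕ)) := [
  [(1, 2, 3), (1, 3, 6)],
  [(1, 1, 2), (1, 2, 4), (1, 3, 7)],
  [(1, 0, 1), (1, 1, 2), (1, 2, 5), (1, 3, 8)],
  [(1, 0, 3), (1, 1, 4), (1, 2, 5), (1, 3, 9)],
  [(1, 0, 6), (1, 1, 7), (1, 2, 8), (1, 3, 9)]]

/-- The program for the marked vertex `v`. -/
def pgw (v : ℕ) : List (ℕ × ℕ × ℕ) := PGWT.getD v []

/-- The slices for the six low bits. -/
def SGT : List (List ℕ) := [
  [0, 4, 1, 5, 2, 6, 3, 7, 8, 12, 9, 13, 10, 14, 11, 15, 16, 20, 17, 21, 18, 22, 19, 23, 24, 28, 25,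
   29, 26, 30, 27, 31, 32, 36, 33, 37, 34, 38, 35, 39, 40, 44, 41, 45, 42, 46, 43, 47, 48, 52, 49,
   53, 50, 54, 51, 55, 56, 60, 57, 61, 58, 62, 59, 63],
  [0, 1, 8, 9, 2, 3, 10, 11, 4, 5, 12, 13, 6, 7, 14, 15, 16, 17, 24, 25, 18, 19, 26, 27, 20, 21, 28,
   29, 22, 23, 30, 31, 32, 33, 40, 41, 34, 35, 42, 43, 36, 37, 44, 45, 38, 39, 46, 47, 48, 49, 56,
   57, 50, 51, 58, 59, 52, 53, 60, 61, 54, 55, 62, 63],
  [0, 2, 16, 18, 1, 3, 17, 19, 4, 6, 20, 22, 5, 7, 21, 23, 8, 10, 24, 26, 9, 11, 25, 27, 12, 14, 28,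
   30, 13, 15, 29, 31, 32, 34, 48, 50, 33, 35, 49, 51, 36, 38, 52, 54, 37, 39, 53, 55, 40, 42, 56,
   58, 41, 43, 57, 59, 44, 46, 60, 62, 45, 47, 61, 63],
  [0, 32, 1, 33, 2, 34, 3, 35, 4, 36, 5, 37, 6, 38, 7, 39, 8, 40, 9, 41, 10, 42, 11, 43, 12, 44, 13,
   45, 14, 46, 15, 47, 16, 48, 17, 49, 18, 50, 19, 51, 20, 52, 21, 53, 22, 54, 23, 55, 24, 56, 25,
   57, 26, 58, 27, 59, 28, 60, 29, 61, 30, 62, 31, 63],
  [0, 4, 8, 12, 16, 20, 24, 28, 32, 36, 40, 44, 48, 52, 56, 60, 1, 5, 9, 13, 17, 21, 25, 29, 33, 37,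
   41, 45, 49, 53, 57, 61, 2, 6, 10, 14, 18, 22, 26, 30, 34, 38, 42, 46, 50, 54, 58, 62, 3, 7, 11,
   15, 19, 23, 27, 31, 35, 39, 43, 47, 51, 55, 59, 63]]

/-- The slice for the marked vertex `v` and the six low bits `x`. -/
def sgW (v x : ℕ) : ℕ := (SGT.getD v []).getD x 0

/-- The array with the bits of the marked vertex at the low end. -/
def mvW (v A : ℕ) : ℕ := ruG 64 (pgw v) 10 A

theorem pgw_dat : ∀ v < 5, okR (pgw v) 10 = true ∧ ndG (pgw v) 10 = 10 := by decide +kernel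

theorem sgw_dat0 : ∀ x < 64, ∀ a < 16,
    idx 10 (seG (pgw 0) 10 (a + 16 * sgW 0 x).testBit) = wv 0 x a := by decide +kernel

theorem sgw_dat1 : ∀ x < 64, ∀ a < 16,
    idx 10 (seG (pgw 1) 10 (a + 16 * sgW 1 x).testBit) = wv 1 x a := by decide +kernel

theorem sgw_dat2 : ∀ x < 64, ∀ a < 16,
    idx 10 (seG (pgw 2) 10 (a + 16 * sgW 2 x).testBit) = wv 2 x a := by decide +kernel

theorem sgw_dat3 : ∀ x < 64, ∀ a < 16,
    idx 10 (seG (pgw 3) 10 (a + 16 * sgW 3 x).testBit) = wv 3 x a := by decide +kernel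

theorem sgw_dat4 : ∀ x < 64, ∀ a < 16,
    idx 10 (seG (pgw 4) 10 (a + 16 * sgW 4 x).testBit) = wv 4 x a := by decide +kernel

theorem sgw_dat (v : ℕ) (hv : v < 5) : ∀ x < 64, ∀ a < 16,
    idx 10 (seG (pgw v) 10 (a + 16 * sgW v x).testBit) = wv v x a := by
  interval_cases v
  · exact sgw_dat0
  · exact sgw_dat1
  · exact sgw_dat2
  · exact sgw_dat3
  · exact sgw_dat4

theorem sgw_lt : ∀ v < 5, ∀ x < 64, sgW v x < 64 := by decide +kernel

theorem mvW_get (v A x0 a : ℕ) (hv : v < 5) (hA : A < 2 ^ 65536) (hx : x0 < 64) (ha : a < 16) :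
    Ln 64 (mvW v A) (a + 16 * sgW v x0) = Ln 64 A (wv v x0 a) := by
  obtain ⟨g1, g2⟩ := pgw_dat v hv
  have h1 := ruG_ar (W := 64) (by norm_num) (pgw v) 10 A _ g1 (ar_of_lt A hA)
  rw [g2] at h1
  have hlt : a + 16 * sgW v x0 < 2 ^ 10 := by
    have := sgw_lt v hv x0 hx
    norm_num
    omega
  have h2 := h1.lane _ hlt
  have e1 : Ln 64 (mvW v A) (a + 16 * sgW v x0) =
      Ln 64 A (idx 10 (seG (pgw v) 10 (a + 16 * sgW v x0).testBit)) := h2
  rw [e1, sgw_dat v hv x0 hx a ha]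

/-- The low halves of sixteen lanes. -/
def m16 : ℕ := csG 64 (2 ^ 32 - 1) 4

/-- One eighth of an array. -/
def ckR (A h : ℕ) : ℕ := Nat.mod (Nat.shiftRight A (Nat.mul 8192 h)) (Nat.pow 2 8192)

/-- Sixteen lanes of 64 bits, in two steps. -/
def slR (A h l : ℕ) : ℕ := Nat.mod (Nat.shiftRight (ckR A h) (Nat.mul 1024 l)) (Nat.pow 2 1024)

theorem slR_eq (A h l : ℕ) (hl : l < 8) : slR A h l = slQ A (8 * h + l) := by
  have e1 : slR A h l = ((A >>> (8192 * h)) % 2 ^ 8192) >>> (1024 * l) % 2 ^ 1024 := rfl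
  have e2 : slQ A (8 * h + l) = A >>> (1024 * (8 * h + l)) % 2 ^ 1024 := rfl
  rw [e1, e2]
  apply Nat.eq_of_testBit_eq
  intro i
  rw [Nat.testBit_mod_two_pow, Nat.testBit_mod_two_pow, Nat.testBit_shiftRight,
    Nat.testBit_mod_two_pow, Nat.testBit_shiftRight, Nat.testBit_shiftRight]
  by_cases hi : i < 1024
  · have h1 : 1024 * l + i < 8192 := by omega
    have h2 : 8192 * h + (1024 * l + i) = 1024 * (8 * h + l) + i := by omega
    rw [h2]
    simp [hi, h1]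
  · simp [hi]

/-- The vectors with the numbers below `2 * n`, in front of a list. -/
def vcW (h0 l0 : ℕ) (w : ℕ → ℕ) (n : ℕ) : List ℕ → List ℕ :=
  @Nat.rec (fun _ => List ℕ → List ℕ) (fun l => l)
    (fun j ih l => ih (List.cons (Nat.land (slR (w j) h0 l0) m16)
      (List.cons (Nat.land (Nat.shiftRight (slR (w j) h0 l0) 32) m16) l))) n

/-- The part of the block of one vertex. -/
def dgW (KO off S h0 l0 : ℕ) : ℕ :=
  Nat.sub (csG 64 KO 4) (Nat.mul off (slR S h0 l0))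

/-- The list, computed: `w` gives the arrays with the bits of the marked vertex at the low end, and `S`
is the sum. -/
def lsW (KO off R S : ℕ) (w : ℕ → ℕ) (h0 l0 : ℕ) : List ℕ :=
  List.cons (dgW KO off S h0 l0) (vcW h0 l0 w R [])

theorem vcW_spec (v h0 l0 y : ℕ) (hl0 : l0 < 8) (hy : 8 * h0 + l0 = y) (c w : ℕ → ℕ)
    (hw : ∀ j, w j = mvW v (c j)) : ∀ (n : ℕ) (l : List ℕ),
    (vcW h0 l0 w n l).length = 2 * n + l.length ∧
    (∀ k < 2 * n, (vcW h0 l0 w n l).getD k 0 = haG 4 (slQ (mvW v (c (k / 2))) y) (k % 2)) ∧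
    ∀ k, (vcW h0 l0 w n l).getD (2 * n + k) 0 = l.getD k 0 := by
  intro n
  induction n with
  | zero =>
    intro l
    have e : vcW h0 l0 w 0 l = l := rfl
    rw [e]
    exact ⟨by omega, fun k hk => absurd hk (by omega), fun k => by rw [Nat.mul_zero, Nat.zero_add]⟩
  | succ n ih =>
    intro l
    have e : vcW h0 l0 w (n + 1) l = vcW h0 l0 w n (haG 4 (slR (w n) h0 l0) 0 ::
      haG 4 (slR (w n) h0 l0) 1 :: l) := rfl
    rw [e, slR_eq _ _ _ hl0, hy, hw]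
    obtain ⟨h1, h2, h3⟩ := ih (haG 4 (slQ (mvW v (c n)) y) 0 ::
      haG 4 (slQ (mvW v (c n)) y) 1 :: l)
    refine ⟨?_, fun k hk => ?_, fun k => ?_⟩
    · rw [h1, List.length_cons, List.length_cons]
      omega
    · rcases Nat.lt_or_ge k (2 * n) with h | h
      · exact h2 k h
      · rcases (by omega : k = 2 * n + 0 ∨ k = 2 * n + 1) with h4 | h4
        · rw [h4, h3 0, List.getD_cons_zero]
          have e1 : (2 * n + 0) / 2 = n := by omega
          have e2 : (2 * n + 0) % 2 = 0 := by omega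
          rw [e1, e2]
        · rw [h4, h3 1, List.getD_cons_succ, List.getD_cons_zero]
          have e1 : (2 * n + 1) / 2 = n := by omega
          have e2 : (2 * n + 1) % 2 = 1 := by omega
          rw [e1, e2]
    · have e1 : 2 * (n + 1) + k = 2 * n + (k + 2) := by ring
      rw [e1, h3 (k + 2), List.getD_cons_succ, List.getD_cons_succ]

theorem sum_twoN (n : ℕ) (f : ℕ → ℕ) :
    ∑ j ∈ range (2 * n), f j = ∑ j ∈ range n, (f (2 * j) + f (2 * j + 1)) := by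
  induction n with
  | zero => rfl
  | succ n ih =>
    have e : 2 * (n + 1) = 2 * n + 1 + 1 := by ring
    rw [e, Finset.sum_range_succ, Finset.sum_range_succ, ih, Finset.sum_range_succ]
    ring

theorem haW_get (v x0 e a A : ℕ) (hv : v < 5) (hA : A < 2 ^ 65536) (hx : x0 < 64) (ha : a < 16)
    (he : e < 2) : haG 4 (slQ (mvW v A) (sgW v x0)) e < 2 ^ 1024 ∧
      Ln 64 (haG 4 (slQ (mvW v A) (sgW v x0)) e) a = Ln 32 A (2 * wv v x0 a + e) := by
  have h1 := haG_ar 4 (slQ (mvW v A) (sgW v x0)) e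
  refine ⟨h1.lt, ?_⟩
  have h2 := h1.lane a ha
  rw [idx_testBit 4 a ha, Nat.add_comm e, LT.Ln32_64 _ _ _ he, Ln_slQ _ _ _ ha,
    mvW_get v A x0 a hv hA hx ha, ← LT.Ln32_64 _ _ _ he] at h2
  exact h2

/-- The condition on the computed list. -/
theorem lsW_ok (KO off R v x0 VB : ℕ) (c w : ℕ → ℕ) (S h0 l0 : ℕ) (hv : v < 5) (hx : x0 < 64)
    (hl0 : l0 < 8) (hy : 8 * h0 + l0 = sgW v x0) (hw : ∀ j, w j = mvW v (c j))
    (hS0 : S = mvW v (smG 10 c (fun _ => 0) R))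
    (hc : ∀ j < R, c j < 2 ^ 65536) (hVB : ∀ j x, Ln 32 (c j) x ≤ VB)
    (hoff : 0 < off) (hKO1 : off * (2 * R * VB) ≤ KO) (hKO2 : KO < 2 ^ 64) :
    LsOk KO off R v x0 c (lsW KO off R S w h0 l0) := by
  obtain ⟨h3, h4, -⟩ := vcW_spec v h0 l0 (sgW v x0) hl0 hy c w hw R []
  have hlen : (vcW h0 l0 w R []).length = 2 * R := by rw [h3]; rfl
  have h5 : ∀ k < 2 * R, (vcW h0 l0 w R []).getD k 0 < 2 ^ 1024 ∧ ∀ a < 16,
      Ln 64 ((vcW h0 l0 w R []).getD k 0) a =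
        Ln 32 (c (k / 2)) (2 * wv v x0 a + k % 2) := by
    intro k hk
    rw [h4 k hk]
    have h7 := fun a (ha : a < 16) => haW_get v x0 (k % 2) a (c (k / 2)) hv
      (hc _ (by omega)) hx ha (Nat.mod_lt _ (by norm_num))
    exact ⟨(h7 0 (by norm_num)).1, fun a ha => (h7 a ha).2⟩
  have h00 : 2 * R * VB ≤ off * (2 * R * VB) := Nat.le_mul_of_pos_left _ hoff
  have hS := smG_ar (n := 10) (c := c) (k := fun _ => 0) VB R (by omega)
    (fun j _ b => ⟨hVB _ _, hVB _ _⟩)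
  have hSlt : smG 10 c (fun _ => 0) R < 2 ^ 65536 := hS.lt
  have eX : slR S h0 l0 = slQ (mvW v (smG 10 c (fun _ => 0) R)) (sgW v x0) := by
    rw [slR_eq _ _ _ hl0, hy, hS0]
  have hX : ∀ a < 16, Ln 64 (slQ (mvW v (smG 10 c (fun _ => 0) R)) (sgW v x0)) a =
      ∑ k ∈ range (2 * R), Ln 64 ((vcW h0 l0 w R []).getD k 0) a := by
    intro a ha
    have hw : wv v x0 a < 2 ^ 10 := idx_lt 10 _
    rw [Ln_slQ _ _ _ ha, mvW_get v _ x0 a hv hSlt hx ha, hS.lane _ hw, sum_twoN]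
    refine Finset.sum_congr rfl fun j hj => ?_
    have hj' := Finset.mem_range.mp hj
    rw [idx_testBit 10 _ hw, (h5 (2 * j) (by omega)).2 a ha, (h5 (2 * j + 1) (by omega)).2 a ha]
    have e1 : 2 * j / 2 = j := by omega
    have e2 : 2 * j % 2 = 0 := by omega
    have e3 : (2 * j + 1) / 2 = j := by omega
    have e4 : (2 * j + 1) % 2 = 1 := by omega
    rw [e1, e2, e3, e4]
    congr 2 <;> omega
  have hXlt : slQ (mvW v (smG 10 c (fun _ => 0) R)) (sgW v x0) < 2 ^ 1024 :=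
    Nat.mod_lt _ (Nat.two_pow_pos 1024)
  have hle : ∀ b : ℕ → Bool,
      off * Ln 64 (slQ (mvW v (smG 10 c (fun _ => 0) R)) (sgW v x0)) (idx 4 b) ≤ KO := by
    intro b
    refine le_trans (Nat.mul_le_mul_left _ ?_) hKO1
    have hb : idx 4 b < 16 := idx_lt 4 b
    rw [hX _ hb]
    calc _ ≤ ∑ k ∈ range (2 * R), VB := by
          refine Finset.sum_le_sum fun k hk => ?_
          rw [(h5 k (Finset.mem_range.mp hk)).2 _ hb]
          exact hVB _ _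
      _ = 2 * R * VB := by rw [Finset.sum_const, Finset.card_range, smul_eq_mul]
  have hS2 := (ar16 hXlt).smul off (by norm_num) (fun b => lt_of_le_of_lt (hle b) hKO2)
  have hD := (csG_ar (W := 64) (c := KO) (by norm_num) hKO2 4).sub hS2 (by norm_num) hle
  have e0 : csG 64 KO 4 - off * slQ (mvW v (smG 10 c (fun _ => 0) R)) (sgW v x0) =
      dgW KO off S h0 l0 := by
    rw [← eX]
    rfl
  rw [e0] at hD
  refine ⟨dgW KO off S h0 l0, vcW h0 l0 w R [], rfl, hlen, hD.lt,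
    fun a ha => ?_, fun k hk => (h5 k hk).1, fun k hk => (h5 k hk).2⟩
  have h6 := hD.lane a ha
  rw [idx_testBit 4 a ha, hX a ha] at h6
  exact h6

/-! ### The tables for the marked vertices -/

/-- The table for the marked vertex `0`. -/
def tabW0 {α : Type} (f : ℕ → ℕ → α) : List (List α) := [
  [f (nat_lit 0) (nat_lit 0),
    f (nat_lit 0) (nat_lit 4),
    f (nat_lit 0) (nat_lit 1),
    f (nat_lit 0) (nat_lit 5),
    f (nat_lit 0) (nat_lit 2),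
    f (nat_lit 0) (nat_lit 6),
    f (nat_lit 0) (nat_lit 3),
    f (nat_lit 0) (nat_lit 7)],
  [f (nat_lit 1) (nat_lit 0),
    f (nat_lit 1) (nat_lit 4),
    f (nat_lit 1) (nat_lit 1),
    f (nat_lit 1) (nat_lit 5),
    f (nat_lit 1) (nat_lit 2),
    f (nat_lit 1) (nat_lit 6),
    f (nat_lit 1) (nat_lit 3),
    f (nat_lit 1) (nat_lit 7)],
  [f (nat_lit 2) (nat_lit 0),
    f (nat_lit 2) (nat_lit 4),
    f (nat_lit 2) (nat_lit 1),
    f (nat_lit 2) (nat_lit 5),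
    f (nat_lit 2) (nat_lit 2),
    f (nat_lit 2) (nat_lit 6),
    f (nat_lit 2) (nat_lit 3),
    f (nat_lit 2) (nat_lit 7)],
  [f (nat_lit 3) (nat_lit 0),
    f (nat_lit 3) (nat_lit 4),
    f (nat_lit 3) (nat_lit 1),
    f (nat_lit 3) (nat_lit 5),
    f (nat_lit 3) (nat_lit 2),
    f (nat_lit 3) (nat_lit 6),
    f (nat_lit 3) (nat_lit 3),
    f (nat_lit 3) (nat_lit 7)],
  [f (nat_lit 4) (nat_lit 0),
    f (nat_lit 4) (nat_lit 4),
    f (nat_lit 4) (nat_lit 1),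
    f (nat_lit 4) (nat_lit 5),
    f (nat_lit 4) (nat_lit 2),
    f (nat_lit 4) (nat_lit 6),
    f (nat_lit 4) (nat_lit 3),
    f (nat_lit 4) (nat_lit 7)],
  [f (nat_lit 5) (nat_lit 0),
    f (nat_lit 5) (nat_lit 4),
    f (nat_lit 5) (nat_lit 1),
    f (nat_lit 5) (nat_lit 5),
    f (nat_lit 5) (nat_lit 2),
    f (nat_lit 5) (nat_lit 6),
    f (nat_lit 5) (nat_lit 3),
    f (nat_lit 5) (nat_lit 7)],
  [f (nat_lit 6) (nat_lit 0),
    f (nat_lit 6) (nat_lit 4),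
    f (nat_lit 6) (nat_lit 1),
    f (nat_lit 6) (nat_lit 5),
    f (nat_lit 6) (nat_lit 2),
    f (nat_lit 6) (nat_lit 6),
    f (nat_lit 6) (nat_lit 3),
    f (nat_lit 6) (nat_lit 7)],
  [f (nat_lit 7) (nat_lit 0),
    f (nat_lit 7) (nat_lit 4),
    f (nat_lit 7) (nat_lit 1),
    f (nat_lit 7) (nat_lit 5),
    f (nat_lit 7) (nat_lit 2),
    f (nat_lit 7) (nat_lit 6),
    f (nat_lit 7) (nat_lit 3),
    f (nat_lit 7) (nat_lit 7)]]

theorem tabW0_get {α : Type} (d : α) (f : ℕ → ℕ → α) : ∀ x < 64,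
    nth2 d 8 (tabW0 f) x = f (Nat.div (sgW 0 x) 8) (Nat.mod (sgW 0 x) 8) := by
  intro x hx
  interval_cases x <;> rfl

/-- The table for the marked vertex `1`. -/
def tabW1 {α : Type} (f : ℕ → ℕ → α) : List (List α) := [
  [f (nat_lit 0) (nat_lit 0),
    f (nat_lit 0) (nat_lit 1),
    f (nat_lit 1) (nat_lit 0),
    f (nat_lit 1) (nat_lit 1),
    f (nat_lit 0) (nat_lit 2),
    f (nat_lit 0) (nat_lit 3),
    f (nat_lit 1) (nat_lit 2),
    f (nat_lit 1) (nat_lit 3)],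
  [f (nat_lit 0) (nat_lit 4),
    f (nat_lit 0) (nat_lit 5),
    f (nat_lit 1) (nat_lit 4),
    f (nat_lit 1) (nat_lit 5),
    f (nat_lit 0) (nat_lit 6),
    f (nat_lit 0) (nat_lit 7),
    f (nat_lit 1) (nat_lit 6),
    f (nat_lit 1) (nat_lit 7)],
  [f (nat_lit 2) (nat_lit 0),
    f (nat_lit 2) (nat_lit 1),
    f (nat_lit 3) (nat_lit 0),
    f (nat_lit 3) (nat_lit 1),
    f (nat_lit 2) (nat_lit 2),
    f (nat_lit 2) (nat_lit 3),
    f (nat_lit 3) (nat_lit 2),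
    f (nat_lit 3) (nat_lit 3)],
  [f (nat_lit 2) (nat_lit 4),
    f (nat_lit 2) (nat_lit 5),
    f (nat_lit 3) (nat_lit 4),
    f (nat_lit 3) (nat_lit 5),
    f (nat_lit 2) (nat_lit 6),
    f (nat_lit 2) (nat_lit 7),
    f (nat_lit 3) (nat_lit 6),
    f (nat_lit 3) (nat_lit 7)],
  [f (nat_lit 4) (nat_lit 0),
    f (nat_lit 4) (nat_lit 1),
    f (nat_lit 5) (nat_lit 0),
    f (nat_lit 5) (nat_lit 1),
    f (nat_lit 4) (nat_lit 2),
    f (nat_lit 4) (nat_lit 3),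
    f (nat_lit 5) (nat_lit 2),
    f (nat_lit 5) (nat_lit 3)],
  [f (nat_lit 4) (nat_lit 4),
    f (nat_lit 4) (nat_lit 5),
    f (nat_lit 5) (nat_lit 4),
    f (nat_lit 5) (nat_lit 5),
    f (nat_lit 4) (nat_lit 6),
    f (nat_lit 4) (nat_lit 7),
    f (nat_lit 5) (nat_lit 6),
    f (nat_lit 5) (nat_lit 7)],
  [f (nat_lit 6) (nat_lit 0),
    f (nat_lit 6) (nat_lit 1),
    f (nat_lit 7) (nat_lit 0),
    f (nat_lit 7) (nat_lit 1),
    f (nat_lit 6) (nat_lit 2),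
    f (nat_lit 6) (nat_lit 3),
    f (nat_lit 7) (nat_lit 2),
    f (nat_lit 7) (nat_lit 3)],
  [f (nat_lit 6) (nat_lit 4),
    f (nat_lit 6) (nat_lit 5),
    f (nat_lit 7) (nat_lit 4),
    f (nat_lit 7) (nat_lit 5),
    f (nat_lit 6) (nat_lit 6),
    f (nat_lit 6) (nat_lit 7),
    f (nat_lit 7) (nat_lit 6),
    f (nat_lit 7) (nat_lit 7)]]

theorem tabW1_get {α : Type} (d : α) (f : ℕ → ℕ → α) : ∀ x < 64,
    nth2 d 8 (tabW1 f) x = f (Nat.div (sgW 1 x) 8) (Nat.mod (sgW 1 x) 8) := by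
  intro x hx
  interval_cases x <;> rfl

/-- The table for the marked vertex `2`. -/
def tabW2 {α : Type} (f : ℕ → ℕ → α) : List (List α) := [
  [f (nat_lit 0) (nat_lit 0),
    f (nat_lit 0) (nat_lit 2),
    f (nat_lit 2) (nat_lit 0),
    f (nat_lit 2) (nat_lit 2),
    f (nat_lit 0) (nat_lit 1),
    f (nat_lit 0) (nat_lit 3),
    f (nat_lit 2) (nat_lit 1),
    f (nat_lit 2) (nat_lit 3)],
  [f (nat_lit 0) (nat_lit 4),
    f (nat_lit 0) (nat_lit 6),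
    f (nat_lit 2) (nat_lit 4),
    f (nat_lit 2) (nat_lit 6),
    f (nat_lit 0) (nat_lit 5),
    f (nat_lit 0) (nat_lit 7),
    f (nat_lit 2) (nat_lit 5),
    f (nat_lit 2) (nat_lit 7)],
  [f (nat_lit 1) (nat_lit 0),
    f (nat_lit 1) (nat_lit 2),
    f (nat_lit 3) (nat_lit 0),
    f (nat_lit 3) (nat_lit 2),
    f (nat_lit 1) (nat_lit 1),
    f (nat_lit 1) (nat_lit 3),
    f (nat_lit 3) (nat_lit 1),
    f (nat_lit 3) (nat_lit 3)],
  [f (nat_lit 1) (nat_lit 4),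
    f (nat_lit 1) (nat_lit 6),
    f (nat_lit 3) (nat_lit 4),
    f (nat_lit 3) (nat_lit 6),
    f (nat_lit 1) (nat_lit 5),
    f (nat_lit 1) (nat_lit 7),
    f (nat_lit 3) (nat_lit 5),
    f (nat_lit 3) (nat_lit 7)],
  [f (nat_lit 4) (nat_lit 0),
    f (nat_lit 4) (nat_lit 2),
    f (nat_lit 6) (nat_lit 0),
    f (nat_lit 6) (nat_lit 2),
    f (nat_lit 4) (nat_lit 1),
    f (nat_lit 4) (nat_lit 3),
    f (nat_lit 6) (nat_lit 1),
    f (nat_lit 6) (nat_lit 3)],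
  [f (nat_lit 4) (nat_lit 4),
    f (nat_lit 4) (nat_lit 6),
    f (nat_lit 6) (nat_lit 4),
    f (nat_lit 6) (nat_lit 6),
    f (nat_lit 4) (nat_lit 5),
    f (nat_lit 4) (nat_lit 7),
    f (nat_lit 6) (nat_lit 5),
    f (nat_lit 6) (nat_lit 7)],
  [f (nat_lit 5) (nat_lit 0),
    f (nat_lit 5) (nat_lit 2),
    f (nat_lit 7) (nat_lit 0),
    f (nat_lit 7) (nat_lit 2),
    f (nat_lit 5) (nat_lit 1),
    f (nat_lit 5) (nat_lit 3),
    f (nat_lit 7) (nat_lit 1),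
    f (nat_lit 7) (nat_lit 3)],
  [f (nat_lit 5) (nat_lit 4),
    f (nat_lit 5) (nat_lit 6),
    f (nat_lit 7) (nat_lit 4),
    f (nat_lit 7) (nat_lit 6),
    f (nat_lit 5) (nat_lit 5),
    f (nat_lit 5) (nat_lit 7),
    f (nat_lit 7) (nat_lit 5),
    f (nat_lit 7) (nat_lit 7)]]

theorem tabW2_get {α : Type} (d : α) (f : ℕ → ℕ → α) : ∀ x < 64,
    nth2 d 8 (tabW2 f) x = f (Nat.div (sgW 2 x) 8) (Nat.mod (sgW 2 x) 8) := by
  intro x hx
  interval_cases x <;> rfl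

/-- The table for the marked vertex `3`. -/
def tabW3 {α : Type} (f : ℕ → ℕ → α) : List (List α) := [
  [f (nat_lit 0) (nat_lit 0),
    f (nat_lit 4) (nat_lit 0),
    f (nat_lit 0) (nat_lit 1),
    f (nat_lit 4) (nat_lit 1),
    f (nat_lit 0) (nat_lit 2),
    f (nat_lit 4) (nat_lit 2),
    f (nat_lit 0) (nat_lit 3),
    f (nat_lit 4) (nat_lit 3)],
  [f (nat_lit 0) (nat_lit 4),
    f (nat_lit 4) (nat_lit 4),
    f (nat_lit 0) (nat_lit 5),
    f (nat_lit 4) (nat_lit 5),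
    f (nat_lit 0) (nat_lit 6),
    f (nat_lit 4) (nat_lit 6),
    f (nat_lit 0) (nat_lit 7),
    f (nat_lit 4) (nat_lit 7)],
  [f (nat_lit 1) (nat_lit 0),
    f (nat_lit 5) (nat_lit 0),
    f (nat_lit 1) (nat_lit 1),
    f (nat_lit 5) (nat_lit 1),
    f (nat_lit 1) (nat_lit 2),
    f (nat_lit 5) (nat_lit 2),
    f (nat_lit 1) (nat_lit 3),
    f (nat_lit 5) (nat_lit 3)],
  [f (nat_lit 1) (nat_lit 4),
    f (nat_lit 5) (nat_lit 4),
    f (nat_lit 1) (nat_lit 5),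
    f (nat_lit 5) (nat_lit 5),
    f (nat_lit 1) (nat_lit 6),
    f (nat_lit 5) (nat_lit 6),
    f (nat_lit 1) (nat_lit 7),
    f (nat_lit 5) (nat_lit 7)],
  [f (nat_lit 2) (nat_lit 0),
    f (nat_lit 6) (nat_lit 0),
    f (nat_lit 2) (nat_lit 1),
    f (nat_lit 6) (nat_lit 1),
    f (nat_lit 2) (nat_lit 2),
    f (nat_lit 6) (nat_lit 2),
    f (nat_lit 2) (nat_lit 3),
    f (nat_lit 6) (nat_lit 3)],
  [f (nat_lit 2) (nat_lit 4),
    f (nat_lit 6) (nat_lit 4),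
    f (nat_lit 2) (nat_lit 5),
    f (nat_lit 6) (nat_lit 5),
    f (nat_lit 2) (nat_lit 6),
    f (nat_lit 6) (nat_lit 6),
    f (nat_lit 2) (nat_lit 7),
    f (nat_lit 6) (nat_lit 7)],
  [f (nat_lit 3) (nat_lit 0),
    f (nat_lit 7) (nat_lit 0),
    f (nat_lit 3) (nat_lit 1),
    f (nat_lit 7) (nat_lit 1),
    f (nat_lit 3) (nat_lit 2),
    f (nat_lit 7) (nat_lit 2),
    f (nat_lit 3) (nat_lit 3),
    f (nat_lit 7) (nat_lit 3)],
  [f (nat_lit 3) (nat_lit 4),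
    f (nat_lit 7) (nat_lit 4),
    f (nat_lit 3) (nat_lit 5),
    f (nat_lit 7) (nat_lit 5),
    f (nat_lit 3) (nat_lit 6),
    f (nat_lit 7) (nat_lit 6),
    f (nat_lit 3) (nat_lit 7),
    f (nat_lit 7) (nat_lit 7)]]

theorem tabW3_get {α : Type} (d : α) (f : ℕ → ℕ → α) : ∀ x < 64,
    nth2 d 8 (tabW3 f) x = f (Nat.div (sgW 3 x) 8) (Nat.mod (sgW 3 x) 8) := by
  intro x hx
  interval_cases x <;> rfl

/-- The table for the marked vertex `4`. -/
def tabW4 {α : Type} (f : ℕ → ℕ → α) : List (List α) := [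
  [f (nat_lit 0) (nat_lit 0),
    f (nat_lit 0) (nat_lit 4),
    f (nat_lit 1) (nat_lit 0),
    f (nat_lit 1) (nat_lit 4),
    f (nat_lit 2) (nat_lit 0),
    f (nat_lit 2) (nat_lit 4),
    f (nat_lit 3) (nat_lit 0),
    f (nat_lit 3) (nat_lit 4)],
  [f (nat_lit 4) (nat_lit 0),
    f (nat_lit 4) (nat_lit 4),
    f (nat_lit 5) (nat_lit 0),
    f (nat_lit 5) (nat_lit 4),
    f (nat_lit 6) (nat_lit 0),
    f (nat_lit 6) (nat_lit 4),
    f (nat_lit 7) (nat_lit 0),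
    f (nat_lit 7) (nat_lit 4)],
  [f (nat_lit 0) (nat_lit 1),
    f (nat_lit 0) (nat_lit 5),
    f (nat_lit 1) (nat_lit 1),
    f (nat_lit 1) (nat_lit 5),
    f (nat_lit 2) (nat_lit 1),
    f (nat_lit 2) (nat_lit 5),
    f (nat_lit 3) (nat_lit 1),
    f (nat_lit 3) (nat_lit 5)],
  [f (nat_lit 4) (nat_lit 1),
    f (nat_lit 4) (nat_lit 5),
    f (nat_lit 5) (nat_lit 1),
    f (nat_lit 5) (nat_lit 5),
    f (nat_lit 6) (nat_lit 1),
    f (nat_lit 6) (nat_lit 5),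
    f (nat_lit 7) (nat_lit 1),
    f (nat_lit 7) (nat_lit 5)],
  [f (nat_lit 0) (nat_lit 2),
    f (nat_lit 0) (nat_lit 6),
    f (nat_lit 1) (nat_lit 2),
    f (nat_lit 1) (nat_lit 6),
    f (nat_lit 2) (nat_lit 2),
    f (nat_lit 2) (nat_lit 6),
    f (nat_lit 3) (nat_lit 2),
    f (nat_lit 3) (nat_lit 6)],
  [f (nat_lit 4) (nat_lit 2),
    f (nat_lit 4) (nat_lit 6),
    f (nat_lit 5) (nat_lit 2),
    f (nat_lit 5) (nat_lit 6),
    f (nat_lit 6) (nat_lit 2),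
    f (nat_lit 6) (nat_lit 6),
    f (nat_lit 7) (nat_lit 2),
    f (nat_lit 7) (nat_lit 6)],
  [f (nat_lit 0) (nat_lit 3),
    f (nat_lit 0) (nat_lit 7),
    f (nat_lit 1) (nat_lit 3),
    f (nat_lit 1) (nat_lit 7),
    f (nat_lit 2) (nat_lit 3),
    f (nat_lit 2) (nat_lit 7),
    f (nat_lit 3) (nat_lit 3),
    f (nat_lit 3) (nat_lit 7)],
  [f (nat_lit 4) (nat_lit 3),
    f (nat_lit 4) (nat_lit 7),
    f (nat_lit 5) (nat_lit 3),
    f (nat_lit 5) (nat_lit 7),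
    f (nat_lit 6) (nat_lit 3),
    f (nat_lit 6) (nat_lit 7),
    f (nat_lit 7) (nat_lit 3),
    f (nat_lit 7) (nat_lit 7)]]

theorem tabW4_get {α : Type} (d : α) (f : ℕ → ℕ → α) : ∀ x < 64,
    nth2 d 8 (tabW4 f) x = f (Nat.div (sgW 4 x) 8) (Nat.mod (sgW 4 x) 8) := by
  intro x hx
  interval_cases x <;> rfl

end Pool.Agent.Lib.MP_afdd4d_co.K8.L9
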