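import Pool.Agent.Lib.MP_afdd4d_co.L9.LBlk

/-!
# The kernel of a root: blocks and rows for all patterns
-/

namespace Pool.Agent.Lib.MP_afdd4d_co.K8.L9

open Finset

theorem sum_two (n : ℕ) (f : ℕ → ℤ) :
    ∑ j ∈ range (2 * n), f j = ∑ j ∈ range n, (f (2 * j) + f (2 * j + 1)) := by
  induction n with
  | zero => rfl
  | succ n ih =>
    have e : 2 * (n + 1) = 2 * n + 1 + 1 := by ring
    rw [e, Finset.sum_range_succ, Finset.sum_range_succ, ih, Finset.sum_range_succ]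
    ring

/-- The code of a vertex at the places of the marked vertex `v`, from six low bits and four bits. -/
def wv (v x0 a : ℕ) : ℕ := idx 10 fun r =>
  if lvP v r < 4 then a.testBit (lvP v r) else x0.testBit (lvP v r - 4)

/-- The sum of the products of halves for a row. -/
def rsG (c : ℕ → ℕ) (X R : ℕ) : ℕ := @Nat.rec (fun _ => ℕ) 0
  (fun j ih => Nat.add ih (Nat.add
    (Nat.mul (lnG 32 (c j) (Nat.mul 2 X)) (haG 10 (c j) 0))
    (Nat.mul (lnG 32 (c j) (Nat.add (Nat.mul 2 X) 1)) (haG 10 (c j) 1)))) R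

/-- The sum of the entries at one code. -/
def ssG (c : ℕ → ℕ) (X R : ℕ) : ℕ := @Nat.rec (fun _ => ℕ) 0
  (fun j ih => Nat.add ih (Nat.add (lnG 32 (c j) (Nat.mul 2 X))
    (lnG 32 (c j) (Nat.add (Nat.mul 2 X) 1)))) R

/-- A row. -/
def rwG (KO off : ℕ) (c : ℕ → ℕ) (X R : ℕ) : ℕ :=
  Nat.sub (Nat.add (rsG c X R) (csG 64 (Nat.sub (Nat.mul 2 KO) (Nat.mul off (ssG c X R))) 10))
    (Nat.mul off (smG 10 c (fun _ => 0) R))

/-- The tables. -/
structure LT where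
  ip : ℕ → ℕ
  pp : ℕ → ℕ
  rp : ℕ → ℕ
  Rp : ℕ → ℕ
  c : ℕ → ℕ → ℕ
  tn : ℕ → ℕ
  lf : ℕ → ℕ → ℕ
  kx : ℕ → ℕ → ℕ
  pgb : ℕ → List (ℕ × ℕ × ℕ)
  pgr : ℕ → List (ℕ × ℕ × ℕ)
  off : ℕ
  VB : ℕ
  RM : ℕ
  O : ℕ
  KO : ℕ → ℕ
  hoff : 0 < off
  hoff2 : off ≤ VB
  hVB : ∀ i j x, Ln 32 (c i j) x ≤ VB
  hVB2 : 16 * VB < 2 ^ 64
  hRM : ∀ i, Rp i ≤ RM
  hKO : ∀ i, 2 * KO i = O + 2 * (Rp i * (off * off))
  hKO1 : ∀ i, off * (2 * Rp i * VB) ≤ KO i
  hKO2 : ∀ i, 16 * KO i < 2 ^ 64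
  hbd : ∀ i, 2 * Rp i * (VB * VB) + 2 * KO i < 2 ^ 64
  hO : 2 * RM * (VB * VB) ≤ O
  hpp : ∀ p < 1024, pp p < 120
  hrp : ∀ p < 1024, act (a3T (pp p)) p = rp (ip p)
  hst : ∀ p < 1024, ∀ q < 1024, ∀ t ∈ T120, act t.2.1 (rp (ip p)) = rp (ip q) → ip q = ip p ∧
    ∀ x < 1024, ∀ y < 1024, ∑ j ∈ range (Rp (ip p)),
      (((Ln 32 (c (ip p) j) (2 * act t.2.2 x) : ℤ) - off) *
          ((Ln 32 (c (ip p) j) (2 * act t.2.2 y) : ℤ) - off) +
        ((Ln 32 (c (ip p) j) (2 * act t.2.2 x + 1) : ℤ) - off) *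
          ((Ln 32 (c (ip p) j) (2 * act t.2.2 y + 1) : ℤ) - off)) =
      ∑ j ∈ range (Rp (ip p)),
      (((Ln 32 (c (ip p) j) (2 * x) : ℤ) - off) * ((Ln 32 (c (ip p) j) (2 * y) : ℤ) - off) +
        ((Ln 32 (c (ip p) j) (2 * x + 1) : ℤ) - off) * ((Ln 32 (c (ip p) j) (2 * y + 1) : ℤ) - off))
  hlf : ∀ p < 1024, ∀ x0 < 64, ∀ j < Rp (ip p), ∀ a < 16,
    Ln 64 (lf (tn p) x0) (a + 16 * j) = Ln 64 (c (ip p) j) (wv (vK (pp p)) x0 a)
  hkx : ∀ k < 120, ∀ x0 < 64, kx k x0 = idx 6 fun m => x0.testBit (kpP k m)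
  hpgb : ∀ k < 120, pgb k = pg8 k
  hpgr : ∀ k < 120, pgr k = pg10 k

namespace LT
variable (D : LT)

/-- The entries. -/
def V (i j x : ℕ) : ℤ := (Ln 32 (D.c i (j / 2)) (2 * x + j % 2) : ℤ) - D.off

theorem V_abs (i j x : ℕ) : |D.V i j x| ≤ D.VB := by
  have h1 := D.hVB i (j / 2) (2 * x + j % 2)
  have h2 := D.hoff2
  unfold V
  rw [abs_le]
  constructor
  · have h3 : (0 : ℤ) ≤ (Ln 32 (D.c i (j / 2)) (2 * x + j % 2) : ℤ) := Int.natCast_nonneg _
    have h4 : (D.off : ℤ) ≤ D.VB := by exact_mod_cast h2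
    linarith
  · have h3 : (Ln 32 (D.c i (j / 2)) (2 * x + j % 2) : ℤ) ≤ D.VB := by exact_mod_cast h1
    have h4 : (0 : ℤ) ≤ D.off := Int.natCast_nonneg _
    linarith

theorem V_two (i j x y : ℕ) : D.V i (2 * j) x * D.V i (2 * j) y +
    D.V i (2 * j + 1) x * D.V i (2 * j + 1) y =
    ((Ln 32 (D.c i j) (2 * x) : ℤ) - D.off) * ((Ln 32 (D.c i j) (2 * y) : ℤ) - D.off) +
    ((Ln 32 (D.c i j) (2 * x + 1) : ℤ) - D.off) *
      ((Ln 32 (D.c i j) (2 * y + 1) : ℤ) - D.off) := by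
  have e1 : 2 * j / 2 = j := by omega
  have e2 : 2 * j % 2 = 0 := by omega
  have e3 : (2 * j + 1) / 2 = j := by omega
  have e4 : (2 * j + 1) % 2 = 1 := by omega
  unfold V
  rw [e1, e2, e3, e4, Nat.add_zero, Nat.add_zero]

/-- The kernel. -/
def lg : LG where
  ip := D.ip
  pp := D.pp
  rp := D.rp
  R i := 2 * D.Rp i
  V := D.V
  M := D.VB
  RM := 2 * D.RM
  hV := D.V_abs
  hR i := Nat.mul_le_mul_left _ (D.hRM i)
  hpp := D.hpp
  hrp := D.hrp
  hst p hp q hq t ht h := by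
    obtain ⟨h1, h2⟩ := D.hst p hp q hq t ht h
    refine ⟨h1, fun x hx y hy => ?_⟩
    rw [sum_two, sum_two, Finset.sum_congr rfl fun j _ => D.V_two _ j _ _,
      Finset.sum_congr rfl fun j _ => D.V_two (D.ip p) j x y]
    exact h2 x hx y hy

theorem lg_abs (c d : ℕ) : |D.lg.g c d| ≤ D.O := by
  have h1 := D.lg.g_abs c d
  refine le_trans h1 ?_
  have h2 : D.lg.RM * (D.lg.M * D.lg.M) = 2 * D.RM * (D.VB * D.VB) := rfl
  rw [h2]
  exact_mod_cast D.hO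

/-- The sum of the products. -/
def PP (i x y : ℕ) : ℕ := ∑ j ∈ range (D.Rp i),
  (Ln 32 (D.c i j) (2 * x) * Ln 32 (D.c i j) (2 * y) +
    Ln 32 (D.c i j) (2 * x + 1) * Ln 32 (D.c i j) (2 * y + 1))

/-- The sum of the entries. -/
def SS (i x : ℕ) : ℕ := ∑ j ∈ range (D.Rp i), (Ln 32 (D.c i j) (2 * x) + Ln 32 (D.c i j) (2 * x + 1))

theorem SS_le (i x : ℕ) : D.SS i x ≤ 2 * D.Rp i * D.VB := by
  unfold SS
  calc _ ≤ ∑ j ∈ range (D.Rp i), (D.VB + D.VB) :=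
        Finset.sum_le_sum fun j _ => Nat.add_le_add (D.hVB _ _ _) (D.hVB _ _ _)
    _ = 2 * D.Rp i * D.VB := by rw [Finset.sum_const, Finset.card_range, smul_eq_mul]; ring

theorem SS_off (i x : ℕ) : D.off * D.SS i x ≤ D.KO i :=
  le_trans (Nat.mul_le_mul_left _ (D.SS_le i x)) (D.hKO1 i)

theorem F_eq (i x y : ℕ) : D.lg.F i x y = (D.PP i x y : ℤ) - D.off * D.SS i x - D.off * D.SS i y +
    2 * (D.Rp i * (D.off * D.off)) := by
  have e1 : D.lg.F i x y = ∑ j ∈ range (2 * D.Rp i), D.V i j x * D.V i j y := rfl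
  rw [e1, sum_two, Finset.sum_congr rfl fun j _ => D.V_two i j x y]
  unfold PP SS
  push_cast
  induction D.Rp i with
  | zero => simp
  | succ n ih =>
    rw [Finset.sum_range_succ, ih, Finset.sum_range_succ, Finset.sum_range_succ,
      Finset.sum_range_succ]
    push_cast
    ring

theorem gN_eq (p x y : ℕ) (hp : p < 1024) : gN D.lg.g D.O p x y =
    D.PP (D.ip p) (D.lg.tx p x) (D.lg.tx p y) + ((D.KO (D.ip p) - D.off * D.SS (D.ip p) (D.lg.tx p x)) +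
      (D.KO (D.ip p) - D.off * D.SS (D.ip p) (D.lg.tx p y))) := by
  have e : ∀ z : ℕ, (p + 1024 * z) % 1024 = p := by
    intro z
    rw [Nat.add_mul_mod_self_left, Nat.mod_eq_of_lt hp]
  have e2 : ∀ z : ℕ, (p + 1024 * z) / 1024 = z := by
    intro z
    rw [Nat.add_mul_div_left _ _ (by norm_num), Nat.div_eq_of_lt hp, Nat.zero_add]
  have h1 : D.lg.g (p + 1024 * x) (p + 1024 * y) =
      D.lg.F (D.ip p) (D.lg.tx p x) (D.lg.tx p y) := by
    unfold LG.g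
    rw [e, e, if_pos rfl, e2, e2]
    rfl
  unfold gN
  rw [h1, F_eq]
  have h2 := D.SS_off (D.ip p) (D.lg.tx p x)
  have h3 := D.SS_off (D.ip p) (D.lg.tx p y)
  have h4 := D.hKO (D.ip p)
  have h5 : (2 * D.KO (D.ip p) : ℤ) = D.O + 2 * (D.Rp (D.ip p) * (D.off * D.off)) := by
    exact_mod_cast h4
  have h6 : ((D.O : ℤ) + ((D.PP (D.ip p) (D.lg.tx p x) (D.lg.tx p y) : ℤ) -
      D.off * D.SS (D.ip p) (D.lg.tx p x) - D.off * D.SS (D.ip p) (D.lg.tx p y) +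
      2 * (D.Rp (D.ip p) * (D.off * D.off)))) =
      ((D.PP (D.ip p) (D.lg.tx p x) (D.lg.tx p y) +
        ((D.KO (D.ip p) - D.off * D.SS (D.ip p) (D.lg.tx p x)) +
        (D.KO (D.ip p) - D.off * D.SS (D.ip p) (D.lg.tx p y))) : ℕ) : ℤ) := by
    rw [Nat.cast_add, Nat.cast_add, Nat.cast_sub h2, Nat.cast_sub h3]
    push_cast
    linarith
  rw [h6, Int.toNat_natCast]

/-! ### Blocks -/

theorem Ln32_64 (X t e : ℕ) (he : e < 2) : Ln 32 X (2 * t + e) = Ln 32 (Ln 64 X t) e :=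
  (Ln_Ln 32 2 X t e he).symm

theorem en_eq (p x0 j e : ℕ) (hp : p < 1024) (hx : x0 < 64) (hj : j < D.Rp (D.ip p)) (he : e < 2)
    (b : ℕ → Bool) : en (D.lf (D.tn p) x0) j e b =
      Ln 32 (D.c (D.ip p) j) (2 * wv (vK (D.pp p)) x0 (idx 4 b) + e) := by
  have h1 := D.hlf p hp x0 hx j hj (idx 4 b) (idx_lt 4 b)
  unfold en
  have e1 : 32 * j + e + 2 * idx 4 b = 2 * (idx 4 b + 16 * j) + e := by ring
  rw [e1, Ln32_64 _ _ _ he, h1, ← Ln32_64 _ _ _ he]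

theorem kx_lt (k x0 : ℕ) (hk : k < 120) (hx : x0 < 64) : D.kx k x0 < 64 := by
  rw [D.hkx k hk x0 hx]
  exact idx_lt 6 _

/-- The code after the permutation, from the parts. -/
theorem tx_eq (p x0 : ℕ) (hp : p < 1024) (hx : x0 < 64) (b : ℕ → Bool) :
    D.lg.tx p (x0 + 64 * idx 4 b) =
      wv (vK (D.pp p)) (D.kx (D.pp p) x0) (idx 4 fun m => b (rhP (D.pp p) m)) := by
  have hk := D.hpp p hp
  have e1 : D.lg.tx p (x0 + 64 * idx 4 b) = act (a2T (D.pp p)) (x0 + 64 * idx 4 b) := rfl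
  rw [e1, D.hkx _ hk _ hx]
  unfold act wv
  apply idx_congr
  intro r hr
  have hbit : ∀ i, (x0 + 64 * idx 4 b).testBit i =
      if i < 6 then x0.testBit i else (idx 4 b).testBit (i - 6) := by
    intro i
    have e2 : x0 + 64 * idx 4 b = 2 ^ 6 * idx 4 b + x0 := by ring
    rw [e2, Nat.testBit_two_pow_mul_add _ hx]
  rcases perm_dat _ hk r hr with ⟨h1, h2⟩ | ⟨h1, h2, h3, h4⟩
  · rw [if_pos h1, h2, hbit, if_neg (by omega), testBit_idx, testBit_idx]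
    have e3 : 6 + rhP (D.pp p) (lvP (vK (D.pp p)) r) - 6 = rhP (D.pp p) (lvP (vK (D.pp p)) r) := by
      omega
    have h5 := ((pg8_dat _ (rK_lt _ hk)).2.2 _ h1).1
    have h6 : rhP (D.pp p) (lvP (vK (D.pp p)) r) < 4 := h5
    rw [e3]
    simp only [h1, h6]
  · have h5 : lvP (vK (D.pp p)) r - 4 < 6 := by omega
    rw [if_neg (by omega), hbit, if_pos h3, testBit_idx, h4]
    simp only [h5, decide_true, Bool.true_and]

/-- The block. -/
def bk (p x0 y0 : ℕ) : ℕ := ruG 64 (D.pgb (D.pp p)) 8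
  (blG (D.KO (D.ip p)) D.off (D.lf (D.tn p) (D.kx (D.pp p) x0)) (D.lf (D.tn p) (D.kx (D.pp p) y0))
    (D.Rp (D.ip p)))

theorem bk_ar (p x0 y0 : ℕ) (hp : p < 1024) (hx : x0 < 64) (hy : y0 < 64) :
    Ar 64 8 (D.bk p x0 y0) fun b => gN D.lg.g D.O p (x0 + 64 * idx 4 b)
      (y0 + 64 * idx 4 fun k => b (4 + k)) := by
  have hk := D.hpp p hp
  have hkx := D.kx_lt _ x0 hk hx
  have hky := D.kx_lt _ y0 hk hy
  have hb : ∀ z0 < 64, ∀ j < D.Rp (D.ip p), ∀ e < 2, ∀ b,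
      en (D.lf (D.tn p) z0) j e b ≤ D.VB := by
    intro z0 hz j hj e he b
    rw [D.en_eq p z0 j e hp hz hj he]
    exact D.hVB _ _ _
  have h1 := blG_ar (D.KO (D.ip p)) D.off D.VB (D.Rp (D.ip p)) D.hVB2 D.hoff (D.hKO1 _)
    (D.hKO2 _) (D.hbd _) (hb _ hkx) (hb _ hky)
  obtain ⟨g1, g2, g3⟩ := pg8_dat _ (rK_lt _ hk)
  have h2 := ruG_ar (W := 64) (by norm_num) (pg8 (D.pp p)) 8 _ _ g1 h1
  have g2' : ndG (pg8 (D.pp p)) 8 = 8 := g2
  rw [g2'] at h2
  unfold bk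
  rw [D.hpgb _ hk]
  refine h2.congr fun b => ?_
  have hse : ∀ m < 4, seG (pg8 (D.pp p)) 8 b m = b (rhP (D.pp p) m) ∧
      seG (pg8 (D.pp p)) 8 b (4 + m) = b (4 + rhP (D.pp p) m) := by
    intro m hm
    obtain ⟨c1, c2, c3⟩ := g3 m hm
    constructor
    · rw [seG_eq 8 b (pg8 (D.pp p)) 8 g1 (by rw [g2']) m (by omega)]
      have c2' : syG (pg8 (D.pp p)) 8 m = 2 ^ (rhP (D.pp p) m + 1) := c2
      rw [c2', lf_two_pow]
      have c4 : rhP (D.pp p) m < 8 := lt_of_lt_of_le c1 (by norm_num)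
      simp only [c4, decide_true, Bool.true_and]
    · rw [seG_eq 8 b (pg8 (D.pp p)) 8 g1 (by rw [g2']) (4 + m) (by omega)]
      have c3' : syG (pg8 (D.pp p)) 8 (4 + m) = 2 ^ (4 + rhP (D.pp p) m + 1) := c3
      rw [c3', lf_two_pow]
      have c1' : rhP (D.pp p) m < 4 := c1
      have c4 : 4 + rhP (D.pp p) m < 8 := by omega
      simp only [c4, decide_true, Bool.true_and]
  have ea : idx 4 (seG (pg8 (D.pp p)) 8 b) = idx 4 fun m => b (rhP (D.pp p) m) :=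
    idx_congr 4 _ _ fun m hm => (hse m hm).1
  have eb : (idx 4 fun r => seG (pg8 (D.pp p)) 8 b (4 + r)) =
      idx 4 fun m => b (4 + rhP (D.pp p) m) :=
    idx_congr 4 _ _ fun m hm => (hse m hm).2
  have tx1 := D.tx_eq p x0 hp hx b
  have tx2 := D.tx_eq p y0 hp hy fun k => b (4 + k)
  rw [D.gN_eq p _ _ hp, tx1, tx2]
  congr 1
  · unfold PP
    refine Finset.sum_congr rfl fun j hj => ?_
    have hj' := Finset.mem_range.mp hj
    rw [D.en_eq p _ j 0 hp hkx hj' (by norm_num), D.en_eq p _ j 0 hp hky hj' (by norm_num),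
      D.en_eq p _ j 1 hp hkx hj' (by norm_num), D.en_eq p _ j 1 hp hky hj' (by norm_num), ea, eb]
    simp only [Nat.add_zero]
  · have hs : ∀ z0 < 64, ∀ b' : ℕ → Bool, esm (D.lf (D.tn p) z0) (D.Rp (D.ip p)) b' =
        D.SS (D.ip p) (wv (vK (D.pp p)) z0 (idx 4 b')) := by
      intro z0 hz b'
      unfold esm SS
      refine Finset.sum_congr rfl fun j hj => ?_
      have hj' := Finset.mem_range.mp hj
      rw [D.en_eq p _ j 0 hp hz hj' (by norm_num), D.en_eq p _ j 1 hp hz hj' (by norm_num)]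
      simp only [Nat.add_zero]
    rw [hs _ hkx, hs _ hky, ea, eb]

/-! ### Rows -/

theorem rsG_ar (i X R : ℕ) (hR : R = D.Rp i) : Ar 64 10 (rsG (D.c i) X R) fun b =>
    D.PP i X (idx 10 b) := by
  subst hR
  have key : ∀ m ≤ D.Rp i, Ar 64 10 (rsG (D.c i) X m) fun b => ∑ j ∈ range m,
      (Ln 32 (D.c i j) (2 * X) * Ln 32 (D.c i j) (2 * idx 10 b) +
        Ln 32 (D.c i j) (2 * X + 1) * Ln 32 (D.c i j) (2 * idx 10 b + 1)) := by
    intro m
    induction m with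
    | zero =>
      intro _
      exact (ar_zero 10).congr fun b => by rw [Finset.range_zero, Finset.sum_empty]
    | succ m ih =>
      intro hm
      have hbd := D.hbd i
      have hle : 2 * (m + 1) * (D.VB * D.VB) ≤ 2 * D.Rp i * (D.VB * D.VB) :=
        Nat.mul_le_mul_right _ (Nat.mul_le_mul_left _ hm)
      have e4 : 2 * (m + 1) * (D.VB * D.VB) = 2 * m * (D.VB * D.VB) + 2 * (D.VB * D.VB) := by ring
      have hp : ∀ u v, Ln 32 (D.c i m) u * Ln 32 (D.c i m) v ≤ D.VB * D.VB :=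
        fun u v => Nat.mul_le_mul (D.hVB _ _ _) (D.hVB _ _ _)
      have hsum : ∀ b : ℕ → Bool, ∑ j ∈ range m,
          (Ln 32 (D.c i j) (2 * X) * Ln 32 (D.c i j) (2 * idx 10 b) +
            Ln 32 (D.c i j) (2 * X + 1) * Ln 32 (D.c i j) (2 * idx 10 b + 1)) ≤
          2 * m * (D.VB * D.VB) := by
        intro b
        calc _ ≤ ∑ j ∈ range m, (D.VB * D.VB + D.VB * D.VB) :=
              Finset.sum_le_sum fun j _ => Nat.add_le_add
                (Nat.mul_le_mul (D.hVB _ _ _) (D.hVB _ _ _))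
                (Nat.mul_le_mul (D.hVB _ _ _) (D.hVB _ _ _))
          _ = 2 * m * (D.VB * D.VB) := by
              rw [Finset.sum_const, Finset.card_range, smul_eq_mul]; ring
      have h1 := (haG_ar 10 (D.c i m) 0).smul (Ln 32 (D.c i m) (2 * X)) (by norm_num) (fun b => by
        have := hp (2 * X) (0 + 2 * idx 10 b)
        omega)
      have h2 := (haG_ar 10 (D.c i m) 1).smul (Ln 32 (D.c i m) (2 * X + 1)) (by norm_num)
        (fun b => by
        have := hp (2 * X + 1) (1 + 2 * idx 10 b)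
        omega)
      have h3 := h1.add h2 (by norm_num) (fun b => by
        have := hp (2 * X) (0 + 2 * idx 10 b)
        have := hp (2 * X + 1) (1 + 2 * idx 10 b)
        omega)
      have h4 := (ih (by omega)).add h3 (by norm_num) (fun b => by
        have := hp (2 * X) (0 + 2 * idx 10 b)
        have := hp (2 * X + 1) (1 + 2 * idx 10 b)
        have := hsum b
        omega)
      have e5 : rsG (D.c i) X (m + 1) = rsG (D.c i) X m +
          (Ln 32 (D.c i m) (2 * X) * haG 10 (D.c i m) 0 +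
            Ln 32 (D.c i m) (2 * X + 1) * haG 10 (D.c i m) 1) := by
        have e6 : rsG (D.c i) X (m + 1) = rsG (D.c i) X m +
          (lnG 32 (D.c i m) (2 * X) * haG 10 (D.c i m) 0 +
            lnG 32 (D.c i m) (2 * X + 1) * haG 10 (D.c i m) 1) := rfl
        rw [e6, lnG_eq, lnG_eq]
      rw [e5]
      refine h4.congr fun b => ?_
      rw [Finset.sum_range_succ, Nat.zero_add, Nat.add_comm 1]
  exact key _ le_rfl

theorem ssG_eq (i X R : ℕ) : ssG (D.c i) X R = ∑ j ∈ range R,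
    (Ln 32 (D.c i j) (2 * X) + Ln 32 (D.c i j) (2 * X + 1)) := by
  induction R with
  | zero => rfl
  | succ m ih =>
    have e6 : ssG (D.c i) X (m + 1) = ssG (D.c i) X m +
      (lnG 32 (D.c i m) (2 * X) + lnG 32 (D.c i m) (2 * X + 1)) := rfl
    rw [e6, lnG_eq, lnG_eq, ih, Finset.sum_range_succ]

/-- The row of the pattern `p` and of the code `x`. -/
def rowK (p x : ℕ) : ℕ := ruG 64 (D.pgr (D.pp p)) 10
  (rwG (D.KO (D.ip p)) D.off (D.c (D.ip p)) (D.lg.tx p x) (D.Rp (D.ip p)))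

theorem rowK_ar (p x : ℕ) (hp : p < 1024) : Ar 64 10 (D.rowK p x) fun b =>
    gN D.lg.g D.O p x (idx 10 b) := by
  have hk := D.hpp p hp
  have hbd := D.hbd (D.ip p)
  have hKO1 := D.hKO1 (D.ip p)
  have h0 : 2 * D.Rp (D.ip p) * D.VB ≤ D.off * (2 * D.Rp (D.ip p) * D.VB) :=
    Nat.le_mul_of_pos_left _ D.hoff
  have h1 := D.rsG_ar (D.ip p) (D.lg.tx p x) (D.Rp (D.ip p)) rfl
  have h2 : Ar 64 10 (smG 10 (D.c (D.ip p)) (fun _ => 0) (D.Rp (D.ip p))) fun b =>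
      D.SS (D.ip p) (idx 10 b) := by
    have h3 := smG_ar (n := 10) (c := D.c (D.ip p)) (k := fun _ => 0) D.VB (D.Rp (D.ip p))
      (by omega) (fun j _ b => ⟨D.hVB _ _ _, D.hVB _ _ _⟩)
    refine h3.congr fun b => ?_
    unfold SS
    refine Finset.sum_congr rfl fun j _ => ?_
    rw [Nat.zero_add, Nat.zero_add, Nat.add_comm 1]
  have hs := D.SS_off (D.ip p)
  have h4 := h2.smul D.off (by norm_num) (fun b => by
    have := hs (idx 10 b)
    omega)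
  have hP : ∀ u v, D.PP (D.ip p) u v ≤ 2 * D.Rp (D.ip p) * (D.VB * D.VB) := by
    intro u v
    unfold PP
    calc _ ≤ ∑ j ∈ range (D.Rp (D.ip p)), (D.VB * D.VB + D.VB * D.VB) :=
          Finset.sum_le_sum fun j _ => Nat.add_le_add
            (Nat.mul_le_mul (D.hVB _ _ _) (D.hVB _ _ _))
            (Nat.mul_le_mul (D.hVB _ _ _) (D.hVB _ _ _))
      _ = 2 * D.Rp (D.ip p) * (D.VB * D.VB) := by
          rw [Finset.sum_const, Finset.card_range, smul_eq_mul]; ring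
  have hss : ssG (D.c (D.ip p)) (D.lg.tx p x) (D.Rp (D.ip p)) =
      D.SS (D.ip p) (D.lg.tx p x) := D.ssG_eq _ _ _
  set K := 2 * D.KO (D.ip p) - D.off * D.SS (D.ip p) (D.lg.tx p x) with hK
  have hKl : K ≤ 2 * D.KO (D.ip p) := Nat.sub_le _ _
  have h5 := h1.add (csG_ar (W := 64) (c := K) (by norm_num) (by omega) 10) (by norm_num)
    (fun b => by
      have := hP (D.lg.tx p x) (idx 10 b)
      omega)
  have h6 := h5.sub h4 (by norm_num) (fun b => by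
    have := hs (idx 10 b)
    have := hs (D.lg.tx p x)
    omega)
  have h7 : Ar 64 10 (rwG (D.KO (D.ip p)) D.off (D.c (D.ip p)) (D.lg.tx p x) (D.Rp (D.ip p)))
      fun b => D.PP (D.ip p) (D.lg.tx p x) (idx 10 b) + K - D.off * D.SS (D.ip p) (idx 10 b) := by
    have e7 : rwG (D.KO (D.ip p)) D.off (D.c (D.ip p)) (D.lg.tx p x) (D.Rp (D.ip p)) =
        rsG (D.c (D.ip p)) (D.lg.tx p x) (D.Rp (D.ip p)) +
          csG 64 (2 * D.KO (D.ip p) - D.off *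
            ssG (D.c (D.ip p)) (D.lg.tx p x) (D.Rp (D.ip p))) 10 -
          D.off * smG 10 (D.c (D.ip p)) (fun _ => 0) (D.Rp (D.ip p)) := rfl
    rw [e7, hss]
    exact h6
  obtain ⟨g1, g2, g3⟩ := pg10_dat _ hk
  have h8 := ruG_ar (W := 64) (by norm_num) (pg10 (D.pp p)) 10 _ _ g1 h7
  rw [g2] at h8
  unfold rowK
  rw [D.hpgr _ hk]
  refine h8.congr fun b => ?_
  have ey : idx 10 (seG (pg10 (D.pp p)) 10 b) = D.lg.tx p (idx 10 b) := by
    have e8 : D.lg.tx p (idx 10 b) = act (a2T (D.pp p)) (idx 10 b) := rfl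
    rw [e8]
    unfold act
    apply idx_congr
    intro r hr
    obtain ⟨c1, c2⟩ := g3 r hr
    rw [seG_eq 10 b (pg10 (D.pp p)) 10 g1 (by rw [g2]) r hr, c2, lf_two_pow, testBit_idx]
  rw [ey, D.gN_eq p _ _ hp]
  have h9 := hs (D.lg.tx p (idx 10 b))
  have h10 := hs (D.lg.tx p x)
  omega

end LT

end Pool.Agent.Lib.MP_afdd4d_co.K8.L9
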