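import Pool.Agent.Lib.MP_afdd4d_co.L9.TabR
import Pool.Agent.Lib.MP_afdd4d_co.K8.TabB

/-!
# Class functions of 3-graphs on the codes with fixed top bits

The array of `2 ^ 16` lanes with the values of a class function at the codes with the top four bits `t`
is composed of leaves of `2 ^ 7` lanes of a tree. A second arrangement of the same leaves belongs to
codes whose top bits are changed by bits of the index.
-/

namespace Pool.Agent.Lib.MP_afdd4d_co.K8.L9

open Finset

set_option exponentiation.threshold 100000000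

/-- The class numbers of the codes with the top four bits `t`. -/
def tpR (t : ℕ) : ℕ := Nat.mod (Nat.shiftRight ctabR (Nat.mul 786432 t)) (Nat.pow 2 786432)

/-- The class numbers of the codes with the top ten bits `y + 64 * t`. -/
def rhR (t y : ℕ) : ℕ := Nat.mod (Nat.shiftRight (tpR t) (Nat.mul 12288 y)) (Nat.pow 2 12288)

theorem rhR_lane (t y x : ℕ) (hy : y < 64) (hx : x < 1024) :
    Ln 12 (rhR t y) x = cixR (x + 1024 * y + 65536 * t) := by
  have e1 : rhR t y = (((ctabR >>> (12 * (65536 * t))) % 2 ^ (12 * 65536)) >>>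
      (12 * (1024 * y))) % 2 ^ (12 * 1024) := by
    have e2 : tpR t = (ctabR >>> (12 * (65536 * t))) % 2 ^ (12 * 65536) := by
      have h : Nat.mul 786432 t = 12 * (65536 * t) := by
        change 786432 * t = _
        ring
      unfold tpR
      rw [h]
      rfl
    have h : Nat.mul 12288 y = 12 * (1024 * y) := by
      change 12288 * y = _
      ring
    unfold rhR
    rw [h, e2]
    rfl
  rw [e1, Ln_mod, if_pos hx, Ln_shr, Ln_mod, if_pos (by omega), Ln_shr, cixR]

/-- The values of the class function `V` at the codes `128 * X, …, 128 * X + 127` with the top four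
bits `t`. -/
def bvR (W V t X : ℕ) : ℕ := vr12 W V (rhR t (Nat.div X 8)) 7 (Nat.mul 128 (Nat.mod X 8))

theorem bvR_ar {W : ℕ} (V t X : ℕ) (hW : 0 < W) (hX : X < 512) :
    Ar W 7 (bvR W V t X) fun b => Ln W V (cixR (idx 7 b + 128 * X + 65536 * t)) := by
  refine (vr12_ar hW 7 _).congr fun b => ?_
  have h : idx 7 b < 128 := idx_lt 7 b
  have h1 : Nat.mul 128 (Nat.mod X 8) = 128 * (X % 8) := rfl
  have h2 : Nat.div X 8 = X / 8 := rfl
  have h3 := Nat.mod_lt X (show 0 < 8 by norm_num)
  rw [h1, h2, rhR_lane t _ _ (by omega) (by omega)]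
  congr 3
  omega

theorem tnR_ar {W : ℕ} (V : ℕ) (T : TN) (t : ℕ) (hW : 0 < W)
    (h : tnC (bvR W V t) T 9 0 = true) :
    Ar W 16 (tnA W T 9) fun b => Ln W V (cixR (idx 16 b + 65536 * t)) := by
  have h1 := tn_ar hW (bvR W V t) (fun X b => Ln W V (cixR (idx 7 b + 128 * X + 65536 * t))) 512
    (fun X hX => bvR_ar V t X hW hX) T 9 0 (by norm_num) h
  refine Ar.congr h1 fun b => ?_
  rw [zero_add]
  have e : idx 16 b = idx 7 b + 128 * idx 9 fun k => b (7 + k) := idx_split 7 9 b
  rw [e]

/-! ### The second arrangement -/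

/-- The leaf with number `X` of a tree of depth `d`. -/
noncomputable def tnL (t : TN) : ℕ → ℕ → ℕ :=
  @TN.rec (fun _ => ℕ → ℕ → ℕ) (fun a _ _ => a)
    (fun _ _ ih1 ih2 d X => @Bool.rec (fun _ => ℕ)
      (ih2 (Nat.pred d) (Nat.sub X (Nat.pow 2 (Nat.pred d)))) (ih1 (Nat.pred d) X)
      (Nat.blt X (Nat.pow 2 (Nat.pred d)))) t

theorem tnL_eq (f : ℕ → ℕ) (T : TN) : ∀ d X0 X : ℕ, tnC f T d X0 = true → X < 2 ^ d →
    tnL T d X = f (X0 + X) := by
  induction T with
  | l a =>
    intro d X0 X h hX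
    have e : tnC f (TN.l a) d X0 = @Bool.rec (fun _ => Bool) false (Nat.beq a (f X0))
      (Nat.beq d 0) := rfl
    rw [e, bool_rec_and, Bool.and_eq_true] at h
    have h1 : d = 0 := Nat.eq_of_beq_eq_true h.1
    have h2 : a = f X0 := Nat.eq_of_beq_eq_true h.2
    subst h1
    rw [pow_zero] at hX
    have h3 : X = 0 := by omega
    subst h3
    exact h2
  | n a b iha ihb =>
    intro d X0 X h hX
    cases d with
    | zero => exact Bool.noConfusion h
    | succ k =>
      have e : tnC f (TN.n a b) (k + 1) X0 = @Bool.rec (fun _ => Bool) false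
        (tnC f b k (X0 + 2 ^ k)) (tnC f a k X0) := rfl
      rw [e, bool_rec_and, Bool.and_eq_true] at h
      have h2 : 2 ^ (k + 1) = 2 ^ k + 2 ^ k := by rw [pow_succ]; ring
      have e1 : tnL (TN.n a b) (k + 1) X = @Bool.rec (fun _ => ℕ)
        (tnL b k (X - 2 ^ k)) (tnL a k X) (Nat.blt X (2 ^ k)) := rfl
      rw [e1]
      by_cases hlt : X < 2 ^ k
      · have e2 : Nat.blt X (2 ^ k) = true := by
          rw [Nat.blt_eq]
          exact hlt
        rw [e2]
        exact iha k X0 X h.1 hlt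
      · have e2 : Nat.blt X (2 ^ k) = false := by
          rw [Bool.eq_false_iff]
          intro h3
          rw [Nat.blt_eq] at h3
          exact hlt h3
        rw [e2]
        have h3 := ihb k (X0 + 2 ^ k) (X - 2 ^ k) h.2 (by omega)
        have h4 : X0 + 2 ^ k + (X - 2 ^ k) = X0 + X := by omega
        rw [h4] at h3
        exact h3

/-- The change of the top bits for the leaf `X`. -/
def uX (X : ℕ) : ℕ := Nat.xor (Nat.mod X 8) (Nat.div X 64)

/-- The second arrangement. -/
noncomputable def tQ (W : ℕ) (TT : ℕ → TN) (t : ℕ) : ℕ :=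
  ctG W 7 (fun X => tnL (TT (Nat.xor t (uX X))) 9 X) 9 0

theorem uX_lt (X : ℕ) (hX : X < 512) : uX X < 8 := by
  have h1 : X % 8 < 2 ^ 3 := by omega
  have h2 : X / 64 < 2 ^ 3 := by omega
  exact Nat.xor_lt_two_pow h1 h2

theorem tQ_ar {W : ℕ} (V : ℕ) (TT : ℕ → TN) (hW : 0 < W)
    (h : ∀ t < 16, tnC (bvR W V t) (TT t) 9 0 = true) (t : ℕ) (ht : t < 16) :
    Ar W 16 (tQ W TT t) fun b => Ln W V (cixR (idx 16 b + 65536 *
      (t ^^^ uX (idx 9 fun k => b (7 + k))))) := by
  have hlt : ∀ X < 512, t ^^^ uX X < 16 := fun X hX =>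
    Nat.xor_lt_two_pow (show t < 2 ^ 4 from ht) (lt_trans (uX_lt X hX) (by norm_num))
  have h1 := ctG_ar (W := W) (n := 7) hW
    (f := fun X => tnL (TT (Nat.xor t (uX X))) 9 X)
    (g := fun X b => Ln W V (cixR (idx 7 b + 128 * X + 65536 * (t ^^^ uX X)))) 512
    (fun X hX => by
      have h2 := tnL_eq _ _ 9 0 X (h _ (hlt X hX)) hX
      have h3 : tnL (TT (Nat.xor t (uX X))) 9 X = bvR W V (t ^^^ uX X) X := by
        rw [zero_add] at h2
        exact h2
      rw [h3]
      exact bvR_ar V _ X hW hX) 9 0 (by norm_num)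
  refine Ar.congr h1 fun b => ?_
  rw [zero_add]
  have e : idx 16 b = idx 7 b + 128 * idx 9 fun k => b (7 + k) := idx_split 7 9 b
  rw [e]

end Pool.Agent.Lib.MP_afdd4d_co.K8.L9
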