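import Pool.Agent.Lib.MP_afdd4d_co.K8.Ar

/-!
# Numbers with tags

A stored number is the number of interest plus a small tag in every 1024 bits; the tags make the parts of
different numbers different in their lowest bits.
-/

namespace Pool.Agent.Lib.MP_afdd4d_co.K8.L9

/-- The number one in each of 64 parts of 1024 bits. -/
def U6 : ℕ := csG (nat_lit 1024) (nat_lit 1) (nat_lit 6)

/-- The part with 32 entries equal to zero. -/
def Z32 : ℕ :=
  nat_lit 0x80000000800000008000000080000000800000008000000080000000800000008000000080000000800000008000000080000000800000008000000080000000800000008000000080000000800000008000000080000000800000008000000080000000800000008000000080000000800000008000000080000000800000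

/-- The number without its tag. -/
def tg (J A : ℕ) : ℕ := Nat.sub A (Nat.mul J U6)

end Pool.Agent.Lib.MP_afdd4d_co.K8.L9
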