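import Pool.Agent.Lib.MP_afdd4d_co.K8.JN
import Pool.Agent.Lib.MP_afdd4d_co.K8.PsiDef

/-!
# Pair systems with a function of the links

A symmetric function of a root and of six vertices is added to the rows of the 4-graphs. It is
distributed over the pairs of vertices, so that the rows become the rows of another pair system.
-/

namespace Pool.Agent.Lib.MP_afdd4d_co.L9

open Finset K8

/-- The vertices different from `y`, followed by `y`. -/
def ly (y : Fin 6) : Fin 6 → Fin 6 := Fin.snoc (y.succAbove : Fin 5 → Fin 6) y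

theorem ly_bij : ∀ y : Fin 6, Function.Bijective (ly y) := by decide +kernel

/-- A permutation of the first five of six vertices. -/
def lq (τ : Equiv.Perm (Fin 5)) : Equiv.Perm (Fin 6) where
  toFun := Fin.snoc (fun i => (τ i).castSucc : Fin 5 → Fin 6) (Fin.last 5)
  invFun := Fin.snoc (fun i => (τ.symm i).castSucc : Fin 5 → Fin 6) (Fin.last 5)
  left_inv := by
    intro i
    refine Fin.lastCases ?_ (fun i => ?_) i
    · rw [Fin.snoc_last, Fin.snoc_last]
    · rw [Fin.snoc_castSucc, Fin.snoc_castSucc, Equiv.symm_apply_apply]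
  right_inv := by
    intro i
    refine Fin.lastCases ?_ (fun i => ?_) i
    · rw [Fin.snoc_last, Fin.snoc_last]
    · rw [Fin.snoc_castSucc, Fin.snoc_castSucc, Equiv.apply_symm_apply]

theorem snoc_lq {n : ℕ} (s : Fin 5 → Fin n) (w : Fin n) (τ : Equiv.Perm (Fin 5)) :
    (Fin.snoc (s ∘ τ) w : Fin 6 → Fin n) = (Fin.snoc s w : Fin 6 → Fin n) ∘ lq τ := by
  funext i
  refine Fin.lastCases ?_ (fun i => ?_) i
  · rw [Fin.snoc_last]
    change w = (Fin.snoc s w : Fin 6 → Fin n)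
      ((Fin.snoc (fun i => (τ i).castSucc : Fin 5 → Fin 6) (Fin.last 5) : Fin 6 → Fin 6) (Fin.last 5))
    rw [Fin.snoc_last, Fin.snoc_last]
  · rw [Fin.snoc_castSucc]
    change (s ∘ τ) i = (Fin.snoc s w : Fin 6 → Fin n)
      ((Fin.snoc (fun i => (τ i).castSucc : Fin 5 → Fin 6) (Fin.last 5) : Fin 6 → Fin 6) i.castSucc)
    rw [Fin.snoc_castSucc, Fin.snoc_castSucc]
    rfl

/-- A symmetric function of a root and of six vertices. -/
structure ThF where
  θ : ∀ {n : ℕ}, Finset (Finset (Fin n)) → Fin n → (Fin 6 → Fin n) → ℤ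
  θs : ∀ {n : ℕ} (H : Finset (Finset (Fin n))) (τ : Equiv.Perm (Fin 6)) (r : Fin n)
    (p : Fin 6 → Fin n), θ H r (p ∘ τ) = θ H r p
  M : ℤ
  hM : ∀ {n : ℕ} (H : Finset (Finset (Fin n))) (r : Fin n) (p : Fin 6 → Fin n), -M ≤ θ H r p
  M' : ℤ
  hM' : ∀ {n : ℕ} (H : Finset (Finset (Fin n))) (r : Fin n) (p : Fin 6 → Fin n), θ H r p ≤ M'

namespace ThF
variable (T : ThF)

theorem snoc_eq {n : ℕ} (H : Finset (Finset (Fin n))) (s : Fin 7 → Fin n) (x : Fin 7) (y : Fin 6) :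
    T.θ H (s x) (Fin.snoc (s ∘ x.succAbove ∘ y.succAbove : Fin 5 → Fin n)
      (s (x.succAbove y)) : Fin 6 → Fin n) = T.θ H (s x) (s ∘ x.succAbove) := by
  have e : (Fin.snoc (s ∘ x.succAbove ∘ y.succAbove : Fin 5 → Fin n)
      (s (x.succAbove y)) : Fin 6 → Fin n) =
      (s ∘ x.succAbove) ∘ (Equiv.ofBijective (ly y) (ly_bij y) : Equiv.Perm (Fin 6)) := by
    funext i
    refine Fin.lastCases ?_ (fun i => ?_) i
    · rw [Fin.snoc_last]
      change s (x.succAbove y) = s (x.succAbove (ly y (Fin.last 5)))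
      unfold ly
      rw [Fin.snoc_last]
    · rw [Fin.snoc_castSucc]
      change s (x.succAbove (y.succAbove i)) = s (x.succAbove (ly y i.castSucc))
      unfold ly
      rw [Fin.snoc_castSucc]
  rw [e, T.θs]

/-- The kernel on five vertices with the function of the links. -/
def k5 (k : Kern 5) : Kern 5 where
  f := fun H s u w => k.f H s u w + 2 * (T.θ H u (Fin.snoc s w : Fin 6 → _) + T.M)
  C := k.C + 2 * ((T.M' : ℝ) + T.M)
  psd := by
    intro n H s
    have h1 := k.psd H s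
    refine le_trans h1 ?_
    refine Finset.sum_le_sum fun u _ => Finset.sum_le_sum fun w _ => ?_
    have h2 := T.hM H u (Fin.snoc s w : Fin 6 → Fin n)
    have h3 : k.f H s u w ≤ k.f H s u w + 2 * (T.θ H u (Fin.snoc s w : Fin 6 → Fin n) + T.M) := by
      linarith
    exact_mod_cast h3
  bd := by
    intro n H s u w
    have h1 := k.bd H s u w
    have h2 : ((T.θ H u (Fin.snoc s w : Fin 6 → Fin n) : ℤ) : ℝ) ≤ (T.M' : ℝ) := by
      exact_mod_cast T.hM' H u (Fin.snoc s w : Fin 6 → Fin n)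
    push_cast
    linarith

theorem PS_k5 (k : Kern 5) {n : ℕ} (H : Finset (Finset (Fin n))) (s : Fin 7 → Fin n) :
    PS ((T.k5 k).f H) s = PS (k.f H) s + 12 * MS (T.θ H) s + 84 * T.M := by
  have h : ∀ x : Fin 7, ∑ y : Fin 6, (T.k5 k).f H (s ∘ x.succAbove ∘ y.succAbove) (s x)
      (s (x.succAbove y)) = (∑ y : Fin 6, k.f H (s ∘ x.succAbove ∘ y.succAbove) (s x)
      (s (x.succAbove y))) + 12 * T.θ H (s x) (s ∘ x.succAbove) + 12 * T.M := by
    intro x
    have h1 : ∀ y : Fin 6, (T.k5 k).f H (s ∘ x.succAbove ∘ y.succAbove) (s x)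
        (s (x.succAbove y)) = k.f H (s ∘ x.succAbove ∘ y.succAbove) (s x)
        (s (x.succAbove y)) + 2 * (T.θ H (s x) (s ∘ x.succAbove) + T.M) := by
      intro y
      change k.f H (s ∘ x.succAbove ∘ y.succAbove) (s x) (s (x.succAbove y)) +
        2 * (T.θ H (s x) (Fin.snoc (s ∘ x.succAbove ∘ y.succAbove : Fin 5 → Fin n)
          (s (x.succAbove y)) : Fin 6 → Fin n) + T.M) = _
      rw [T.snoc_eq]
    rw [Finset.sum_congr rfl fun y _ => h1 y, Finset.sum_add_distrib, Finset.sum_const,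
      Finset.card_univ, Fintype.card_fin]
    ring
  unfold PS MS
  rw [Finset.sum_congr rfl fun x _ => h x, Finset.sum_add_distrib, Finset.sum_add_distrib,
    Finset.sum_const, Finset.card_univ, Fintype.card_fin, ← Finset.mul_sum]
  ring

/-- The pair system with the function of the links in the kernel. -/
def sys (S : PsiSys) : PsiSys where
  a := S.a
  Lo := S.Lo - 42 * T.M
  ha := S.ha
  k5 := T.k5 S.k5
  k5s := by
    intro n H τ s u w
    change S.k5.f H (s ∘ τ) u w + 2 * (T.θ H u (Fin.snoc (s ∘ τ) w : Fin 6 → Fin n) + T.M) =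
      S.k5.f H s u w + 2 * (T.θ H u (Fin.snoc s w : Fin 6 → Fin n) + T.M)
    rw [S.k5s, snoc_lq, T.θs]
  ψ := S.ψ
  ψs := S.ψs
  B := S.B
  Bs := S.Bs
  CB := S.CB
  hCB := S.hCB

/-- The upper bound from the rows of the pair system, the rows of the even 4-graphs and the rows of
the links. -/
theorem bound (S : PsiSys) (κ6 : Kern 6) (κr : RKern)
    (BL : ∀ {n : ℕ}, Finset (Finset (Fin n)) → (Fin 7 → Fin n) → ℤ) (CW : ℝ)
    (hCW : ∀ {n : ℕ} (E : Finset (Finset (Fin n))) (p : Fin 7 → Fin n),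
      |((S.B E p - BL E p : ℤ) : ℝ)| ≤ CW) (lam : ℝ) (hlam : lam * (35 * S.a) ≤ S.Lo)
    (hrow : ∀ (n : ℕ) (H E' : Finset (Finset (Fin n))) (s : Fin 7 → Fin n), PsiSys.Pr H E' s →
      0 ≤ (T.sys S).row H E' s)
    (hB : ∀ (n : ℕ) (E' : Finset (Finset (Fin n))), (∀ e ∈ E', e.card = 4) → EvenH n E' →
      ∀ t : Fin (7 + 1) → Fin n, Function.Injective t →
        PS (κ6.f E') t ≤ DS (m := 7) (fun p => S.B E' p - BL E' p) t)
    (hL : ∀ (n : ℕ) (H : Finset (Finset (Fin n))) (r : Fin n) (p : Fin 7 → Fin n),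
      (∀ e ∈ H, e.card = 4) → Function.Injective p → (∀ i, p i ≠ r) →
        PS (κr.f H r) p ≤ BL (EvR H r) p + DS (m := 6) (fun q => 12 * T.θ H r q) p) :
    ∀ ε : ℝ, 0 < ε → ∃ N : ℕ, ∀ n : ℕ, N ≤ n → ∀ H : Finset (Finset (Fin n)),
      (∀ e ∈ H, e.card = 4) →
      (∀ T : Finset (Fin n), T.card = 5 → ∃ e ∈ T.powersetCard 4, e ∉ H) →
      (H.card : ℝ) ≤ (1 - lam + ε) * ((n.choose 4 : ℕ) : ℝ) := by
  refine boundPsi S.k5.toP κ6 κr (fun H r q => 12 * T.θ H r q) (fun H E' p => S.ψ H E' p)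
    (fun E' p => S.B E' p) (fun E' p => -BL E' p) CW ?_ S.a S.Lo S.ha lam hlam ?_ ?_ ?_
  · intro n E' p
    have h := hCW E' p
    rw [sub_eq_add_neg] at h
    exact h
  · intro n H E' h4 h5 hE4 hE s hs
    have h := hrow n H E' s ⟨h4, h5, hE4, hE, hs⟩
    have e0 : (T.sys S).row H E' s = 2 * S.a * (N8 H s : ℤ) - 2 * (S.Lo - 42 * T.M) -
        PS ((T.k5 S.k5).f H) s - MS (fun r p => S.ψ H (EvR H r) p) s +
        DS (m := 6) (S.ψ H E') s - S.B E' s := rfl
    rw [e0, T.PS_k5] at h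
    have e1 : MS (fun r q => 12 * T.θ H r q) s = 12 * MS (T.θ H) s := by
      unfold MS
      rw [Finset.mul_sum]
    have e2 : S.k5.toP.f H E' = S.k5.f H := rfl
    rw [e1, e2]
    linarith
  · intro n E' hE4 hE t ht
    have h := hB n E' hE4 hE t ht
    refine le_trans h (le_of_eq ?_)
    unfold DS
    refine Finset.sum_congr rfl fun x _ => ?_
    exact sub_eq_add_neg _ _
  · intro n H r p h4 hp hr
    have h := hL n H r p h4 hp hr
    have e : -BL (EvR H r) p = -(BL (EvR H r) p) := rfl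
    linarith

end ThF

/-- The tables of a function of the links: for a coset and the last four bits of the code. -/
structure ThTab (T : ThF) (w : ℕ) (reps : List ℕ) where
  O : ℕ
  MF : ℕ
  tF : ℕ → ℕ → ℕ
  fF : ℕ → ℕ → (ℕ → Bool) → ℕ
  hF : ∀ c ∈ reps, ∀ τ < 16, Ar w 16 (tF c τ) (fF c τ)
  hF2 : ∀ c ∈ reps, ∀ τ < 16, ∀ b, fF c τ b ≤ MF
  sF : ∀ (n : ℕ) (H E' : Finset (Finset (Fin n))) (s : Fin 7 → Fin n) (c : ℕ), c ∈ reps →
    PsiSys.Pr H E' s → JD H E' s = jset c →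
    6 * MS (T.θ H) s = (fF c (idx 4 fun i => gc H s (16 + i)) (gc H s) : ℤ) - O

/-- The tables of the pair system with the function of the links. -/
noncomputable def ThTab.tabs {T : ThF} {S : PsiSys} (D : Jv.Tabs S) (F : ThTab T D.w D.reps)
    (hsz : 2 * (D.MA + F.MF) + 14 * (2 * D.OP) + D.MB < 2 ^ (D.w - 1)) : Jv.Tabs (T.sys S) where
  w := D.w
  OP := D.OP
  OB := D.OB
  MA := D.MA + F.MF
  MB := D.MB
  C0 := D.C0 + 2 * F.O - 84 * T.M
  tP := D.tP
  fP := D.fP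
  tB := D.tB
  fB := D.fB
  tA c τ := Nat.add (D.tA c τ) (F.tF c τ)
  fA c τ b := D.fA c τ b + F.fF c τ b
  reps := D.reps
  hw := D.hw
  hP := D.hP
  hP2 := D.hP2
  hB := D.hB
  hB2 := D.hB2
  hA c hc τ hτ := (D.hA c hc τ hτ).add (F.hF c hc τ hτ) D.hw0 fun b => by
    have h1 := D.hA2 c hc τ hτ b
    have h2 := F.hF2 c hc τ hτ b
    have h3 : 2 ^ (D.w - 1) ≤ 2 ^ D.w := Nat.pow_le_pow_right (by norm_num) (by omega)
    omega
  hA2 c hc τ hτ b := Nat.add_le_add (D.hA2 c hc τ hτ b) (F.hF2 c hc τ hτ b)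
  hsz := hsz
  sP := D.sP
  sB := D.sB
  sA n H E' s c hc hPr hJ := by
    have h1 := D.sA n H E' s c hc hPr hJ
    have h2 := F.sF n H E' s c hc hPr hJ
    have h3 := T.PS_k5 S.k5 H s
    change 2 * S.a * (N8 H s : ℤ) - PS ((T.k5 S.k5).f H) s = _
    rw [h3]
    push_cast
    linarith

end Pool.Agent.Lib.MP_afdd4d_co.L9
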