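import Pool.Agent.Lib.MP_afdd4d_co.L9.TabBR
import Pool.Agent.Lib.MP_afdd4d_co.L9.Th
import Pool.Agent.Lib.MP_afdd4d_co.K8.GamSum

/-!
# The sum of a class function over the links of the seven vertices

The bits of the link of a vertex are affine forms in the bits of the link of the first vertex and in
the parities of the five-sets. For every vertex a table is transported by an affine map of the index.
-/

namespace Pool.Agent.Lib.MP_afdd4d_co.K8.L9

open Finset Gm Gm.GT

/-- A view: a permutation, a program, constants, and the arrangement. -/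
structure VW where
  F : ℕ
  X : List (ℕ × ℕ × ℕ)
  K : List (List ℕ)
  q : Bool

/-- The check of a view. -/
def okVw (v : VW) : Bool :=
  okp v.F && (okR v.X 16 && (decide (ndG v.X 16 = 16) && (decide (v.K.length = 20) &&
    ((List.range 16).all (fun r => decide (zF (iq v.F (jq.getD r 0)) =
      syG v.X 16 r ^^^ fm ((v.K.getD r []).map fun j => j + 16)) && (decide (syG v.X 16 r < 2 ^ 17) &&
        (v.K.getD r []).all fun j => decide (j < 19))) &&
    (List.range 4).all fun i => decide (zF (iq v.F (jq.getD (16 + i) 0)) ^^^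
      (if v.q = true ∧ i < 3 then zF (iq v.F (jq.getD (7 + i) 0)) ^^^ zF (iq v.F (jq.getD (13 + i) 0))
        else 0) = fm ((v.K.getD (16 + i) []).map fun j => j + 16)) &&
        (v.K.getD (16 + i) []).all fun j => decide (j < 19)))))

/-- The view of the link of the first vertex. -/
def vw0 : VW where
  F := 1754760
  X := []
  K := [[], [], [], [], [], [], [], [], [], [], [], [], [], [], [], [], [0], [1], [2], [3]]
  q := false

/-- The view of the link of the vertex `1`. -/
def vw1 : VW where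
  F := 1738961
  X :=
    [(2, 2, 11), (2, 15, 12), (2, 9, 6), (2, 15, 11), (2, 7, 5), (2, 3, 0), (2, 14, 12), (2, 9,
    5), (2, 2, 0), (2, 8, 6), (2, 2, 5), (2, 1, 4), (2, 1, 0), (2, 13, 10), (2, 3, 12), (2, 14,
    10), (2, 8, 4), (2, 1, 10), (2, 7, 4), (2, 3, 6), (2, 13, 11), (1, 0, 3), (1, 0, 2), (1, 0,
    1), (1, 4, 6), (1, 4, 9), (1, 4, 7), (1, 5, 8), (1, 10, 12), (1, 10, 15), (1, 10, 13), (1, 11,
    14)]
  K :=
    [[4], [], [], [], [5], [6], [7], [], [], [], [9], [10], [11], [], [], [], [0, 1, 13], [0, 2,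
    14], [0, 3, 16], [0]]
  q := true

/-- The view of the link of the vertex `2`. -/
def vw2 : VW where
  F := 1738954
  X :=
    [(2, 2, 11), (2, 15, 12), (2, 9, 6), (2, 15, 11), (2, 7, 5), (2, 3, 0), (2, 14, 12), (2, 9,
    5), (2, 2, 0), (2, 8, 6), (2, 2, 5), (2, 1, 4), (2, 1, 0), (2, 13, 10), (2, 3, 12), (2, 14,
    10), (2, 8, 4), (2, 1, 10), (2, 7, 4), (2, 3, 6), (2, 13, 11), (1, 0, 2), (1, 0, 1), (1, 4,
    5), (1, 4, 7), (1, 6, 9), (1, 6, 8), (1, 10, 11), (1, 10, 13), (1, 12, 15), (1, 12, 14)]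
  K :=
    [[4], [], [], [], [5], [6], [8], [], [], [], [9], [10], [12], [], [], [], [0, 1, 13], [1, 2,
    15], [1, 3, 17], [1]]
  q := true

/-- The view of the link of the vertex `3`. -/
def vw3 : VW where
  F := 1738891
  X :=
    [(2, 2, 11), (2, 15, 12), (2, 9, 6), (2, 15, 11), (2, 7, 5), (2, 3, 0), (2, 14, 12), (2, 9,
    5), (2, 2, 0), (2, 8, 6), (2, 2, 5), (2, 1, 4), (2, 1, 0), (2, 13, 10), (2, 3, 12), (2, 14,
    10), (2, 8, 4), (2, 1, 10), (2, 7, 4), (2, 3, 6), (2, 13, 11), (1, 0, 1), (1, 5, 7), (1, 6,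
    8), (1, 11, 13), (1, 12, 14)]
  K :=
    [[4], [], [], [], [5], [7], [8], [], [], [], [9], [11], [12], [], [], [], [0, 2, 14], [1, 2,
    15], [2, 3, 18], [2]]
  q := true

/-- The view of the link of the vertex `4`. -/
def vw4 : VW where
  F := 1738380
  X :=
    [(2, 2, 11), (2, 15, 12), (2, 9, 6), (2, 15, 11), (2, 7, 5), (2, 3, 0), (2, 14, 12), (2, 9,
    5), (2, 2, 0), (2, 8, 6), (2, 2, 5), (2, 1, 4), (2, 1, 0), (2, 13, 10), (2, 3, 12), (2, 14,
    10), (2, 8, 4), (2, 1, 10), (2, 7, 4), (2, 3, 6), (2, 13, 11)]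
  K :=
    [[4], [], [], [], [6], [7], [8], [], [], [], [10], [11], [12], [], [], [], [0, 3, 16], [1, 3,
    17], [2, 3, 18], [3]]
  q := true

/-- The view of the link of the vertex `5`. -/
def vw5 : VW where
  F := F5
  X := X5
  K := K5 ++ [[0], [1], [2], [3]]
  q := false

/-- The view of the link of the vertex `6`. -/
def vw6 : VW where
  F := F6
  X := X6
  K := K6 ++ [[0], [1], [2], [3]]
  q := false

/-- The views. -/
def VL : List VW := [vw0, vw1, vw2, vw3, vw4, vw5, vw6]

theorem VL_ok : ∀ v ∈ VL, okVw v = true := by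
  have h : VL.all okVw = true := by decide +kernel
  exact fun v hv => List.all_eq_true.mp h v hv

theorem VL_fp : (VL.map fun v => fp v.F 0) = [0, 1, 2, 3, 4, 5, 6] := by decide +kernel

/-- The constant of a view. -/
def kV (v : VW) (e : ℕ) : ℕ := cbG e v.K

/-- The array of a view. -/
noncomputable def arV (W : ℕ) (TT : ℕ → TN) (v : VW) (e : ℕ) : ℕ :=
  ruG W v.X 16 (xkG W 16 (Nat.mod (kV v e) 65536) 16
    (@Bool.rec (fun _ => ℕ) (tnA W (TT (Nat.div (kV v e) 65536)) 9)
      (tQ W TT (Nat.div (kV v e) 65536)) v.q))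

/-- The bits of the index after the program and the constants. -/
def yV (v : VW) (e : ℕ) (b : ℕ → Bool) (r : ℕ) : Bool :=
  seG v.X 16 b r ^^ (decide (r < 16) && (kV v e % 65536).testBit r)

/-- The code of a view. -/
def cV (v : VW) (e : ℕ) (b : ℕ → Bool) : ℕ := idx 16 (yV v e b) + 65536 *
  (if v.q = true then kV v e / 65536 ^^^ uX (idx 9 fun k => yV v e b (7 + k)) else kV v e / 65536)

theorem kV_lt (v : VW) (hv : okVw v = true) (e : ℕ) : kV v e / 65536 < 16 := by
  unfold okVw at hv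
  simp only [Bool.and_eq_true, decide_eq_true_eq] at hv
  have h := cbG_lt e v.K
  rw [hv.2.2.2.1] at h
  unfold kV
  have h2 : (2 : ℕ) ^ 20 = 65536 * 16 := by norm_num
  rw [h2] at h
  exact Nat.div_lt_of_lt_mul h

theorem arV_ar {W : ℕ} (V : ℕ) (TT : ℕ → TN) (hW : 0 < W)
    (hT : ∀ t < 16, tnC (bvR W V t) (TT t) 9 0 = true) (v : VW) (hv : okVw v = true) (e : ℕ) :
    Ar W 16 (arV W TT v e) fun b => Ln W V (cixR (cV v e b)) := by
  have hk := kV_lt v hv e
  unfold okVw at hv
  simp only [Bool.and_eq_true, decide_eq_true_eq] at hv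
  obtain ⟨_, h2, h3, _⟩ := hv
  have key : ∀ (A : ℕ) (f : (ℕ → Bool) → ℕ), Ar W 16 A f →
      Ar W 16 (ruG W v.X 16 (xkG W 16 (kV v e % 65536) 16 A)) fun b => f (yV v e b) := by
    intro A f hA
    have h4 := ruG_ar hW v.X 16 _ _ h2 (xkG_ar (k := kV v e % 65536) hW hA 16 le_rfl)
    rw [h3] at h4
    exact h4
  unfold arV
  cases hq : v.q
  · have h5 := key _ _ (tnR_ar V (TT (kV v e / 65536)) (kV v e / 65536) hW (hT _ hk))
    refine h5.congr fun b => ?_
    unfold cV
    rw [hq, if_neg (by simp)]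
  · have h5 := key _ _ (tQ_ar V TT hW hT (kV v e / 65536) hk)
    refine h5.congr fun b => ?_
    unfold cV
    rw [hq, if_pos rfl]

/-- The bits of the constants. -/
theorem lf_fm19 (e : ℕ) (b : ℕ → Bool) (l : List ℕ) (hl : ∀ j ∈ l, j < 19) :
    lf 35 (fm (l.map fun j => j + 16)) (xv e b) = xl e.testBit l := by
  rw [lf_fm 35 _ _ ?_, xl_map]
  · apply xl_congr
    intro j _
    unfold xv
    rw [if_neg (by omega), Nat.add_sub_cancel]
  · intro j hj
    obtain ⟨j', hj', rfl⟩ := List.mem_map.mp hj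
    have := hl j' hj'
    omega

theorem uX_bit (X i : ℕ) (hX : X < 512) (hi : i < 4) :
    (uX X).testBit i = (decide (i < 3) && (X.testBit i ^^ X.testBit (6 + i))) := by
  have e1 : uX X = (X % 2 ^ 3) ^^^ (X / 2 ^ 6) := rfl
  rw [e1, Nat.testBit_xor, Nat.testBit_mod_two_pow, Nat.testBit_div_two_pow, Nat.add_comm i 6]
  by_cases h : i < 3
  · simp [h]
  · have h3 : i = 3 := by omega
    subst h3
    have h4 : X.testBit (6 + 3) = false := Nat.testBit_lt_two_pow hX
    rw [h4]
    simp

section tup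
variable {n : ℕ} (H E' : Finset (Finset (Fin n)))

/-- The code of a view is the code of the permuted tuple. -/
theorem cV_eq (v : VW) (hv : okVw v = true) (s : Fin 7 → Fin n) (hev : EvT E' s) (c : ℕ)
    (hJ : JD H E' s = jset c) (τ : ℕ) (hτ : τ < 16) (b : ℕ → Bool)
    (hb : ∀ i < 16, b i = gc H s i) (ht : ∀ i < 4, τ.testBit i = gc H s (16 + i)) :
    cV v (τ + 16 * cG c) b = idx 20 (gc H (s ∘ pm v.F)) := by
  have hk := kV_lt v hv (τ + 16 * cG c)
  unfold okVw at hv
  simp only [Bool.and_eq_true, decide_eq_true_eq, List.all_eq_true, List.mem_range] at hv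
  obtain ⟨h1, h2, h3, _, h4, h5⟩ := hv
  obtain ⟨e, he⟩ : ∃ e, e = τ + 16 * cG c := ⟨_, rfl⟩
  obtain ⟨g, hg⟩ : ∃ g, g = gc H (s ∘ pm v.F) := ⟨_, rfl⟩
  rw [← he] at hk ⊢
  rw [← hg]
  have hform : ∀ i < 20, g i = lf 35 (zF (iq v.F (jq.getD i 0))) (xv e b) := by
    intro i hi
    rw [hg, gc_form H E' h1 s hev c hJ i hi, he]
    exact lf_congr 35 _ _ _ fun i hi => fv_xv (gc H s) b (cG c) τ hτ hb ht i hi
  have hlow : ∀ i < 16, yV v e b i = g i := by
    intro i hi
    obtain ⟨h6, h7, h8⟩ := h4 i hi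
    have e3 : lf 35 (syG v.X 16 i) (xv e b) = lf 16 (syG v.X 16 i) b := by
      have e2 : (35 : ℕ) = 16 + 19 := rfl
      rw [e2, lf_ext 16 19 _ _ h7]
      apply lf_congr
      intro j hj
      unfold xv
      rw [if_pos hj]
    have e0 : (kV v e % 65536).testBit i = (kV v e).testBit i := by
      have e1 : (65536 : ℕ) = 2 ^ 16 := by norm_num
      rw [e1, Nat.testBit_mod_two_pow, decide_eq_true hi, Bool.true_and]
    have e4 : (kV v e).testBit i = xl e.testBit (v.K.getD i []) := by
      rw [kV, cbG_testBit]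
    unfold yV
    rw [hform i (by omega), h6, lf_xor, lf_fm19 e b _ h8, e3, decide_eq_true hi, Bool.true_and,
      e0, e4, seG_eq 16 b v.X 16 h2 (by rw [h3]) i hi]
  have htop : ∀ i < 4, (kV v e / 65536).testBit i = xl e.testBit (v.K.getD (16 + i) []) := by
    intro i _
    have e1 : (65536 : ℕ) = 2 ^ 16 := by norm_num
    rw [e1, Nat.testBit_div_two_pow, kV, cbG_testBit, Nat.add_comm i 16]
  have hsp : idx 20 g = idx 16 g + 65536 * idx 4 fun i => g (16 + i) := idx_split 16 4 g
  unfold cV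
  rw [hsp, idx_congr 16 _ _ hlow]
  congr 2
  cases hq : v.q
  · rw [if_neg (by simp), ← idx_testBit 4 _ hk]
    apply idx_congr
    intro i hi
    obtain ⟨h6, h7⟩ := h5 i hi
    rw [hq, if_neg (by simp), Nat.xor_zero] at h6
    rw [htop i hi, hform (16 + i) (by omega), h6, lf_fm19 e b _ h7]
  · have hX : (idx 9 fun k => yV v e b (7 + k)) < 512 := idx_lt 9 _
    have hlt : kV v e / 65536 ^^^ uX (idx 9 fun k => yV v e b (7 + k)) < 2 ^ 4 :=
      Nat.xor_lt_two_pow hk (lt_trans (uX_lt _ hX) (by norm_num))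
    rw [if_pos rfl, ← idx_testBit 4 _ hlt]
    apply idx_congr
    intro i hi
    obtain ⟨h6, h7⟩ := h5 i hi
    rw [Nat.testBit_xor, htop i hi, uX_bit _ i hX hi]
    by_cases hi3 : i < 3
    · rw [hq, if_pos ⟨rfl, hi3⟩] at h6
      have h8 : zF (iq v.F (jq.getD (16 + i) 0)) =
          fm ((v.K.getD (16 + i) []).map fun j => j + 16) ^^^
            (zF (iq v.F (jq.getD (7 + i) 0)) ^^^ zF (iq v.F (jq.getD (13 + i) 0))) := by
        rw [← h6, Nat.xor_assoc, Nat.xor_self, Nat.xor_zero]
      rw [hform (16 + i) (by omega), h8, lf_xor, lf_xor, lf_fm19 e b _ h7,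
        ← hform (7 + i) (by omega), ← hform (13 + i) (by omega), testBit_idx, testBit_idx]
      have e1 : decide (i < 9) = true := decide_eq_true (by omega)
      have e2 : decide (6 + i < 9) = true := decide_eq_true (by omega)
      have e3 : 7 + (6 + i) = 13 + i := by omega
      rw [e1, e2, decide_eq_true hi3, Bool.true_and, Bool.true_and, Bool.true_and, e3,
        hlow (7 + i) (by omega), hlow (13 + i) (by omega)]
    · rw [hq, if_neg (by simp [hi3]), Nat.xor_zero] at h6
      rw [hform (16 + i) (by omega), h6, lf_fm19 e b _ h7, decide_eq_false hi3, Bool.false_and,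
        Bool.xor_false]

/-- The other vertices in the order of a permutation. -/
theorem perm_succ (π : Equiv.Perm (Fin 7)) : ∃ τ : Equiv.Perm (Fin 6),
    (fun i : Fin 6 => π i.succ) = (π 0).succAbove ∘ τ := by
  have h : ∀ i : Fin 6, ∃ j : Fin 6, (π 0).succAbove j = π i.succ := fun i =>
    Fin.exists_succAbove_eq fun h => absurd (π.injective h) (Fin.succ_ne_zero i)
  choose f hf using h
  have hinj : Function.Injective f := by
    intro i j hij
    have h1 := hf i
    rw [hij, hf j] at h1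
    exact (Fin.succ_injective 6 (π.injective h1)).symm
  refine ⟨Equiv.ofBijective f (Finite.injective_iff_bijective.mp hinj), ?_⟩
  funext i
  exact (hf i).symm

theorem link_code (π : Equiv.Perm (Fin 7)) (s : Fin 7 → Fin n) :
    cixR (idx 20 (gc H (s ∘ π))) = cixR (cL H (s (π 0)) (s ∘ (π 0).succAbove)) := by
  obtain ⟨τ, hτ⟩ := perm_succ π
  have e1 : s ∘ π = (Fin.cons (s (π 0)) ((s ∘ (π 0).succAbove) ∘ τ) : Fin 7 → Fin n) := by
    funext i
    refine Fin.cases rfl (fun i => ?_) i
    rw [Fin.cons_succ]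
    have h1 := congrFun hτ i
    change s (π i.succ) = s ((π 0).succAbove (τ i))
    change π i.succ = (π 0).succAbove (τ i) at h1
    rw [h1]
  have e2 : idx 20 (gc H (s ∘ π)) = cL H (s (π 0)) ((s ∘ (π 0).succAbove) ∘ τ) := by
    rw [e1]
    rfl
  rw [e2, cixR_perm]

end tup

/-! ### The sum of the views -/

/-- The sum of the arrays. -/
noncomputable def smV (W : ℕ) (TT : ℕ → TN) (e : ℕ) (L : List VW) : ℕ :=
  @List.rec VW (fun _ => ℕ) 0 (fun v _ ih => Nat.add ih (arV W TT v e)) L

theorem smV_ar {W : ℕ} (V : ℕ) (TT : ℕ → TN) (hW : 0 < W)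
    (hT : ∀ t < 16, tnC (bvR W V t) (TT t) 9 0 = true) (B : ℕ) (hB : ∀ k, Ln W V k ≤ B) (e : ℕ)
    (L : List VW) (hL : ∀ v ∈ L, okVw v = true) (hlen : L.length * B < 2 ^ W) :
    Ar W 16 (smV W TT e L) (fun b => (L.map fun v => Ln W V (cixR (cV v e b))).sum) ∧
      ∀ b, (L.map fun v => Ln W V (cixR (cV v e b))).sum ≤ L.length * B := by
  induction L with
  | nil =>
    refine ⟨(ar_zero 16).congr fun b => rfl, fun b => ?_⟩
    simp
  | cons v L ih =>
    have hlen' : (L.length + 1) * B < 2 ^ W := by simpa using hlen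
    have e1 : (L.length + 1) * B = L.length * B + B := by ring
    obtain ⟨h1, h2⟩ := ih (fun u hu => hL u (List.mem_cons_of_mem _ hu)) (by omega)
    have h3 := arV_ar V TT hW hT v (hL v List.mem_cons_self) e
    refine ⟨?_, fun b => ?_⟩
    · have h4 := h1.add h3 hW (fun b => by
        have := h2 b
        have := hB (cixR (cV v e b))
        omega)
      refine h4.congr fun b => ?_
      rw [List.map_cons, List.sum_cons, Nat.add_comm]
    · rw [List.map_cons, List.sum_cons, List.length_cons, e1]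
      have := h2 b
      have := hB (cixR (cV v e b))
      omega

end Pool.Agent.Lib.MP_afdd4d_co.K8.L9
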