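import Pool.Agent.Lib.MP_afdd4d_co.K8.RedR
import Pool.Agent.Lib.MP_afdd4d_co.K8.View4
import Pool.Agent.Lib.MP_afdd4d_co.K8.RDef

/-!
# The sum of the terms of the link of a vertex

The first vertex of an eight-tuple is the root; its link on the other seven vertices is an arbitrary
3-graph.
-/

namespace Pool.Agent.Lib.MP_afdd4d_co.K8.L9

open Finset

/-! ### Pairs of the seven vertices -/

/-- The index of `y` in the vertices different from `x`. -/
def y6 (x y : Fin 7) : Fin 6 := Fin.ofNat 6 (if y.val < x.val then y.val else y.val - 1)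

theorem y6_spec : ∀ x y : Fin 7, x ≠ y → x.succAbove (y6 x y) = y := by decide +kernel

theorem y6_succAbove : ∀ (x : Fin 7) (y : Fin 6), y6 x (x.succAbove y) = y := by decide +kernel

theorem y6_symm : ∀ x y : Fin 7, x ≠ y → ∀ i : Fin 5,
    x.succAbove ((y6 x y).succAbove i) = y.succAbove ((y6 y x).succAbove i) := by decide +kernel

/-- The five vertices different from `4` and `5`. -/
def b1 : Fin 5 → Fin 7 := ![0, 1, 2, 3, 6]

theorem b1_eq : ∀ i : Fin 5, (4 : Fin 7).succAbove ((4 : Fin 6).succAbove i) = b1 i := by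
  decide +kernel

theorem b2_eq : ∀ i : Fin 5, (5 : Fin 7).succAbove ((5 : Fin 6).succAbove i) =
    Fin.castLE (by norm_num) i := by
  decide +kernel

section pairs
variable {V : Type*}

/-- The term of the pair `x, y`. -/
def KY (κ : (Fin 5 → V) → V → V → ℤ) (s : Fin 7 → V) (x y : Fin 7) : ℤ :=
  κ (s ∘ x.succAbove ∘ (y6 x y).succAbove) (s x) (s y)

theorem KY_symm (κ : (Fin 5 → V) → V → V → ℤ) (hs : ∀ s u w, κ s u w = κ s w u) (t : Fin 7 → V)
    (x y : Fin 7) (hxy : x ≠ y) : KY κ t x y = KY κ t y x := by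
  unfold KY
  rw [hs]
  congr 1
  funext i
  simp only [Function.comp_apply]
  rw [y6_symm x y hxy i]

theorem KY_perm (κ : (Fin 5 → V) → V → V → ℤ)
    (hκ : ∀ (τ : Equiv.Perm (Fin 5)) s u w, κ (s ∘ τ) u w = κ s u w)
    (σ : Equiv.Perm (Fin 7)) (t : Fin 7 → V) (x y : Fin 7) (hxy : x ≠ y) :
    KY κ (t ∘ σ) x y = KY κ t (σ x) (σ y) := by
  obtain ⟨τ, hτ⟩ := exists_succAbove_perm (m := 6) σ x
  obtain ⟨τ', hτ'⟩ := exists_succAbove_perm (m := 5) τ (y6 x y)
  have h1 : τ (y6 x y) = y6 (σ x) (σ y) := by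
    have h2 := hτ (y6 x y)
    rw [y6_spec x y hxy] at h2
    rw [h2, y6_succAbove]
  have e : (t ∘ σ) ∘ x.succAbove ∘ (y6 x y).succAbove =
      (t ∘ (σ x).succAbove ∘ (y6 (σ x) (σ y)).succAbove) ∘ τ' := by
    funext i
    simp only [Function.comp_apply]
    rw [hτ, hτ', h1]
  unfold KY
  rw [e, hκ]
  rfl

theorem PS_eq_KY (κ : (Fin 5 → V) → V → V → ℤ) (t : Fin 7 → V) :
    PS κ t = ∑ x : Fin 7, ∑ y : Fin 6, KY κ t x (x.succAbove y) := by
  unfold PS KY
  refine Finset.sum_congr rfl fun x _ => Finset.sum_congr rfl fun y _ => ?_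
  rw [y6_succAbove]

end pairs

/-! ### The word -/

/-- The order of the exchanges and of the terms. -/
def wdR : List ℕ := [11, 10, 0, 10, 1, 10, 2, 10, 3, 10, 4, 11, 10, 1, 10, 5, 11, 10, 2, 10, 3, 10,
  6, 11, 10, 3, 10, 7, 11, 10, 1, 10, 5, 11, 10]

/-- The exchange of two of the seven vertices. -/
def exS (k : ℕ) : Equiv.Perm (Fin 7) :=
  Equiv.swap (Fin.ofNat 7 ((MVt.getD k (1, 1)).1 - 1)) (Fin.ofNat 7 ((MVt.getD k (1, 1)).2 - 1))

theorem exK_succ : ∀ k < 9, exK k 0 = 0 ∧ ∀ j : Fin 7, exK k j.succ = (exS k j).succ := by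
  decide +kernel

/-- The pairs of the terms of a word. -/
def pwR : List ℕ → (Fin 7 → Fin 7) → List (Fin 7 × Fin 7)
  | [], _ => []
  | k :: l, π =>
    if k = 10 then (π 4, π 5) :: pwR l π else if k = 11 then (π 5, π 6) :: pwR l π
      else pwR l (π ∘ exS k)

/-- The vertices of the terms of a word. -/
def qwR : List ℕ → (Fin 7 → Fin 7) → List (Fin 7)
  | [], _ => []
  | k :: l, π =>
    if k = 10 then qwR l π else if k = 11 then π 5 :: qwR l π else qwR l (π ∘ exS k)

/-- All pairs of different vertices. -/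
def allR : List (Fin 7 × Fin 7) :=
  (List.finRange 7).flatMap fun x => (List.finRange 6).map fun y => (x, x.succAbove y)

theorem pwR_wdR : ((pwR wdR id) ++ (pwR wdR id).map Prod.swap).Perm allR := by decide +kernel

theorem qwR_wdR : (6 :: qwR wdR id).Perm (List.finRange 7) := by decide +kernel

theorem pwR_wdR_len : (pwR wdR id).length = 21 := by decide +kernel

theorem sum_allR (F : Fin 7 × Fin 7 → ℤ) :
    (allR.map F).sum = ∑ x : Fin 7, ∑ y : Fin 6, F (x, x.succAbove y) := by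
  have h1 : ∀ (n : ℕ) (f : Fin n → ℤ), ∑ x : Fin n, f x = ((List.finRange n).map f).sum := by
    intro n f
    rw [← List.sum_ofFn, List.ofFn_eq_map]
  rw [h1, allR, List.map_flatMap, sum_flatMap_int]
  refine congrArg List.sum (List.map_congr_left fun x _ => ?_)
  rw [h1, List.map_map]
  rfl

/-! ### The link of a vertex -/

section link
variable {n : ℕ} (H : Finset (Finset (Fin n)))

theorem cons_exK (r : Fin n) (s : Fin 7 → Fin n) (k : ℕ) (hk : k < 9) :
    (Fin.cons r s : Fin 8 → Fin n) ∘ exK k = (Fin.cons r (s ∘ exS k) : Fin 8 → Fin n) := by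
  obtain ⟨h1, h2⟩ := exK_succ k hk
  funext i
  refine Fin.cases ?_ (fun j => ?_) i
  · rw [Function.comp_apply, h1, Fin.cons_zero, Fin.cons_zero]
  · rw [Function.comp_apply, h2, Fin.cons_succ, Fin.cons_succ, Function.comp_apply]

theorem gc_exR (t : Fin 8 → Fin n) (k : ℕ) (hk : k < 9) :
    ∀ i < 35, mvz k (gc H t) i = gc H (t ∘ exK k) i := by
  obtain ⟨h1, h2, _, _, _, _⟩ := mvc_data k (by omega)
  intro i hi
  have h3 : ((qd 8 i).image (exK k)).card = 4 := by
    by_cases h5 : i < 20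
    · exact (h1 i h5).1
    · obtain ⟨_, _, _, h9, h10⟩ := lai_data (i - 20) (by omega)
      have h7 := (h2 _ h9).1
      have h11 : lam.getD (lai.getD (i - 20) 0) 0 = i := by omega
      rw [h11] at h7
      exact h7
  have h4 : (0 : Fin 8) ∈ (qd 8 i).image (exK k) := by
    rw [Finset.mem_image]
    exact ⟨0, (qd_data i hi).2, (exK_succ k hk).1⟩
  obtain ⟨r', hr', h5⟩ := qd_surj _ h3 h4
  rw [gc_fix H t (exK k) i ⟨r', hr', h5.symm⟩]
  rfl

theorem cons_f1 (r : Fin n) (s : Fin 7 → Fin n) :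
    (Fin.cons r (Fin.snoc (s ∘ b1) (s 4) : Fin 6 → Fin n) : Fin 7 → Fin n) =
      (Fin.cons r s : Fin 8 → Fin n) ∘ f1 := by
  funext i
  fin_cases i <;> rfl

theorem cons_f2 (r : Fin n) (s : Fin 7 → Fin n) :
    (Fin.cons r (Fin.snoc (s ∘ b1) (s 5) : Fin 6 → Fin n) : Fin 7 → Fin n) =
      (Fin.cons r s : Fin 8 → Fin n) ∘ f2 := by
  funext i
  fin_cases i <;> rfl

theorem cons_f3 (r : Fin n) (s : Fin 7 → Fin n) :
    (Fin.cons r (Fin.snoc (s ∘ (Fin.castLE (by norm_num) : Fin 5 → Fin 7)) (s 5) :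
      Fin 6 → Fin n) : Fin 7 → Fin n) = (Fin.cons r s : Fin 8 → Fin n) ∘ f3 := by
  funext i
  fin_cases i <;> rfl

theorem cons_f4 (r : Fin n) (s : Fin 7 → Fin n) :
    (Fin.cons r (Fin.snoc (s ∘ (Fin.castLE (by norm_num) : Fin 5 → Fin 7)) (s 6) :
      Fin 6 → Fin n) : Fin 7 → Fin n) = (Fin.cons r s : Fin 8 → Fin n) ∘ f4 := by
  funext i
  fin_cases i <;> rfl

theorem cons_s5 (r : Fin n) (s : Fin 7 → Fin n) :
    (Fin.cons r (s ∘ (5 : Fin 7).succAbove) : Fin 7 → Fin n) =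
      (Fin.cons r s : Fin 8 → Fin n) ∘ f4 := by
  funext i
  fin_cases i <;> rfl

theorem cons_s6 (r : Fin n) (s : Fin 7 → Fin n) :
    (Fin.cons r (s ∘ (6 : Fin 7).succAbove) : Fin 7 → Fin n) =
      (Fin.cons r s : Fin 8 → Fin n) ∘ f3 := by
  funext i
  fin_cases i <;> rfl

theorem K1z_root (g : ℕ → ℕ → ℤ) (O : ℕ) (hO : ∀ c d, -(O : ℤ) ≤ g c d) (r : Fin n)
    (s : Fin 7 → Fin n) :
    ((K1z (gN g O) (gc H (Fin.cons r s : Fin 8 → Fin n)) : ℕ) : ℤ) =
      O + KY (kR H g r) s 4 5 := by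
  have e1 : s ∘ (4 : Fin 7).succAbove ∘ (y6 4 5).succAbove = s ∘ b1 := by
    funext i
    have h := b1_eq i
    simp only [Function.comp_apply]
    have h2 : y6 4 5 = 4 := by decide
    rw [h2, h]
  have h1 := idx_flag H (Fin.cons r s : Fin 8 → Fin n) f1 sP sX rfl f1_data
  have h2 := idx_flag H (Fin.cons r s : Fin 8 → Fin n) f2 sP sY rfl f2_data
  unfold K1z gN KY
  rw [e1]
  unfold kR cL
  rw [cons_f1, cons_f2, h1, h2]
  apply Int.toNat_of_nonneg
  have := hO (idx 10 (sel sP (gc H (Fin.cons r s : Fin 8 → Fin n))) +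
      1024 * idx 10 (sel sX (gc H (Fin.cons r s : Fin 8 → Fin n))))
    (idx 10 (sel sP (gc H (Fin.cons r s : Fin 8 → Fin n))) +
      1024 * idx 10 (sel sY (gc H (Fin.cons r s : Fin 8 → Fin n))))
  linarith

theorem Rz_root (g : ℕ → ℕ → ℤ) (O : ℕ) (Q : ℕ → ℕ) (hO : ∀ c d, -(O : ℤ) ≤ g c d) (r : Fin n)
    (s : Fin 7 → Fin n) :
    ((Rz (gN g O) Q (gc H (Fin.cons r s : Fin 8 → Fin n)) : ℕ) : ℤ) =
      O + KY (kR H g r) s 5 6 + Q (cL H r (s ∘ (5 : Fin 7).succAbove)) := by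
  have e1 : s ∘ (5 : Fin 7).succAbove ∘ (y6 5 6).succAbove =
      s ∘ (Fin.castLE (by norm_num) : Fin 5 → Fin 7) := by
    funext i
    have h := b2_eq i
    simp only [Function.comp_apply]
    have h2 : y6 5 6 = 5 := by decide
    rw [h2, h]
  have h1 := idx_flag H (Fin.cons r s : Fin 8 → Fin n) f3 rP rX rfl f3_data
  have h2 := idx_flag H (Fin.cons r s : Fin 8 → Fin n) f4 rP rY rfl f4_data
  unfold Rz gN KY
  rw [e1]
  unfold kR cL
  rw [cons_f3, cons_f4, cons_s5, h1, h2]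
  push_cast
  congr 1
  apply Int.toNat_of_nonneg
  have := hO (idx 10 (sel rP (gc H (Fin.cons r s : Fin 8 → Fin n))) +
      1024 * idx 10 (sel rX (gc H (Fin.cons r s : Fin 8 → Fin n))))
    (idx 10 (sel rP (gc H (Fin.cons r s : Fin 8 → Fin n))) +
      1024 * idx 10 (sel rY (gc H (Fin.cons r s : Fin 8 → Fin n))))
  linarith

/-- The sum of the terms of a word. -/
theorem fV_root (g : ℕ → ℕ → ℤ) (O O' : ℕ) (Q : ℕ → ℕ) (M : ℕ → ℤ)
    (hO : ∀ c d, -(O : ℤ) ≤ g c d) (r : Fin n)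
    (hp : ∀ (τ : Equiv.Perm (Fin 5)) s u w, kR H g r (s ∘ τ) u w = kR H g r s u w)
    (hM : ∀ (τ : Equiv.Perm (Fin 6)) s, MR H M r (s ∘ τ) = MR H M r s)
    (hQ : ∀ c < 2 ^ 20, (O' : ℤ) - M c ≤ Q c) (s : Fin 7 → Fin n)
    (l : List ℕ) (hl : ∀ k ∈ l, k < 9 ∨ k = 10 ∨ k = 11) : ∀ π : Equiv.Perm (Fin 7),
    ((pwR l π).map fun x => (O : ℤ) + KY (kR H g r) s x.1 x.2).sum +
      ((qwR l π).map fun v => (O' : ℤ) - MR H M r (s ∘ v.succAbove)).sum ≤
    (fV (gN g O) Q l (gc H (Fin.cons r (s ∘ π) : Fin 8 → Fin n)) : ℕ) := by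
  induction l with
  | nil =>
    intro π
    simp [pwR, qwR, fV]
  | cons k l ih =>
    intro π
    have ih' := ih fun k' hk' => hl k' (List.mem_cons_of_mem _ hk')
    have hk := hl k List.mem_cons_self
    by_cases h10 : k = 10
    · subst h10
      have e1 : pwR (10 :: l) π = (π 4, π 5) :: pwR l π := rfl
      have e2 : qwR (10 :: l) π = qwR l π := rfl
      have e3 : fV (gN g O) Q (10 :: l) (gc H (Fin.cons r (s ∘ π) : Fin 8 → Fin n)) =
        fV (gN g O) Q l (gc H (Fin.cons r (s ∘ π) : Fin 8 → Fin n)) +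
          K1z (gN g O) (gc H (Fin.cons r (s ∘ π) : Fin 8 → Fin n)) := rfl
      rw [e1, e2, e3, List.map_cons, List.sum_cons, Nat.cast_add, K1z_root H g O hO,
        KY_perm _ hp π s 4 5 (by decide)]
      have := ih' π
      linarith
    · by_cases h11 : k = 11
      · subst h11
        have e1 : pwR (11 :: l) π = (π 5, π 6) :: pwR l π := rfl
        have e2 : qwR (11 :: l) π = π 5 :: qwR l π := rfl
        have e3 : fV (gN g O) Q (11 :: l) (gc H (Fin.cons r (s ∘ π) : Fin 8 → Fin n)) =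
          fV (gN g O) Q l (gc H (Fin.cons r (s ∘ π) : Fin 8 → Fin n)) +
            Rz (gN g O) Q (gc H (Fin.cons r (s ∘ π) : Fin 8 → Fin n)) := rfl
        rw [e1, e2, e3, List.map_cons, List.sum_cons, List.map_cons, List.sum_cons, Nat.cast_add,
          Rz_root H g O Q hO, KY_perm _ hp π s 5 6 (by decide)]
        have h1 := ih' π
        have h2 := hQ (cL H r ((s ∘ π) ∘ (5 : Fin 7).succAbove)) (idx_lt 20 _)
        obtain ⟨τ, hτ⟩ := exists_succAbove_perm (m := 6) π 5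
        have e4 : (s ∘ π) ∘ (5 : Fin 7).succAbove = (s ∘ (π 5).succAbove) ∘ τ := by
          funext i
          simp only [Function.comp_apply]
          rw [hτ]
        have h3 : M (cL H r ((s ∘ π) ∘ (5 : Fin 7).succAbove)) =
            MR H M r (s ∘ (π 5).succAbove) := by
          rw [e4]
          exact hM τ _
        rw [h3] at h2
        linarith
      · have hk9 : k < 9 := by
          rcases hk with h | h | h
          · exact h
          · exact absurd h h10
          · exact absurd h h11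
        have e1 : pwR (k :: l) π = pwR l (π ∘ exS k) := by rw [pwR, if_neg h10, if_neg h11]
        have e2 : qwR (k :: l) π = qwR l (π ∘ exS k) := by rw [qwR, if_neg h10, if_neg h11]
        have e3 : fV (gN g O) Q (k :: l) (gc H (Fin.cons r (s ∘ π) : Fin 8 → Fin n)) =
          fV (gN g O) Q l (mvz k (gc H (Fin.cons r (s ∘ π) : Fin 8 → Fin n))) := by
          rw [fV, if_neg h10, if_neg h11]
        have e4 := fV_congr (gN g O) Q l _ _
          (gc_exR H (Fin.cons r (s ∘ π) : Fin 8 → Fin n) k hk9)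
        rw [e1, e2, e3, e4, cons_exK r (s ∘ π) k hk9]
        exact ih' (π * exS k)

/-- The local inequality for the link of a vertex. -/
theorem root_local (g : ℕ → ℕ → ℤ) (O O' K : ℕ) (Q : ℕ → ℕ) (M : ℕ → ℤ)
    (hO : ∀ c d, -(O : ℤ) ≤ g c d) (hs : ∀ c d, g c d = g d c) (r : Fin n)
    (hp : ∀ (τ : Equiv.Perm (Fin 5)) s u w, kR H g r (s ∘ τ) u w = kR H g r s u w)
    (hM : ∀ (τ : Equiv.Perm (Fin 6)) s, MR H M r (s ∘ τ) = MR H M r s)
    (hQ : ∀ c < 2 ^ 20, (O' : ℤ) - M c ≤ Q c) (s : Fin 7 → Fin n)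
    (hK : K + Q (idx 20 (gc H (Fin.cons r s : Fin 8 → Fin n))) ≤ 21 * O + 7 * O')
    (h : fV (gN g O) Q wdR (gc H (Fin.cons r s : Fin 8 → Fin n)) ≤ K) :
    PS (kR H g r) s ≤ 2 * DS (MR H M r) s := by
  have h1 := fV_root H g O O' Q M hO r hp hM hQ s wdR (by decide) 1
  have hid : ((1 : Equiv.Perm (Fin 7)) : Fin 7 → Fin 7) = id := rfl
  rw [hid, Function.comp_id] at h1
  set F : Fin 7 × Fin 7 → ℤ := fun x => KY (kR H g r) s x.1 x.2 with hF
  have hFs : ∀ x : Fin 7 × Fin 7, x ∈ pwR wdR id → F x.swap = F x := by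
    intro x hx
    have hne : ∀ x ∈ pwR wdR id, x.1 ≠ x.2 := by decide +kernel
    exact KY_symm _ (fun s u w => by
      unfold kR
      rw [hs]) s _ _ (hne x hx).symm
  have h2 : 2 * ((pwR wdR id).map F).sum = PS (kR H g r) s := by
    rw [PS_eq_KY]
    have h3 := sum_allR F
    rw [← (pwR_wdR.map F).sum_eq, List.map_append, List.sum_append, List.map_map] at h3
    have h4 : (pwR wdR id).map (F ∘ Prod.swap) = (pwR wdR id).map F := List.map_congr_left hFs
    rw [h4] at h3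
    rw [two_mul, h3]
  have h5 : ((pwR wdR id).map fun x => (O : ℤ) + KY (kR H g r) s x.1 x.2).sum =
      21 * O + ((pwR wdR id).map F).sum := by
    rw [List.sum_map_add, List.map_const', List.sum_replicate, pwR_wdR_len, nsmul_eq_mul]
    rfl
  set q' : Fin 7 → ℤ := fun v => (O' : ℤ) - MR H M r (s ∘ v.succAbove) with hq'
  have h6 : q' 6 + ((qwR wdR id).map q').sum = 7 * O' - DS (MR H M r) s := by
    have h7 := (qwR_wdR.map q').sum_eq
    rw [List.map_cons, List.sum_cons] at h7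
    rw [h7, ← List.ofFn_eq_map, List.sum_ofFn, hq', Finset.sum_sub_distrib, Finset.sum_const,
      Finset.card_univ, Fintype.card_fin, nsmul_eq_mul]
    rfl
  have h8 : q' 6 ≤ Q (idx 20 (gc H (Fin.cons r s : Fin 8 → Fin n))) := by
    have h9 := hQ (cL H r (s ∘ (6 : Fin 7).succAbove)) (idx_lt 20 _)
    have h10 : cL H r (s ∘ (6 : Fin 7).succAbove) =
        idx 20 (gc H (Fin.cons r s : Fin 8 → Fin n)) := by
      unfold cL
      rw [cons_s6]
      have h12 := idx_flag H (Fin.cons r s : Fin 8 → Fin n) f3 rP rX rfl f3_data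
      rw [h12]
      have h11 : idx 20 (gc H (Fin.cons r s : Fin 8 → Fin n)) =
          idx 10 (sel rP (gc H (Fin.cons r s : Fin 8 → Fin n))) +
          1024 * idx 10 (sel rX (gc H (Fin.cons r s : Fin 8 → Fin n))) := by
        rw [show (20 : ℕ) = 10 + 10 from rfl, idx_add_ten]
        have e1 : ∀ r < 10, rP.getD r 0 = r := by decide
        have e2 : ∀ r < 10, rX.getD r 0 = 10 + r := by decide
        have e3 : idx 10 (gc H (Fin.cons r s : Fin 8 → Fin n)) =
            idx 10 (sel rP (gc H (Fin.cons r s : Fin 8 → Fin n))) := by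
          apply idx_congr
          intro r hr
          rw [sel, e1 r hr]
        have e4 : (idx 10 fun k => gc H (Fin.cons r s : Fin 8 → Fin n) (10 + k)) =
            idx 10 (sel rX (gc H (Fin.cons r s : Fin 8 → Fin n))) := by
          apply idx_congr
          intro r hr
          rw [sel, e2 r hr]
        rw [e3, e4]
      rw [h11]
    have h13 : q' 6 = (O' : ℤ) - M (cL H r (s ∘ (6 : Fin 7).succAbove)) := rfl
    rw [h13, h10]
    rw [h10] at h9
    exact h9
  have h12 : ((fV (gN g O) Q wdR (gc H (Fin.cons r s : Fin 8 → Fin n)) : ℕ) : ℤ) ≤ K := by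
    exact_mod_cast h
  have h13 : (K : ℤ) + Q (idx 20 (gc H (Fin.cons r s : Fin 8 → Fin n))) ≤ 21 * O + 7 * O' := by
    exact_mod_cast hK
  rw [h5] at h1
  linarith

end link

end Pool.Agent.Lib.MP_afdd4d_co.K8.L9
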